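import Pool.Agent.H45.MatherCore

open MeasureTheory Module Set Filter Topology

namespace Pool.H45.Mather

noncomputable section

set_option linter.unusedSectionVars false
set_option linter.style.haveILetI false

variable {n : ℕ} {E : Type*} [NormedAddCommGroup E] [InnerProductSpace ℝ E] [FiniteDimensional ℝ E]
  [MeasurableSpace E] [BorelSpace E] {b : Basis (Fin n) ℝ E}

/-- The averaging data at the velocity `t ω`, with energy scale `Λ`. -/
structure Dat (b : Basis (Fin n) ℝ E) (A : E → E) (V : E → ℝ) (k : Fin n → ℤ) (ω : E)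
    (χ fl : E → ℝ) (t Λ ε CA Gχ CF fM : ℝ) : Prop where
  hA : Continuous A
  hAp : Per b A
  hV : Continuous V
  hVp : Per b V
  ht : 0 < t
  hΛ : 1 ≤ Λ
  hε : 0 < ε
  hkω : lin b k ω = 0
  hχ : ContDiff ℝ 1 χ
  hχp : Per b χ
  hG : ∀ x, ‖fderiv ℝ χ x‖ ≤ Gχ
  hCA : ∀ x, ‖A x‖ ≤ CA
  hfc : Continuous fl
  hfp : Per b fl
  hfl : ∀ x y, lin b k x = lin b k y → fl x = fl y
  hfM : ∀ x, fl x ≤ fM
  hfM' : ∃ x, fl x = fM
  h2 : CA ^ 2 ≤ Λ * ε
  h3 : (Λ / t * Gχ + CA) ^ 2 ≤ Λ * ε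
  h4 : ∀ x, |V x - t * inner ℝ (A x) ω| ≤ Λ * CF
  h5 : ∀ x, |V x - t * inner ℝ (A x) ω + Λ * (fderiv ℝ χ x ω - fl x)| ≤ Λ * ε

section
variable {A : E → E} {V : E → ℝ} {k : Fin n → ℤ} {ω : E} {χ fl : E → ℝ}
  {t Λ ε CA Gχ CF fM : ℝ}

lemma Dat.CA0 (D : Dat b A V k ω χ fl t Λ ε CA Gχ CF fM) : 0 ≤ CA :=
  (norm_nonneg _).trans (D.hCA 0)

lemma Dat.G0 (D : Dat b A V k ω χ fl t Λ ε CA Gχ CF fM) : 0 ≤ Gχ :=
  (norm_nonneg _).trans (D.hG 0)

lemma Dat.Λ0 (D : Dat b A V k ω χ fl t Λ ε CA Gχ CF fM) : 0 < Λ :=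
  lt_of_lt_of_le one_pos D.hΛ

/-- explicit almost-subsolution -/
lemma Dat.ptw (D : Dat b A V k ω χ fl t Λ ε CA Gχ CF fM) (q x v : E) :
    inner ℝ (t • ω + q) v + fderiv ℝ (fun x => Λ / t * χ x) x v ≤ Lag A V (x, v) +
      (‖t • ω + q‖ ^ 2 / 2 + Λ * (fl x + ε) + ‖q‖ * (Λ / t * Gχ + CA) +
        (Λ / t * Gχ + CA) ^ 2 / 2) := by
  have ht := D.ht
  have hΛ := D.Λ0
  have hd : fderiv ℝ (fun x => Λ / t * χ x) x = (Λ / t) • fderiv ℝ χ x := by
    have := (D.hχ.differentiable one_ne_zero x).hasFDerivAt.const_mul (Λ / t)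
    exact this.fderiv
  rw [hd]
  set G : E := (InnerProductSpace.toDual ℝ E).symm (fderiv ℝ χ x) with hG
  have hGn : ‖G‖ ≤ Gχ := by
    rw [hG, LinearIsometryEquiv.norm_map]
    exact D.hG x
  have hGi : ∀ w, inner ℝ G w = fderiv ℝ χ x w := fun w => by
    rw [hG, InnerProductSpace.toDual_symm_apply]
  set g : E := (Λ / t) • G - A x with hg
  have hgn : ‖g‖ ≤ Λ / t * Gχ + CA := by
    refine (norm_sub_le _ _).trans (add_le_add ?_ (D.hCA x))
    rw [norm_smul, Real.norm_eq_abs, abs_of_pos (by positivity)]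
    exact mul_le_mul_of_nonneg_left hGn (by positivity)
  have hgi : ∀ w, inner ℝ g w = Λ / t * fderiv ℝ χ x w - inner ℝ (A x) w := fun w => by
    rw [hg, inner_sub_left, inner_smul_left, hGi]
    simp
  set p : E := t • ω + q + g with hp
  have h1 : inner ℝ p v ≤ ‖v‖ ^ 2 / 2 + ‖p‖ ^ 2 / 2 := by
    have := real_inner_le_norm p v
    nlinarith [sq_nonneg (‖p‖ - ‖v‖)]
  have h2 : ‖p‖ ^ 2 = ‖t • ω + q‖ ^ 2 + 2 * inner ℝ (t • ω + q) g + ‖g‖ ^ 2 := by
    rw [hp]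
    exact norm_add_sq_real _ _
  have h3 : inner ℝ (t • ω + q) g = Λ * fderiv ℝ χ x ω - t * inner ℝ (A x) ω + inner ℝ q g := by
    rw [inner_add_left, inner_smul_left, real_inner_comm, hgi]
    simp only [conj_trivial]
    field_simp
  have h4 : inner ℝ q g ≤ ‖q‖ * (Λ / t * Gχ + CA) :=
    (real_inner_le_norm _ _).trans (mul_le_mul_of_nonneg_left hgn (norm_nonneg _))
  have h5 : ‖g‖ ^ 2 ≤ (Λ / t * Gχ + CA) ^ 2 := pow_le_pow_left₀ (norm_nonneg _) hgn 2
  have h6 := (abs_le.1 (D.h5 x)).2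
  have h7 : inner ℝ p v = inner ℝ (t • ω + q) v + Λ / t * fderiv ℝ χ x v - inner ℝ (A x) v := by
    rw [hp, inner_add_left, hgi]
    ring
  unfold Lag
  simp only [_root_.smul_apply, smul_eq_mul]
  nlinarith

lemma Dat.lower (D : Dat b A V k ω χ fl t Λ ε CA Gχ CF fM) :
    ‖t • ω‖ ^ 2 / 2 - Λ * (fM + 2 * ε) ≤ beta b A V (t • ω) := by
  have hsub : Sub A V (t • ω) (‖t • ω‖ ^ 2 / 2 + Λ * (fM + 2 * ε)) (fun x => Λ / t * χ x) := by
    intro x v
    have := D.ptw 0 x v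
    rw [add_zero, norm_zero, zero_mul, add_zero] at this
    have h1 := D.hfM x
    have h2 := D.h3
    have h3 : Λ * fl x ≤ Λ * fM := mul_le_mul_of_nonneg_left h1 D.Λ0.le
    have h4 : 0 < Λ * ε := mul_pos D.Λ0 D.hε
    linarith
  have hstar := hsub.star D.hA D.hAp D.hV D.hVp (contDiff_const.mul D.hχ)
    (D.hχp.comp (fun y => Λ / t * y))
  have := hstar.le_beta (t • ω)
  rw [real_inner_self_eq_norm_sq] at this
  linarith

lemma Dat.upper (D : Dat b A V k ω χ fl t Λ ε CA Gχ CF fM) {r : E} (hr : lin b k r = 0) :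
    beta b A V r ≤ ‖r‖ ^ 2 / 2 + CA * ‖r - t • ω‖ - Λ * (fM - 2 * ε) := by
  have hinv : ∀ {w : E}, lin b k w = 0 → ∀ (τ : ℝ) x, fl (x + τ • w) = fl x := by
    intro w hw τ x
    apply D.hfl
    rw [map_add, map_smul, hw, smul_zero, add_zero]
  set Ψ₀ : E → ℝ := fun x => max 0 (fl x - (fM - ε)) with hΨ₀
  have hc0 : Continuous Ψ₀ := continuous_const.max (D.hfc.sub continuous_const)
  have hp0 : Per b Ψ₀ := D.hfp.comp (fun y => max 0 (y - (fM - ε)))
  have hn0 : ∀ x, 0 ≤ Ψ₀ x := fun x => le_max_left _ _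
  obtain ⟨x₀, hx₀⟩ := D.hfM'
  have hI : 0 < ∫ x, Ψ₀ x ∂(lam b) := by
    refine lam_pos hp0 hc0 hn0 (x₀ := x₀) ?_
    simp only [hΨ₀, hx₀]
    exact lt_of_lt_of_le (by linarith [D.hε] : 0 < fM - (fM - ε)) (le_max_right _ _)
  set N : ℝ := (∫ x, Ψ₀ x ∂(lam b))⁻¹ with hN
  have hN0 : 0 < N := inv_pos.2 hI
  set Ψ : E → ℝ := fun x => N * Ψ₀ x with hΨ
  have hc : Continuous Ψ := continuous_const.mul hc0
  have hp : Per b Ψ := hp0.comp (fun y => N * y)
  have hn : ∀ x, 0 ≤ Ψ x := fun x => mul_nonneg hN0.le (hn0 x)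
  have h1 : ∫ x, Ψ x ∂(lam b) = 1 := by
    simp only [hΨ]
    rw [integral_const_mul, hN, inv_mul_cancel₀ hI.ne']
  have hΨinv : ∀ {w : E}, lin b k w = 0 → ∀ (τ : ℝ) x, Ψ (x + τ • w) = Ψ x := by
    intro w hw τ x
    simp only [hΨ, hΨ₀, hinv hw τ x]
  have hcl := tm_closed hc hp hn h1 (hΨinv hr)
  have hb := beta_le D.hA D.hAp D.hV D.hVp hcl
  rw [hom_tm hc hn h1, integral_tm hc hn r (continuous_Lag D.hA D.hV)] at hb
  refine hb.trans ?_
  -- pointwise estimate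
  have hpt : ∀ x, Ψ x • Lag A V (x, r) ≤ Ψ x * (‖r‖ ^ 2 / 2 + CA * ‖r - t • ω‖ -
      Λ * (fM - 2 * ε)) + Λ * (fderiv ℝ χ x ω * Ψ x) := by
    intro x
    have e1 : Lag A V (x, r) ≤ ‖r‖ ^ 2 / 2 + CA * ‖r - t • ω‖ - Λ * (fl x - ε) +
        Λ * fderiv ℝ χ x ω := by
      unfold Lag
      simp only
      have h6 := (abs_le.1 (D.h5 x)).1
      have h7 : inner ℝ (A x) r = inner ℝ (A x) (r - t • ω) + t * inner ℝ (A x) ω := by
        rw [inner_sub_right, inner_smul_right]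
        ring
      have h8 : inner ℝ (A x) (r - t • ω) ≤ CA * ‖r - t • ω‖ :=
        (real_inner_le_norm _ _).trans (mul_le_mul_of_nonneg_right (D.hCA x) (norm_nonneg _))
      rw [h7]
      linarith
    have e2 : Ψ x * (Λ * (fM - ε)) ≤ Ψ x * (Λ * fl x) := by
      rcases le_or_gt (fl x - (fM - ε)) 0 with h | h
      · have : Ψ x = 0 := by
          simp only [hΨ, hΨ₀, max_eq_left h, mul_zero]
        rw [this]
        simp
      · exact mul_le_mul_of_nonneg_left (mul_le_mul_of_nonneg_left (by linarith) D.Λ0.le) (hn x)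
    have e3 := mul_le_mul_of_nonneg_left e1 (hn x)
    rw [smul_eq_mul]
    nlinarith
  have hdc : Continuous (fderiv ℝ χ) := D.hχ.continuous_fderiv one_ne_zero
  have hi1 : Integrable (fun x => Ψ x • Lag A V (x, r)) (lam b) := by
    refine Per.integrable (b := b) ?_ ?_
    · intro i x
      simp only [Lag, hp i x, D.hAp i x, D.hVp i x]
    · exact hc.smul ((continuous_Lag D.hA D.hV).comp (continuous_id.prodMk continuous_const))
  have hi2 : Integrable (fun x => fderiv ℝ χ x ω * Ψ x) (lam b) := by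
    refine Per.integrable (b := b) ?_ ?_
    · intro i x
      simp only [hp i x, D.hχp.fderiv i x]
    · exact (hdc.clm_apply continuous_const).mul hc
  have hi3 : Integrable Ψ (lam b) := hp.integrable hc
  calc ∫ x, Ψ x • Lag A V (x, r) ∂(lam b)
      ≤ ∫ x, (Ψ x * (‖r‖ ^ 2 / 2 + CA * ‖r - t • ω‖ - Λ * (fM - 2 * ε)) +
          Λ * (fderiv ℝ χ x ω * Ψ x)) ∂(lam b) :=
        integral_mono hi1 ((hi3.mul_const _).add (hi2.const_mul _)) hpt
    _ = _ := by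
        rw [integral_add (hi3.mul_const _) (hi2.const_mul _), integral_mul_const, h1,
          integral_const_mul, inv_lemma D.hχ D.hχp hc hp (hΨinv D.hkω)]
        ring

end

/-- values of a dominated function along a straight segment -/
lemma seg_bound {φ : E → ℝ} (hφ : ContDiff ℝ 1 φ) {v : E} {C : ℝ}
    (h : ∀ x, fderiv ℝ φ x v ≤ C) {T : ℝ} (hT : 0 ≤ T) (x : E) :
    φ (x + T • v) - φ x ≤ T * C := by
  have hd : ∀ s : ℝ, HasDerivAt (fun s : ℝ => φ (x + s • v)) (fderiv ℝ φ (x + s • v) v) s := by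
    intro s
    have h1 : HasDerivAt (fun s : ℝ => x + s • v) v s := by
      simpa using ((hasDerivAt_id s).smul_const v).const_add x
    exact (hφ.differentiable one_ne_zero _).hasFDerivAt.comp_hasDerivAt s h1
  have := image_sub_le_mul_sub_of_deriv_le (f := fun s : ℝ => φ (x + s • v))
    (fun s => (hd s).differentiableAt) (C := C) (fun s => by rw [(hd s).deriv]; exact h _) hT
  simp only [zero_smul, add_zero, sub_zero] at this
  linarith

end

end Pool.H45.Mather
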