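import Pool.Agent.H45.MatherFour2

open MeasureTheory Module Set Filter Topology UnitAddTorus

namespace Pool.H45.Mather

noncomputable section

set_option linter.unusedSectionVars false
set_option linter.style.haveILetI false

variable {n : ℕ} {E : Type*} [NormedAddCommGroup E] [InnerProductSpace ℝ E] [FiniteDimensional ℝ E]
  [MeasurableSpace E] [BorelSpace E] {b : Basis (Fin n) ℝ E}

/-- dividing out the gcd, with a Bezout vector -/
lemma exists_primitive {m : Fin n → ℤ} (hm : m ≠ 0) : ∃ (k u : Fin n → ℤ) (j : ℤ),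
    (∀ i, m i = j * k i) ∧ ∑ i, k i * u i = 1 := by
  set I : Ideal ℤ := Ideal.span (Set.range m) with hI
  obtain ⟨g, hg⟩ := (IsPrincipalIdealRing.principal I).principal
  have hgI : g ∈ I := by
    rw [hg]
    exact Submodule.mem_span_singleton_self g
  obtain ⟨c, hc⟩ := (Ideal.mem_span_range_iff_exists_fun).1 hgI
  have hdiv : ∀ i, ∃ a, m i = g * a := by
    intro i
    have h1 : m i ∈ I := Ideal.subset_span ⟨i, rfl⟩
    rw [hg] at h1
    obtain ⟨a, ha⟩ := Submodule.mem_span_singleton.1 h1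
    exact ⟨a, by rw [← ha, smul_eq_mul, mul_comm]⟩
  choose k hk using hdiv
  have hg0 : g ≠ 0 := by
    rintro rfl
    apply hm
    funext i
    rw [hk i]; simp
  refine ⟨k, c, g, hk, ?_⟩
  have h2 : g * ∑ i, k i * c i = g * 1 := by
    rw [Finset.mul_sum, mul_one]
    conv_rhs => rw [← hc]
    refine Finset.sum_congr rfl fun i _ => ?_
    rw [hk i]; ring
  exact mul_left_cancel₀ hg0 h2

lemma exists_generic {k u : Fin n → ℤ} (hu : ∑ i, k i * u i = 1) (L : E →ₗ[ℝ] ℝ) :
    ∃ ω : E, lin b k ω = 0 ∧ (∀ m : Fin n → ℤ, lin b m ω = 0 → ∃ j : ℤ, ∀ i, m i = j * k i) ∧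
      ((∃ w, lin b k w = 0 ∧ L w ≠ 0) → L ω ≠ 0) := by
  have hu' : lin b k (lat b u) = 1 := by rw [lin_lat, hu]; simp
  set κ := lat b u with hκ
  -- the projection onto the kernel
  set pr : E →ₗ[ℝ] E := LinearMap.id - ((lin b k : E →L[ℝ] ℝ) : E →ₗ[ℝ] ℝ).smulRight κ with hpr
  have hprv : ∀ z, pr z = z - lin b k z • κ := fun z => rfl
  have hprk : ∀ z, lin b k (pr z) = 0 := by
    intro z
    rw [hprv, map_sub, map_smul, hu', smul_eq_mul, mul_one, sub_self]
  have hprker : ∀ w, lin b k w = 0 → pr w = w := by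
    intro w hw
    rw [hprv, hw, zero_smul, sub_zero]
  set Bad : Option (Fin n → ℤ) → Submodule ℝ E := fun o => match o with
    | none => LinearMap.ker (L ∘ₗ pr)
    | some m => LinearMap.ker (((lin b m : E →L[ℝ] ℝ) : E →ₗ[ℝ] ℝ) ∘ₗ pr) with hBad
  have hnull : volume (⋃ o ∈ {o | Bad o ≠ ⊤}, (Bad o : Set E)) = 0 := by
    rw [measure_biUnion_null_iff (Set.to_countable _)]
    intro o ho
    exact Measure.addHaar_submodule volume (Bad o) ho
  have hne : ∃ z : E, z ∉ ⋃ o ∈ {o | Bad o ≠ ⊤}, (Bad o : Set E) := by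
    by_contra hcon
    push Not at hcon
    have : (⋃ o ∈ {o | Bad o ≠ ⊤}, (Bad o : Set E)) = Set.univ := Set.eq_univ_of_forall hcon
    rw [this] at hnull
    exact (isOpen_univ.measure_pos (volume : Measure E) ⟨0, trivial⟩).ne' hnull
  obtain ⟨z, hz⟩ := hne
  have hz' : ∀ o, Bad o ≠ ⊤ → z ∉ Bad o := by
    intro o ho hzo
    apply hz
    exact Set.mem_biUnion (show o ∈ {o | Bad o ≠ ⊤} from ho) hzo
  refine ⟨pr z, hprk z, fun m hm => ?_, ?_⟩
  · have htop : Bad (some m) = ⊤ := by
      by_contra hne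
      exact hz' (some m) hne hm
    have hall : ∀ w, lin b m w = lin b k w * lin b m κ := by
      intro w
      have h1 : w ∈ Bad (some m) := by rw [htop]; trivial
      have h2 : lin b m (pr w) = 0 := h1
      rw [hprv, map_sub, map_smul, smul_eq_mul] at h2
      linarith
    refine ⟨∑ i, m i * u i, fun i => ?_⟩
    have h3 := hall (b i)
    rw [lin_basis, lin_basis, hκ, lin_lat] at h3
    have h4 : ((m i : ℤ) : ℝ) = (((∑ i, m i * u i) * k i : ℤ) : ℝ) := by
      rw [h3]; push_cast; ring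
    exact_mod_cast h4
  · rintro ⟨w, hw, hLw⟩ h0
    have htop : Bad none ≠ ⊤ := by
      intro htop
      have h1 : w ∈ Bad none := by rw [htop]; trivial
      have h2 : L (pr w) = 0 := h1
      rw [hprker w hw] at h2
      exact hLw h2
    exact hz' none htop h0

lemma generic_ne_zero (hn : 2 ≤ n) {k : Fin n → ℤ} {ω : E}
    (hgen : ∀ m : Fin n → ℤ, lin b m ω = 0 → ∃ j : ℤ, ∀ i, m i = j * k i) : ω ≠ 0 := by
  rintro rfl
  set i0 : Fin n := ⟨0, by omega⟩
  set i1 : Fin n := ⟨1, by omega⟩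
  have hne : i0 ≠ i1 := by
    intro h
    have := congrArg Fin.val h
    simp [i0, i1] at this
  obtain ⟨j, hj⟩ := hgen (Pi.single i0 1) (map_zero _)
  obtain ⟨j', hj'⟩ := hgen (Pi.single i1 1) (map_zero _)
  have h1 := hj i0
  have h2 := hj i1
  have h3 := hj' i1
  rw [Pi.single_eq_same] at h1 h3
  rw [Pi.single_eq_of_ne hne.symm] at h2
  have hk1 : k i1 ≠ 0 := by
    intro h0
    rw [h0, mul_zero] at h3
    exact one_ne_zero h3
  have hj0 : j ≠ 0 := by
    rintro rfl
    rw [zero_mul] at h1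
    exact one_ne_zero h1
  exact mul_ne_zero hj0 hk1 h2.symm

lemma exists_lat {y : E} (hy : y ∈ Submodule.span ℤ (Set.range b)) :
    ∃ m : Fin n → ℤ, y = lat b m := by
  induction hy using Submodule.span_induction with
  | mem y hy =>
    obtain ⟨i, rfl⟩ := hy
    refine ⟨Pi.single i 1, ?_⟩
    unfold lat
    rw [Finset.sum_eq_single i]
    · simp
    · intro j _ hj
      simp [Pi.single_eq_of_ne hj]
    · simp
  | zero => exact ⟨0, by simp [lat]⟩
  | add y z _ _ hy hz =>
    obtain ⟨m, rfl⟩ := hy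
    obtain ⟨m', rfl⟩ := hz
    refine ⟨m + m', ?_⟩
    simp only [lat, Pi.add_apply]
    rw [← Finset.sum_add_distrib]
    refine Finset.sum_congr rfl fun i _ => ?_
    push_cast
    rw [add_smul]
  | smul a y _ hy =>
    obtain ⟨m, rfl⟩ := hy
    refine ⟨fun i => a * m i, ?_⟩
    simp only [lat]
    rw [Finset.smul_sum]
    refine Finset.sum_congr rfl fun i _ => ?_
    push_cast
    rw [mul_smul]
    exact (Int.cast_smul_eq_zsmul ℝ a _).symm

lemma lat_add (m m' : Fin n → ℤ) : lat b (m + m') = lat b m + lat b m' := by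
  simp only [lat, Pi.add_apply]
  rw [← Finset.sum_add_distrib]
  refine Finset.sum_congr rfl fun i _ => ?_
  push_cast
  rw [add_smul]

lemma lat_neg (m : Fin n → ℤ) : lat b (-m) = -lat b m := by
  simp only [lat, Pi.neg_apply]
  rw [← Finset.sum_neg_distrib]
  refine Finset.sum_congr rfl fun i _ => ?_
  push_cast
  rw [neg_smul]

theorem exists_density {k : Fin n → ℤ} {ω : E} (hω : lin b k ω = 0)
    (hdec : ∀ F : E → ℝ, Per b F → Continuous F → Dec b k ω F) {r₀ : ℝ} (hr : 0 < r₀) :
    ∃ Lr : ℝ, ∀ z, lin b k z = 0 → ∃ r, 0 ≤ r ∧ r ≤ Lr ∧ ∃ m, ‖r • ω - z - lat b m‖ ≤ r₀ := by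
  set r₁ := r₀ / 2 with hr₁
  have hr1 : 0 < r₁ := by positivity
  set Λ : Set E := (Submodule.span ℤ (Set.range b) : Set E) with hΛ
  have h0Λ : (0 : E) ∈ Λ := Submodule.zero_mem _
  set F : E → ℝ := fun x => max 0 (r₁ - Metric.infDist x Λ) with hF
  have hFc : Continuous F :=
    continuous_const.max (continuous_const.sub (Metric.continuous_infDist_pt Λ))
  have hFp : Per b F := by
    intro i x
    have key : ∀ (x : E) (y : E), y ∈ Λ → Metric.infDist (x + y) Λ ≤ Metric.infDist x Λ := by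
      intro x y hy
      refine le_of_forall_pos_le_add fun ε hε => ?_
      obtain ⟨l, hl, hd⟩ := (Metric.infDist_lt_iff ⟨0, h0Λ⟩).1
        (lt_add_of_pos_right (Metric.infDist x Λ) hε)
      refine (Metric.infDist_le_dist_of_mem (Submodule.add_mem _ hl hy)).trans ?_
      rw [dist_add_right]
      exact hd.le
    have hbi : b i ∈ Λ := Submodule.subset_span ⟨i, rfl⟩
    have h1 := key x (b i) hbi
    have h2 := key (x + b i) (-(b i)) (Submodule.neg_mem _ hbi)
    rw [add_neg_cancel_right] at h2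
    simp only [hF, le_antisymm h1 h2]
  have hFn : ∀ x, 0 ≤ F x := fun x => le_max_left _ _
  have hF0 : 0 < F 0 := by
    simp only [hF, Metric.infDist_zero_of_mem h0Λ, sub_zero]
    exact lt_of_lt_of_le hr1 (le_max_right _ _)
  have hFpos : ∀ x, 0 < F x → ∃ m : Fin n → ℤ, ‖x - lat b m‖ < r₁ := by
    intro x hx
    have h1 : Metric.infDist x Λ < r₁ := by
      by_contra hcon
      push Not at hcon
      have : F x = 0 := max_eq_left (by linarith)
      linarith
    obtain ⟨l, hl, hd⟩ := (Metric.infDist_lt_iff ⟨0, h0Λ⟩).1 h1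
    obtain ⟨m, rfl⟩ := exists_lat hl
    exact ⟨m, by rwa [← dist_eq_norm]⟩
  set a := ∫ x, F x ∂(lam b) with ha
  have ha0 : 0 < a := lam_pos hFp hFc hFn hF0
  obtain ⟨χ, fl, hχ, hχp, hfc, hfp, hfl, hap⟩ := hdec F hFp hFc (a / 4) (by linarith)
  obtain ⟨B, hB0, hB⟩ := hχp.bdd hχ.continuous
  -- a point where fl is large
  obtain ⟨x', hx'⟩ : ∃ x, a / 2 < fl x := by
    by_contra hcon
    push Not at hcon
    have hdc : Continuous (fderiv ℝ χ) := hχ.continuous_fderiv one_ne_zero
    have i1 : Integrable (fun x => fderiv ℝ χ x ω) (lam b) := by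
      refine Per.integrable (b := b) ?_ (hdc.clm_apply continuous_const)
      intro i x
      simp only [hχp.fderiv i x]
    have h1 : ∫ x, (F x + fderiv ℝ χ x ω) ∂(lam b) ≤ ∫ _ : E, (a / 2 + a / 4) ∂(lam b) := by
      refine integral_mono ((hFp.integrable hFc).add i1) (integrable_const _) fun x => ?_
      have e1 := (abs_le.1 (hap x)).2
      have e2 := hcon x
      change F x + fderiv ℝ χ x ω ≤ a / 2 + a / 4
      linarith
    rw [integral_add (hFp.integrable hFc) i1, int_fderiv hχ hχp] at h1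
    simp only [integral_const, probReal_univ, one_smul] at h1
    linarith
  set L : ℝ := 8 * B / a + 1 with hL
  have hL0 : 0 < L := by
    have h1 : 0 ≤ 8 * B / a := div_nonneg (mul_nonneg (by norm_num) hB0) ha0.le
    linarith
  have hit : ∀ x, a / 2 < fl x → ∃ r, 0 ≤ r ∧ r ≤ L ∧ 0 < F (x + r • ω) := by
    intro x hx
    by_contra hcon
    push Not at hcon
    have hd : ∀ s : ℝ, HasDerivAt (fun s : ℝ => χ (x + s • ω)) (fderiv ℝ χ (x + s • ω) ω) s := by
      intro s
      have h1 : HasDerivAt (fun s : ℝ => x + s • ω) ω s := by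
        simpa using ((hasDerivAt_id s).smul_const ω).const_add x
      exact (hχ.differentiable one_ne_zero _).hasFDerivAt.comp_hasDerivAt s h1
    have hmono := (convex_Icc (0 : ℝ) L).mul_sub_le_image_sub_of_le_deriv
      (f := fun s : ℝ => χ (x + s • ω)) (C := a / 4)
      (fun s _ => (hd s).continuousAt.continuousWithinAt)
      (fun s _ => (hd s).differentiableAt.differentiableWithinAt)
      (fun s hs => by
        rw [interior_Icc] at hs
        rw [(hd s).deriv]
        have e0 := hcon s hs.1.le hs.2.le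
        have e1 : F (x + s • ω) = 0 := le_antisymm e0 (hFn _)
        have e2 := (abs_le.1 (hap (x + s • ω))).1
        have e3 : fl (x + s • ω) = fl x := hfl _ _ (by rw [map_add, map_smul, hω]; simp)
        rw [e1, e3] at e2
        linarith)
      0 ⟨le_rfl, hL0.le⟩ L ⟨hL0.le, le_rfl⟩ hL0.le
    simp only [zero_smul, add_zero, sub_zero] at hmono
    have e4 := hB (x + L • ω)
    have e5 := hB x
    rw [Real.norm_eq_abs, abs_le] at e4 e5
    have e6 : a / 4 * L = 2 * B + a / 4 := by
      rw [hL]; field_simp; ring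
    linarith [e4.2, e5.1]
  refine ⟨L, fun z hz => ?_⟩
  obtain ⟨r, _, _, hr2⟩ := hit x' hx'
  obtain ⟨m, hm⟩ := hFpos _ hr2
  set p : E := x' + r • ω - lat b m with hp
  have hyk : lin b k (-z + p + lat b m) = lin b k x' := by
    rw [hp, map_add, map_add, map_sub, map_add, map_smul, map_neg, hz, hω]
    simp
  obtain ⟨r', hr'0, hr'L, hr'F⟩ := hit (-z + p + lat b m) (by rw [hfl _ _ hyk]; exact hx')
  obtain ⟨m', hm'⟩ := hFpos _ hr'F
  refine ⟨r', hr'0, hr'L, m' + -m, ?_⟩
  have e1 : r' • ω - z - lat b (m' + -m) = (-z + p + lat b m + r' • ω - lat b m') - p := by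
    rw [lat_add, lat_neg]
    abel
  rw [e1]
  refine (norm_sub_le _ _).trans ?_
  rw [hr₁] at hm hm'
  linarith

theorem exists_slab {k u : Fin n → ℤ} (hu : ∑ i, k i * u i = 1) {fl : E → ℝ}
    (hfc : Continuous fl) (hfp : Per b fl) (hfl : ∀ x y, lin b k x = lin b k y → fl x = fl y)
    {q : ℝ} {x₀ : E} (hx₀ : fl x₀ < q) :
    ∃ s₁ w : ℝ, 0 < w ∧ w < 1 ∧ ∀ x, 0 < Int.fract (lin b k x - s₁) →
      Int.fract (lin b k x - s₁) < w → fl x ≤ q := by
  have hu' : lin b k (lat b u) = 1 := by rw [lin_lat, hu]; simp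
  set κ := lat b u with hκ
  obtain ⟨r, hr, hball⟩ := Metric.continuousAt_iff.1 hfc.continuousAt (q - fl x₀) (by linarith)
  refine ⟨lin b k x₀, min (1 / 2) (r / (2 * (‖κ‖ + 1))), by positivity, ?_, ?_⟩
  · exact lt_of_le_of_lt (min_le_left _ _) (by norm_num)
  · intro x h0 h1
    set τ := Int.fract (lin b k x - lin b k x₀) with hτ
    set N := ⌊lin b k x - lin b k x₀⌋ with hN
    have hsum : (N : ℝ) + τ = lin b k x - lin b k x₀ := Int.floor_add_fract _
    have hlatN : lin b k (lat b (fun i => -N * u i)) = -N := by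
      rw [lin_lat]
      have : (∑ i, k i * (-N * u i) : ℤ) = -N * ∑ i, k i * u i := by
        rw [Finset.mul_sum]
        exact Finset.sum_congr rfl fun i _ => by ring
      rw [this, hu]
      push_cast
      ring
    have e1 : fl x = fl (x₀ + τ • κ) := by
      rw [← hfp.add_lat (fun i => -N * u i) x]
      apply hfl
      rw [map_add, map_add, map_smul, hu', hlatN, smul_eq_mul, mul_one]
      linarith
    rw [e1]
    have h2 : dist (x₀ + τ • κ) x₀ < r := by
      rw [dist_eq_norm, add_sub_cancel_left, norm_smul, Real.norm_eq_abs, abs_of_pos h0]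
      have h3 : τ < r / (2 * (‖κ‖ + 1)) := lt_of_lt_of_le h1 (min_le_right _ _)
      rw [lt_div_iff₀ (by positivity)] at h3
      nlinarith [norm_nonneg κ]
    have h4 := hball h2
    rw [Real.dist_eq, abs_lt] at h4
    linarith [h4.2]

end

end Pool.H45.Mather
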