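import Pool.Agent.H45.MatherContra

open MeasureTheory Module Set Filter Topology

namespace Pool.H45.Mather

noncomputable section

set_option linter.unusedSectionVars false
set_option linter.style.haveILetI false

/-- The Hamiltonian `|p - A(x)|²/2 + V(x)` (Legendre dual of `Lag A V`). -/
def Ham {E : Type*} [NormedAddCommGroup E] [InnerProductSpace ℝ E] (A : E → E) (V : E → ℝ)
    (x p : E) : ℝ := ‖p - A x‖ ^ 2 / 2 + V x

variable {n : ℕ} {E : Type*} [NormedAddCommGroup E] [InnerProductSpace ℝ E] [FiniteDimensional ℝ E]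

/-- Trajectories of the Hamiltonian flow (lifted to the universal cover). -/
structure IsHamTraj (A : E → E) (V : E → ℝ) (x p : ℝ → E) : Prop where
  hx : ∀ t, HasDerivAt x (gradient (fun q => Ham A V (x t) q) (p t)) t
  hp : ∀ t, HasDerivAt p (-gradient (fun y => Ham A V y (p t)) (x t)) t

/-- `C⁰`-integrability: a foliation of the cotangent bundle by invariant Lipschitz Lagrangian
graphs `p = P c x`, one in every cohomology class `c`. -/
def C0Integrable (b : Basis (Fin n) ℝ E) (A : E → E) (V : E → ℝ) : Prop :=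
  ∃ P : E → E → E,
    (∀ c, ∃ φ : E → ℝ, ContDiff ℝ 1 φ ∧ Per b φ ∧
      ∀ x v, inner ℝ (P c x) v = inner ℝ c v + fderiv ℝ φ x v) ∧
    (∀ c, ∃ C, LipschitzWith C (P c)) ∧
    Continuous (fun z : E × E => P z.1 z.2) ∧
    (∀ x, Function.Bijective (fun c => P c x)) ∧
    (∀ c (x p : ℝ → E), IsHamTraj A V x p → p 0 = P c (x 0) → ∀ t, p t = P c (x t))

variable {b : Basis (Fin n) ℝ E}

/-- a closed periodic 1-form is a constant plus the differential of a periodic function -/
lemma exists_gauge {A : E → E} (hA : ContDiff ℝ 1 A) (hAp : Per b A)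
    (hcl : ∀ x u v, inner ℝ (fderiv ℝ A x u) v = inner ℝ (fderiv ℝ A x v) u) :
    ∃ (a : E) (φ : E → ℝ), ContDiff ℝ 1 φ ∧ Per b φ ∧
      ∀ x v, inner ℝ (A x) v = inner ℝ a v + fderiv ℝ φ x v := by
  have hAd : Differentiable ℝ A := hA.differentiable one_ne_zero
  have hω : ∀ x, HasFDerivAt (fun x => innerSL ℝ (A x)) ((innerSL ℝ).comp (fderiv ℝ A x)) x :=
    fun x => (innerSL ℝ).hasFDerivAt.comp x (hAd x).hasFDerivAt
  obtain ⟨f, hf⟩ := (convex_univ (𝕜 := ℝ) (E := E)).exists_forall_hasFDerivAt_of_fderiv_symmetric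
    isOpen_univ (ω := fun x => innerSL ℝ (A x))
    (fun x _ => (hω x).differentiableAt.differentiableWithinAt) (fun x _ u v => by
      rw [(hω x).fderiv]
      exact hcl x u v)
  have hf' : ∀ x, HasFDerivAt f (innerSL ℝ (A x)) x := fun x => hf x (mem_univ x)
  have hfd : Differentiable ℝ f := fun x => (hf' x).differentiableAt
  have hf1 : ContDiff ℝ 1 f := by
    rw [contDiff_one_iff_fderiv]
    refine ⟨hfd, ?_⟩
    have : fderiv ℝ f = fun x => innerSL ℝ (A x) := funext fun x => (hf' x).fderiv
    rw [this]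
    exact (innerSL ℝ).continuous.comp hA.continuous
  have hconst : ∀ i x, f (x + b i) - f x = f (b i) - f 0 := by
    intro i x
    have h1 : ∀ x, HasFDerivAt (fun x => f (x + b i) - f x) (0 : E →L[ℝ] ℝ) x := by
      intro x
      have h2 : HasFDerivAt (fun x => f (x + b i)) (innerSL ℝ (A (x + b i))) x := by
        have := (hf' (x + b i)).comp x ((hasFDerivAt_id x).add_const (b i))
        rw [ContinuousLinearMap.comp_id] at this
        exact this
      have h3 := h2.sub (hf' x)
      rw [hAp i x, sub_self] at h3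
      exact h3
    have h4 := is_const_of_fderiv_eq_zero (𝕜 := ℝ) (f := fun x => f (x + b i) - f x)
      (fun x => (h1 x).differentiableAt) (fun x => (h1 x).fderiv) x 0
    simpa using h4
  set L : E →L[ℝ] ℝ := LinearMap.toContinuousLinearMap (b.constr ℝ (fun i => f (b i) - f 0)) with hL
  have hLb : ∀ i, L (b i) = f (b i) - f 0 := by
    intro i
    rw [hL, LinearMap.coe_toContinuousLinearMap', Basis.constr_basis]
  refine ⟨(InnerProductSpace.toDual ℝ E).symm L, fun x => f x - L x, hf1.sub L.contDiff, ?_, ?_⟩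
  · intro i x
    have := hconst i x
    simp only [map_add, hLb]
    linarith
  · intro x v
    have h5 : HasFDerivAt (fun x => f x - L x) (innerSL ℝ (A x) - L) x := (hf' x).sub L.hasFDerivAt
    rw [h5.fderiv, InnerProductSpace.toDual_symm_apply]
    simp

variable [MeasurableSpace E] [BorelSpace E]

lemma beta_gauge {A : E → E} {V : E → ℝ} (hA : Continuous A) (hAp : Per b A)
    (hV : Continuous V) (hVp : Per b V) {a : E} {φ : E → ℝ} (hφ : ContDiff ℝ 1 φ)
    (hφp : Per b φ) (h : ∀ x v, inner ℝ (A x) v = inner ℝ a v + fderiv ℝ φ x v) (r : E) :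
    beta b A V r = beta b (fun _ => 0) V r + inner ℝ a r := by
  have key : ∀ μ : Measure (E × E), IsClosedMeasure b μ → ∫ z, Lag A V z ∂μ =
      ∫ z, Lag (fun _ => 0) V z ∂μ + inner ℝ a (∫ z, z.2 ∂μ) := by
    intro μ hμ
    have e1 : ∀ z : E × E, Lag A V z = Lag (fun _ => 0) V z + (inner ℝ a z.2 +
        fderiv ℝ φ z.1 z.2) := by
      intro z
      unfold Lag
      rw [h]
      simp only [inner_zero_left]
      ring
    have i1 : Integrable (Lag (fun _ => 0) V) μ :=
      hμ.int_Lag continuous_const (Per.const 0) hV hVp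
    have i2 : Integrable (fun z : E × E => inner ℝ a z.2) μ := hμ.int_snd.const_inner a
    have i3 := hμ.int_fderiv hφ hφp
    have i4 : Integrable (fun z : E × E => inner ℝ a z.2 + fderiv ℝ φ z.1 z.2) μ := i2.add i3
    simp_rw [e1]
    rw [integral_add i1 i4, integral_add i2 i3, hμ.closed φ hφ hφp, add_zero,
      integral_inner hμ.int_snd]
  apply le_antisymm
  · have : beta b A V r - inner ℝ a r ≤ beta b (fun _ => 0) V r := by
      refine le_beta fun μ hμ hr => ?_
      have h1 := beta_le hA hAp hV hVp hμ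
      rw [key μ hμ, hr] at h1
      linarith
    linarith
  · refine le_beta fun μ hμ hr => ?_
    have h1 := beta_le (b := b) (A := fun _ => 0) continuous_const (Per.const 0) hV hVp hμ
    rw [key μ hμ, hr]
    rw [hr] at h1
    linarith

/-- first phase: the magnetic part -/
lemma phase1 (hn : 2 ≤ n) {A : E → E} {V : E → ℝ} (hA : Continuous A) (hAp : Per b A)
    (hV : Continuous V) (hVp : Per b V)
    (hβ : ∃ R, ∀ h, R ≤ ‖h‖ → DifferentiableAt ℝ (beta b A V) h)
    {m : Fin n → ℤ} (hm : m ≠ 0) {Ψ : E → ℝ} (hΨ : Continuous Ψ) (hΨp : Per b Ψ)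
    (hΨ1 : ∀ x, |Ψ x| ≤ 1) (hΨm : ∀ x y, lin b m x = lin b m y → Ψ x = Ψ y)
    (hΨ0 : ∫ x, Ψ x ∂(lam b) = 0) {w : E} (hw : lin b m w = 0) :
    ∫ x, inner ℝ (A x) w * Ψ x ∂(lam b) = 0 := by
  by_contra hne
  obtain ⟨k, u, j, hj, hu⟩ := exists_primitive hm
  have hl : ∀ x, lin b m x = j * lin b k x := by
    intro x
    rw [lin_apply, lin_apply, Finset.mul_sum]
    refine Finset.sum_congr rfl fun i _ => ?_
    rw [hj i]
    push_cast
    ring
  have hj0 : (j : ℝ) ≠ 0 := by
    intro h0
    apply hm
    funext i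
    have : j = 0 := by exact_mod_cast h0
    rw [hj i, this]; simp
  have hint : ∀ w : E, Integrable (fun x => inner ℝ (A x) w * Ψ x) (lam b) := by
    intro w
    refine Per.integrable (b := b) ?_ ?_
    · intro i x
      simp only [hAp i x, hΨp i x]
    · exact (hA.inner continuous_const).mul hΨ
  let L : E →ₗ[ℝ] ℝ :=
    { toFun := fun w => ∫ x, inner ℝ (A x) w * Ψ x ∂(lam b)
      map_add' := by
        intro w w'
        rw [← integral_add (hint w) (hint w')]
        refine integral_congr_ae (Eventually.of_forall fun x => ?_)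
        simp only [inner_add_right]
        ring
      map_smul' := by
        intro c w
        rw [RingHom.id_apply, smul_eq_mul, ← integral_const_mul]
        refine integral_congr_ae (Eventually.of_forall fun x => ?_)
        simp only [inner_smul_right]
        ring }
  obtain ⟨ω, hω, hgen, hLω⟩ := exists_generic (b := b) hu L
  have hLω' : L ω ≠ 0 := hLω ⟨w, by
    have := hl w
    rw [hw] at this
    rcases mul_eq_zero.1 this.symm with h | h
    · exact absurd h hj0
    · exact h, hne⟩
  obtain ⟨CA, hCA0, hCA⟩ := hAp.bdd hA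
  obtain ⟨CV, hCV0, hCV⟩ := hVp.bdd hV
  have hev := contra (b := b) hA hAp hV hVp hCA (F := fun x => -inner ℝ (A x) ω)
    (by intro i x; simp only [hAp i x]) (hA.inner continuous_const).neg hu hω hgen hΨ hΨp hΨ1
    (fun x y hxy => hΨm x y (by rw [hl, hl, hxy])) hΨ0
    (by
      have : ∫ x, -inner ℝ (A x) ω * Ψ x ∂(lam b) = -L ω := by
        change _ = -∫ x, inner ℝ (A x) ω * Ψ x ∂(lam b)
        rw [← integral_neg]
        refine integral_congr_ae (Eventually.of_forall fun x => ?_)
        simp only
        ring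
      rw [this]
      exact neg_ne_zero.2 hLω')
    (Λ := fun t => t) (eventually_ge_atTop 1)
    (by
      intro δ hδ
      filter_upwards [eventually_ge_atTop (CV / δ)] with t ht x
      have e1 : V x - t * inner ℝ (A x) ω - t * -inner ℝ (A x) ω = V x := by ring
      rw [e1]
      rw [div_le_iff₀ hδ] at ht
      exact (hCV x).trans ht)
    (by
      intro G ε hG hε
      filter_upwards [eventually_gt_atTop 0, eventually_ge_atTop ((G + CA) ^ 2 / ε)] with t ht ht'
      rw [div_self ht.ne', one_mul]
      rwa [div_le_iff₀ hε] at ht')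
    (by
      intro C
      filter_upwards [eventually_gt_atTop 0, eventually_ge_atTop (C ^ 2)] with t ht ht'
      have h1 : C ≤ √t := Real.le_sqrt_of_sq_le ht'
      calc C * √t ≤ √t * √t := mul_le_mul_of_nonneg_right h1 (Real.sqrt_nonneg _)
        _ = t := Real.mul_self_sqrt ht.le)
  obtain ⟨R, hR⟩ := hβ
  have hω0 : 0 < ‖ω‖ := norm_pos_iff.2 (generic_ne_zero hn hgen)
  obtain ⟨t, ht, ht0, ht1⟩ := (hev.and ((eventually_gt_atTop 0).and
    (eventually_ge_atTop (R / ‖ω‖)))).exists
  rw [div_le_iff₀ hω0] at ht1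
  refine ht (hR _ ?_)
  rw [norm_smul, Real.norm_eq_abs, abs_of_pos ht0]
  exact ht1

/-- second phase: the potential -/
lemma phase2 (hn : 2 ≤ n) {V : E → ℝ} (hV : Continuous V) (hVp : Per b V)
    (hβ : ∃ R, ∀ h, R ≤ ‖h‖ → DifferentiableAt ℝ (beta b (fun _ => 0) V) h)
    {m : Fin n → ℤ} (hm : m ≠ 0) {Ψ : E → ℝ} (hΨ : Continuous Ψ) (hΨp : Per b Ψ)
    (hΨ1 : ∀ x, |Ψ x| ≤ 1) (hΨm : ∀ x y, lin b m x = lin b m y → Ψ x = Ψ y)
    (hΨ0 : ∫ x, Ψ x ∂(lam b) = 0) : ∫ x, V x * Ψ x ∂(lam b) = 0 := by
  by_contra hne
  obtain ⟨k, u, j, hj, hu⟩ := exists_primitive hm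
  have hl : ∀ x, lin b m x = j * lin b k x := by
    intro x
    rw [lin_apply, lin_apply, Finset.mul_sum]
    refine Finset.sum_congr rfl fun i _ => ?_
    rw [hj i]
    push_cast
    ring
  obtain ⟨ω, hω, hgen, _⟩ := exists_generic (b := b) hu 0
  have hev := contra (b := b) (A := fun _ => 0) continuous_const (Per.const 0) hV hVp
    (CA := 0) (fun x => by simp) (F := V) hVp hV hu hω hgen hΨ hΨp hΨ1
    (fun x y hxy => hΨm x y (by rw [hl, hl, hxy])) hΨ0 hne (Λ := fun _ => 1)
    (Eventually.of_forall fun _ => le_rfl)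
    (by
      intro δ hδ
      refine Eventually.of_forall fun t x => ?_
      simp [hδ.le])
    (by
      intro G ε hG hε
      filter_upwards [eventually_gt_atTop 0, eventually_ge_atTop (G / √ε)] with t ht ht'
      have hs : 0 < √ε := Real.sqrt_pos.2 hε
      rw [div_le_iff₀ hs] at ht'
      rw [add_zero, one_mul, one_div, inv_mul_eq_div]
      have h1 : G / t ≤ √ε := by
        rw [div_le_iff₀ ht]
        linarith
      have h2 := pow_le_pow_left₀ (div_nonneg hG ht.le) h1 2
      rwa [Real.sq_sqrt hε.le] at h2)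
    (by
      intro C
      filter_upwards [eventually_ge_atTop C] with t ht
      simpa using ht)
  obtain ⟨R, hR⟩ := hβ
  have hω0 : 0 < ‖ω‖ := norm_pos_iff.2 (generic_ne_zero hn hgen)
  obtain ⟨t, ht, ht0, ht1⟩ := (hev.and ((eventually_gt_atTop 0).and
    (eventually_ge_atTop (R / ‖ω‖)))).exists
  rw [div_le_iff₀ hω0] at ht1
  refine ht (hR _ ?_)
  rw [norm_smul, Real.norm_eq_abs, abs_of_pos ht0]
  exact ht1

theorem closed_of_differentiable (hn : 2 ≤ n) {A : E → E} {V : E → ℝ} (hA : ContDiff ℝ 1 A)
    (hAp : Per b A) (hV : Continuous V) (hVp : Per b V)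
    (hβ : ∃ R, ∀ h, R ≤ ‖h‖ → DifferentiableAt ℝ (beta b A V) h) (x u v : E) :
    inner ℝ (fderiv ℝ A x u) v = inner ℝ (fderiv ℝ A x v) u := by
  have hAd : Differentiable ℝ A := hA.differentiable one_ne_zero
  have hdc : Continuous (fderiv ℝ A) := hA.continuous_fderiv one_ne_zero
  have hdp : Per b (fderiv ℝ A) := by
    intro i x
    have h : (fun y => A (y + b i)) = A := funext fun y => hAp i y
    have := fderiv_comp_add_right (𝕜 := ℝ) (f := A) (x := x) (b i)
    rw [h] at this
    exact this.symm
  set G : E → ℝ := fun x => inner ℝ (fderiv ℝ A x u) v - inner ℝ (fderiv ℝ A x v) u with hG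
  have hGp : Per b G := by
    intro i x
    simp only [hG, hdp i x]
  have hGc : Continuous G :=
    ((hdc.clm_apply continuous_const).inner continuous_const).sub
      ((hdc.clm_apply continuous_const).inner continuous_const)
  -- integration by parts against a character-like weight
  have ibp : ∀ (Φ dΦ : E → ℝ) (m : Fin n → ℤ), ContDiff ℝ 1 Φ → Per b Φ → Continuous dΦ →
      Per b dΦ → (∀ x w, fderiv ℝ Φ x w = lin b m w * dΦ x) → ∀ w w' : E,
      ∫ x, inner ℝ (fderiv ℝ A x w) w' * Φ x ∂(lam b) =
        -(lin b m w * ∫ x, inner ℝ (A x) w' * dΦ x ∂(lam b)) := by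
    intro Φ dΦ m hΦ hΦp hdΦ hdΦp hd w w'
    have h1 : ContDiff ℝ 1 (fun x => inner ℝ (A x) w' * Φ x) :=
      (hA.inner ℝ contDiff_const).mul hΦ
    have h2 : Per b (fun x => inner ℝ (A x) w' * Φ x) := by
      intro i x
      simp only [hAp i x, hΦp i x]
    have h3 := int_fderiv h1 h2 w
    have h4 : ∀ x, fderiv ℝ (fun x => inner ℝ (A x) w' * Φ x) x w =
        inner ℝ (fderiv ℝ A x w) w' * Φ x + lin b m w * (inner ℝ (A x) w' * dΦ x) := by
      intro x
      have e1 : HasFDerivAt (fun x => inner ℝ (A x) w') ((innerSL ℝ w').comp (fderiv ℝ A x)) x := by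
        have := (innerSL ℝ w').hasFDerivAt.comp x (hAd x).hasFDerivAt
        refine this.congr_of_eventuallyEq (Eventually.of_forall fun y => ?_)
        simp only [Function.comp_apply, innerSL_apply_apply]
        rw [real_inner_comm]
      have e2 : HasFDerivAt (fun x => inner ℝ (A x) w' * Φ x) _ x :=
        e1.mul (hΦ.differentiable one_ne_zero x).hasFDerivAt
      rw [e2.fderiv]
      simp only [add_apply, smul_apply, smul_eq_mul, ContinuousLinearMap.comp_apply,
        innerSL_apply_apply]
      rw [hd, real_inner_comm (fderiv ℝ A x w) w']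
      ring
    simp_rw [h4] at h3
    have i1 : Integrable (fun x => inner ℝ (fderiv ℝ A x w) w' * Φ x) (lam b) := by
      refine Per.integrable (b := b) ?_
        (((hdc.clm_apply continuous_const).inner continuous_const).mul hΦ.continuous)
      intro i x
      simp only [hdp i x, hΦp i x]
    have i2' : Integrable (fun x => inner ℝ (A x) w' * dΦ x) (lam b) := by
      refine Per.integrable (b := b) ?_ ((hA.continuous.inner continuous_const).mul hdΦ)
      intro i x
      simp only [hAp i x, hdΦp i x]
    have i2 : Integrable (fun x => lin b m w * (inner ℝ (A x) w' * dΦ x)) (lam b) :=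
      i2'.const_mul _
    rw [integral_add i1 i2, integral_const_mul] at h3
    linarith
  -- combination
  have comb : ∀ (Φ dΦ : E → ℝ) (m : Fin n → ℤ), ContDiff ℝ 1 Φ → Per b Φ → Continuous dΦ →
      Per b dΦ → (∀ x w, fderiv ℝ Φ x w = lin b m w * dΦ x) →
      (∀ w, lin b m w = 0 → ∫ x, inner ℝ (A x) w * dΦ x ∂(lam b) = 0) →
      ∫ x, G x * Φ x ∂(lam b) = 0 := by
    intro Φ dΦ m hΦ hΦp hdΦ hdΦp hd hz
    have i1 : ∀ w w' : E, Integrable (fun x => inner ℝ (fderiv ℝ A x w) w' * Φ x) (lam b) := by
      intro w w'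
      refine Per.integrable (b := b) ?_
        (((hdc.clm_apply continuous_const).inner continuous_const).mul hΦ.continuous)
      intro i x
      simp only [hdp i x, hΦp i x]
    have i2 : ∀ w : E, Integrable (fun x => inner ℝ (A x) w * dΦ x) (lam b) := by
      intro w
      refine Per.integrable (b := b) ?_ ((hA.continuous.inner continuous_const).mul hdΦ)
      intro i x
      simp only [hAp i x, hdΦp i x]
    have e1 : ∀ x, G x * Φ x = inner ℝ (fderiv ℝ A x u) v * Φ x -
        inner ℝ (fderiv ℝ A x v) u * Φ x := by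
      intro x
      change (inner ℝ (fderiv ℝ A x u) v - inner ℝ (fderiv ℝ A x v) u) * Φ x = _
      ring
    rw [integral_congr_ae (Eventually.of_forall e1), integral_sub (i1 u v) (i1 v u),
      ibp Φ dΦ m hΦ hΦp hdΦ hdΦp hd u v, ibp Φ dΦ m hΦ hΦp hdΦ hdΦp hd v u]
    have h5 := hz (lin b m u • v - lin b m v • u) (by
      rw [map_sub, map_smul, map_smul, smul_eq_mul, smul_eq_mul]; ring)
    have e2 : ∀ x, inner ℝ (A x) (lin b m u • v - lin b m v • u) * dΦ x =
        lin b m u * (inner ℝ (A x) v * dΦ x) - lin b m v * (inner ℝ (A x) u * dΦ x) := by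
      intro x
      rw [inner_sub_right, inner_smul_right, inner_smul_right]
      ring
    simp_rw [e2] at h5
    rw [integral_sub ((i2 v).const_mul _) ((i2 u).const_mul _), integral_const_mul,
      integral_const_mul] at h5
    linarith
  have hzero : G x = 0 := by
    refine eq_zero_of_orth (b := b) hGp hGc ?_ ?_ x
    · intro m
      have hl := (lin b m).continuous
      refine comb _ (fun x => -(2 * Real.pi) * Real.sin (2 * Real.pi * lin b m x)) m
        (contDiff_const.mul (lin b m).contDiff).cos (cos_per m) (by fun_prop)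
        ((sin_per m).comp (-(2 * Real.pi) * ·)) ?_ ?_
      · intro x w
        rw [(hasFDerivAt_lin2 (b := b) m x).cos.fderiv]
        simp only [smul_apply, smul_eq_mul]
        ring
      · intro w hw
        rcases eq_or_ne m 0 with rfl | hm
        · have : ∀ x, lin b (0 : Fin n → ℤ) x = 0 := fun x => by simp [lin_apply]
          simp [this]
        · have h1 := phase1 hn hA.continuous hAp hV hVp hβ hm
            (Ψ := fun x => Real.sin (2 * Real.pi * lin b m x)) (by fun_prop) (sin_per m)
            (fun x => Real.abs_sin_le_one _) (fun x y hxy => by simp only [hxy])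
            (int_char hm).2 hw
          have e3 : ∀ x, inner ℝ (A x) w * (-(2 * Real.pi) * Real.sin (2 * Real.pi * lin b m x)) =
              -(2 * Real.pi) * (inner ℝ (A x) w * Real.sin (2 * Real.pi * lin b m x)) := by
            intro x; ring
          simp_rw [e3]
          rw [integral_const_mul, h1, mul_zero]
    · intro m
      have hl := (lin b m).continuous
      rcases eq_or_ne m 0 with rfl | hm
      · have : ∀ x, lin b (0 : Fin n → ℤ) x = 0 := fun x => by simp [lin_apply]
        simp [this]
      refine comb _ (fun x => 2 * Real.pi * Real.cos (2 * Real.pi * lin b m x)) m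
        (contDiff_const.mul (lin b m).contDiff).sin (sin_per m) (by fun_prop)
        ((cos_per m).comp (2 * Real.pi * ·)) ?_ ?_
      · intro x w
        rw [(hasFDerivAt_lin2 (b := b) m x).sin.fderiv]
        simp only [smul_apply, smul_eq_mul]
        ring
      · intro w hw
        have h1 := phase1 hn hA.continuous hAp hV hVp hβ hm
          (Ψ := fun x => Real.cos (2 * Real.pi * lin b m x)) (by fun_prop) (cos_per m)
          (fun x => Real.abs_cos_le_one _) (fun x y hxy => by simp only [hxy])
          (int_char hm).1 hw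
        have e3 : ∀ x, inner ℝ (A x) w * (2 * Real.pi * Real.cos (2 * Real.pi * lin b m x)) =
            2 * Real.pi * (inner ℝ (A x) w * Real.cos (2 * Real.pi * lin b m x)) := by
          intro x; ring
        simp_rw [e3]
        rw [integral_const_mul, h1, mul_zero]
  have := hzero
  simp only [hG] at this
  linarith

theorem const_of_differentiable (hn : 2 ≤ n) {V : E → ℝ} (hV : Continuous V) (hVp : Per b V)
    (hβ : ∃ R, ∀ h, R ≤ ‖h‖ → DifferentiableAt ℝ (beta b (fun _ => 0) V) h) (x y : E) :
    V x = V y := by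
  refine exists_char_of_nonconst (b := b) hVp hV (fun m hm => ?_) x y
  have hl := (lin b m).continuous
  exact ⟨phase2 hn hV hVp hβ hm (Ψ := fun x => Real.cos (2 * Real.pi * lin b m x)) (by fun_prop)
      (cos_per m) (fun x => Real.abs_cos_le_one _) (fun x y hxy => by simp only [hxy])
      (int_char hm).1,
    phase2 hn hV hVp hβ hm (Ψ := fun x => Real.sin (2 * Real.pi * lin b m x)) (by fun_prop)
      (sin_per m) (fun x => Real.abs_sin_le_one _) (fun x y hxy => by simp only [hxy])
      (int_char hm).2⟩

lemma beta_free {V : E → ℝ} (hV : Continuous V) (hVp : Per b V) (hc : ∀ x y, V x = V y) (r : E) :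
    beta b (fun _ => 0) V r = ‖r‖ ^ 2 / 2 - V 0 := by
  apply le_antisymm
  · have h1 : ∫ _ : E, (1 : ℝ) ∂(lam b) = 1 := by simp
    have hcl := tm_closed (b := b) (Ψ := fun _ => 1) (w := r) continuous_const (Per.const _)
      (fun _ => zero_le_one) h1 (fun _ _ => rfl)
    have h2 := beta_le (b := b) (A := fun _ => 0) continuous_const (Per.const 0) hV hVp hcl
    rw [hom_tm continuous_const (fun _ => zero_le_one) h1,
      integral_tm continuous_const (fun _ => zero_le_one) r
        (continuous_Lag continuous_const hV)] at h2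
    have h3 : ∀ x, (1 : ℝ) • Lag (fun _ => 0) V (x, r) = ‖r‖ ^ 2 / 2 - V 0 := by
      intro x
      unfold Lag
      simp only [inner_zero_left, one_smul, add_zero]
      rw [hc x 0]
    simp_rw [h3] at h2
    simpa using h2
  · have hsub : Sub (fun _ => 0) V r (‖r‖ ^ 2 / 2 + V 0) (fun _ => 0) := by
      intro x v
      unfold Lag
      simp only [inner_zero_left, add_zero, hc x 0]
      have := real_inner_le_norm r v
      have h0 : fderiv ℝ (fun _ : E => (0 : ℝ)) x v = 0 := by simp
      rw [h0]
      nlinarith [sq_nonneg (‖r‖ - ‖v‖)]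
    have hst := hsub.star (b := b) continuous_const (Per.const 0) hV hVp contDiff_const
      (Per.const 0)
    have := hst.le_beta r
    rw [real_inner_self_eq_norm_sq] at this
    linarith

theorem c0_of_closed {A : E → E} {V : E → ℝ} (hA : ContDiff ℝ 1 A) (hAp : Per b A)
    (hcl : ∀ x u v, inner ℝ (fderiv ℝ A x u) v = inner ℝ (fderiv ℝ A x v) u)
    (hc : ∀ x y, V x = V y) : C0Integrable b A V := by
  obtain ⟨a, φ, hφ, hφp, hφA⟩ := exists_gauge hA hAp hcl
  have hAd : Differentiable ℝ A := hA.differentiable one_ne_zero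
  refine ⟨fun c x => c - a + A x, fun c => ⟨φ, hφ, hφp, fun x v => ?_⟩, fun c => ?_, ?_,
    fun x => ?_, fun c x p hxp h0 t => ?_⟩
  · rw [inner_add_left, inner_sub_left, hφA]
    ring
  · have hdc : Continuous (fderiv ℝ A) := hA.continuous_fderiv one_ne_zero
    have hdp : Per b (fderiv ℝ A) := by
      intro i x
      have h : (fun y => A (y + b i)) = A := funext fun y => hAp i y
      have := fderiv_comp_add_right (𝕜 := ℝ) (f := A) (x := x) (b i)
      rw [h] at this
      exact this.symm
    obtain ⟨C, hC0, hC⟩ := hdp.bdd hdc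
    refine ⟨⟨C, hC0⟩, ?_⟩
    have h1 : LipschitzWith ⟨C, hC0⟩ A := by
      refine lipschitzWith_of_nnnorm_fderiv_le hAd fun x => ?_
      exact hC x
    exact LipschitzWith.of_dist_le_mul fun x y => by
      rw [dist_add_left]
      exact h1.dist_le_mul x y
  · exact ((continuous_fst.sub continuous_const).add (hA.continuous.comp continuous_snd))
  · constructor
    · intro c c' h
      have h1 : c - a + A x = c' - a + A x := h
      have h2 := add_right_cancel h1
      exact sub_left_injective h2
    · intro q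
      exact ⟨q - A x + a, by simp⟩
  · -- along a trajectory `p - A(x)` is constant
    have hgp : ∀ x p : E, gradient (fun q => Ham A V x q) p = p - A x := by
      intro x p
      refine HasGradientAt.gradient ?_
      rw [hasGradientAt_iff_hasFDerivAt]
      unfold Ham
      have h1 : HasFDerivAt (fun q : E => ‖q - A x‖ ^ 2) (2 • innerSL ℝ (p - A x)) p := by
        have := (((hasFDerivAt_id p).sub_const (A x))).norm_sq
        simpa using this
      have h2 := (h1.mul_const (1 / 2)).add_const (V x)
      have h3 : (fun q : E => ‖q - A x‖ ^ 2 / 2 + V x) =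
          fun q => ‖q - A x‖ ^ 2 * (1 / 2) + V x := by
        funext q; ring
      rw [h3]
      refine h2.congr_fderiv ?_
      ext v
      simp
    have hgx : ∀ x p : E, gradient (fun y => Ham A V y p) x =
        -(fderiv ℝ A x (p - A x)) := by
      intro x p
      refine HasGradientAt.gradient ?_
      rw [hasGradientAt_iff_hasFDerivAt]
      unfold Ham
      have h1 : HasFDerivAt (fun y : E => ‖p - A y‖ ^ 2)
          (2 • (innerSL ℝ (p - A x)).comp (-(fderiv ℝ A x))) x := by
        have := ((hAd x).hasFDerivAt.const_sub p).norm_sq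
        simpa using this
      have h2 := (h1.mul_const (1 / 2)).add_const (V 0)
      have h3 : (fun y : E => ‖p - A y‖ ^ 2 / 2 + V y) =
          fun y => ‖p - A y‖ ^ 2 * (1 / 2) + V 0 := by
        funext y
        rw [hc y 0]
        ring
      rw [h3]
      refine h2.congr_fderiv ?_
      ext v
      simp only [smul_apply, ContinuousLinearMap.comp_apply, neg_apply, innerSL_apply_apply,
        smul_eq_mul, InnerProductSpace.toDual_apply_apply, inner_neg_left, inner_neg_right]
      rw [hcl x (p - A x) v, real_inner_comm]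
      simp
    have hder : ∀ t, HasDerivAt (fun t => p t - A (x t)) 0 t := by
      intro t
      have h1 := hxp.hx t
      have h2 := hxp.hp t
      rw [hgp] at h1
      rw [hgx, neg_neg] at h2
      have h3 := (hAd (x t)).hasFDerivAt.comp_hasDerivAt t h1
      have h4 := h2.sub h3
      rw [sub_self] at h4
      exact h4
    have hconst : p t - A (x t) = p 0 - A (x 0) :=
      is_const_of_deriv_eq_zero (f := fun t => p t - A (x t))
        (fun t => (hder t).differentiableAt) (fun t => (hder t).deriv) t 0
    rw [h0] at hconst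
    have : p t = (p t - A (x t)) + A (x t) := by abel
    rw [this, hconst]
    beta_reduce
    abel

/-- **Main theorem.** -/
theorem main (hn : 2 ≤ n) {A : E → E} {V : E → ℝ} (hA : ContDiff ℝ 1 A) (hAp : Per b A)
    (hV : Continuous V) (hVp : Per b V)
    (hβ : ∃ R, ∀ h, R ≤ ‖h‖ → DifferentiableAt ℝ (beta b A V) h) :
    (∀ x u v, inner ℝ (fderiv ℝ A x u) v = inner ℝ (fderiv ℝ A x v) u) ∧ ∀ x y, V x = V y := by
  have hcl := closed_of_differentiable hn hA hAp hV hVp hβ
  refine ⟨hcl, ?_⟩
  obtain ⟨a, φ, hφ, hφp, hφA⟩ := exists_gauge hA hAp hcl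
  have hg := beta_gauge hA.continuous hAp hV hVp hφ hφp hφA
  refine const_of_differentiable hn hV hVp ?_
  obtain ⟨R, hR⟩ := hβ
  refine ⟨R, fun h hh => ?_⟩
  have : beta b (fun _ => 0) V = fun r => beta b A V r - inner ℝ a r := by
    funext r
    rw [hg r]; ring
  rw [this]
  exact (hR h hh).sub (innerSL ℝ a).differentiableAt

theorem main_converse {A : E → E} {V : E → ℝ} (hA : ContDiff ℝ 1 A) (hAp : Per b A)
    (hV : Continuous V) (hVp : Per b V)
    (hcl : ∀ x u v, inner ℝ (fderiv ℝ A x u) v = inner ℝ (fderiv ℝ A x v) u)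
    (hc : ∀ x y, V x = V y) : ContDiff ℝ 1 (beta b A V) := by
  obtain ⟨a, φ, hφ, hφp, hφA⟩ := exists_gauge hA hAp hcl
  have hg := beta_gauge hA.continuous hAp hV hVp hφ hφp hφA
  have : beta b A V = fun r => (‖r‖ ^ 2 * (1 / 2) - V 0) + innerSL ℝ a r := by
    funext r
    rw [hg r, beta_free hV hVp hc, innerSL_apply_apply]
    ring
  rw [this]
  exact (((contDiff_norm_sq ℝ).mul contDiff_const).sub contDiff_const).add
    (innerSL ℝ a).contDiff

end

end Pool.H45.Mather
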