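import Mathlib

/-!
# Compressions of operators on a product and paths of invertible operators

Let `C`, `H` be Banach spaces such that every operator from `C` to `H` is compact.  If an operator
on `C × H` is joined to the identity by a path of invertible operators, then its compression to
`C` is a compact perturbation of an invertible operator.
-/

set_option autoImplicit false

open Topology Filter Set

namespace Pool.Agent.H45

section shift

variable {C H : Type*} [NormedAddCommGroup C] [NormedSpace ℂ C] [CompleteSpace C]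
  [NormedAddCommGroup H] [NormedSpace ℂ H]

/-- The compression of an operator on `C × H` to `C`. -/
noncomputable def aa (X : (C × H) →L[ℂ] (C × H)) : C →L[ℂ] C :=
  (ContinuousLinearMap.fst ℂ C H).comp (X.comp (ContinuousLinearMap.inl ℂ C H))

omit [CompleteSpace C] in
lemma aa_apply (X : (C × H) →L[ℂ] (C × H)) (x : C) : aa X x = (X (x, 0)).1 := rfl

omit [CompleteSpace C] in
lemma aa_one : aa (1 : (C × H) →L[ℂ] (C × H)) = 1 := rfl

omit [CompleteSpace C] in
lemma aa_sub (X Y : (C × H) →L[ℂ] (C × H)) : aa (X - Y) = aa X - aa Y := rfl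

omit [CompleteSpace C] in
lemma norm_aa_le (X : (C × H) →L[ℂ] (C × H)) : ‖aa X‖ ≤ ‖X‖ := by
  refine ContinuousLinearMap.opNorm_le_bound _ (norm_nonneg _) fun x => ?_
  rw [aa_apply]
  refine (norm_fst_le _).trans ((X.le_opNorm _).trans ?_)
  gcongr
  refine max_le le_rfl ?_
  simp

omit [CompleteSpace C] in
/-- The defect of multiplicativity of the compression is compact. -/
lemma isCompactOperator_aa_mul (hCH : ∀ c : C →L[ℂ] H, IsCompactOperator c)
    (X Y : (C × H) →L[ℂ] (C × H)) : IsCompactOperator (aa (X * Y) - aa X * aa Y) := by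
  have h : aa (X * Y) - aa X * aa Y =
      ((ContinuousLinearMap.fst ℂ C H).comp (X.comp (ContinuousLinearMap.inr ℂ C H))).comp
      ((ContinuousLinearMap.snd ℂ C H).comp (Y.comp (ContinuousLinearMap.inl ℂ C H))) := by
    refine ContinuousLinearMap.ext fun x => ?_
    show (X (Y (x, 0))).1 - (X ((Y (x, 0)).1, 0)).1 = (X (0, (Y (x, 0)).2)).1
    rw [← Prod.fst_sub, ← map_sub]
    congr 2
    ext <;> simp
  rw [h]
  exact (hCH ((ContinuousLinearMap.snd ℂ C H).comp (Y.comp (ContinuousLinearMap.inl ℂ C H)))).clm_comp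
    ((ContinuousLinearMap.fst ℂ C H).comp (X.comp (ContinuousLinearMap.inr ℂ C H)))

/-- Operators that are a compact perturbation of an invertible operator. -/
def Fred (T : C →L[ℂ] C) : Prop :=
  ∃ V : (C →L[ℂ] C)ˣ, IsCompactOperator (T - (V : C →L[ℂ] C))

omit [CompleteSpace C] in
lemma fred_one : Fred (1 : C →L[ℂ] C) := ⟨1, by
  rw [Units.val_one, sub_self]; exact isCompactOperator_zero⟩

lemma fred_mul_iff (hCH : ∀ c : C →L[ℂ] H, IsCompactOperator c) {X Y : (C × H) →L[ℂ] (C × H)}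
    (hX : ‖X - 1‖ < 1) : Fred (aa (X * Y)) ↔ Fred (aa Y) := by
  have hu : IsUnit (aa X) := by
    have h1 : ‖1 - aa X‖ < 1 := by
      rw [norm_sub_rev, ← aa_one (H := H), ← aa_sub]
      exact (norm_aa_le _).trans_lt hX
    have := isUnit_one_sub_of_norm_lt_one h1
    rwa [sub_sub_cancel] at this
  obtain ⟨W, hW⟩ := hu
  have hc := isCompactOperator_aa_mul hCH X Y
  rw [← hW] at hc
  constructor
  · rintro ⟨V, hV⟩
    refine ⟨W⁻¹ * V, ?_⟩
    have h : aa Y - ((W⁻¹ * V : (C →L[ℂ] C)ˣ) : C →L[ℂ] C) =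
        ((W⁻¹ : (C →L[ℂ] C)ˣ) : C →L[ℂ] C) *
          ((aa (X * Y) - (V : C →L[ℂ] C)) - (aa (X * Y) - W * aa Y)) := by
      rw [sub_sub_sub_cancel_left, mul_sub, ← mul_assoc, Units.inv_mul, one_mul, Units.val_mul]
    rw [h]
    exact (hV.sub hc).clm_comp ((W⁻¹ : (C →L[ℂ] C)ˣ) : C →L[ℂ] C)
  · rintro ⟨V, hV⟩
    refine ⟨W * V, ?_⟩
    have h : aa (X * Y) - ((W * V : (C →L[ℂ] C)ˣ) : C →L[ℂ] C) =
        (aa (X * Y) - W * aa Y) + (W : C →L[ℂ] C) * (aa Y - (V : C →L[ℂ] C)) := by
      rw [mul_sub, Units.val_mul]; abel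
    rw [h]
    exact hc.add (hV.clm_comp (W : C →L[ℂ] C))

/-- An injective compact perturbation of an invertible operator is surjective. -/
lemma surjective_of_fred {S : C →L[ℂ] C} (hS : Fred S) (hinj : ∀ x, S x = 0 → x = 0) :
    Function.Surjective S := by
  obtain ⟨V, hV⟩ := hS
  set K : C →L[ℂ] C := ((V⁻¹ : (C →L[ℂ] C)ˣ) : C →L[ℂ] C) * (S - (V : C →L[ℂ] C)) with hK
  have hKc : IsCompactOperator K := hV.clm_comp ((V⁻¹ : (C →L[ℂ] C)ˣ) : C →L[ℂ] C)
  have hSK : S = V * (K + 1) := by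
    rw [hK, mul_add, ← mul_assoc, Units.mul_inv, one_mul, mul_one, sub_add_cancel]
  rcases hKc.hasEigenvalue_or_mem_resolventSet (μ := (-1 : ℂ)) (by norm_num) with h | h
  · obtain ⟨x, hx⟩ := h.exists_hasEigenvector
    have h1 : K x = (-1 : ℂ) • x := hx.apply_eq_smul
    refine (hx.2 (hinj x ?_)).elim
    rw [hSK]
    show V.val (K x + x) = 0
    rw [h1, neg_one_smul, neg_add_cancel, map_zero]
  · have hu : IsUnit (K + 1) := by
      have h2 : IsUnit (algebraMap ℂ (C →L[ℂ] C) (-1) - K) := h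
      have h3 : algebraMap ℂ (C →L[ℂ] C) (-1) - K = -(K + 1) := by
        rw [map_neg, map_one]; abel
      rw [h3] at h2
      exact (IsUnit.neg_iff _).1 h2
    have hSu : IsUnit S := by
      rw [hSK]; exact V.isUnit.mul hu
    obtain ⟨W, hW⟩ := hSu
    intro y
    refine ⟨(W⁻¹ : (C →L[ℂ] C)ˣ).val y, ?_⟩
    rw [← hW]
    exact congrArg (fun T : C →L[ℂ] C => T y) W.mul_inv

/-- If the compression is injective but not surjective, then the operator is not joined to the
identity by a path of invertible operators. -/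
theorem no_path_of (hCH : ∀ c : C →L[ℂ] H, IsCompactOperator c) {T : (C × H) →L[ℂ] (C × H)}
    (hinj : ∀ x, aa T x = 0 → x = 0) (hsurj : ¬ Function.Surjective (aa T))
    (A : ℂ → ((C × H) →L[ℂ] (C × H))) (hA : Continuous A) (hu : ∀ s, IsUnit (A s))
    (h0 : A 0 = 1) (h1 : A 1 = T) : False := by
  have hloc : ∀ s : ℂ, ∀ᶠ s' in 𝓝 s, (Fred (aa (A s')) ↔ Fred (aa (A s))) := by
    intro s
    obtain ⟨W, hW⟩ := hu s
    have hc : Continuous fun s' => A s' * ((W⁻¹ : ((C × H) →L[ℂ] (C × H))ˣ) : (C × H) →L[ℂ] (C × H)) - 1 :=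
      (hA.mul continuous_const).sub continuous_const
    have hc0 : A s * ((W⁻¹ : ((C × H) →L[ℂ] (C × H))ˣ) : (C × H) →L[ℂ] (C × H)) - 1 = 0 := by
      rw [← hW, Units.mul_inv, sub_self]
    have hev : ∀ᶠ s' in 𝓝 s,
        ‖A s' * ((W⁻¹ : ((C × H) →L[ℂ] (C × H))ˣ) : (C × H) →L[ℂ] (C × H)) - 1‖ < 1 := by
      have := (hc.norm.tendsto s)
      rw [hc0, norm_zero] at this
      exact this.eventually (gt_mem_nhds one_pos)
    filter_upwards [hev] with s' hs'
    have := fred_mul_iff hCH (Y := A s) hs'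
    rw [← this, mul_assoc, ← hW, Units.inv_mul, mul_one]
  have hclopen : IsClopen {s : ℂ | Fred (aa (A s))} := by
    constructor
    · rw [← isOpen_compl_iff, isOpen_iff_mem_nhds]
      intro s hs
      filter_upwards [hloc s] with s' hs' h
      exact hs (hs'.1 h)
    · rw [isOpen_iff_mem_nhds]
      intro s hs
      filter_upwards [hloc s] with s' hs'
      exact hs'.2 hs
  have huniv : {s : ℂ | Fred (aa (A s))} = univ := by
    refine hclopen.eq_univ ⟨0, ?_⟩
    show Fred (aa (A 0))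
    rw [h0, aa_one]
    exact fred_one
  have h2 : (1 : ℂ) ∈ {s : ℂ | Fred (aa (A s))} := by rw [huniv]; trivial
  have h3 : Fred (aa (A 1)) := h2
  rw [h1] at h3
  exact hsurj (surjective_of_fred h3 hinj)

end shift

end Pool.Agent.H45
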