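import Mathlib

/-!
# Fourier expansion of periodic entire functions
-/

set_option autoImplicit false

open Topology Filter Set MeasureTheory

namespace Pool.Agent.H45

section

variable {E : Type*} [NormedAddCommGroup E] [NormedSpace ℂ E]

/-- The Fourier character `exp (2πi n t)`. -/
noncomputable def ee (n : ℤ) (t : ℂ) : ℂ := Complex.exp (2 * Real.pi * Complex.I * n * t)

lemma ee_add_one (n : ℤ) (t : ℂ) : ee n (t + 1) = ee n t := by
  unfold ee
  have : 2 * Real.pi * Complex.I * n * (t + 1) =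
    2 * Real.pi * Complex.I * n * t + n * (2 * Real.pi * Complex.I) := by ring
  rw [this, Complex.exp_add, Complex.exp_int_mul_two_pi_mul_I, mul_one]

lemma ee_add (n m : ℤ) (t : ℂ) : ee (n + m) t = ee n t * ee m t := by
  unfold ee; rw [← Complex.exp_add]; congr 1; push_cast; ring

lemma ee_add' (n : ℤ) (s t : ℂ) : ee n (s + t) = ee n s * ee n t := by
  unfold ee; rw [← Complex.exp_add]; congr 1; ring

lemma ee_zero (t : ℂ) : ee 0 t = 1 := by simp [ee]

lemma differentiable_ee (n : ℤ) : Differentiable ℂ (ee n) := by unfold ee; fun_prop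

lemma continuous_ee (n : ℤ) : Continuous (ee n) := (differentiable_ee n).continuous

lemma norm_ee (n : ℤ) (t : ℂ) : ‖ee n t‖ = Real.exp (-(2 * Real.pi * n * t.im)) := by
  unfold ee; rw [Complex.norm_exp]; congr 1; simp

/-- Fourier coefficients of a function of period one on the real line. -/
noncomputable def fc (Φ : ℂ → E) (n : ℤ) : E := ∫ x in (0 : ℝ)..1, ee (-n) x • Φ x

variable {Φ : ℂ → E}

lemma fc_shift (hΦ : Differentiable ℂ Φ) (hper : ∀ t, Φ (t + 1) = Φ t) (n : ℤ) (η : ℝ) :
    fc Φ n = ∫ x in (0 : ℝ)..1, ee (-n) (x + η * Complex.I) • Φ (x + η * Complex.I) := by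
  have hd : Differentiable ℂ fun t => ee (-n) t • Φ t := (differentiable_ee _).smul hΦ
  have h := Complex.integral_boundary_rect_eq_zero_of_differentiableOn
    (fun t => ee (-n) t • Φ t) 0 (1 + η * Complex.I) hd.differentiableOn
  have hp : ∀ y : ℝ, ee (-n) ((1 : ℂ) + y * Complex.I) • Φ ((1 : ℂ) + y * Complex.I) =
      ee (-n) ((0 : ℂ) + y * Complex.I) • Φ ((0 : ℂ) + y * Complex.I) := by
    intro y
    rw [zero_add, add_comm (1 : ℂ), ee_add_one, hper]
  simp only [Complex.zero_re, Complex.zero_im, Complex.add_re, Complex.one_re, Complex.mul_re,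
    Complex.ofReal_re, Complex.I_re, mul_zero, Complex.ofReal_im, Complex.I_im, mul_one, sub_self,
    add_zero, Complex.add_im, Complex.one_im, Complex.mul_im, zero_add, Complex.ofReal_zero,
    zero_mul, Complex.ofReal_one] at h
  simp only [zero_add] at hp
  simp only [hp] at h
  rw [add_sub_assoc, sub_self, add_zero, sub_eq_zero] at h
  exact h

lemma norm_fc_le (hΦ : Differentiable ℂ Φ) (hper : ∀ t, Φ (t + 1) = Φ t) (n : ℤ) (η B : ℝ)
    (hB : ∀ x ∈ Icc (0 : ℝ) 1, ‖Φ (x + η * Complex.I)‖ ≤ B) :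
    ‖fc Φ n‖ ≤ Real.exp (2 * Real.pi * n * η) * B := by
  rw [fc_shift hΦ hper n η]
  have := intervalIntegral.norm_integral_le_of_norm_le_const (a := 0) (b := 1)
    (f := fun x : ℝ => ee (-n) (x + η * Complex.I) • Φ (x + η * Complex.I))
    (C := Real.exp (2 * Real.pi * n * η) * B) (fun x hx => by
      rw [uIoc_of_le zero_le_one] at hx
      rw [norm_smul, norm_ee]
      refine mul_le_mul (le_of_eq ?_) (hB x ⟨hx.1.le, hx.2⟩) (norm_nonneg _) (Real.exp_pos _).le
      congr 1
      simp)
  simpa using this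

omit [NormedSpace ℂ E] in
lemma exists_bound (hΦ : Continuous Φ) (η : ℝ) :
    ∃ B : ℝ, ∀ x ∈ Icc (0 : ℝ) 1, ‖Φ (x + η * Complex.I)‖ ≤ B := by
  have hc : Continuous fun x : ℝ => Φ (x + η * Complex.I) := by fun_prop
  exact isCompact_Icc.exists_bound_of_continuousOn hc.continuousOn

lemma summable_exp_neg_abs {a : ℝ} (ha : 0 < a) :
    Summable fun n : ℤ => Real.exp (-(a * |(n : ℝ)|)) := by
  have hs : Summable fun n : ℕ => Real.exp (-(a * (n : ℝ))) := by
    have : ∀ n : ℕ, Real.exp (-(a * (n : ℝ))) = Real.exp (-a) ^ n := fun n => by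
      rw [← Real.exp_nat_mul]; congr 1; ring
    simp only [this]
    exact summable_geometric_of_lt_one (Real.exp_pos _).le (by simpa using ha)
  refine Summable.of_nat_of_neg ?_ ?_
  · simpa using hs
  · simpa using hs

/-- Decay of the Fourier coefficients with two-sided bounds. -/
lemma norm_fc_le_abs (hΦ : Differentiable ℂ Φ) (hper : ∀ t, Φ (t + 1) = Φ t) (n : ℤ) {η B : ℝ}
    (hB : ∀ x ∈ Icc (0 : ℝ) 1, ‖Φ (x + η * Complex.I)‖ ≤ B)
    (hB' : ∀ x ∈ Icc (0 : ℝ) 1, ‖Φ (x + ((-η : ℝ) : ℂ) * Complex.I)‖ ≤ B) :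
    ‖fc Φ n‖ ≤ Real.exp (-(2 * Real.pi * η * |(n : ℝ)|)) * B := by
  rcases le_total 0 (n : ℝ) with h | h
  · have := norm_fc_le hΦ hper n (-η) B hB'
    rw [abs_of_nonneg h]
    convert this using 2
    congr 1; ring
  · have := norm_fc_le hΦ hper n η B hB
    rw [abs_of_nonpos h]
    convert this using 2
    congr 1; ring

lemma summable_norm_ee_smul_fc (hΦ : Differentiable ℂ Φ) (hper : ∀ t, Φ (t + 1) = Φ t) (t : ℂ) :
    Summable fun n : ℤ => ‖ee n t • fc Φ n‖ := by
  set η : ℝ := |t.im| + 1 with hη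
  obtain ⟨B1, hB1⟩ := exists_bound hΦ.continuous η
  obtain ⟨B2, hB2⟩ := exists_bound hΦ.continuous (-η)
  set B := max B1 B2
  have hs := (summable_exp_neg_abs (a := 2 * Real.pi) (by positivity)).mul_right B
  refine Summable.of_nonneg_of_le (fun n => norm_nonneg _) (fun n => ?_) hs
  rw [norm_smul, norm_ee]
  have h := norm_fc_le_abs hΦ hper n (η := η) (B := B) (fun x hx => (hB1 x hx).trans (le_max_left _ _))
    (fun x hx => (hB2 x hx).trans (le_max_right B1 B2))
  have hBn : 0 ≤ B := (norm_nonneg _).trans ((hB1 0 (by simp)).trans (le_max_left _ _))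
  calc Real.exp (-(2 * Real.pi * n * t.im)) * ‖fc Φ n‖
      ≤ Real.exp (-(2 * Real.pi * n * t.im)) * (Real.exp (-(2 * Real.pi * η * |(n : ℝ)|)) * B) := by
        gcongr
    _ = Real.exp (-(2 * Real.pi * n * t.im) + -(2 * Real.pi * η * |(n : ℝ)|)) * B := by
        rw [Real.exp_add]; ring
    _ ≤ Real.exp (-(2 * Real.pi * |(n : ℝ)|)) * B := by
        refine mul_le_mul_of_nonneg_right (Real.exp_le_exp.2 ?_) hBn
        have h1 : -((n : ℝ) * t.im) ≤ |(n : ℝ)| * |t.im| := by
          rw [← abs_mul]; exact neg_le_abs _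
        have h2 := mul_le_mul_of_nonneg_left h1 (by positivity : (0 : ℝ) ≤ 2 * Real.pi)
        rw [hη]
        nlinarith

/-- Scalar Fourier expansion on the real line. -/
lemma hasSum_fc_real {Φ : ℂ → ℂ} (hΦ : Differentiable ℂ Φ) (hper : ∀ t, Φ (t + 1) = Φ t) (x : ℝ) :
    HasSum (fun n : ℤ => ee n x * fc Φ n) (Φ x) := by
  have hper' : Function.Periodic (fun x : ℝ => Φ x) 1 := fun x => by
    have := hper x
    push_cast
    exact this
  have hcont : Continuous (fun x : ℝ => Φ x) := hΦ.continuous.comp Complex.continuous_ofReal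
  have hlift : Continuous (hper'.lift : AddCircle (1 : ℝ) → ℂ) :=
    continuous_coinduced_dom.2 hcont
  have : Fact (0 < (1 : ℝ)) := ⟨one_pos⟩
  set f : C(AddCircle (1 : ℝ), ℂ) := ⟨hper'.lift, hlift⟩ with hf
  have hcoef : ∀ n : ℤ, fourierCoeff f n = fc Φ n := by
    intro n
    rw [fourierCoeff_eq_intervalIntegral f n 0]
    simp only [div_one, one_smul, zero_add]
    unfold fc
    refine intervalIntegral.integral_congr fun y _ => ?_
    simp only [fourier_coe_apply, hf, ContinuousMap.coe_mk, Function.Periodic.lift_coe]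
    congr 1
    unfold ee
    congr 1
    push_cast; ring
  have hsum : Summable (fourierCoeff f) := by
    have h1 : Summable fun n : ℤ => fc Φ n := by
      have := summable_norm_ee_smul_fc hΦ hper 0
      refine Summable.of_norm (this.congr fun n => ?_)
      simp [ee]
    refine h1.congr fun n => (hcoef n).symm
  have h := has_pointwise_sum_fourier_series_of_summable hsum (x : AddCircle (1 : ℝ))
  have hfx : f (x : AddCircle (1 : ℝ)) = Φ x := by
    simp only [hf, ContinuousMap.coe_mk, Function.Periodic.lift_coe]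
  rw [hfx] at h
  convert h using 1
  funext n
  rw [hcoef, fourier_coe_apply, smul_eq_mul, mul_comm]
  congr 1
  unfold ee
  congr 1
  push_cast; ring

/-- Scalar Fourier expansion. -/
lemma hasSum_fc_scalar {Φ : ℂ → ℂ} (hΦ : Differentiable ℂ Φ) (hper : ∀ t, Φ (t + 1) = Φ t)
    (t : ℂ) : HasSum (fun n : ℤ => ee n t * fc Φ n) (Φ t) := by
  set Ψ : ℂ → ℂ := fun s => Φ (s + t.im * Complex.I) with hΨ
  have hΨd : Differentiable ℂ Ψ := hΦ.comp (differentiable_id.add_const _)
  have hΨp : ∀ s, Ψ (s + 1) = Ψ s := fun s => by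
    simp only [hΨ]
    rw [show s + 1 + t.im * Complex.I = s + t.im * Complex.I + 1 by ring, hper]
  have h := hasSum_fc_real hΨd hΨp t.re
  have ht : (t.re : ℂ) + t.im * Complex.I = t := Complex.re_add_im t
  simp only [hΨ, ht] at h
  convert h using 1
  funext n
  have e : fc Φ n = ee (-n) (t.im * Complex.I) * fc (fun s => Φ (s + t.im * Complex.I)) n := by
    rw [fc_shift hΦ hper n t.im]
    unfold fc
    rw [← smul_eq_mul (ee (-n) (t.im * Complex.I)), ← intervalIntegral.integral_smul]
    refine intervalIntegral.integral_congr fun x _ => ?_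
    simp only [ee_add', smul_eq_mul]
    ring
  rw [e, ← mul_assoc]
  congr 1
  have e2 : ee n t = ee n t.re * ee n (t.im * Complex.I) := by rw [← ee_add', ht]
  rw [e2, mul_assoc, ← ee_add, add_neg_cancel, ee_zero, mul_one]

/-- Fourier expansion of a periodic entire function with values in a Banach space. -/
lemma hasSum_fc [CompleteSpace E] (hΦ : Differentiable ℂ Φ) (hper : ∀ t, Φ (t + 1) = Φ t) (t : ℂ) :
    HasSum (fun n : ℤ => ee n t • fc Φ n) (Φ t) := by
  have hs : Summable fun n : ℤ => ee n t • fc Φ n := (summable_norm_ee_smul_fc hΦ hper t).of_norm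
  have h : ∑' n : ℤ, ee n t • fc Φ n = Φ t := by
    rw [SeparatingDual.eq_iff_forall_dual_eq (R := ℂ)]
    intro L
    rw [L.map_tsum hs]
    have hd : Differentiable ℂ fun s => L (Φ s) := L.differentiable.comp hΦ
    have := hasSum_fc_scalar hd (fun s => by rw [hper]) t
    rw [← this.tsum_eq]
    refine tsum_congr fun n => ?_
    rw [map_smul, smul_eq_mul]
    congr 1
    unfold fc
    rw [← ContinuousLinearMap.intervalIntegral_comp_comm]
    · simp
    · exact ((continuous_ee _).comp Complex.continuous_ofReal |>.smul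
        (hΦ.continuous.comp Complex.continuous_ofReal)).intervalIntegrable _ _
  rw [← h]
  exact hs.hasSum

end

end Pool.Agent.H45
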