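import Pool.Agent.H45.Proj

/-!
# If the module of quasi-periodic functions is free, then the monodromy operator is joined to the
identity by a path of invertible operators
-/

set_option autoImplicit false

open Topology Filter Set MeasureTheory

namespace Pool.Agent.H45

section kap

variable {E : Type*} [NormedAddCommGroup E] [NormedSpace ℂ E] [CompleteSpace E]
  {u : (E →L[ℂ] E)ˣ}

/-- The quasi-periodic function `z ↦ K(z - t) e`. -/
noncomputable def kap (u : (E →L[ℂ] E)ˣ) (t : ℂ) : E →L[ℂ] QP u where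
  toFun e := ⟨⟨fun z => Kfun u (z - t) e,
      ((continuous_Kfun u).comp (continuous_id.sub continuous_const)).clm_apply continuous_const⟩,
    ((differentiable_Kfun u).comp (differentiable_id.sub_const t)).clm_apply
      (differentiable_const e), fun z => by
        show Kfun u (z + 1 - t) e = (u : E →L[ℂ] E) (Kfun u (z - t) e)
        rw [show z + 1 - t = z - t + 1 by ring, Kfun_add_one_left]; rfl⟩
  map_add' e e' := QP.ext fun z => (Kfun u (z - t)).map_add e e'
  map_smul' c e := QP.ext fun z => (Kfun u (z - t)).map_smul c e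
  cont := by
    refine Continuous.subtype_mk (ContinuousMap.continuous_of_continuous_uncurry _ ?_) _
    exact ((continuous_Kfun u).comp (continuous_snd.sub continuous_const)).clm_apply continuous_fst

lemma kap_apply (t z : ℂ) (e : E) : (kap u t e).1 z = Kfun u (z - t) e := rfl

lemma kap_self (t : ℂ) (e : E) : (kap u t e).1 t = e := by
  rw [kap_apply, sub_self, Kfun_zero]; rfl

/-- Evaluation at a point. -/
noncomputable def evQ (u : (E →L[ℂ] E)ˣ) (z : ℂ) : QP u →L[ℂ] E where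
  toFun f := f.1 z
  map_add' _ _ := rfl
  map_smul' _ _ := rfl
  cont := (continuous_eval_const z).comp continuous_subtype_val

lemma summable_smul_xi {c : ℤ → ℂ} {R : ℝ} (hR : 1 ≤ R) (hc : ∀ n, ‖c n‖ ≤ R ^ n.natAbs)
    (f : QP u) : Summable fun n : ℤ => c n • xi n f := by
  refine summable_of_seminorm fun q hq => ?_
  obtain ⟨C2, r2, hC2, h2⟩ := exists_bound_of_clm (ContinuousLinearMap.id ℂ (QP u)) hq
  obtain ⟨η, hη, hηR⟩ := exists_height hR
  obtain ⟨C3, hC3, h3⟩ := xi_decay (u := u) r2 η hη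
  obtain ⟨B, hB, hf⟩ := QP.exists_bound f (η + 1)
  have hR0 : 0 ≤ R := by linarith
  refine Summable.of_nonneg_of_le (fun n => apply_nonneg q _) (fun n => ?_)
    ((summable_exp_neg_abs one_pos).mul_left (C2 * C3 * B))
  rw [map_smul_eq_mul]
  calc ‖c n‖ * q (xi n f)
      ≤ R ^ n.natAbs * (C2 * (C3 * Real.exp (-(2 * Real.pi * η * |(n : ℝ)|)) * B)) := by
        have := h2 (xi n f) (C3 * Real.exp (-(2 * Real.pi * η * |(n : ℝ)|)) * B) (by positivity)
          (fun z hz => h3 f B hf n z hz)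
        have h0 := hc n
        simp only [ContinuousLinearMap.id_apply] at this
        gcongr
    _ = C2 * C3 * B * (Real.exp (-(2 * Real.pi * η * |(n : ℝ)|)) * R ^ n.natAbs) := by ring
    _ = _ := by rw [hηR]

lemma norm_ee_le (n : ℤ) (t : ℂ) : ‖ee n t‖ ≤ Real.exp (2 * Real.pi * ‖t‖) ^ n.natAbs := by
  rw [norm_ee, ← Real.exp_nat_mul]
  refine Real.exp_le_exp.2 ?_
  have h2 : ((n.natAbs : ℕ) : ℝ) = |(n : ℝ)| := by
    rw [Nat.cast_natAbs]; simp
  rw [h2]
  have h1 : -((n : ℝ) * t.im) ≤ |(n : ℝ)| * ‖t‖ := by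
    refine (neg_le_abs _).trans ?_
    rw [abs_mul]
    exact mul_le_mul_of_nonneg_left (Complex.abs_im_le_norm t) (abs_nonneg _)
  have h3 := mul_le_mul_of_nonneg_left h1 (by positivity : (0 : ℝ) ≤ 2 * Real.pi)
  nlinarith

lemma hasSum_ee_xi (f : QP u) (t : ℂ) :
    HasSum (fun n : ℤ => ee n t • xi n f) (kap u t (f.1 t)) := by
  have hs : Summable fun n : ℤ => ee n t • xi n f :=
    summable_smul_xi (Real.one_le_exp (by positivity)) (fun n => norm_ee_le n t) f
  have h : ∑' n : ℤ, ee n t • xi n f = kap u t (f.1 t) := by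
    refine QP.ext fun z => ?_
    have h1 := hs.hasSum.map (evQ u z) (evQ u z).continuous
    exact h1.unique (hasSum_xi f z t)
  rw [← h]
  exact hs.hasSum

lemma hasSum_wpow_xi (f : QP u) : HasSum (fun n : ℤ => wpow n • xi n f) f := by
  have h := hasSum_rho (ContinuousLinearMap.id ℂ (QP u)) f
  simp only [ContinuousLinearMap.id_apply] at h
  have h2 : rhoLin (ContinuousLinearMap.id ℂ (QP u)) f = f := by
    refine QP.ext fun z => ?_
    have h1 := h.map (evQ u z) (evQ u z).continuous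
    have h3 := hasSum_xi f z z
    rw [Phi_self] at h3
    refine h1.unique ?_
    convert h3 using 2 with n
    show (wpow n • xi n f).1 z = _
    rw [QP.hol_smul_apply, wpow_expU]
  rw [h2] at h
  exact h

end kap

section free

variable {E : Type*} [NormedAddCommGroup E] [NormedSpace ℂ E] [CompleteSpace E]
  {u : (E →L[ℂ] E)ˣ} {E' : Type*} [AddCommGroup E'] [Module ℂ E'] [UniformSpace E']
  [Polynormed E']

/-- Evaluation at a point, on a free module. -/
noncomputable def evH (E' : Type*) [AddCommGroup E'] [Module ℂ E'] [UniformSpace E']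
    [Polynormed E'] (w : Cstar) : HolMap Cstar E' →L[ℂ] E' where
  toFun F := F.fn w
  map_add' _ _ := rfl
  map_smul' _ _ := rfl
  cont := (continuous_eval_const w).comp HolMap.continuous_fn

/-- Constant maps. -/
noncomputable def constH (E' : Type*) [AddCommGroup E'] [Module ℂ E'] [UniformSpace E']
    [Polynormed E'] : E' →L[ℂ] HolMap Cstar E' where
  toFun e := ⟨ContinuousMap.const _ e, IsHol.const e⟩
  map_add' _ _ := rfl
  map_smul' _ _ := rfl
  cont := continuous_induced_rng.2 ContinuousMap.continuous_const'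

instance : IsScalarTower ℂ (Hol Cstar) (HolMap Cstar E') where
  smul_assoc c g F := HolMap.ext fun z => smul_assoc c (g.fn z) (F.fn z)

variable (Ψ : QP u ≃L[Hol Cstar] HolMap Cstar E')

/-- The isomorphism as a complex linear map. -/
noncomputable def PsiC : QP u →L[ℂ] HolMap Cstar E' :=
  (Ψ : QP u →L[Hol Cstar] HolMap Cstar E').restrictScalars ℂ

/-- The inverse isomorphism as a complex linear map. -/
noncomputable def PsiI : HolMap Cstar E' →L[ℂ] QP u :=
  (Ψ.symm : HolMap Cstar E' →L[Hol Cstar] QP u).restrictScalars ℂ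

lemma PsiC_PsiI (F : HolMap Cstar E') : PsiC Ψ (PsiI Ψ F) = F := Ψ.apply_symm_apply F

lemma PsiC_injective : Function.Injective (PsiC Ψ) := Ψ.injective

lemma PsiC_smul (g : Hol Cstar) (f : QP u) : PsiC Ψ (g • f) = g • PsiC Ψ f := map_smul Ψ g f

/-- The value of `Ψ f` over `t` depends only on `f t`. -/
lemma PsiC_local (f : QP u) (t : ℂ) :
    (PsiC Ψ f).fn (expU t) = (PsiC Ψ (kap u t (f.1 t))).fn (expU t) := by
  have h1 := (hasSum_wpow_xi f).map ((evH E' (expU t)).comp (PsiC Ψ))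
    ((evH E' (expU t)).comp (PsiC Ψ)).continuous
  have h2 := (hasSum_ee_xi f t).map ((evH E' (expU t)).comp (PsiC Ψ))
    ((evH E' (expU t)).comp (PsiC Ψ)).continuous
  refine h1.unique ?_
  have e1 : (⇑((evH E' (expU t)).comp (PsiC Ψ)) ∘ fun n : ℤ => wpow n • xi n f) =
      ⇑((evH E' (expU t)).comp (PsiC Ψ)) ∘ fun n : ℤ => ee n t • xi n f := by
    funext n
    simp only [Function.comp]
    rw [((evH E' (expU t)).comp (PsiC Ψ)).map_smul (ee n t) (xi n f)]
    show (PsiC Ψ (wpow n • xi n f)).fn (expU t) = ee n t • (PsiC Ψ (xi n f)).fn (expU t)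
    rw [PsiC_smul, HolMap.smul_apply, wpow_expU]
  rw [e1]
  exact h2

/-- `θ(t) : E → E'`. -/
noncomputable def theta (t : ℂ) : E →L[ℂ] E' := (evH E' (expU t)).comp ((PsiC Ψ).comp (kap u t))

/-- `e' ↦ Ψ⁻¹(const e')`. -/
noncomputable def JJ : E' →L[ℂ] QP u := (PsiI Ψ).comp (constH E')

/-- `h(t) : E' → E`. -/
noncomputable def hh (t : ℂ) : E' →L[ℂ] E := (evQ u t).comp (JJ Ψ)

lemma PsiC_JJ (e : E') (w : Cstar) : (PsiC Ψ (JJ Ψ e)).fn w = e := by
  show (PsiC Ψ (PsiI Ψ (constH E' e))).fn w = e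
  rw [PsiC_PsiI]; rfl

lemma theta_hh (t : ℂ) (e : E') : theta Ψ t (hh Ψ t e) = e := by
  have := PsiC_local Ψ (JJ Ψ e) t
  rw [PsiC_JJ] at this
  exact this.symm

/-- The difference quotients of `z ↦ F (exp (2πiz))` converge. -/
lemma exists_deriv_comp (F : HolMap Cstar E') (z₀ : ℂ) : ∃ d : E',
    Tendsto (fun z : ℂ => (z - z₀)⁻¹ • (F.fn (expU z) - F.fn (expU z₀))) (𝓝[≠] z₀) (𝓝 d) := by
  obtain ⟨d, hd⟩ := F.isHol (expU z₀)
  have hder : HasDerivAt (ee 1) (2 * Real.pi * Complex.I * ee 1 z₀) z₀ := by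
    unfold ee
    have h1 : HasDerivAt (fun t : ℂ => 2 * Real.pi * Complex.I * ((1 : ℤ) : ℂ) * t)
        (2 * Real.pi * Complex.I * ((1 : ℤ) : ℂ)) z₀ := by
      simpa using (hasDerivAt_id z₀).const_mul (2 * Real.pi * Complex.I * ((1 : ℤ) : ℂ))
    have h2 := h1.cexp
    have e : Complex.exp (2 * Real.pi * Complex.I * ((1 : ℤ) : ℂ) * z₀) *
      (2 * Real.pi * Complex.I * ((1 : ℤ) : ℂ)) = 2 * Real.pi * Complex.I *
        Complex.exp (2 * Real.pi * Complex.I * ((1 : ℤ) : ℂ) * z₀) := by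
      push_cast; ring
    rw [e] at h2
    exact h2
  have hne : (2 * Real.pi * Complex.I * ee 1 z₀ : ℂ) ≠ 0 :=
    mul_ne_zero Complex.two_pi_I_ne_zero (Complex.exp_ne_zero _)
  have hev : ∀ᶠ z in 𝓝[≠] z₀, ee 1 z ≠ ee 1 z₀ := hder.eventually_ne hne
  have h1 : Tendsto expU (𝓝[≠] z₀) (𝓝[≠] (expU z₀)) := by
    refine tendsto_nhdsWithin_iff.2 ⟨(expU.continuous.tendsto z₀).mono_left nhdsWithin_le_nhds, ?_⟩
    filter_upwards [hev] with z hz h
    exact hz (congrArg Subtype.val h)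
  have h2 := hd.comp h1
  have h3 := hasDerivAt_iff_tendsto_slope.1 hder
  refine ⟨(2 * Real.pi * Complex.I * ee 1 z₀) • d, (h3.smul h2).congr' ?_⟩
  filter_upwards [hev] with z hz
  have hz' : ee 1 z - ee 1 z₀ ≠ 0 := sub_ne_zero.2 hz
  simp only [Function.comp, slope_def_field, expU_coe]
  rw [smul_smul]
  congr 1
  field_simp

/-- The function `z ↦ h(z) (F (exp (2πiz)))`. -/
noncomputable def f2 (F : HolMap Cstar E') (z : ℂ) : E := (JJ Ψ (F.fn (expU z))).1 z

lemma differentiable_f2 (F : HolMap Cstar E') : Differentiable ℂ (f2 Ψ F) := by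
  intro z₀
  obtain ⟨d, hd⟩ := exists_deriv_comp F z₀
  have h1 : Tendsto (fun z : ℂ => (JJ Ψ ((z - z₀)⁻¹ • (F.fn (expU z) - F.fn (expU z₀)))).1)
      (𝓝[≠] z₀) (𝓝 (JJ Ψ d).1) :=
    ((continuous_subtype_val.comp (JJ Ψ).continuous).tendsto d).comp hd
  have h2 : Tendsto (fun z : ℂ => z) (𝓝[≠] z₀) (𝓝 z₀) := nhdsWithin_le_nhds
  have h3 : Tendsto (fun z : ℂ => (JJ Ψ ((z - z₀)⁻¹ • (F.fn (expU z) - F.fn (expU z₀)))).1 z)
      (𝓝[≠] z₀) (𝓝 ((JJ Ψ d).1 z₀)) := by
    have hev : Continuous fun p : C(ℂ, E) × ℂ => p.1 p.2 := continuous_eval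
    exact (hev.tendsto ((JJ Ψ d).1, z₀)).comp (h1.prodMk_nhds h2)
  have h4 : HasDerivAt (JJ Ψ (F.fn (expU z₀))).1 (deriv (JJ Ψ (F.fn (expU z₀))).1 z₀) z₀ :=
    ((JJ Ψ (F.fn (expU z₀))).2.1 z₀).hasDerivAt
  have h5 := hasDerivAt_iff_tendsto_slope.1 h4
  have h6 : HasDerivAt (f2 Ψ F) ((JJ Ψ d).1 z₀ + deriv (JJ Ψ (F.fn (expU z₀))).1 z₀) z₀ := by
    rw [hasDerivAt_iff_tendsto_slope]
    refine (h3.add h5).congr fun z => ?_
    simp only [slope, vsub_eq_sub, f2]
    rw [map_smul, map_sub]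
    show (z - z₀)⁻¹ • ((JJ Ψ (F.fn (expU z))).1 z - (JJ Ψ (F.fn (expU z₀))).1 z) +
      (z - z₀)⁻¹ • ((JJ Ψ (F.fn (expU z₀))).1 z - (JJ Ψ (F.fn (expU z₀))).1 z₀) = _
    rw [← smul_add]
    congr 1
    abel
  exact h6.differentiableAt

/-- The function `z ↦ h(z) (F (exp (2πiz)))` as an element of the module. -/
noncomputable def f2Q (F : HolMap Cstar E') : QP u :=
  ⟨⟨f2 Ψ F, (differentiable_f2 Ψ F).continuous⟩, differentiable_f2 Ψ F, fun z => by
    show (JJ Ψ (F.fn (expU (z + 1)))).1 (z + 1) = (u : E →L[ℂ] E) ((JJ Ψ (F.fn (expU z))).1 z)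
    rw [expU_add_one, QP.add_one]⟩

lemma f2Q_eq (f : QP u) : f2Q Ψ (PsiC Ψ f) = f := by
  apply PsiC_injective Ψ
  refine HolMap.ext fun w => ?_
  obtain ⟨t, rfl⟩ := expU_surjective w
  rw [PsiC_local]
  exact theta_hh Ψ t _

lemma hh_theta (t : ℂ) (e : E) : hh Ψ t (theta Ψ t e) = e := by
  have h := congrArg (fun f : QP u => f.1 t) (f2Q_eq Ψ (kap u t e))
  simp only [kap_self] at h
  exact h

lemma hh_add_one (t : ℂ) (e : E') : hh Ψ (t + 1) e = (u : E →L[ℂ] E) (hh Ψ t e) :=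
  QP.add_one (JJ Ψ e) t

/-- The path of invertible operators. -/
noncomputable def path (t : ℂ) : E →L[ℂ] E := (hh Ψ t).comp (theta Ψ 0)

lemma path_zero : path Ψ 0 = 1 := by
  ext e
  exact hh_theta Ψ 0 e

lemma path_one : path Ψ 1 = u := by
  ext e
  show hh Ψ 1 (theta Ψ 0 e) = _
  rw [show (1 : ℂ) = 0 + 1 by ring, hh_add_one, hh_theta]

lemma isUnit_path (t : ℂ) : IsUnit (path Ψ t) := by
  refine ⟨⟨path Ψ t, (hh Ψ 0).comp (theta Ψ t), ?_, ?_⟩, rfl⟩
  · ext e
    show hh Ψ t (theta Ψ 0 (hh Ψ 0 (theta Ψ t e))) = e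
    rw [theta_hh, hh_theta]
  · ext e
    show hh Ψ 0 (theta Ψ t (hh Ψ t (theta Ψ 0 e))) = e
    rw [theta_hh, hh_theta]

lemma exists_bound_path (r : ℝ) : ∃ M : ℝ, 0 ≤ M ∧ ∀ (e : E) (z : ℂ), ‖z‖ ≤ r →
    ‖path Ψ z e‖ ≤ M * ‖e‖ := by
  have hK : CompactSpace (Metric.closedBall (0 : ℂ) r) :=
    isCompact_iff_compactSpace.1 (isCompact_closedBall _ _)
  let L : E →L[ℂ] C(Metric.closedBall (0 : ℂ) r, E) :=
    { toFun := fun e => ((JJ Ψ (theta Ψ 0 e)).1).restrict (Metric.closedBall (0 : ℂ) r)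
      map_add' := fun e e' => by ext z; simp
      map_smul' := fun c e => by ext z; simp
      cont := (ContinuousMap.continuous_restrict _).comp
        (continuous_subtype_val.comp ((JJ Ψ).continuous.comp (theta Ψ 0).continuous)) }
  refine ⟨‖L‖, norm_nonneg _, fun e z hz => ?_⟩
  exact ((L e).norm_coe_le_norm ⟨z, by simpa using hz⟩).trans (L.le_opNorm e)

lemma differentiable_path (e : E) : Differentiable ℂ fun z => path Ψ z e :=
  (JJ Ψ (theta Ψ 0 e)).2.1

lemma continuous_path : Continuous (path Ψ) := by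
  rw [continuous_iff_continuousAt]
  intro s
  obtain ⟨M, hM, hb⟩ := exists_bound_path Ψ (‖s‖ + 2)
  have hlip : ∀ z ∈ Metric.ball s 1, ‖path Ψ z - path Ψ s‖ ≤ M * ‖z - s‖ := by
    intro z hz
    refine ContinuousLinearMap.opNorm_le_bound _ (by positivity) fun e => ?_
    have h := Convex.norm_image_sub_le_of_norm_deriv_le (𝕜 := ℂ) (f := fun z => path Ψ z e)
      (s := Metric.ball s 1) (C := M * ‖e‖) (x := s) (y := z)
      (fun w _ => differentiable_path Ψ e w) (fun w hw => by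
        have := Complex.norm_deriv_le_of_forall_mem_sphere_norm_le (c := w) (R := 1)
          (C := M * ‖e‖) (f := fun z => path Ψ z e) one_pos
          (differentiable_path Ψ e).diffContOnCl (fun v hv => hb e v (by
            have h1 : ‖v - w‖ = 1 := by simpa [dist_eq_norm] using hv
            have h2 : ‖w - s‖ < 1 := by simpa [dist_eq_norm] using hw
            calc ‖v‖ = ‖(v - w) + (w - s) + s‖ := by ring_nf
              _ ≤ ‖(v - w) + (w - s)‖ + ‖s‖ := norm_add_le _ _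
              _ ≤ ‖v - w‖ + ‖w - s‖ + ‖s‖ := by gcongr; exact norm_add_le _ _
              _ ≤ ‖s‖ + 2 := by linarith))
        simpa using this) (convex_ball s 1) (Metric.mem_ball_self one_pos) hz
    show ‖path Ψ z e - path Ψ s e‖ ≤ _
    refine h.trans (le_of_eq (by ring))
  rw [ContinuousAt, tendsto_iff_norm_sub_tendsto_zero]
  have h0 : Tendsto (fun z : ℂ => M * ‖z - s‖) (𝓝 s) (𝓝 0) := by
    have : Continuous fun z : ℂ => M * ‖z - s‖ := by fun_prop
    simpa using this.tendsto s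
  refine squeeze_zero' (Eventually.of_forall fun z => norm_nonneg _) ?_ h0
  filter_upwards [Metric.ball_mem_nhds s one_pos] with z hz using hlip z hz

end free

/-- If the module of quasi-periodic functions is free, then its monodromy operator is joined to the
identity by a path of invertible operators. -/
theorem exists_path_of_isFree {E : Type*} [NormedAddCommGroup E] [NormedSpace ℂ E]
    [CompleteSpace E] {u : (E →L[ℂ] E)ˣ} (h : IsFree Cstar (QP u)) :
    ∃ A : ℂ → (E →L[ℂ] E), Continuous A ∧ (∀ s, IsUnit (A s)) ∧ A 0 = 1 ∧ A 1 = u := by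
  obtain ⟨E', _, _, _, _, ⟨Ψ⟩⟩ := h
  exact ⟨path Ψ, continuous_path Ψ, isUnit_path Ψ, path_zero Ψ, path_one Ψ⟩

end Pool.Agent.H45
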