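import Mathlib

/-!
# Polynormed modules over algebras of holomorphic functions: definitions

`U` is an open subset of `ℂ`.  `HolMap U E` is the space `O(U, E)` of holomorphic maps from `U` to a
topological vector space `E`, with the topology of uniform convergence on compact sets, and
`Hol U` is the topological algebra `O(U)`.
-/

set_option autoImplicit false

open Topology Filter Set

namespace Pool.Agent.H45

universe u v

section Defs

/-- `f : U → E` is holomorphic: its complex derivative exists (in `E`) at every point of `U`. -/
def IsHol (U : Set ℂ) {E : Type*} [AddCommGroup E] [Module ℂ E] [TopologicalSpace E]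
    (f : U → E) : Prop :=
  ∀ z : U, ∃ d : E, Tendsto (fun w : U => ((w : ℂ) - (z : ℂ))⁻¹ • (f w - f z)) (𝓝[≠] z) (𝓝 d)

section basic

variable {U : Set ℂ} {E : Type*} [AddCommGroup E] [Module ℂ E] [TopologicalSpace E]

lemma IsHol.const [ContinuousConstSMul ℂ E] (e : E) : IsHol U (fun _ : U => e) := fun z =>
  ⟨0, by simpa using tendsto_const_nhds⟩

lemma IsHol.add [ContinuousAdd E] {f g : U → E} (hf : IsHol U f) (hg : IsHol U g) :
    IsHol U (fun z => f z + g z) := fun z => by
  obtain ⟨a, ha⟩ := hf z
  obtain ⟨b, hb⟩ := hg z
  refine ⟨a + b, (ha.add hb).congr fun w => ?_⟩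
  rw [← smul_add, add_sub_add_comm]

lemma IsHol.neg [ContinuousNeg E] {f : U → E} (hf : IsHol U f) : IsHol U (fun z => -f z) :=
  fun z => by
  obtain ⟨a, ha⟩ := hf z
  refine ⟨-a, ha.neg.congr fun w => ?_⟩
  rw [← smul_neg, neg_sub, neg_sub_neg]

lemma isHol_smul [ContinuousSMul ℂ E] [ContinuousAdd E] {g : U → ℂ} {f : U → E} (hg : IsHol U g)
    (hgc : Continuous g) (hf : IsHol U f) : IsHol U (fun z => g z • f z) := fun z => by
  obtain ⟨a, ha⟩ := hg z
  obtain ⟨b, hb⟩ := hf z
  have h1 : Tendsto g (𝓝[≠] z) (𝓝 (g z)) := (hgc.tendsto z).mono_left nhdsWithin_le_nhds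
  refine ⟨g z • b + a • f z, ((h1.smul hb).add (ha.smul_const (f z))).congr fun w => ?_⟩
  rw [smul_comm (g w), smul_assoc, ← smul_add]
  congr 1
  rw [smul_sub, sub_smul]; abel

/-- A continuous linear map sends holomorphic maps to holomorphic maps. -/
lemma IsHol.clm_comp {F : Type*} [AddCommGroup F] [Module ℂ F] [TopologicalSpace F]
    {f : U → E} (hf : IsHol U f) (L : E →L[ℂ] F) : IsHol U (fun z => L (f z)) := fun z => by
  obtain ⟨a, ha⟩ := hf z
  refine ⟨L a, ((L.continuous.tendsto a).comp ha).congr fun w => ?_⟩
  simp

end basic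

/-- The holomorphic functions on `U`, as a subalgebra of the algebra of continuous functions. -/
def holSubalgebra (U : Set ℂ) : Subalgebra ℂ C(U, ℂ) where
  carrier := {f | IsHol U f}
  mul_mem' := fun {f _} hf hg => isHol_smul hf f.continuous hg
  add_mem' := fun hf hg => IsHol.add hf hg
  algebraMap_mem' := fun c => IsHol.const c

/-- `O(U)`: the algebra of holomorphic functions on `U`, a topological algebra with the topology of
uniform convergence on compact sets (the compact-open topology of `C(U, ℂ)`). -/
def Hol (U : Set ℂ) : Type := holSubalgebra U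

/-- The ring structure of `O(U)` (pointwise operations). -/
noncomputable instance Hol.instCommRing (U : Set ℂ) : CommRing (Hol U) :=
  (holSubalgebra U).toCommRing

/-- The complex algebra structure of `O(U)`. -/
noncomputable instance Hol.instAlgebra (U : Set ℂ) : Algebra ℂ (Hol U) :=
  (holSubalgebra U).algebra

/-- The topology of uniform convergence on compact sets. -/
noncomputable instance Hol.instTop (U : Set ℂ) : TopologicalSpace (Hol U) :=
  instTopologicalSpaceSubtype

/-- The continuous function underlying an element of `O(U)`. -/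
noncomputable def Hol.fn {U : Set ℂ} (g : Hol U) : C(U, ℂ) := (show holSubalgebra U from g).1

lemma Hol.isHol {U : Set ℂ} (g : Hol U) : IsHol U g.fn := (show holSubalgebra U from g).2

/-- `O(U, E)`: the space of holomorphic maps from `U` to `E`. -/
structure HolMap (U : Set ℂ) (E : Type*) [AddCommGroup E] [Module ℂ E] [TopologicalSpace E] where
  /-- The underlying continuous map. -/
  fn : C(U, E)
  /-- The map is holomorphic. -/
  isHol : IsHol U fn

section module

variable {U : Set ℂ} {E : Type*} [AddCommGroup E] [Module ℂ E] [TopologicalSpace E]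

lemma HolMap.ext {f g : HolMap U E} (h : ∀ z, f.fn z = g.fn z) : f = g := by
  obtain ⟨f, hf⟩ := f
  obtain ⟨g, hg⟩ := g
  have : f = g := ContinuousMap.ext h
  subst this
  rfl

lemma Hol.ext {f g : Hol U} (h : ∀ z, f.fn z = g.fn z) : f = g :=
  Subtype.ext (ContinuousMap.ext h)

/-- `O(U, E)` carries the topology of uniform convergence on compact sets (the compact-open
topology of `C(U, E)`). -/
noncomputable instance HolMap.instTop : TopologicalSpace (HolMap U E) :=
  TopologicalSpace.induced HolMap.fn inferInstance

lemma HolMap.continuous_fn : Continuous (HolMap.fn : HolMap U E → C(U, E)) :=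
  continuous_induced_dom

lemma Hol.continuous_fn : Continuous (Hol.fn : Hol U → C(U, ℂ)) :=
  continuous_subtype_val

variable [IsTopologicalAddGroup E] [ContinuousSMul ℂ E]

/-- Pointwise addition. -/
noncomputable instance HolMap.instAdd : Add (HolMap U E) where
  add f g := ⟨f.fn + g.fn, IsHol.add f.isHol g.isHol⟩

/-- The zero map. -/
noncomputable instance HolMap.instZero : Zero (HolMap U E) where
  zero := ⟨0, IsHol.const 0⟩

/-- Pointwise negation. -/
noncomputable instance HolMap.instNeg : Neg (HolMap U E) where
  neg f := ⟨-f.fn, f.isHol.neg⟩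

/-- The additive group `O(U, E)`. -/
noncomputable instance HolMap.instAddCommGroup : AddCommGroup (HolMap U E) :=
  { AddGroup.ofLeftAxioms (fun _ _ _ => HolMap.ext fun _ => add_assoc _ _ _)
      (fun _ => HolMap.ext fun _ => zero_add _)
      (fun _ => HolMap.ext fun _ => neg_add_cancel _) with
    add_comm := fun _ _ => HolMap.ext fun _ => add_comm _ _ }

/-- Pointwise multiplication by scalars. -/
noncomputable instance HolMap.instSMulC : SMul ℂ (HolMap U E) where
  smul c f := ⟨c • f.fn, isHol_smul (IsHol.const c) continuous_const f.isHol⟩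

/-- The complex vector space `O(U, E)`. -/
noncomputable instance HolMap.instModuleC : Module ℂ (HolMap U E) where
  one_smul _ := HolMap.ext fun _ => one_smul ℂ _
  mul_smul _ _ _ := HolMap.ext fun _ => mul_smul _ _ _
  smul_zero _ := HolMap.ext fun _ => smul_zero _
  smul_add _ _ _ := HolMap.ext fun _ => smul_add _ _ _
  add_smul _ _ _ := HolMap.ext fun _ => add_smul _ _ _
  zero_smul f := HolMap.ext fun z => zero_smul ℂ (f.fn z)

/-- The pointwise action `(g • f)(z) = g(z) f(z)` of `O(U)` on `O(U, E)`. -/
noncomputable instance HolMap.instSMul : SMul (Hol U) (HolMap U E) where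
  smul g f := ⟨⟨fun z => g.fn z • f.fn z, g.fn.continuous.smul f.fn.continuous⟩,
    isHol_smul g.isHol g.fn.continuous f.isHol⟩

lemma HolMap.smul_apply (g : Hol U) (f : HolMap U E) (z : U) :
    (g • f).fn z = g.fn z • f.fn z := rfl

/-- `O(U, E)` is a module over `O(U)` for the pointwise action. -/
noncomputable instance HolMap.instModule : Module (Hol U) (HolMap U E) where
  one_smul _ := HolMap.ext fun _ => one_smul ℂ _
  mul_smul _ _ _ := HolMap.ext fun _ => mul_smul _ _ _
  smul_zero _ := HolMap.ext fun _ => smul_zero _
  smul_add _ _ _ := HolMap.ext fun _ => smul_add _ _ _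
  add_smul _ _ _ := HolMap.ext fun _ => add_smul _ _ _
  zero_smul f := HolMap.ext fun z => zero_smul ℂ (f.fn z)

end module

/-- `E` is a polynormed space: a complete Hausdorff locally convex space over `ℂ`. -/
class Polynormed (E : Type*) [AddCommGroup E] [Module ℂ E] [UniformSpace E] : Prop extends
  IsUniformAddGroup E, ContinuousSMul ℂ E, LocallyConvexSpace ℝ E, CompleteSpace E, T2Space E

/-- `X` is a polynormed `O(U)`-module: a polynormed space with a unital `O(U)`-module structure
(compatible with the scalars) whose action `O(U) × X → X` is jointly continuous. -/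
class PolynormedModule (U : Set ℂ) (X : Type*) [AddCommGroup X] [Module ℂ X] [UniformSpace X]
    [Module (Hol U) X] : Prop extends Polynormed X, IsScalarTower ℂ (Hol U) X where
  continuousSMul_hol : ContinuousSMul (Hol U) X

attribute [instance] PolynormedModule.continuousSMul_hol

/-- `X` is projective (with respect to polynormed modules `Y` in the universe `u`): every morphism
`φ : Y → X` of polynormed `O(U)`-modules with a continuous linear right inverse has a right inverse
that is a morphism of polynormed `O(U)`-modules. -/
def IsProjective (U : Set ℂ) (X : Type v) [AddCommGroup X] [Module ℂ X] [UniformSpace X]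
    [Module (Hol U) X] : Prop :=
  ∀ (Y : Type u) [AddCommGroup Y] [Module ℂ Y] [UniformSpace Y] [Module (Hol U) Y]
    [PolynormedModule U Y] (φ : Y →L[Hol U] X),
    (∃ σ : X →L[ℂ] Y, ∀ x, φ (σ x) = x) → ∃ ρ : X →L[Hol U] Y, ∀ x, φ (ρ x) = x

/-- `X` is free (with coefficients in the universe `u`): it is topologically isomorphic, as an
`O(U)`-module, to `O(U, E)` for some polynormed space `E`. -/
def IsFree (U : Set ℂ) (X : Type v) [AddCommGroup X] [Module ℂ X] [UniformSpace X]
    [Module (Hol U) X] : Prop :=
  ∃ (E : Type u) (_ : AddCommGroup E) (_ : Module ℂ E) (_ : UniformSpace E) (_ : Polynormed E),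
    Nonempty (X ≃L[Hol U] HolMap U E)

end Defs

end Pool.Agent.H45
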