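import Mathlib

/-!
# The interpolation kernel

`cfun s = exp (-s²) (exp (2πis) - 1) / (2πis)` is entire, equals `1` at `0` and `0` at the other
integers, and decays like a Gaussian on horizontal strips.  For an invertible operator `u` on a
Banach space, `Kfun u s = ∑ m, cfun (s - m) u^m`.
-/

set_option autoImplicit false

open Topology Filter Set

namespace Pool.Agent.H45

/-- The entire function `(exp z - 1) / z`. -/
noncomputable def E1 (z : ℂ) : ℂ := dslope Complex.exp 0 z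

lemma differentiable_E1 : Differentiable ℂ E1 := by
  have := (Complex.differentiableOn_dslope (s := Set.univ) (c := 0) (f := Complex.exp)
    (by simp)).2 Complex.differentiable_exp.differentiableOn
  exact differentiableOn_univ.1 this

lemma E1_zero : E1 0 = 1 := by
  simp [E1, dslope_same]

lemma E1_of_ne {z : ℂ} (hz : z ≠ 0) : E1 z = (Complex.exp z - 1) / z := by
  rw [E1, dslope_of_ne _ hz, slope_def_field]; simp

lemma norm_E1_le (z : ℂ) : ‖E1 z‖ ≤ Real.exp |z.re| := by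
  by_cases hz : z = 0
  · subst hz; rw [E1_zero]; simp
  · rw [E1_of_ne hz, norm_div, div_le_iff₀ (norm_pos_iff.2 hz)]
    have h := Convex.norm_image_sub_le_of_norm_deriv_le (𝕜 := ℂ) (f := Complex.exp)
      (s := {w : ℂ | w.re ≤ |z.re|}) (C := Real.exp |z.re|) (x := 0) (y := z)
      (fun w _ => Complex.differentiable_exp w) (fun w hw => by
        rw [Complex.deriv_exp, Complex.norm_exp]
        exact Real.exp_le_exp.2 hw) (convex_halfSpace_re_le _) (by simp) (le_abs_self z.re)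
    simpa using h

/-- The interpolating function. -/
noncomputable def cfun (s : ℂ) : ℂ := Complex.exp (-s ^ 2) * E1 (2 * Real.pi * Complex.I * s)

lemma differentiable_cfun : Differentiable ℂ cfun := by
  unfold cfun
  refine Differentiable.mul (by fun_prop) (differentiable_E1.comp (by fun_prop))

lemma cfun_zero : cfun 0 = 1 := by simp [cfun, E1_zero]

lemma cfun_int {m : ℤ} (hm : m ≠ 0) : cfun m = 0 := by
  have h1 : (2 * Real.pi * Complex.I * m : ℂ) ≠ 0 := by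
    simp [Real.pi_ne_zero, hm]
  have h2 : Complex.exp (2 * Real.pi * Complex.I * m) = 1 := by
    rw [Complex.exp_eq_one_iff]; exact ⟨m, by ring⟩
  rw [cfun, E1_of_ne h1, h2]; simp

lemma norm_cfun_le (s : ℂ) :
    ‖cfun s‖ ≤ Real.exp (-s.re ^ 2 + s.im ^ 2 + 2 * Real.pi * |s.im|) := by
  rw [cfun, norm_mul, Complex.norm_exp, Real.exp_add]
  refine mul_le_mul (Real.exp_le_exp.2 (le_of_eq ?_)) ((norm_E1_le _).trans
    (Real.exp_le_exp.2 (le_of_eq ?_))) (norm_nonneg _) (Real.exp_pos _).le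
  · simp [pow_two]; ring
  · have : (2 * Real.pi * Complex.I * s : ℂ).re = -(2 * Real.pi * s.im) := by simp
    rw [this, abs_neg, abs_mul, abs_of_pos (by positivity : (0:ℝ) < 2 * Real.pi)]

/-- Gaussian bound for the translates of `cfun` on a ball. -/
lemma norm_cfun_sub_le {R : ℝ} {s : ℂ} (hs : ‖s‖ ≤ R) (m : ℤ) :
    ‖cfun (s - m)‖ ≤ Real.exp (2 * R ^ 2 + 2 * Real.pi * R) * Real.exp (-(m : ℝ) ^ 2 / 2) := by
  refine (norm_cfun_le _).trans ?_
  rw [← Real.exp_add]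
  refine Real.exp_le_exp.2 ?_
  have h1 : (s - m : ℂ).re = s.re - m := by simp
  have h2 : (s - m : ℂ).im = s.im := by simp
  rw [h1, h2]
  have h3 : |s.re| ≤ R := (Complex.abs_re_le_norm s).trans hs
  have h4 : |s.im| ≤ R := (Complex.abs_im_le_norm s).trans hs
  have h5 : s.re ^ 2 ≤ R ^ 2 := by rw [← sq_abs]; gcongr
  have h6 : s.im ^ 2 ≤ R ^ 2 := by rw [← sq_abs]; gcongr
  have h7 : 2 * Real.pi * |s.im| ≤ 2 * Real.pi * R := by
    have := Real.pi_pos
    gcongr
  nlinarith [sq_nonneg (2 * s.re - m)]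

section Kfun

variable {E : Type*} [NormedAddCommGroup E] [NormedSpace ℂ E]

/-- Bound for the powers of an invertible operator. -/
lemma exists_norm_zpow_le (u : (E →L[ℂ] E)ˣ) :
    ∃ C : ℝ, 1 ≤ C ∧ ∀ m : ℤ, ‖((u ^ m : (E →L[ℂ] E)ˣ) : E →L[ℂ] E)‖ ≤ C ^ m.natAbs := by
  have hpow : ∀ (a : E →L[ℂ] E) (n : ℕ), ‖a ^ n‖ ≤ ‖a‖ ^ n := by
    intro a n
    rcases Nat.eq_zero_or_pos n with rfl | hn
    · simpa using! ContinuousLinearMap.norm_id_le (𝕜 := ℂ) (E := E)
    · exact norm_pow_le' a hn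
  refine ⟨max 1 (max ‖(u : E →L[ℂ] E)‖ ‖((u⁻¹ : (E →L[ℂ] E)ˣ) : E →L[ℂ] E)‖), le_max_left _ _,
    fun m => ?_⟩
  rcases Int.natAbs_eq m with h | h
  · have e : ((u ^ m : (E →L[ℂ] E)ˣ) : E →L[ℂ] E) = (u : E →L[ℂ] E) ^ m.natAbs := by
      conv_lhs => rw [h, zpow_natCast, Units.val_pow_eq_pow_val]
    rw [e]
    refine (hpow _ _).trans (pow_le_pow_left₀ (norm_nonneg _) ?_ _)
    exact (le_max_left _ _).trans (le_max_right _ _)
  · have e : ((u ^ m : (E →L[ℂ] E)ˣ) : E →L[ℂ] E) =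
        ((u⁻¹ : (E →L[ℂ] E)ˣ) : E →L[ℂ] E) ^ m.natAbs := by
      conv_lhs => rw [h, zpow_neg, zpow_natCast, ← inv_pow, Units.val_pow_eq_pow_val]
    rw [e]
    refine (hpow _ _).trans (pow_le_pow_left₀ (norm_nonneg _) ?_ _)
    exact (le_max_right _ _).trans (le_max_right _ _)

lemma summable_gauss (C : ℝ) (hC : 1 ≤ C) :
    Summable (fun m : ℤ => Real.exp (-(m : ℝ) ^ 2 / 2) * C ^ m.natAbs) := by
  have h0 : 0 < C := by linarith
  have hb : ∀ n : ℕ, Real.exp (-(n : ℝ) ^ 2 / 2) * C ^ n ≤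
      Real.exp ((Real.log C + 1) ^ 2 / 2) * Real.exp (-1) ^ n := by
    intro n
    have e1 : C ^ n = Real.exp (n * Real.log C) := by
      rw [Real.exp_nat_mul, Real.exp_log h0]
    have e2 : Real.exp (-1) ^ n = Real.exp (n * (-1)) := by rw [Real.exp_nat_mul]
    rw [e1, e2, ← Real.exp_add, ← Real.exp_add]
    refine Real.exp_le_exp.2 ?_
    nlinarith [sq_nonneg ((n : ℝ) - (Real.log C + 1))]
  have hs : Summable fun n : ℕ => Real.exp (-(n : ℝ) ^ 2 / 2) * C ^ n := by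
    refine Summable.of_nonneg_of_le (fun n => by positivity) hb (Summable.mul_left _ ?_)
    exact summable_geometric_of_lt_one (Real.exp_pos _).le (by simp)
  refine Summable.of_nat_of_neg ?_ ?_
  · simpa using hs
  · simpa using hs

/-- The kernel `K(s) = ∑ₘ c(s - m) uᵐ`. -/
noncomputable def Kfun (u : (E →L[ℂ] E)ˣ) (s : ℂ) : E →L[ℂ] E :=
  ∑' m : ℤ, cfun (s - m) • ((u ^ m : (E →L[ℂ] E)ˣ) : E →L[ℂ] E)

lemma Kfun_bound (u : (E →L[ℂ] E)ˣ) (R : ℝ) : ∃ b : ℤ → ℝ, Summable b ∧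
    ∀ s : ℂ, ‖s‖ ≤ R → ∀ m : ℤ, ‖cfun (s - m) • ((u ^ m : (E →L[ℂ] E)ˣ) : E →L[ℂ] E)‖ ≤ b m := by
  obtain ⟨C, hC1, hC⟩ := exists_norm_zpow_le u
  refine ⟨fun m => Real.exp (2 * R ^ 2 + 2 * Real.pi * R) *
    (Real.exp (-(m : ℝ) ^ 2 / 2) * C ^ m.natAbs), (summable_gauss C hC1).mul_left _,
    fun s hs m => ?_⟩
  rw [norm_smul]
  show _ ≤ Real.exp (2 * R ^ 2 + 2 * Real.pi * R) * (Real.exp (-(m : ℝ) ^ 2 / 2) * C ^ m.natAbs)
  rw [← mul_assoc]
  exact mul_le_mul (norm_cfun_sub_le hs m) (hC m) (norm_nonneg _) (by positivity)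

variable [CompleteSpace E]

lemma summable_Kfun (u : (E →L[ℂ] E)ˣ) (s : ℂ) :
    Summable fun m : ℤ => cfun (s - m) • ((u ^ m : (E →L[ℂ] E)ˣ) : E →L[ℂ] E) := by
  obtain ⟨b, hb, h⟩ := Kfun_bound u ‖s‖
  exact Summable.of_norm_bounded hb (h s le_rfl)

lemma differentiable_Kfun (u : (E →L[ℂ] E)ˣ) : Differentiable ℂ (Kfun u) := by
  intro s
  obtain ⟨b, hb, h⟩ := Kfun_bound u (‖s‖ + 1)
  have := Complex.differentiableOn_tsum_of_summable_norm (U := Metric.ball (0 : ℂ) (‖s‖ + 1)) hb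
    (F := fun (m : ℤ) s => cfun (s - m) • ((u ^ m : (E →L[ℂ] E)ˣ) : E →L[ℂ] E)) (fun m => by
      have := differentiable_cfun
      exact ((this.comp (differentiable_id.sub_const _)).smul_const _).differentiableOn)
    Metric.isOpen_ball (fun m w hw => h w (by simpa using (Metric.mem_ball.1 hw).le) m)
  exact this.differentiableAt (Metric.isOpen_ball.mem_nhds (by simp))

omit [CompleteSpace E] in
lemma Kfun_zero (u : (E →L[ℂ] E)ˣ) : Kfun u 0 = 1 := by
  unfold Kfun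
  rw [tsum_eq_single 0]
  · simp [cfun_zero]
  · intro m hm
    have : cfun (0 - (m : ℂ)) = 0 := by
      have := cfun_int (m := -m) (by simpa using hm)
      simpa using this
    rw [this, zero_smul]

lemma Kfun_add_one_left (u : (E →L[ℂ] E)ˣ) (s : ℂ) : Kfun u (s + 1) = u * Kfun u s := by
  unfold Kfun
  rw [← (summable_Kfun u s).tsum_mul_left, ← (Equiv.addRight (1 : ℤ)).tsum_eq]
  refine tsum_congr fun m => ?_
  simp only [Equiv.coe_addRight, Int.cast_add, Int.cast_one, add_sub_add_right_eq_sub]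
  rw [add_comm m 1, zpow_one_add, Units.val_mul, mul_smul_comm]

lemma Kfun_add_one_right (u : (E →L[ℂ] E)ˣ) (s : ℂ) : Kfun u (s + 1) = Kfun u s * u := by
  unfold Kfun
  rw [← (summable_Kfun u s).tsum_mul_right, ← (Equiv.addRight (1 : ℤ)).tsum_eq]
  refine tsum_congr fun m => ?_
  simp only [Equiv.coe_addRight, Int.cast_add, Int.cast_one, add_sub_add_right_eq_sub]
  rw [zpow_add_one, Units.val_mul, smul_mul_assoc]

lemma continuous_Kfun (u : (E →L[ℂ] E)ˣ) : Continuous (Kfun u) := (differentiable_Kfun u).continuous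

end Kfun

end Pool.Agent.H45
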