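import Mathlib

/-!
# Sums in complete locally convex spaces
-/

set_option autoImplicit false

open Topology Filter Set

namespace Pool.Agent.H45

section

variable {Y : Type*} [AddCommGroup Y] [Module ℂ Y]

open scoped ComplexOrder in
lemma convex_complex_of_real {s : Set Y} (hs : Convex ℝ s) : Convex ℂ s := by
  intro x hx y hy a b ha hb hab
  have ha' : a = ((a.re : ℝ) : ℂ) := Complex.eq_re_of_ofReal_le (r := 0) (by simpa using ha)
  have hb' : b = ((b.re : ℝ) : ℂ) := Complex.eq_re_of_ofReal_le (r := 0) (by simpa using hb)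
  have h1 : 0 ≤ a.re := by rw [ha'] at ha; exact_mod_cast ha
  have h2 : 0 ≤ b.re := by rw [hb'] at hb; exact_mod_cast hb
  have h3 : a.re + b.re = 1 := by
    have := congrArg Complex.re hab
    simpa using this
  have := hs hx hy h1 h2 h3
  rw [ha', hb']
  exact this

variable [TopologicalSpace Y] [IsTopologicalAddGroup Y] [ContinuousSMul ℂ Y]
  [LocallyConvexSpace ℝ Y]

open scoped ComplexOrder in
/-- Every neighbourhood of zero of a locally convex space contains the unit ball of a continuous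
seminorm. -/
lemma exists_seminorm_of_nhds {V : Set Y} (hV : V ∈ 𝓝 (0 : Y)) :
    ∃ q : Seminorm ℂ Y, Continuous q ∧ ∀ y, q y < 1 → y ∈ V := by
  have hsm : ContinuousSMul ℝ Y := ⟨by
    have : Continuous fun p : ℝ × Y => (p.1 : ℂ) • p.2 :=
      (Complex.continuous_ofReal.comp continuous_fst).smul continuous_snd
    exact this⟩
  have : LocallyConvexSpace ℂ Y := by
    rw [locallyConvexSpace_iff_exists_convex_subset_zero]
    intro U hU
    obtain ⟨S, hS, hc, hSU⟩ := (locallyConvexSpace_iff_exists_convex_subset_zero ℝ Y).1 inferInstance U hU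
    exact ⟨S, hS, convex_complex_of_real hc, hSU⟩
  obtain ⟨s, hs, hsV⟩ := (nhds_hasBasis_absConvex_open ℂ Y).mem_iff.1 hV
  refine ⟨gaugeSeminormFamily ℂ Y ⟨s, hs⟩, with_gaugeSeminormFamily.continuous_seminorm _,
    fun y hy => hsV ?_⟩
  have h := gaugeSeminormFamily_ball (𝕜 := ℂ) (E := Y) ⟨s, hs⟩
  have h2 : y ∈ (gaugeSeminormFamily ℂ Y ⟨s, hs⟩).ball 0 1 := by
    rw [Seminorm.mem_ball_zero]; exact hy
  rw [h] at h2
  exact h2

omit [IsTopologicalAddGroup Y] [ContinuousSMul ℂ Y] [LocallyConvexSpace ℝ Y] in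
lemma seminorm_le_of_hasSum {ι : Type*} {x : ι → Y} {a : Y} (hx : HasSum x a) {q : Seminorm ℂ Y}
    (hq : Continuous q) {c : ι → ℝ} {C : ℝ} (hc : ∀ i, q (x i) ≤ c i) (hC : HasSum c C) :
    q a ≤ C := by
  have h1 : Tendsto (fun s : Finset ι => q (∑ i ∈ s, x i)) atTop (𝓝 (q a)) :=
    (hq.tendsto a).comp hx
  refine le_of_tendsto_of_tendsto' h1 hC fun s => ?_
  calc q (∑ i ∈ s, x i) ≤ ∑ i ∈ s, q (x i) := by
        exact Finset.le_sum_of_subadditive q (map_zero q).le (map_add_le_add q) s x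
    _ ≤ ∑ i ∈ s, c i := Finset.sum_le_sum fun i _ => hc i

end

section

variable {Y : Type*} [AddCommGroup Y] [Module ℂ Y] [UniformSpace Y] [IsUniformAddGroup Y]
  [ContinuousSMul ℂ Y] [LocallyConvexSpace ℝ Y] [CompleteSpace Y]

lemma summable_of_seminorm {ι : Type*} {x : ι → Y}
    (h : ∀ q : Seminorm ℂ Y, Continuous q → Summable fun i => q (x i)) : Summable x := by
  rw [summable_iff_vanishing]
  intro e he
  obtain ⟨q, hq, hqe⟩ := exists_seminorm_of_nhds he
  have hs := h q hq
  rw [summable_iff_vanishing_norm] at hs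
  obtain ⟨s, hs⟩ := hs 1 one_pos
  refine ⟨s, fun t ht => hqe _ ?_⟩
  refine lt_of_le_of_lt ?_ (hs t ht)
  rw [Real.norm_of_nonneg (Finset.sum_nonneg fun i _ => apply_nonneg q _)]
  exact Finset.le_sum_of_subadditive q (map_zero q).le (map_add_le_add q) t x

end

end Pool.Agent.H45
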