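import Pool.Agent.H45.QP
import Pool.Agent.H45.LCS

/-!
# Laurent expansions in the algebra of holomorphic functions on the punctured plane
-/

set_option autoImplicit false

open Topology Filter Set MeasureTheory

namespace Pool.Agent.H45

lemma isHol_of_differentiableAt {U : Set ℂ} {F : Type*} [NormedAddCommGroup F] [NormedSpace ℂ F]
    {g : ℂ → F} (h : ∀ z ∈ U, DifferentiableAt ℂ g z) : IsHol U (fun z : U => g z) := by
  intro z
  refine ⟨deriv g z, ?_⟩
  have h1 := (h z z.2).hasDerivAt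
  rw [hasDerivAt_iff_tendsto_slope] at h1
  have h2 : Tendsto (Subtype.val : U → ℂ) (𝓝[≠] z) (𝓝[≠] (z : ℂ)) := by
    refine tendsto_nhdsWithin_iff.2 ⟨(continuous_subtype_val.tendsto z).mono_left
      nhdsWithin_le_nhds, ?_⟩
    filter_upwards [self_mem_nhdsWithin] with w hw h
    exact hw (Subtype.ext h)
  exact h1.comp h2

/-- The monomials `w ↦ w ^ n`. -/
noncomputable def wpow (n : ℤ) : Hol Cstar :=
  show holSubalgebra Cstar from ⟨⟨fun z => (z : ℂ) ^ n, by
    refine Continuous.zpow₀ continuous_subtype_val n fun z => Or.inl z.2⟩,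
    isHol_of_differentiableAt fun z hz => differentiableAt_zpow.2 (Or.inl hz)⟩

lemma wpow_apply (n : ℤ) (z : Cstar) : (wpow n).fn z = (z : ℂ) ^ n := rfl

lemma wpow_expU (n : ℤ) (z : ℂ) : (wpow n).fn (expU z) = ee n z := by
  rw [wpow_apply, expU_coe, ee, ee, ← Complex.exp_int_mul]
  congr 1
  push_cast; ring

lemma wpow_add (n m : ℤ) : wpow (n + m) = wpow n * wpow m :=
  Hol.ext fun z => zpow_add₀ z.2 n m

lemma wpow_zero : wpow 0 = 1 := Hol.ext fun _ => zpow_zero _

/-- Powers are bounded on compact sets. -/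
lemma exists_zpow_bound {K : Set Cstar} (hK : IsCompact K) :
    ∃ R : ℝ, 1 ≤ R ∧ ∀ z ∈ K, ∀ n : ℤ, ‖(z : ℂ) ^ n‖ ≤ R ^ n.natAbs := by
  obtain ⟨R1, h1⟩ := hK.exists_bound_of_continuousOn (f := fun z : Cstar => (z : ℂ))
    continuous_subtype_val.continuousOn
  obtain ⟨R2, h2⟩ := hK.exists_bound_of_continuousOn (f := fun z : Cstar => (z : ℂ)⁻¹)
    (continuous_subtype_val.inv₀ fun z => z.2).continuousOn
  refine ⟨max 1 (max R1 R2), le_max_left _ _, fun z hz n => ?_⟩
  rcases Int.natAbs_eq n with h | h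
  · have e : (z : ℂ) ^ n = (z : ℂ) ^ n.natAbs := by
      conv_lhs => rw [h, zpow_natCast]
    rw [e, norm_pow]
    exact pow_le_pow_left₀ (norm_nonneg _) ((h1 z hz).trans ((le_max_left _ _).trans (le_max_right _ _))) _
  · have e : (z : ℂ) ^ n = ((z : ℂ)⁻¹) ^ n.natAbs := by
      conv_lhs => rw [h, zpow_neg, zpow_natCast, ← inv_pow]
    rw [e, norm_pow]
    exact pow_le_pow_left₀ (norm_nonneg _) ((h2 z hz).trans ((le_max_right _ _).trans (le_max_right _ _))) _

/-- Choice of the height of the strip. -/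
lemma exists_height {R : ℝ} (hR : 1 ≤ R) : ∃ η : ℝ, 0 ≤ η ∧ ∀ n : ℤ,
    Real.exp (-(2 * Real.pi * η * |(n : ℝ)|)) * R ^ n.natAbs = Real.exp (-(1 * |(n : ℝ)|)) := by
  have h0 : 0 < R := by linarith
  have hpi := Real.pi_pos
  refine ⟨(Real.log R + 1) / (2 * Real.pi), by have := Real.log_nonneg hR; positivity, fun n => ?_⟩
  have h1 : R ^ n.natAbs = Real.exp (n.natAbs * Real.log R) := by
    rw [Real.exp_nat_mul, Real.exp_log h0]
  rw [h1, ← Real.exp_add]
  congr 1
  have h2 : ((n.natAbs : ℕ) : ℝ) = |(n : ℝ)| := by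
    rw [Nat.cast_natAbs]; simp
  rw [h2]
  field_simp
  ring

/-- Laurent expansion. -/
lemma hasSum_laurent (g : Hol Cstar) : ∃ a : ℤ → ℂ, HasSum (fun n => a n • wpow n) g := by
  set Φ : ℂ → ℂ := fun t => g.fn (expU t) with hΦdef
  have hΦ : Differentiable ℂ Φ := IsHol.differentiable_comp isOpen_Cstar g.isHol (differentiable_ee 1)
  have hper : ∀ t, Φ (t + 1) = Φ t := fun t => by simp only [hΦdef, expU_add_one]
  refine ⟨fc Φ, ?_⟩
  have hpt : ∀ z : Cstar, HasSum (fun n => (fc Φ n • wpow n).fn z) (g.fn z) := by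
    intro z
    obtain ⟨t, rfl⟩ := expU_surjective z
    have := hasSum_fc_scalar hΦ hper t
    convert this using 2 with n
    show fc Φ n * (wpow n).fn (expU t) = _
    rw [wpow_expU, mul_comm]
  have hind : IsInducing (Hol.fn : Hol Cstar → C(Cstar, ℂ)) := IsInducing.subtypeVal
  rw [HasSum, hind.tendsto_nhds_iff,
    ContinuousMap.tendsto_iff_forall_isCompact_tendstoUniformlyOn]
  intro K hK
  obtain ⟨R, hR, hzR⟩ := exists_zpow_bound hK
  obtain ⟨η, hη, hηR⟩ := exists_height hR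
  obtain ⟨B1, hB1⟩ := exists_bound hΦ.continuous η
  obtain ⟨B2, hB2⟩ := exists_bound hΦ.continuous (-η)
  have hu : Summable fun n : ℤ => Real.exp (-(1 * |(n : ℝ)|)) * max B1 B2 :=
    (summable_exp_neg_abs one_pos).mul_right _
  have hB0 : 0 ≤ max B1 B2 := (norm_nonneg _).trans ((hB1 0 (by simp)).trans (le_max_left _ _))
  have := tendstoUniformlyOn_tsum (f := fun (n : ℤ) (z : Cstar) => (fc Φ n • wpow n).fn z) hu
    (s := K) (fun n z hz => by
      have h1 := norm_fc_le_abs hΦ hper n (η := η) (B := max B1 B2)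
        (fun x hx => (hB1 x hx).trans (le_max_left _ _))
        (fun x hx => (hB2 x hx).trans (le_max_right B1 B2))
      show ‖fc Φ n * (z : ℂ) ^ n‖ ≤ _
      rw [norm_mul]
      calc ‖fc Φ n‖ * ‖(z : ℂ) ^ n‖
          ≤ (Real.exp (-(2 * Real.pi * η * |(n : ℝ)|)) * max B1 B2) * R ^ n.natAbs :=
            mul_le_mul h1 (hzR z hz n) (norm_nonneg _) (by positivity)
        _ = (Real.exp (-(2 * Real.pi * η * |(n : ℝ)|)) * R ^ n.natAbs) * max B1 B2 := by ring
        _ = _ := by rw [hηR])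
  have e1 : (fun z : Cstar => ∑' n, (fc Φ n • wpow n).fn z) = fun z => g.fn z :=
    funext fun z => (hpt z).tsum_eq
  rw [e1] at this
  refine this.congr (Eventually.of_forall fun s z _ => ?_)
  let L : Hol Cstar →+ ℂ := ⟨⟨fun g => g.fn z, rfl⟩, fun _ _ => rfl⟩
  show ∑ n ∈ s, (fc Φ n • wpow n).fn z = (∑ b ∈ s, fc Φ b • wpow b : Hol Cstar).fn z
  exact (map_sum L (fun b => fc Φ b • wpow b) s).symm

end Pool.Agent.H45
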