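import Pool.Agent.H45.MatherMeas

open MeasureTheory Module Set Filter Topology

namespace Pool.H45.Mather

noncomputable section

set_option linter.unusedSectionVars false
set_option linter.style.haveILetI false

variable {n : ℕ} {E : Type*} [NormedAddCommGroup E] [InnerProductSpace ℝ E] [FiniteDimensional ℝ E]
  [MeasurableSpace E] [BorelSpace E] {b : Basis (Fin n) ℝ E}

/-- `(c + dφ)` is a subsolution with constant `κ`, in Lagrangian form. -/
def Sub (A : E → E) (V : E → ℝ) (c : E) (κ : ℝ) (φ : E → ℝ) : Prop :=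
  ∀ x v, inner ℝ c v + fderiv ℝ φ x v ≤ Lag A V (x, v) + κ

/-- the closed measure inequality -/
def Star (b : Basis (Fin n) ℝ E) (A : E → E) (V : E → ℝ) (c : E) (κ : ℝ) : Prop :=
  ∀ μ : Measure (E × E), IsClosedMeasure b μ →
    inner ℝ c (∫ z, z.2 ∂μ) ≤ ∫ z, Lag A V z ∂μ + κ

lemma IsClosedMeasure.integrable {μ : Measure (E × E)} (hμ : IsClosedMeasure b μ)
    {G : Type*} [NormedAddCommGroup G] {g : E × E → G} (hc : Continuous g)
    (hb : ∀ R : ℝ, ∃ C : ℝ, ∀ x v, ‖v‖ ≤ R → ‖g (x, v)‖ ≤ C) : Integrable g μ := by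
  haveI := hμ.prob
  obtain ⟨R, hR⟩ := hμ.bdd
  obtain ⟨C, hC⟩ := hb R
  refine Integrable.of_bound hc.aestronglyMeasurable C ?_
  filter_upwards [hR] with z hz
  exact hC z.1 z.2 hz

lemma continuous_Lag {A : E → E} {V : E → ℝ} (hA : Continuous A) (hV : Continuous V) :
    Continuous (Lag A V) := by
  unfold Lag
  fun_prop

lemma Lag_bound {A : E → E} {V : E → ℝ} (hA : Continuous A) (hAp : Per b A)
    (hV : Continuous V) (hVp : Per b V) (R : ℝ) :
    ∃ C : ℝ, ∀ x v, ‖v‖ ≤ R → ‖Lag A V (x, v)‖ ≤ C := by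
  obtain ⟨a, ha0, ha⟩ := hAp.bdd hA
  obtain ⟨q, hq0, hq⟩ := hVp.bdd hV
  refine ⟨R ^ 2 / 2 + a * R + q, fun x v hv => ?_⟩
  have hR : 0 ≤ R := (norm_nonneg v).trans hv
  unfold Lag
  have h1 : |inner ℝ (A x) v| ≤ a * R :=
    (abs_real_inner_le_norm _ _).trans (mul_le_mul (ha x) hv (norm_nonneg _) ha0)
  have h2 : |V x| ≤ q := hq x
  have h3 : ‖v‖ ^ 2 ≤ R ^ 2 := pow_le_pow_left₀ (norm_nonneg _) hv 2
  have h4 : 0 ≤ ‖v‖ ^ 2 := by positivity
  rw [Real.norm_eq_abs, abs_le]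
  rw [abs_le] at h1 h2
  simp only
  constructor <;> linarith [h1.1, h1.2, h2.1, h2.2]

lemma IsClosedMeasure.int_Lag {μ : Measure (E × E)} (hμ : IsClosedMeasure b μ) {A : E → E}
    {V : E → ℝ} (hA : Continuous A) (hAp : Per b A)
    (hV : Continuous V) (hVp : Per b V) : Integrable (Lag A V) μ :=
  hμ.integrable (continuous_Lag hA hV) (Lag_bound hA hAp hV hVp)

lemma IsClosedMeasure.int_snd {μ : Measure (E × E)} (hμ : IsClosedMeasure b μ) :
    Integrable (fun z : E × E => z.2) μ :=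
  hμ.integrable continuous_snd (fun R => ⟨R, fun _ _ h => h⟩)

lemma IsClosedMeasure.int_fderiv {μ : Measure (E × E)} (hμ : IsClosedMeasure b μ) {φ : E → ℝ}
    (hφ : ContDiff ℝ 1 φ) (hφp : Per b φ) :
    Integrable (fun z : E × E => fderiv ℝ φ z.1 z.2) μ := by
  have hdc : Continuous (fderiv ℝ φ) := hφ.continuous_fderiv one_ne_zero
  obtain ⟨Cφ, hCφ0, hCφ⟩ := hφp.fderiv.bdd hdc
  refine hμ.integrable ((hdc.comp continuous_fst).clm_apply continuous_snd) fun R => ⟨Cφ * R, ?_⟩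
  intro x v hv
  exact (ContinuousLinearMap.le_opNorm _ _).trans
    (mul_le_mul (hCφ _) hv (norm_nonneg _) hCφ0)

lemma Sub.star {A : E → E} {V : E → ℝ} (hA : Continuous A) (hAp : Per b A)
    (hV : Continuous V) (hVp : Per b V) {c : E} {κ : ℝ} {φ : E → ℝ}
    (hφ : ContDiff ℝ 1 φ) (hφp : Per b φ) (h : Sub A V c κ φ) : Star b A V c κ := by
  intro μ hμ
  haveI := hμ.prob
  have h1 : ∫ z, (inner ℝ c z.2 + fderiv ℝ φ z.1 z.2) ∂μ ≤ ∫ z, (Lag A V z + κ) ∂μ := by
    refine integral_mono ?_ ?_ fun z => h z.1 z.2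
    · exact (hμ.int_snd.const_inner c).add (hμ.int_fderiv hφ hφp)
    · exact (hμ.int_Lag hA hAp hV hVp).add (integrable_const _)
  rw [integral_add (hμ.int_snd.const_inner c) (hμ.int_fderiv hφ hφp), hμ.closed φ hφ hφp,
    integral_add (hμ.int_Lag hA hAp hV hVp) (integrable_const _), integral_const,
    integral_inner hμ.int_snd] at h1
  simpa using h1

lemma Lag_lower {A : E → E} {V : E → ℝ} (hA : Continuous A) (hAp : Per b A)
    (hV : Continuous V) (hVp : Per b V) : ∃ C : ℝ, ∀ z, C ≤ Lag A V z := by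
  obtain ⟨a, ha0, ha⟩ := hAp.bdd hA
  obtain ⟨q, hq0, hq⟩ := hVp.bdd hV
  refine ⟨-(a ^ 2 / 2) - q, fun z => ?_⟩
  unfold Lag
  have h1 : |inner ℝ (A z.1) z.2| ≤ a * ‖z.2‖ :=
    (abs_real_inner_le_norm _ _).trans (mul_le_mul_of_nonneg_right (ha _) (norm_nonneg _))
  have h2 : |V z.1| ≤ q := hq z.1
  rw [abs_le] at h1 h2
  nlinarith [sq_nonneg (‖z.2‖ - a), h1.1, h2.2]

lemma beta_bddBelow {A : E → E} {V : E → ℝ} (hA : Continuous A) (hAp : Per b A)
    (hV : Continuous V) (hVp : Per b V) (h : E) :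
    BddBelow {a | ∃ μ : Measure (E × E), IsClosedMeasure b μ ∧ ∫ z, z.2 ∂μ = h ∧
      ∫ z, Lag A V z ∂μ = a} := by
  obtain ⟨C, hC⟩ := Lag_lower hA hAp hV hVp
  refine ⟨C, ?_⟩
  rintro a ⟨μ, hμ, _, rfl⟩
  haveI := hμ.prob
  have : ∫ _ : E × E, C ∂μ ≤ ∫ z, Lag A V z ∂μ :=
    integral_mono (integrable_const _) (hμ.int_Lag hA hAp hV hVp) hC
  simpa using this

lemma beta_le {A : E → E} {V : E → ℝ} (hA : Continuous A) (hAp : Per b A)
    (hV : Continuous V) (hVp : Per b V) {μ : Measure (E × E)} (hμ : IsClosedMeasure b μ) :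
    beta b A V (∫ z, z.2 ∂μ) ≤ ∫ z, Lag A V z ∂μ :=
  csInf_le (beta_bddBelow hA hAp hV hVp _) ⟨μ, hμ, rfl, rfl⟩

/-- absolutely continuous measures moving with velocity `w` -/
def tm (b : Basis (Fin n) ℝ E) (Ψ : E → ℝ) (w : E) : Measure (E × E) :=
  ((lam b).withDensity (fun x => ENNReal.ofReal (Ψ x))).map (fun x => (x, w))

lemma integral_tm {Ψ : E → ℝ} (hΨ : Continuous Ψ) (hΨ0 : ∀ x, 0 ≤ Ψ x) (w : E) {G : Type*}
    [NormedAddCommGroup G] [NormedSpace ℝ G] {g : E × E → G} (hg : Continuous g) :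
    ∫ z, g z ∂(tm b Ψ w) = ∫ x, Ψ x • g (x, w) ∂(lam b) := by
  unfold tm
  rw [integral_map (by fun_prop) hg.aestronglyMeasurable,
    integral_withDensity_eq_integral_toReal_smul (by fun_prop) (by simp)]
  refine integral_congr_ae (Eventually.of_forall fun x => ?_)
  simp only
  rw [ENNReal.toReal_ofReal (hΨ0 x)]

lemma tm_closed {Ψ : E → ℝ} (hΨ : Continuous Ψ) (hΨp : Per b Ψ) (hΨ0 : ∀ x, 0 ≤ Ψ x)
    (h1 : ∫ x, Ψ x ∂(lam b) = 1) {w : E} (hw : ∀ (τ : ℝ) x, Ψ (x + τ • w) = Ψ x) :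
    IsClosedMeasure b (tm b Ψ w) := by
  refine ⟨?_, ⟨‖w‖, ?_⟩, ?_⟩
  · unfold tm
    refine @Measure.isProbabilityMeasure_map _ _ _ _ _ ?_ _ (by fun_prop)
    refine ⟨?_⟩
    rw [withDensity_apply _ MeasurableSet.univ, Measure.restrict_univ,
      ← ofReal_integral_eq_lintegral_ofReal (hΨp.integrable hΨ) (Eventually.of_forall hΨ0), h1]
    simp
  · unfold tm
    rw [ae_map_iff (by fun_prop) (measurableSet_le (by fun_prop) (by fun_prop))]
    exact Eventually.of_forall fun x => le_rfl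
  · intro φ hφ hφp
    have hdc : Continuous (fderiv ℝ φ) := hφ.continuous_fderiv one_ne_zero
    rw [integral_tm hΨ hΨ0 w (g := fun z : E × E => fderiv ℝ φ z.1 z.2)
      ((hdc.comp continuous_fst).clm_apply continuous_snd)]
    rw [← inv_lemma hφ hφp hΨ hΨp hw]
    refine integral_congr_ae (Eventually.of_forall fun x => ?_)
    simp [mul_comm]

lemma hom_tm {Ψ : E → ℝ} (hΨ : Continuous Ψ) (hΨ0 : ∀ x, 0 ≤ Ψ x)
    (h1 : ∫ x, Ψ x ∂(lam b) = 1) (w : E) : ∫ z, z.2 ∂(tm b Ψ w) = w := by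
  rw [integral_tm hΨ hΨ0 w continuous_snd, integral_smul_const, h1, one_smul]

lemma le_beta {A : E → E} {V : E → ℝ} {h : E} {a : ℝ}
    (H : ∀ μ : Measure (E × E), IsClosedMeasure b μ → ∫ z, z.2 ∂μ = h → a ≤ ∫ z, Lag A V z ∂μ) :
    a ≤ beta b A V h := by
  have h1 : ∫ _ : E, (1 : ℝ) ∂(lam b) = 1 := by simp
  refine le_csInf ⟨_, tm b (fun _ => 1) h, tm_closed continuous_const (Per.const _)
    (fun _ => zero_le_one) h1 (fun _ _ => rfl), hom_tm continuous_const (fun _ => zero_le_one) h1 h,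
    rfl⟩ ?_
  rintro _ ⟨μ, hμ, hh, rfl⟩
  exact H μ hμ hh

lemma Star.le_beta {A : E → E} {V : E → ℝ} {c : E} {κ : ℝ} (h : Star b A V c κ) (r : E) :
    inner ℝ c r - κ ≤ beta b A V r := by
  refine Mather.le_beta fun μ hμ hr => ?_
  have := h μ hμ
  rw [hr] at this
  linarith

lemma star_of_le_beta {A : E → E} {V : E → ℝ} (hA : Continuous A) (hAp : Per b A)
    (hV : Continuous V) (hVp : Per b V) {c : E} {κ : ℝ}
    (h : ∀ r, inner ℝ c r - κ ≤ beta b A V r) : Star b A V c κ := by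
  intro μ hμ
  have := (h (∫ z, z.2 ∂μ)).trans (beta_le hA hAp hV hVp hμ)
  linarith

lemma mix_closed {μ ν : Measure (E × E)} (hμ : IsClosedMeasure b μ) (hν : IsClosedMeasure b ν)
    {s : ℝ} (hs0 : 0 ≤ s) (hs1 : s ≤ 1) :
    IsClosedMeasure b (ENNReal.ofReal (1 - s) • μ + ENNReal.ofReal s • ν) := by
  haveI := hμ.prob
  haveI := hν.prob
  refine ⟨⟨?_⟩, ?_, ?_⟩
  · rw [Measure.add_apply, Measure.smul_apply, Measure.smul_apply, measure_univ, measure_univ,
      smul_eq_mul, smul_eq_mul, mul_one, mul_one, ← ENNReal.ofReal_add (by linarith) hs0]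
    simp
  · obtain ⟨R, hR⟩ := hμ.bdd
    obtain ⟨R', hR'⟩ := hν.bdd
    refine ⟨max R R', ?_⟩
    rw [ae_add_measure_iff]
    constructor
    · refine Measure.ae_smul_measure ?_ _
      filter_upwards [hR] with z hz using hz.trans (le_max_left _ _)
    · refine Measure.ae_smul_measure ?_ _
      filter_upwards [hR'] with z hz using hz.trans (le_max_right _ _)
  · intro φ hφ hφp
    rw [integral_add_measure ((hμ.int_fderiv hφ hφp).smul_measure ENNReal.ofReal_ne_top)
      ((hν.int_fderiv hφ hφp).smul_measure ENNReal.ofReal_ne_top), integral_smul_measure,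
      integral_smul_measure, hμ.closed φ hφ hφp, hν.closed φ hφ hφp]
    simp

lemma beta_convex {A : E → E} {V : E → ℝ} (hA : Continuous A) (hAp : Per b A)
    (hV : Continuous V) (hVp : Per b V) (h r : E) {s : ℝ} (hs0 : 0 ≤ s) (hs1 : s ≤ 1) :
    beta b A V (h + s • (r - h)) ≤ (1 - s) * beta b A V h + s * beta b A V r := by
  have hne : ∀ h : E, ({a | ∃ μ : Measure (E × E), IsClosedMeasure b μ ∧ ∫ z, z.2 ∂μ = h ∧
      ∫ z, Lag A V z ∂μ = a}).Nonempty := by
    intro h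
    have h1 : ∫ _ : E, (1 : ℝ) ∂(lam b) = 1 := by simp
    exact ⟨_, tm b (fun _ => 1) h, tm_closed continuous_const (Per.const _)
      (fun _ => zero_le_one) h1 (fun _ _ => rfl), hom_tm continuous_const
      (fun _ => zero_le_one) h1 h, rfl⟩
  refine le_of_forall_pos_le_add fun ε hε => ?_
  obtain ⟨_, ⟨μ, hμ, hμh, rfl⟩, hμa⟩ := exists_lt_of_csInf_lt (hne h)
    (show beta b A V h < beta b A V h + ε by linarith)
  obtain ⟨_, ⟨ν, hν, hνh, rfl⟩, hνa⟩ := exists_lt_of_csInf_lt (hne r)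
    (show beta b A V r < beta b A V r + ε by linarith)
  have hmix := mix_closed hμ hν hs0 hs1
  have h1 := beta_le hA hAp hV hVp hmix
  have htop : ∀ x : ℝ, ENNReal.ofReal x ≠ ⊤ := fun x => ENNReal.ofReal_ne_top
  rw [integral_add_measure ((hμ.int_snd).smul_measure (htop _))
      ((hν.int_snd).smul_measure (htop _)), integral_smul_measure,
      integral_smul_measure, integral_add_measure
      ((hμ.int_Lag hA hAp hV hVp).smul_measure (htop _))
      ((hν.int_Lag hA hAp hV hVp).smul_measure (htop _)), integral_smul_measure,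
      integral_smul_measure, hμh, hνh, ENNReal.toReal_ofReal (by linarith),
      ENNReal.toReal_ofReal hs0] at h1
  have e1 : (1 - s) • h + s • r = h + s • (r - h) := by
    rw [smul_sub, sub_smul, one_smul]; abel
  rw [e1, smul_eq_mul, smul_eq_mul] at h1
  refine h1.trans ?_
  have h2 : (1 - s) * ∫ z, Lag A V z ∂μ ≤ (1 - s) * (beta b A V h + ε) :=
    mul_le_mul_of_nonneg_left hμa.le (by linarith)
  have h3 : s * ∫ z, Lag A V z ∂ν ≤ s * (beta b A V r + ε) :=
    mul_le_mul_of_nonneg_left hνa.le hs0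
  linarith

/-- subgradient at a point of differentiability -/
lemma exists_grad {A : E → E} {V : E → ℝ} (hA : Continuous A) (hAp : Per b A)
    (hV : Continuous V) (hVp : Per b V) {h : E} (hd : DifferentiableAt ℝ (beta b A V) h) :
    ∃ c : E, (∀ r, beta b A V h + inner ℝ c (r - h) ≤ beta b A V r) ∧
      ∀ c' : E, (∀ r, beta b A V h + inner ℝ c' (r - h) ≤ beta b A V r) → c' = c := by
  set c : E := (InnerProductSpace.toDual ℝ E).symm (fderiv ℝ (beta b A V) h) with hc
  have hcv : ∀ v, inner ℝ c v = fderiv ℝ (beta b A V) h v := by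
    intro v
    rw [hc, InnerProductSpace.toDual_symm_apply]
  have hline : ∀ v : E, HasDerivAt (fun s : ℝ => beta b A V (h + s • v))
      (fderiv ℝ (beta b A V) h v) 0 := by
    intro v
    have h1 : HasDerivAt (fun s : ℝ => h + s • v) v 0 := by
      simpa using ((hasDerivAt_id (0 : ℝ)).smul_const v).const_add h
    have h2 : HasFDerivAt (beta b A V) (fderiv ℝ (beta b A V) h) (h + (0 : ℝ) • v) := by
      simpa using hd.hasFDerivAt
    exact h2.comp_hasDerivAt 0 h1
  refine ⟨c, fun r => ?_, fun c' hc' => ?_⟩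
  · have h1 := hline (r - h)
    have h2 := h1.tendsto_slope_zero_right
    have h3 : ∀ᶠ s : ℝ in 𝓝[>] 0, s⁻¹ • (beta b A V (h + (0 + s) • (r - h)) -
        beta b A V (h + (0 : ℝ) • (r - h))) ≤ beta b A V r - beta b A V h := by
      filter_upwards [Ioc_mem_nhdsGT (zero_lt_one' ℝ)] with s hs
      have := beta_convex hA hAp hV hVp h r hs.1.le hs.2
      rw [zero_add, zero_smul, add_zero, smul_eq_mul, inv_mul_le_iff₀ hs.1]
      linarith
    have h4 := le_of_tendsto h2 h3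
    rw [hcv]
    linarith
  · have h1 : ∀ v : E, inner ℝ (c' - c) v = 0 := by
      intro v
      have h2 : HasDerivAt (fun s : ℝ => beta b A V (h + s • v) - s * inner ℝ c' v)
          (fderiv ℝ (beta b A V) h v - inner ℝ c' v) 0 := by
        have := (hline v).fun_sub ((hasDerivAt_id' (0 : ℝ)).mul_const (inner ℝ c' v))
        simpa using this
      have h3 : IsLocalMin (fun s : ℝ => beta b A V (h + s • v) - s * inner ℝ c' v) 0 := by
        refine Eventually.of_forall fun s => ?_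
        have := hc' (h + s • v)
        rw [add_sub_cancel_left, inner_smul_right] at this
        simp only [zero_smul, add_zero, zero_mul, sub_zero]
        linarith
      have h4 := h3.hasDerivAt_eq_zero h2
      rw [inner_sub_left, hcv]
      linarith
    have := h1 (c' - c)
    rw [inner_self_eq_zero] at this
    exact sub_eq_zero.1 this

end

end Pool.H45.Mather
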