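import Pool.Agent.H45.MatherKey2
import Pool.Agent.H45.MatherGen

open MeasureTheory Module Set Filter Topology

namespace Pool.H45.Mather

noncomputable section

set_option linter.unusedSectionVars false
set_option linter.style.haveILetI false

variable {n : ℕ} {E : Type*} [NormedAddCommGroup E] [InnerProductSpace ℝ E] [FiniteDimensional ℝ E]
  [MeasurableSpace E] [BorelSpace E] {b : Basis (Fin n) ℝ E}

/-- purely numerical choice of the parameters -/
lemma numerics {S a₁ w C₂ c₁ r₀ B t : ℝ} (hS : 0 < S) (ha : 0 < a₁ * w) (hC : 0 < C₂)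
    (hc : c₁ = a₁ * w / (16 * C₂)) (hr : r₀ ^ 2 ≤ a₁ * w * c₁ / 32) (ht : 0 < t)
    (hB : 16 * B / (a₁ * w) * S ≤ t) :
    2 * (S ^ 2 / t * B + (c₁ / S * (S ^ 2 * C₂) + 2 * r₀ ^ 2 / (c₁ / S))) < S * (a₁ * w) := by
  have hc0 : 0 < c₁ := by rw [hc]; positivity
  have h1 : S ^ 2 / t * B ≤ S * (a₁ * w) / 16 := by
    rw [div_mul_eq_mul_div, div_le_iff₀ ht]
    have : 16 * B * S ≤ t * (a₁ * w) := by
      rw [div_mul_eq_mul_div, div_le_iff₀ ha] at hB
      exact hB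
    nlinarith
  have h2 : c₁ / S * (S ^ 2 * C₂) = S * (a₁ * w) / 16 := by
    rw [hc]; field_simp
  have h3 : 2 * r₀ ^ 2 / (c₁ / S) ≤ S * (a₁ * w) / 16 := by
    rw [div_le_iff₀ (by positivity)]
    have : S * (a₁ * w) / 16 * (c₁ / S) = a₁ * w * c₁ / 16 := by field_simp
    rw [this]
    linarith
  have h4 : 0 < S * (a₁ * w) := by positivity
  rw [h2]
  linarith

theorem contra {A : E → E} {V : E → ℝ} (hA : Continuous A) (hAp : Per b A)
    (hV : Continuous V) (hVp : Per b V) {CA : ℝ} (hCA : ∀ x, ‖A x‖ ≤ CA)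
    {F : E → ℝ} (hFp : Per b F) (hFc : Continuous F) {k u : Fin n → ℤ}
    (hu : ∑ i, k i * u i = 1) {ω : E} (hω : lin b k ω = 0)
    (hgen : ∀ m : Fin n → ℤ, lin b m ω = 0 → ∃ j : ℤ, ∀ i, m i = j * k i)
    {Ψ : E → ℝ} (hΨ : Continuous Ψ) (hΨp : Per b Ψ) (hΨ1 : ∀ x, |Ψ x| ≤ 1)
    (hΨk : ∀ x y, lin b k x = lin b k y → Ψ x = Ψ y) (hΨ0 : ∫ x, Ψ x ∂(lam b) = 0)
    (hFΨ : ∫ x, F x * Ψ x ∂(lam b) ≠ 0) {Λ : ℝ → ℝ}
    (H1 : ∀ᶠ t in atTop, 1 ≤ Λ t)
    (H2 : ∀ δ : ℝ, 0 < δ → ∀ᶠ t in atTop, ∀ x,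
      |V x - t * inner ℝ (A x) ω - Λ t * F x| ≤ Λ t * δ)
    (H4 : ∀ G ε : ℝ, 0 ≤ G → 0 < ε → ∀ᶠ t in atTop, (Λ t / t * G + CA) ^ 2 ≤ Λ t * ε)
    (H6 : ∀ C : ℝ, ∀ᶠ t in atTop, C * √(Λ t) ≤ t) :
    ∀ᶠ t : ℝ in atTop, ¬ DifferentiableAt ℝ (beta b A V) (t • ω) := by
  have hdec : ∀ F : E → ℝ, Per b F → Continuous F → Dec b k ω F := fun F h1 h2 =>
    dec_of_continuous hgen h1 h2
  have hu' : lin b k (lat b u) = 1 := by rw [lin_lat, hu]; simp
  have hk : k ≠ 0 := by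
    rintro rfl
    simp at hu
  set a := |∫ x, F x * Ψ x ∂(lam b)| with ha
  have ha0 : 0 < a := abs_pos.2 hFΨ
  obtain ⟨χ, fl, hχ, hχp, hfc, hfp, hfl, hap⟩ := hdec F hFp hFc (a / 200) (by linarith)
  obtain ⟨xM, hxM⟩ := hfp.exists_max hfc
  set fM := fl xM with hfM
  have hdc : Continuous (fderiv ℝ χ) := hχ.continuous_fderiv one_ne_zero
  -- the minimum is small
  obtain ⟨x₀, hx₀⟩ : ∃ x₀, fl x₀ < fM - a / 2 := by
    by_contra hcon
    push Not at hcon
    have i1 : Integrable (fun x => F x * Ψ x) (lam b) :=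
      (hFp.comp₂ hΨp (· * ·)).integrable (hFc.mul hΨ)
    have i2 : Integrable (fun x => fderiv ℝ χ x ω * Ψ x) (lam b) := by
      refine Per.integrable (b := b) ?_ ((hdc.clm_apply continuous_const).mul hΨ)
      intro i x
      simp only [hχp.fderiv i x, hΨp i x]
    have i3 : Integrable (fun x => fM * Ψ x) (lam b) := (hΨp.integrable hΨ).const_mul _
    have hz : ∫ x, fderiv ℝ χ x ω * Ψ x ∂(lam b) = 0 := by
      refine inv_lemma hχ hχp hΨ hΨp fun τ x => ?_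
      apply hΨk
      rw [map_add, map_smul, hω]; simp
    have hsum : ∫ x, F x * Ψ x ∂(lam b) =
        ∫ x, (F x * Ψ x + fderiv ℝ χ x ω * Ψ x - fM * Ψ x) ∂(lam b) := by
      have i12 : Integrable (fun x => F x * Ψ x + fderiv ℝ χ x ω * Ψ x) (lam b) := i1.add i2
      rw [integral_sub i12 i3, integral_add i1 i2, hz, integral_const_mul, hΨ0]
      ring
    have hbd : ∀ x, ‖F x * Ψ x + fderiv ℝ χ x ω * Ψ x - fM * Ψ x‖ ≤ a / 200 + a / 2 := by
      intro x
      have e1 : F x * Ψ x + fderiv ℝ χ x ω * Ψ x - fM * Ψ x =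
          ((F x + fderiv ℝ χ x ω - fl x) + (fl x - fM)) * Ψ x := by ring
      rw [e1, norm_mul, Real.norm_eq_abs, Real.norm_eq_abs]
      have e2 : |(F x + fderiv ℝ χ x ω - fl x) + (fl x - fM)| ≤ a / 200 + a / 2 := by
        refine (abs_add_le _ _).trans (add_le_add (hap x) ?_)
        rw [abs_le]
        constructor
        · linarith [hcon x]
        · linarith [hxM x]
      calc _ ≤ (a / 200 + a / 2) * 1 :=
            mul_le_mul e2 (hΨ1 x) (abs_nonneg _) (by linarith)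
        _ = _ := by ring
    have h1 : ‖∫ x, (F x * Ψ x + fderiv ℝ χ x ω * Ψ x - fM * Ψ x) ∂(lam b)‖ ≤
        (a / 200 + a / 2) * (lam b).real Set.univ :=
      norm_integral_le_of_norm_le_const (Eventually.of_forall hbd)
    rw [← hsum, probReal_univ, mul_one, Real.norm_eq_abs, ← ha] at h1
    linarith
  obtain ⟨s₁, w, hw0, hw1, hslab⟩ := exists_slab hu hfc hfp hfl hx₀
  obtain ⟨G, hG0, hG⟩ := hχp.fderiv.bdd hdc
  obtain ⟨B, hB0, hB⟩ := hχp.bdd hχ.continuous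
  obtain ⟨Fb, hFb0, hFb⟩ := hFp.bdd hFc
  have hKn : 0 < ‖rv b k‖ := by
    rw [norm_pos_iff]
    intro h0
    have : lin b k (lat b u) = 0 := by rw [← inner_rv, h0, inner_zero_left]
    rw [hu'] at this
    exact one_ne_zero this
  set η := a / 2 with hη
  have hη0 : 0 < η := by linarith
  set ε := a / 100 with hε
  have hε0 : 0 < ε := by linarith
  set a₁ := √η / (2 * ‖rv b k‖) with ha₁
  have ha₁0 : 0 < a₁ := by
    have := Real.sqrt_pos.2 hη0
    positivity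
  have haw : 0 < a₁ * w := mul_pos ha₁0 hw0
  set C₂ := |fM| + (Fb + 1) + 1 + 23 * ε with hC₂
  have hC₂0 : 0 < C₂ := by
    have := abs_nonneg fM
    linarith
  set c₁ := a₁ * w / (16 * C₂) with hc₁
  have hc₁0 : 0 < c₁ := by positivity
  set r₀ := min (1 / (2 * (‖lin b k‖ + 1))) (√(a₁ * w * c₁ / 32)) with hr₀
  have hr0 : 0 < r₀ := lt_min (by positivity) (Real.sqrt_pos.2 (by positivity))
  have hr1 : r₀ * ‖lin b k‖ < 1 := by
    have h1 : r₀ ≤ 1 / (2 * (‖lin b k‖ + 1)) := min_le_left _ _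
    have h2 : r₀ * ‖lin b k‖ ≤ 1 / (2 * (‖lin b k‖ + 1)) * ‖lin b k‖ :=
      mul_le_mul_of_nonneg_right h1 (norm_nonneg _)
    have h3 : 1 / (2 * (‖lin b k‖ + 1)) * ‖lin b k‖ < 1 := by
      rw [div_mul_eq_mul_div, one_mul, div_lt_one (by positivity)]
      linarith [norm_nonneg (lin b k)]
    linarith
  have hr2 : r₀ ^ 2 ≤ a₁ * w * c₁ / 32 := by
    have h1 : r₀ ≤ √(a₁ * w * c₁ / 32) := min_le_right _ _
    have h2 := pow_le_pow_left₀ hr0.le h1 2
    rwa [Real.sq_sqrt (by positivity)] at h2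
  obtain ⟨Lr, hLr⟩ := exists_density hω hdec hr0
  have hev := (eventually_gt_atTop (0 : ℝ)).and (H1.and ((H2 (a / 200) (by linarith)).and
    ((H2 1 one_pos).and ((H4 G ε hG0 hε0).and ((H4 0 ε le_rfl hε0).and
      ((H6 (2 * Lr / c₁)).and (H6 (16 * B / (a₁ * w)))))))))
  filter_upwards [hev] with t htt
  obtain ⟨ht, h1, h2, h2', h4, h4', h6, h6'⟩ := htt
  have hΛ0 : 0 < Λ t := lt_of_lt_of_le one_pos h1
  set S := √(Λ t) with hS
  have hS0 : 0 < S := Real.sqrt_pos.2 hΛ0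
  have hSS : S ^ 2 = Λ t := Real.sq_sqrt hΛ0.le
  have D : Dat b A V k ω χ fl t (Λ t) ε CA G (Fb + 1) fM :=
    { hA := hA, hAp := hAp, hV := hV, hVp := hVp, ht := ht, hΛ := h1, hε := hε0, hkω := hω,
      hχ := hχ, hχp := hχp, hG := hG, hCA := hCA, hfc := hfc, hfp := hfp, hfl := hfl,
      hfM := hxM, hfM' := ⟨xM, rfl⟩,
      h2 := by
        rw [mul_zero, zero_add] at h4'
        exact h4'
      h3 := h4
      h4 := by
        intro x
        have e1 := h2' x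
        have e2 := hFb x
        rw [Real.norm_eq_abs] at e2
        have e3 : |Λ t * F x| ≤ Λ t * Fb := by
          rw [abs_mul, abs_of_pos hΛ0]
          exact mul_le_mul_of_nonneg_left e2 hΛ0.le
        rw [abs_le] at e1 e3 ⊢
        constructor <;> linarith [e1.1, e1.2, e3.1, e3.2]
      h5 := by
        intro x
        have e1 := h2 x
        have e2 := hap x
        have e3 : |Λ t * (F x + fderiv ℝ χ x ω - fl x)| ≤ Λ t * (a / 200) := by
          rw [abs_mul, abs_of_pos hΛ0]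
          exact mul_le_mul_of_nonneg_left e2 hΛ0.le
        rw [hε]
        rw [abs_le] at e1 e3 ⊢
        constructor <;> linarith [e1.1, e1.2, e3.1, e3.2] }
  refine D.key hk hu' (η := η) (s₁ := s₁) (w := w) (by rw [hε, hη]; linarith) hw0 hw1
    (fun x h h' => hslab x h h') hr0 hr1 hLr (ρ := c₁ / S) (by positivity) ?_ (Bχ := B)
    (fun x => hB x) ?_
  · have e1 : 2 * Lr / c₁ * S ≤ t := h6
    rw [div_mul_eq_mul_div, div_le_iff₀ hc₁0] at e1
    rw [mul_div_assoc', div_div, le_div_iff₀ (by positivity)]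
    linarith
  · have e1 := numerics (B := B) hS0 haw hC₂0 hc₁ hr2 ht h6'
    rw [hSS] at e1
    refine lt_of_lt_of_eq e1 ?_
    rw [Real.sqrt_mul hΛ0.le, ← hS, ha₁]
    ring

end

end Pool.H45.Mather
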