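import Pool.Agent.H45.MatherBeta

open MeasureTheory Module Set Filter Topology CompactlySupported

namespace Pool.H45.Mather

noncomputable section

set_option linter.unusedSectionVars false
set_option linter.style.haveILetI false

section abs

variable {K : Type*} [TopologicalSpace K] [CompactSpace K] [T2Space K] [MeasurableSpace K]
  [BorelSpace K]

/-- Riesz representation for positive functionals on `C(K)`. -/
lemma exists_repr (Λ : C(K, ℝ) →ₗ[ℝ] ℝ) (hΛ : ∀ f : C(K, ℝ), (∀ x, 0 ≤ f x) → 0 ≤ Λ f)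
    (h1 : Λ 1 = 1) : ∃ ν : Measure K, IsProbabilityMeasure ν ∧ ∀ f : C(K, ℝ), ∫ x, f x ∂ν = Λ f := by
  let Λ' : C_c(K, ℝ) →ₗ[ℝ] ℝ :=
    { toFun := fun f => Λ f.toContinuousMap
      map_add' := fun f g => by
        rw [← map_add]; rfl
      map_smul' := fun c f => by
        rw [← map_smul]; rfl }
  let Λp : C_c(K, ℝ) →ₚ[ℝ] ℝ := PositiveLinearMap.mk₀ Λ' (fun f hf => hΛ _ (fun x => hf x))
  have hrep : ∀ f : C(K, ℝ), ∫ x, f x ∂(RealRMK.rieszMeasure Λp) = Λ f := by
    intro f
    have := RealRMK.integral_rieszMeasure Λp ⟨f, HasCompactSupport.of_compactSpace f⟩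
    exact this
  refine ⟨RealRMK.rieszMeasure Λp, ⟨?_⟩, hrep⟩
  have h2 := hrep 1
  rw [h1] at h2
  simp only [ContinuousMap.one_apply, integral_const, smul_eq_mul, mul_one] at h2
  have h3 : (RealRMK.rieszMeasure Λp) Set.univ ≠ ⊤ := by
    intro h
    rw [Measure.real, h] at h2
    simp at h2
  rw [← ENNReal.ofReal_toReal h3]
  rw [Measure.real] at h2
  rw [h2]
  simp

lemma abstract_duality (M : Submodule ℝ C(K, ℝ)) (g₀ : C(K, ℝ))
    (H : ∀ m ∈ M, ∃ x, g₀ x ≤ m x) :
    ∃ ν : Measure K, IsProbabilityMeasure ν ∧ (∀ m ∈ M, ∫ x, m x ∂ν = 0) ∧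
      ∫ x, g₀ x ∂ν ≤ 0 := by
  let S : Set C(K, ℝ) := {f | ∀ x, 0 < f x}
  have hSc : Convex ℝ S := by
    intro f hf g hg a b ha hb hab x
    have h1 := hf x
    have h2 := hg x
    simp only [ContinuousMap.add_apply, ContinuousMap.smul_apply, smul_eq_mul]
    rcases eq_or_lt_of_le ha with rfl | ha'
    · have : b = 1 := by linarith
      rw [this]; linarith
    · have := mul_pos ha' h1
      have := mul_nonneg hb h2.le
      linarith
  have hSo : IsOpen S := by
    have := ContinuousMap.isOpen_setOfPred_mapsTo (X := K) (Y := ℝ) isCompact_univ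
      (isOpen_Ioi (a := (0 : ℝ)))
    convert this using 1
    ext f
    simp [S, Set.MapsTo]
  let T : Set C(K, ℝ) := {f | ∃ m ∈ M, f = g₀ - m}
  have hTc : Convex ℝ T := by
    rintro _ ⟨m, hm, rfl⟩ _ ⟨m', hm', rfl⟩ a b ha hb hab
    refine ⟨a • m + b • m', M.add_mem (M.smul_mem _ hm) (M.smul_mem _ hm'), ?_⟩
    have : g₀ = (a + b) • g₀ := by rw [hab, one_smul]
    conv_rhs => rw [this]
    rw [smul_sub, smul_sub, add_smul]
    abel
  have hdisj : Disjoint S T := by
    rw [Set.disjoint_left]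
    rintro _ hf ⟨m, hm, rfl⟩
    obtain ⟨x, hx⟩ := H m hm
    have := hf x
    simp only [ContinuousMap.sub_apply] at this
    linarith
  obtain ⟨L, u, hL1, hL2⟩ := geometric_hahn_banach_open hSc hSo hTc hdisj
  have hone : (1 : C(K, ℝ)) ∈ S := fun x => by simp
  have hneg : ∀ f ∈ S, L f ≤ 0 := by
    intro f hf
    by_contra hcon
    push Not at hcon
    have hu : 0 < u := hcon.trans (hL1 f hf)
    have : (u / L f) • f ∈ S := fun x => by
      have := hf x
      simp only [ContinuousMap.smul_apply, smul_eq_mul]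
      positivity
    have h2 := hL1 _ this
    rw [map_smul, smul_eq_mul, div_mul_cancel₀ _ hcon.ne'] at h2
    exact lt_irrefl _ h2
  have hu0 : 0 ≤ u := by
    by_contra hcon
    push Not at hcon
    have h1 : L 1 ≤ 0 := hneg 1 hone
    have hden : 0 < 1 - L 1 := by linarith
    have : (-u / (1 - L 1)) • (1 : C(K, ℝ)) ∈ S := fun x => by
      simp only [ContinuousMap.smul_apply, ContinuousMap.one_apply, smul_eq_mul, mul_one]
      exact div_pos (by linarith) hden
    have h2 := hL1 _ this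
    rw [map_smul, smul_eq_mul, div_mul_eq_mul_div, div_lt_iff₀ hden] at h2
    nlinarith
  have hpos : ∀ f : C(K, ℝ), (∀ x, 0 ≤ f x) → L f ≤ 0 := by
    intro f hf
    refine le_of_forall_pos_le_add fun ε hε => ?_
    have h1 : L 1 ≤ 0 := hneg 1 hone
    have hden : 0 < 1 - L 1 := by linarith
    have hm : f + (ε / (1 - L 1)) • (1 : C(K, ℝ)) ∈ S := fun x => by
      have := hf x
      simp only [ContinuousMap.add_apply, ContinuousMap.smul_apply, ContinuousMap.one_apply,
        smul_eq_mul, mul_one]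
      positivity
    have h2 := hneg _ hm
    rw [map_add, map_smul, smul_eq_mul] at h2
    have h3 : -(ε / (1 - L 1) * L 1) ≤ ε := by
      rw [div_mul_eq_mul_div, ← neg_div, div_le_iff₀ hden]
      nlinarith
    linarith
  have hM : ∀ m ∈ M, L m = 0 := by
    intro m hm
    have key : ∀ t : ℝ, u ≤ L g₀ - t * L m := by
      intro t
      have := hL2 (g₀ - t • m) ⟨t • m, M.smul_mem _ hm, rfl⟩
      rwa [map_sub, map_smul, smul_eq_mul] at this
    by_contra hne
    have := key ((L g₀ - u + 1) / L m)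
    rw [div_mul_cancel₀ _ hne] at this
    linarith
  have hg : 0 ≤ L g₀ := by
    have := hL2 g₀ ⟨0, M.zero_mem, by simp⟩
    linarith
  have hone' : L 1 < 0 := by
    rcases lt_or_eq_of_le (hneg 1 hone) with h | h
    · exact h
    · exfalso
      have hu : 0 < u := by
        have := hL1 1 hone
        rwa [h] at this
      have h2 : u ≤ L g₀ := hL2 g₀ ⟨0, M.zero_mem, by simp⟩
      have h3 : L g₀ ≤ 0 := by
        obtain ⟨C, hC⟩ := (isCompact_univ (X := K)).exists_bound_of_continuousOn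
          g₀.continuous.continuousOn
        have h4 := hpos (g₀ + (max C 0) • 1) (fun x => by
          have := hC x (mem_univ _)
          rw [Real.norm_eq_abs, abs_le] at this
          simp only [ContinuousMap.add_apply, ContinuousMap.smul_apply, ContinuousMap.one_apply,
            smul_eq_mul, mul_one]
          linarith [this.1, le_max_left C 0])
        rw [map_add, map_smul, h, smul_zero, add_zero] at h4
        exact h4
      linarith
  obtain ⟨ν, hν, hrep⟩ := exists_repr (K := K) ((L 1)⁻¹ • (L : C(K, ℝ) →ₗ[ℝ] ℝ)) (by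
    intro f hf
    rw [LinearMap.smul_apply, smul_eq_mul]
    exact mul_nonneg_of_nonpos_of_nonpos (inv_nonpos.2 hone'.le) (hpos f hf)) (by
    rw [LinearMap.smul_apply, smul_eq_mul]
    exact inv_mul_cancel₀ hone'.ne)
  refine ⟨ν, hν, fun m hm => ?_, ?_⟩
  · rw [hrep, LinearMap.smul_apply]
    have := hM m hm
    simp [this]
  · rw [hrep, LinearMap.smul_apply, smul_eq_mul]
    exact mul_nonpos_of_nonpos_of_nonneg (inv_nonpos.2 hone'.le) hg

end abs

variable {n : ℕ} {E : Type*} [NormedAddCommGroup E] [InnerProductSpace ℝ E] [FiniteDimensional ℝ E]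
  [MeasurableSpace E] [BorelSpace E] {b : Basis (Fin n) ℝ E}

lemma duality_ball {A : E → E} {V : E → ℝ} (hA : Continuous A) (hAp : Per b A)
    (hV : Continuous V) (hVp : Per b V) {c : E} {κ : ℝ} (h : Star b A V c κ) {σ : ℝ}
    (hσ : 0 < σ) (R : ℝ) : ∃ φ : E → ℝ, ContDiff ℝ 1 φ ∧ Per b φ ∧ ∀ x v, ‖v‖ ≤ R →
      inner ℝ c v + fderiv ℝ φ x v ≤ Lag A V (x, v) + (κ + σ) := by
  haveI : ProperSpace E := FiniteDimensional.proper ℝ E
  by_contra hcon
  push Not at hcon
  set Ks : Set (E × E) := Metric.closedBall (0 : E) (∑ i, ‖b i‖) ×ˢ Metric.closedBall (0 : E) R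
  have hKs : IsCompact Ks := (isCompact_closedBall _ _).prod (isCompact_closedBall _ _)
  haveI : CompactSpace Ks := isCompact_iff_compactSpace.1 hKs
  have hKm : MeasurableSet Ks := hKs.measurableSet
  have cφ : ∀ φ : E → ℝ, ContDiff ℝ 1 φ →
      Continuous (fun z : E × E => fderiv ℝ φ z.1 z.2) := fun φ hφ =>
    ((hφ.continuous_fderiv one_ne_zero).comp continuous_fst).clm_apply continuous_snd
  let M : Submodule ℝ C(Ks, ℝ) :=
    { carrier := {m | ∃ φ : E → ℝ, ContDiff ℝ 1 φ ∧ Per b φ ∧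
        ∀ z : Ks, m z = fderiv ℝ φ z.1.1 z.1.2}
      zero_mem' := ⟨fun _ => 0, contDiff_const, Per.const 0, fun z => by simp⟩
      add_mem' := by
        rintro m m' ⟨φ, hφ, hφp, h1⟩ ⟨φ', hφ', hφp', h2⟩
        refine ⟨fun x => φ x + φ' x, hφ.add hφ', hφp.comp₂ hφp' (· + ·), fun z => ?_⟩
        rw [ContinuousMap.add_apply, h1, h2, fderiv_fun_add
          (hφ.differentiable one_ne_zero _) (hφ'.differentiable one_ne_zero _)]
        rfl
      smul_mem' := by
        rintro a m ⟨φ, hφ, hφp, h1⟩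
        refine ⟨fun x => a • φ x, by fun_prop, hφp.comp (a • ·), fun z => ?_⟩
        rw [ContinuousMap.smul_apply, h1, fderiv_fun_const_smul
          (hφ.differentiable one_ne_zero _)]
        rfl }
  have hg : Continuous (fun z : E × E => Lag A V z - inner ℝ c z.2 + (κ + σ)) := by
    have := continuous_Lag hA hV
    fun_prop
  let g₀ : C(Ks, ℝ) := ⟨fun z => Lag A V z.1 - inner ℝ c z.1.2 + (κ + σ),
    hg.comp continuous_subtype_val⟩
  obtain ⟨ν, hν, hM, hg0⟩ := abstract_duality M g₀ (by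
    rintro m ⟨φ, hφ, hφp, hm⟩
    obtain ⟨x, v, hv, hlt⟩ := hcon φ hφ hφp
    refine ⟨⟨(ZSpan.fract b x, v), ?_, ?_⟩, ?_⟩
    · rw [mem_closedBall_zero_iff]
      exact ZSpan.norm_fract_le b x
    · rw [mem_closedBall_zero_iff]
      exact hv
    · rw [hm]
      have e1 : fderiv ℝ φ (ZSpan.fract b x) = fderiv ℝ φ x := hφp.fderiv.fract x
      have e2 : Lag A V (ZSpan.fract b x, v) = Lag A V (x, v) := by
        unfold Lag
        simp only
        rw [hAp.fract x, hVp.fract x]
      change Lag A V (ZSpan.fract b x, v) - inner ℝ c v + (κ + σ) ≤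
        fderiv ℝ φ (ZSpan.fract b x) v
      rw [e1, e2]
      linarith)
  set μ : Measure (E × E) := ν.map Subtype.val with hμdef
  have hint : ∀ {G : Type _} [NormedAddCommGroup G] [NormedSpace ℝ G] (g : E × E → G),
      ∫ z, g z ∂μ = ∫ z : Ks, g z.1 ∂ν := by
    intro G _ _ g
    rw [hμdef, (MeasurableEmbedding.subtype_coe hKm).integral_map]
  have hμ : IsClosedMeasure b μ := by
    refine ⟨Measure.isProbabilityMeasure_map (by fun_prop), ⟨R, ?_⟩, ?_⟩
    · rw [hμdef, ae_map_iff (by fun_prop) (measurableSet_le (by fun_prop) (by fun_prop))]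
      exact Eventually.of_forall fun z => by
        have := z.2.2
        rwa [mem_closedBall_zero_iff] at this
    · intro φ hφ hφp
      rw [hint]
      have := hM ⟨fun z : Ks => fderiv ℝ φ z.1.1 z.1.2, (cφ φ hφ).comp continuous_subtype_val⟩
        ⟨φ, hφ, hφp, fun z => rfl⟩
      exact this
  haveI := hμ.prob
  have h1 := h μ hμ
  have h2 : ∫ z, (Lag A V z - inner ℝ c z.2 + (κ + σ)) ∂μ ≤ 0 := by
    rw [hint]
    exact hg0
  have hi1 : Integrable (fun z : E × E => inner ℝ c z.2) μ := hμ.int_snd.const_inner c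
  have hi2 : Integrable (fun z : E × E => Lag A V z - inner ℝ c z.2) μ :=
    (hμ.int_Lag hA hAp hV hVp).sub hi1
  rw [integral_add hi2 (integrable_const _), integral_sub (hμ.int_Lag hA hAp hV hVp) hi1,
    integral_inner hμ.int_snd] at h2
  simp only [integral_const, probReal_univ, one_smul] at h2
  linarith

theorem duality {A : E → E} {V : E → ℝ} (hA : Continuous A) (hAp : Per b A)
    (hV : Continuous V) (hVp : Per b V) {c : E} {κ : ℝ} (h : Star b A V c κ) {σ : ℝ}
    (hσ : 0 < σ) : ∃ φ : E → ℝ, ContDiff ℝ 1 φ ∧ Per b φ ∧ Sub A V c (κ + σ) φ := by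
  obtain ⟨q, hq0, hq⟩ := hVp.bdd hV
  set C : ℝ := max (q + κ + σ) 0 with hC
  set R : ℝ := 2 * C + 1 with hR
  have hC0 : 0 ≤ C := le_max_right _ _
  obtain ⟨φ, hφ, hφp, hsub⟩ := duality_ball hA hAp hV hVp h hσ R
  refine ⟨φ, hφ, hφp, fun x v => ?_⟩
  set p : E := c + (InnerProductSpace.toDual ℝ E).symm (fderiv ℝ φ x) - A x with hp
  have hpv : ∀ w, inner ℝ p w = inner ℝ c w + fderiv ℝ φ x w - inner ℝ (A x) w := by
    intro w
    rw [hp, inner_sub_left, inner_add_left, InnerProductSpace.toDual_symm_apply]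
  set k : ℝ := -V x + (κ + σ) with hk
  have hkC : k ≤ C := by
    have := hq x
    rw [Real.norm_eq_abs, abs_le] at this
    have h2 := le_max_left (q + κ + σ) 0
    rw [hk]
    linarith [this.1]
  have h1 : ∀ w, ‖w‖ ≤ R → inner ℝ p w ≤ ‖w‖ ^ 2 / 2 + k := by
    intro w hw
    have := hsub x w hw
    rw [hpv]
    unfold Lag at this
    simp only at this
    linarith
  have hpR : ‖p‖ ≤ R := by
    by_contra hlt
    push Not at hlt
    have hp0 : 0 < ‖p‖ := by
      have : 0 ≤ R := by positivity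
      linarith
    have hnorm : ‖(R / ‖p‖) • p‖ = R := by
      rw [norm_smul, Real.norm_eq_abs, abs_of_nonneg (by positivity), div_mul_cancel₀ _ hp0.ne']
    have h2 := h1 ((R / ‖p‖) • p) hnorm.le
    rw [inner_smul_right, real_inner_self_eq_norm_sq, hnorm] at h2
    have h3 : R / ‖p‖ * ‖p‖ ^ 2 = R * ‖p‖ := by
      field_simp
    rw [h3] at h2
    have h4 : R * R < R * ‖p‖ := mul_lt_mul_of_pos_left hlt (by positivity)
    have h5 : R ^ 2 / 2 < C := by nlinarith
    have h6 : C ≤ R ^ 2 / 2 := by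
      rw [hR]
      nlinarith
    linarith
  have h2 := h1 p hpR
  rw [real_inner_self_eq_norm_sq] at h2
  have h3 : inner ℝ p v ≤ ‖v‖ ^ 2 / 2 + ‖p‖ ^ 2 / 2 := by
    have := real_inner_le_norm p v
    nlinarith [sq_nonneg (‖p‖ - ‖v‖)]
  rw [hpv] at h3
  unfold Lag
  simp only
  linarith

end

end Pool.H45.Mather
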