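import Pool.Agent.H45.MatherGlue
import Pool.Agent.H45.MatherDual

open MeasureTheory Module Set Filter Topology

namespace Pool.H45.Mather

noncomputable section

set_option linter.unusedSectionVars false
set_option linter.style.haveILetI false

variable {n : ℕ} {E : Type*} [NormedAddCommGroup E] [InnerProductSpace ℝ E] [FiniteDimensional ℝ E]
  [MeasurableSpace E] [BorelSpace E] {b : Basis (Fin n) ℝ E}

lemma exists_lin_eq {k : Fin n → ℤ} (hk : k ≠ 0) (s : ℝ) : ∃ x : E, lin b k x = s := by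
  obtain ⟨i, hi⟩ := Function.ne_iff.1 hk
  refine ⟨(s / k i) • b i, ?_⟩
  rw [map_smul, lin_basis, smul_eq_mul, div_mul_cancel₀]
  exact_mod_cast hi

theorem core {A : E → E} {V : E → ℝ} (hA : Continuous A) (hAp : Per b A)
    (hV : Continuous V) (hVp : Per b V) {k : Fin n → ℤ} (hk : k ≠ 0) {c c₀ : E} {θ κ : ℝ}
    (hc : c = c₀ + θ • rv b k) (hstar : Star b A V c κ) {χ : E → ℝ}
    (hχ : ContDiff ℝ 1 χ) (hχp : Per b χ) {E₁ E₂ : ℝ} (hχb : ∀ x, |χ x| ≤ E₁) {s₁ w a : ℝ}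
    (hw0 : 0 < w) (hw1 : w < 1)
    (hW : ∀ x, 0 < Int.fract (lin b k x - s₁) → Int.fract (lin b k x - s₁) < w →
      ∀ v, inner ℝ (c₀ + a • rv b k) v + fderiv ℝ χ x v ≤ Lag A V (x, v) + κ)
    (hW' : ∀ x, 0 < Int.fract (lin b k x - s₁) → Int.fract (lin b k x - s₁) < w →
      ∀ v, inner ℝ (c₀ + (-a) • rv b k) v + fderiv ℝ χ x v ≤ Lag A V (x, v) + κ)
    (hosc : ∀ σ, 0 < σ → σ ≤ 1 → ∀ φ : E → ℝ, ContDiff ℝ 1 φ → Per b φ →
      Sub A V c (κ + σ) φ → ∀ x y, (∃ N : ℤ, lin b k x - lin b k y = N) → φ x - φ y ≤ E₂)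
    (hbig : 2 * (E₁ + E₂) < a * w) :
    ∃ δ : ℝ, δ ≠ 0 ∧ Star b A V (c + δ • rv b k) κ := by
  obtain ⟨C₀, hC₀, hclamp⟩ := exists_clamp
  set gap : ℝ := a * w - 2 * (E₁ + E₂) with hgap
  have hgap0 : 0 < gap := by linarith
  set δ : ℝ := gap / (4 * C₀) with hδ
  have hδ0 : 0 < δ := by positivity
  have hCδ : C₀ * δ = gap / 4 := by
    rw [hδ]; field_simp
  obtain ⟨Θ, hΘ, hΘ0, hΘ1, hΘ'⟩ := hclamp δ hδ0
  obtain ⟨x₁, hx₁⟩ := exists_lin_eq (b := b) hk s₁
  obtain ⟨x₂, hx₂⟩ := exists_lin_eq (b := b) hk (s₁ + w)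
  have key : ∀ σ : ℝ, 0 < σ → σ ≤ 1 →
      Star b A V (c + δ • rv b k) (κ + σ) ∨ Star b A V (c + (-δ) • rv b k) (κ + σ) := by
    intro σ hσ hσ1
    obtain ⟨φ, hφ, hφp, hsub⟩ := duality hA hAp hV hVp hstar hσ
    have ho := hosc σ hσ hσ1 φ hφ hφp hsub
    have hint1 : ∀ x, Int.fract (lin b k x - s₁) = 0 → ∃ N : ℤ, lin b k x - lin b k x₁ = N := by
      intro x hx
      refine ⟨⌊lin b k x - s₁⌋, ?_⟩
      rw [hx₁]
      have := Int.floor_add_fract (lin b k x - s₁)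
      linarith
    have hint2 : ∀ x, Int.fract (lin b k x - s₁) = w → ∃ N : ℤ, lin b k x - lin b k x₂ = N := by
      intro x hx
      refine ⟨⌊lin b k x - s₁⌋, ?_⟩
      rw [hx₂]
      have := Int.floor_add_fract (lin b k x - s₁)
      linarith
    have hneg : ∀ {x y : E}, (∃ N : ℤ, lin b k x - lin b k y = N) →
        ∃ N : ℤ, lin b k y - lin b k x = N := by
      rintro x y ⟨N, hN⟩
      exact ⟨-N, by push_cast; linarith⟩
    rcases le_or_gt (φ x₂ + θ * w) (φ x₁) with hcase | hcase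
    · left
      have hl : ∀ x, Int.fract (lin b k x - s₁) = 0 →
          χ x - φ x + (φ x₁ - (E₁ + E₂ + gap / 8)) ∈ Iio (0 : ℝ) := by
        intro x hx
        have h4 := ho x₁ x (hneg (hint1 x hx))
        have h5 := hχb x
        rw [abs_le] at h5
        rw [mem_Iio]
        linarith [h5.2]
      have hr : ∀ x, Int.fract (lin b k x - s₁) = w →
          (a - θ) * w + χ x - φ x + (φ x₁ - (E₁ + E₂ + gap / 8)) ∈ Ioi (C₀ * δ) := by
        intro x hx
        have h4 := ho x x₂ (hint2 x hx)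
        have h5 := hχb x
        rw [abs_le] at h5
        rw [mem_Ioi, hCδ]
        linarith [h5.1]
      obtain ⟨φ', h1, h2, h3⟩ := glue (b := b) (A := A) (V := V) (k := k) (c₀ := c₀) (θ := θ)
        (κ := κ + σ) hc hφ hφp hsub hχ hχp (s₁ := s₁) (w := w) (a := a) (δ := δ)
        (β₀ := φ x₁ - (E₁ + E₂ + gap / 8)) hw0 hw1
        (fun x hx hx' v => by have := hW x hx hx' v; linarith) (Θ := Θ) (Z₀ := Iio 0)
        (Z₁ := Ioi (C₀ * δ)) isOpen_Iio isOpen_Ioi hΘ (fun r hr => hΘ0 r (le_of_lt hr))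
        (fun r hr => hΘ1 r (le_of_lt hr)) hΘ' hl hr
      exact h3.star hA hAp hV hVp h1 h2
    · right
      have hΘ'' : ContDiff ℝ 1 (fun r => -Θ (-r)) := (hΘ.comp contDiff_neg).neg
      have hz : ∀ r ∈ Ioi (0 : ℝ), (fun r => -Θ (-r)) r = 0 := by
        intro r hr
        rw [mem_Ioi] at hr
        beta_reduce
        rw [hΘ0 _ (by linarith), neg_zero]
      have hz' : ∀ r ∈ Iio (-(C₀ * δ)), (fun r => -Θ (-r)) r = -δ := by
        intro r hr
        rw [mem_Iio] at hr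
        beta_reduce
        rw [hΘ1 _ (by linarith)]
      have hdd : ∀ r, 0 ≤ deriv (fun r => -Θ (-r)) r ∧ deriv (fun r => -Θ (-r)) r ≤ 1 := by
        intro r
        have h1 : HasDerivAt (fun r => -Θ (-r)) (deriv Θ (-r)) r := by
          have h2 : HasDerivAt Θ (deriv Θ (-r)) (-r) :=
            (hΘ.differentiable one_ne_zero _).hasDerivAt
          have h3 := (h2.comp r (hasDerivAt_neg r)).neg
          have h4 : deriv Θ (-r) = -(deriv Θ (-r) * -1) := by ring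
          rw [h4]
          exact h3
        rw [h1.deriv]
        exact hΘ' _
      have hl : ∀ x, Int.fract (lin b k x - s₁) = 0 →
          χ x - φ x + (φ x₁ + (E₁ + E₂ + gap / 8)) ∈ Ioi (0 : ℝ) := by
        intro x hx
        have h4 := ho x x₁ (hint1 x hx)
        have h5 := hχb x
        rw [abs_le] at h5
        rw [mem_Ioi]
        linarith [h5.1]
      have hr : ∀ x, Int.fract (lin b k x - s₁) = w →
          (-a - θ) * w + χ x - φ x + (φ x₁ + (E₁ + E₂ + gap / 8)) ∈ Iio (-(C₀ * δ)) := by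
        intro x hx
        have h4 := ho x₂ x (hneg (hint2 x hx))
        have h5 := hχb x
        rw [abs_le] at h5
        rw [mem_Iio, hCδ]
        linarith [h5.2]
      obtain ⟨φ', h1, h2, h3⟩ := glue (b := b) (A := A) (V := V) (k := k) (c₀ := c₀) (θ := θ)
        (κ := κ + σ) hc hφ hφp hsub hχ hχp (s₁ := s₁) (w := w) (a := -a) (δ := -δ)
        (β₀ := φ x₁ + (E₁ + E₂ + gap / 8)) hw0 hw1
        (fun x hx hx' v => by have := hW' x hx hx' v; linarith) (Θ := fun r => -Θ (-r))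
        (Z₀ := Ioi 0) (Z₁ := Iio (-(C₀ * δ))) isOpen_Ioi isOpen_Iio hΘ'' hz hz' hdd hl hr
      exact h3.star hA hAp hV hVp h1 h2
  by_contra hcon
  push Not at hcon
  have hn1 := hcon δ hδ0.ne'
  have hn2 := hcon (-δ) (neg_ne_zero.2 hδ0.ne')
  unfold Star at hn1 hn2
  push Not at hn1 hn2
  obtain ⟨μ, hμ, hμ'⟩ := hn1
  obtain ⟨ν, hν, hν'⟩ := hn2
  set t₁ := inner ℝ (c + δ • rv b k) (∫ z, z.2 ∂μ) - (∫ z, Lag A V z ∂μ + κ) with ht₁
  set t₂ := inner ℝ (c + (-δ) • rv b k) (∫ z, z.2 ∂ν) - (∫ z, Lag A V z ∂ν + κ) with ht₂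
  have h1 : 0 < t₁ := by linarith
  have h2 : 0 < t₂ := by linarith
  set σ := min 1 (min (t₁ / 2) (t₂ / 2)) with hσ
  have hσ0 : 0 < σ := lt_min one_pos (lt_min (by linarith) (by linarith))
  have hσ1 : σ ≤ 1 := min_le_left _ _
  have hσ2 : σ ≤ t₁ / 2 := (min_le_right _ _).trans (min_le_left _ _)
  have hσ3 : σ ≤ t₂ / 2 := (min_le_right _ _).trans (min_le_right _ _)
  rcases key σ hσ0 hσ1 with h | h
  · have := h μ hμ
    linarith
  · have := h ν hν
    linarith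

end

end Pool.H45.Mather
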