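import Mathlib

open MeasureTheory Module Set

namespace Pool.H45.Mather

noncomputable section

variable {n : ℕ} {E : Type*} [NormedAddCommGroup E] [InnerProductSpace ℝ E]

/-- `F` is periodic with respect to the lattice generated by the basis `b`. -/
def Per {α : Type*} (b : Basis (Fin n) ℝ E) (F : E → α) : Prop := ∀ i x, F (x + b i) = F x

/-- The electromagnetic Lagrangian `|v|²/2 + A(x)·v - V(x)`. -/
def Lag (A : E → E) (V : E → ℝ) (z : E × E) : ℝ := ‖z.2‖ ^ 2 / 2 + inner ℝ (A z.1) z.2 - V z.1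

/-- Closed (holonomic) probability measures with bounded velocities. -/
structure IsClosedMeasure [MeasurableSpace E] (b : Basis (Fin n) ℝ E) (μ : Measure (E × E)) :
    Prop where
  prob : IsProbabilityMeasure μ
  bdd : ∃ R : ℝ, ∀ᵐ z ∂μ, ‖z.2‖ ≤ R
  closed : ∀ φ : E → ℝ, ContDiff ℝ 1 φ → Per b φ → ∫ z, fderiv ℝ φ z.1 z.2 ∂μ = 0

/-- Mather's beta function. -/
def beta [MeasurableSpace E] (b : Basis (Fin n) ℝ E) (A : E → E) (V : E → ℝ) (h : E) : ℝ :=
  sInf {a | ∃ μ : Measure (E × E), IsClosedMeasure b μ ∧ ∫ z, z.2 ∂μ = h ∧ ∫ z, Lag A V z ∂μ = a}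

variable {b : Basis (Fin n) ℝ E}

lemma Per.add_mem {α : Type*} {F : E → α} (hF : Per b F) {y : E}
    (hy : y ∈ Submodule.span ℤ (Set.range b)) (x : E) : F (x + y) = F x := by
  induction hy using Submodule.span_induction generalizing x with
  | mem y hy =>
    obtain ⟨i, rfl⟩ := hy
    exact hF i x
  | zero => simp
  | add y z _ _ hy hz => rw [← add_assoc, hz, hy]
  | smul a y _ hy =>
    have key : ∀ k : ℕ, ∀ x, F (x + (k : ℤ) • y) = F x := by
      intro k
      induction k with
      | zero => intro x; simp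
      | succ k ih =>
        intro x
        have : x + ((k + 1 : ℕ) : ℤ) • y = (x + (k : ℤ) • y) + y := by
          push_cast
          rw [add_smul, one_smul, add_assoc]
        rw [this, hy, ih]
    rcases Int.eq_nat_or_neg a with ⟨k, rfl | rfl⟩
    · exact key k x
    · have := key k (x + (-(k : ℤ)) • y)
      rw [← this]
      congr 1
      rw [neg_smul]; abel

/-- integer combination of the basis vectors -/
def lat (b : Basis (Fin n) ℝ E) (m : Fin n → ℤ) : E := ∑ i, (m i : ℝ) • b i

lemma lat_mem (m : Fin n → ℤ) : lat b m ∈ Submodule.span ℤ (Set.range b) := by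
  unfold lat
  refine Submodule.sum_mem _ fun i _ => ?_
  have : ((m i : ℝ)) • b i = (m i : ℤ) • b i := by
    rw [← Int.cast_smul_eq_zsmul ℝ]
  rw [this]
  exact Submodule.smul_mem _ _ (Submodule.subset_span ⟨i, rfl⟩)

lemma Per.add_lat {α : Type*} {F : E → α} (hF : Per b F) (m : Fin n → ℤ) (x : E) :
    F (x + lat b m) = F x := hF.add_mem (lat_mem m) x

lemma Per.fract {α : Type*} {F : E → α} (hF : Per b F) (x : E) :
    F (ZSpan.fract b x) = F x := by
  have h : x = ZSpan.fract b x + (ZSpan.floor b x : E) := by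
    rw [ZSpan.fract_apply]; abel
  conv_rhs => rw [h]
  rw [hF.add_mem (ZSpan.floor b x).2]

lemma Per.const {α : Type*} (a : α) : Per b (fun _ : E => a) := fun _ _ => rfl

lemma Per.comp {α β : Type*} {F : E → α} (hF : Per b F) (g : α → β) :
    Per b (fun x => g (F x)) := fun i x => by simp only [hF i x]

lemma Per.comp₂ {α β γ : Type*} {F : E → α} {G : E → β} (hF : Per b F) (hG : Per b G)
    (g : α → β → γ) : Per b (fun x => g (F x) (G x)) := fun i x => by simp only [hF i x, hG i x]

lemma Per.shift {α : Type*} {F : E → α} (hF : Per b F) (z : E) :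
    Per b (fun x => F (x + z)) := fun i x => by
  have : x + b i + z = x + z + b i := by abel
  simp only [this, hF i (x + z)]

lemma Per.fderiv {φ : E → ℝ} (hF : Per b φ) : Per b (fderiv ℝ φ) := by
  intro i x
  have h : (fun y => φ (y + b i)) = φ := funext fun y => hF i y
  have := fderiv_comp_add_right (𝕜 := ℝ) (f := φ) (x := x) (b i)
  rw [h] at this
  exact this.symm

section fd
variable [FiniteDimensional ℝ E]

lemma Per.bdd {G : Type*} [NormedAddCommGroup G] {F : E → G} (hF : Per b F) (hc : Continuous F) :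
    ∃ C : ℝ, 0 ≤ C ∧ ∀ x, ‖F x‖ ≤ C := by
  haveI : ProperSpace E := FiniteDimensional.proper ℝ E
  obtain ⟨C, hC⟩ := (isCompact_closedBall (0 : E) (∑ i, ‖b i‖)).exists_bound_of_continuousOn
    hc.continuousOn
  refine ⟨max C 0, le_max_right _ _, fun x => ?_⟩
  rw [← hF.fract x]
  refine (hC _ ?_).trans (le_max_left _ _)
  rw [mem_closedBall_zero_iff]
  exact ZSpan.norm_fract_le b x

lemma Per.exists_max {F : E → ℝ} (hF : Per b F) (hc : Continuous F) :
    ∃ x₀, ∀ x, F x ≤ F x₀ := by
  haveI : ProperSpace E := FiniteDimensional.proper ℝ E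
  obtain ⟨x₀, _, hx₀⟩ := (isCompact_closedBall (0 : E) (∑ i, ‖b i‖)).exists_isMaxOn
    ⟨0, by simp; exact Finset.sum_nonneg fun i _ => norm_nonneg _⟩ hc.continuousOn
  refine ⟨x₀, fun x => ?_⟩
  rw [← hF.fract x]
  refine hx₀ ?_
  rw [mem_closedBall_zero_iff]
  exact ZSpan.norm_fract_le b x

/-- the integral linear form with coefficients `m` -/
def lin (b : Basis (Fin n) ℝ E) (m : Fin n → ℤ) : E →L[ℝ] ℝ :=
  LinearMap.toContinuousLinearMap (∑ i, (m i : ℝ) • b.coord i)

lemma lin_apply (m : Fin n → ℤ) (x : E) : lin b m x = ∑ i, (m i : ℝ) * b.repr x i := by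
  simp [lin, LinearMap.sum_apply]

@[simp] lemma lin_basis (m : Fin n → ℤ) (j : Fin n) : lin b m (b j) = m j := by
  rw [lin_apply]
  simp [Finsupp.single_apply]

lemma lin_lat (m u : Fin n → ℤ) : lin b m (lat b u) = ((∑ i, m i * u i : ℤ) : ℝ) := by
  unfold lat
  rw [map_sum]
  push_cast
  refine Finset.sum_congr rfl fun i _ => ?_
  rw [map_smul, lin_basis, smul_eq_mul, mul_comm]

lemma lin_ext {m m' : Fin n → ℤ} (h : lin b m = lin b m') : m = m' := by
  funext j
  have := congrArg (fun l : E →L[ℝ] ℝ => l (b j)) h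
  simpa using this

end fd

end

end Pool.H45.Mather
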