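import Pool.Agent.H45.MatherMeas

open MeasureTheory Module Set Filter Topology UnitAddTorus

namespace Pool.H45.Mather

noncomputable section

set_option linter.unusedSectionVars false
set_option linter.style.haveILetI false

variable {n : ℕ} {E : Type*} [NormedAddCommGroup E] [InnerProductSpace ℝ E] [FiniteDimensional ℝ E]
  {b : Basis (Fin n) ℝ E}

/-- projection to the standard torus -/
def tproj (b : Basis (Fin n) ℝ E) (x : E) : UnitAddTorus (Fin n) :=
  fun i => ((b.repr x i : ℝ) : UnitAddCircle)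

lemma continuous_tproj : Continuous (tproj b) := by
  unfold tproj
  refine continuous_pi fun i => ?_
  exact (AddCircle.continuous_mk' 1).comp (b.coord i).continuous_of_finiteDimensional

lemma mFourier_tproj (m : Fin n → ℤ) (x : E) :
    mFourier m (tproj b x) = Complex.exp (((2 * Real.pi * lin b m x : ℝ) : ℂ) * Complex.I) := by
  have : mFourier m (tproj b x) = ∏ i, fourier (m i) (tproj b x i) := rfl
  rw [this]
  simp only [tproj]
  simp_rw [fourier_coe_apply]
  rw [← Complex.exp_sum]
  congr 1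
  rw [lin_apply]
  push_cast
  rw [Finset.mul_sum, Finset.sum_mul]
  refine Finset.sum_congr rfl fun i _ => ?_
  ring

lemma trig_approx {F : E → ℝ} (hF : Per b F) (hc : Continuous F) {ε : ℝ} (hε : 0 < ε) :
    ∃ P ∈ Submodule.span ℂ (range (mFourier (d := Fin n))), ∀ x, |F x - (P (tproj b x)).re| ≤ ε := by
  let rep : UnitAddTorus (Fin n) → (Fin n → ℝ) := fun y i => (AddCircle.equivIco 1 0 (y i) : ℝ)
  let G₀ : UnitAddTorus (Fin n) → ℂ := fun y => ((F (b.equivFun.symm (rep y)) : ℝ) : ℂ)
  have hq : IsOpenQuotientMap (Pi.map (fun (_ : Fin n) => (QuotientAddGroup.mk : ℝ → UnitAddCircle))) :=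
    IsOpenQuotientMap.piMap fun _ => QuotientAddGroup.isOpenQuotientMap_mk
  have hG : ∀ y : Fin n → ℝ, G₀ (Pi.map (fun (_ : Fin n) => (QuotientAddGroup.mk : ℝ → UnitAddCircle)) y)
      = ((F (b.equivFun.symm y) : ℝ) : ℂ) := by
    intro y
    have h1 : rep (Pi.map (fun (_ : Fin n) => (QuotientAddGroup.mk : ℝ → UnitAddCircle)) y) =
        fun i => Int.fract (y i) := by
      funext i
      have := AddCircle.coe_equivIco_mk_apply (p := (1 : ℝ)) (y i)
      simp only [div_one, mul_one] at this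
      exact this
    have h2 : b.equivFun.symm (fun i => Int.fract (y i)) = ZSpan.fract b (b.equivFun.symm y) := by
      apply b.equivFun.injective
      rw [LinearEquiv.apply_symm_apply]
      funext i
      rw [Basis.equivFun_apply, ZSpan.repr_fract_apply, ← Basis.equivFun_apply,
        LinearEquiv.apply_symm_apply]
    simp only [G₀]
    rw [h1, h2, hF.fract]
  have hGc : Continuous G₀ := by
    rw [hq.isQuotientMap.continuous_iff]
    have : G₀ ∘ (Pi.map (fun (_ : Fin n) => (QuotientAddGroup.mk : ℝ → UnitAddCircle))) =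
        fun y => ((F (b.equivFun.symm y) : ℝ) : ℂ) := funext hG
    rw [this]
    exact Complex.continuous_ofReal.comp (hc.comp
      (LinearMap.continuous_of_finiteDimensional (b.equivFun.symm : (Fin n → ℝ) →ₗ[ℝ] E)))
  let G : C(UnitAddTorus (Fin n), ℂ) := ⟨G₀, hGc⟩
  have hmem : G ∈ closure ((Submodule.span ℂ (range (mFourier (d := Fin n))) :
      Submodule ℂ C(UnitAddTorus (Fin n), ℂ)) : Set C(UnitAddTorus (Fin n), ℂ)) := by
    rw [← Submodule.topologicalClosure_coe, span_mFourier_closure_eq_top]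
    trivial
  obtain ⟨P, hP, hd⟩ := Metric.mem_closure_iff.1 hmem ε hε
  refine ⟨P, hP, fun x => ?_⟩
  have h3 : G (tproj b x) = ((F x : ℝ) : ℂ) := by
    have h4 := hG (b.equivFun x)
    rw [LinearEquiv.symm_apply_apply] at h4
    exact h4
  have h5 : F x - (P (tproj b x)).re = ((G - P) (tproj b x)).re := by
    rw [ContinuousMap.sub_apply, h3]
    simp
  rw [h5]
  refine (Complex.abs_re_le_norm _).trans ?_
  refine (ContinuousMap.norm_coe_le_norm _ _).trans ?_
  rw [← dist_eq_norm]
  exact hd.le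

/-- decomposition property -/
def Dec (b : Basis (Fin n) ℝ E) (k : Fin n → ℤ) (ω : E) (F : E → ℝ) : Prop :=
  ∀ ε : ℝ, 0 < ε → ∃ χ fl : E → ℝ, ContDiff ℝ 1 χ ∧ Per b χ ∧ Continuous fl ∧ Per b fl ∧
    (∀ x y, lin b k x = lin b k y → fl x = fl y) ∧ ∀ x, |F x + fderiv ℝ χ x ω - fl x| ≤ ε

lemma Dec.add {k : Fin n → ℤ} {ω : E} {F G : E → ℝ} (hF : Dec b k ω F) (hG : Dec b k ω G) :
    Dec b k ω (fun x => F x + G x) := by
  intro ε hε
  obtain ⟨χ, f, h1, h2, h3, h4, h5, h6⟩ := hF (ε / 2) (by linarith)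
  obtain ⟨χ', f', h1', h2', h3', h4', h5', h6'⟩ := hG (ε / 2) (by linarith)
  refine ⟨fun x => χ x + χ' x, fun x => f x + f' x, h1.add h1', h2.comp₂ h2' (· + ·),
    h3.add h3', h4.comp₂ h4' (· + ·), fun x y hxy => ?_, fun x => ?_⟩
  · simp only [h5 x y hxy, h5' x y hxy]
  · have hd : fderiv ℝ (fun x => χ x + χ' x) x ω = fderiv ℝ χ x ω + fderiv ℝ χ' x ω := by
      rw [fderiv_fun_add (h1.differentiable one_ne_zero x) (h1'.differentiable one_ne_zero x)]
      rfl
    rw [hd]
    have e1 := h6 x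
    have e2 := h6' x
    rw [abs_le] at e1 e2 ⊢
    constructor <;> linarith [e1.1, e1.2, e2.1, e2.2]

lemma Dec.limit {k : Fin n → ℤ} {ω : E} {F : E → ℝ}
    (h : ∀ ε : ℝ, 0 < ε → ∃ G, Dec b k ω G ∧ ∀ x, |F x - G x| ≤ ε) : Dec b k ω F := by
  intro ε hε
  obtain ⟨G, hG, hFG⟩ := h (ε / 2) (by linarith)
  obtain ⟨χ, f, h1, h2, h3, h4, h5, h6⟩ := hG (ε / 2) (by linarith)
  refine ⟨χ, f, h1, h2, h3, h4, h5, fun x => ?_⟩
  have e1 := h6 x
  have e2 := hFG x
  rw [abs_le] at e1 e2 ⊢
  constructor <;> linarith [e1.1, e1.2, e2.1, e2.2]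

lemma hasFDerivAt_lin2 (m : Fin n → ℤ) (x : E) :
    HasFDerivAt (fun x => 2 * Real.pi * lin b m x) ((2 * Real.pi) • lin b m) x :=
  (lin b m).hasFDerivAt.const_mul (2 * Real.pi)

lemma cos_per (m : Fin n → ℤ) : Per b (fun x => Real.cos (2 * Real.pi * lin b m x)) := by
  intro i x
  simp only [map_add, lin_basis]
  rw [show 2 * Real.pi * (lin b m x + (m i : ℝ)) = 2 * Real.pi * lin b m x + (m i : ℝ) * (2 * Real.pi)
    by ring]
  exact Real.cos_add_int_mul_two_pi _ _

lemma sin_per (m : Fin n → ℤ) : Per b (fun x => Real.sin (2 * Real.pi * lin b m x)) := by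
  intro i x
  simp only [map_add, lin_basis]
  rw [show 2 * Real.pi * (lin b m x + (m i : ℝ)) = 2 * Real.pi * lin b m x + (m i : ℝ) * (2 * Real.pi)
    by ring]
  exact Real.sin_add_int_mul_two_pi _ _

lemma re_mul_mFourier (a : ℂ) (m : Fin n → ℤ) (x : E) :
    (a * mFourier m (tproj b x)).re =
      a.re * Real.cos (2 * Real.pi * lin b m x) - a.im * Real.sin (2 * Real.pi * lin b m x) := by
  rw [mFourier_tproj, Complex.mul_re, Complex.exp_ofReal_mul_I_re, Complex.exp_ofReal_mul_I_im]

lemma Dec.trig {k : Fin n → ℤ} {ω : E}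
    (hgen : ∀ m : Fin n → ℤ, lin b m ω = 0 → ∃ j : ℤ, ∀ i, m i = j * k i) (a : ℂ)
    (m : Fin n → ℤ) : Dec b k ω (fun x => (a * mFourier m (tproj b x)).re) := by
  intro ε hε
  by_cases h0 : lin b m ω = 0
  · obtain ⟨j, hj⟩ := hgen m h0
    have hl : ∀ x, lin b m x = j * lin b k x := by
      intro x
      rw [lin_apply, lin_apply, Finset.mul_sum]
      refine Finset.sum_congr rfl fun i _ => ?_
      rw [hj i]
      push_cast
      ring
    refine ⟨fun _ => 0, fun x => (a * mFourier m (tproj b x)).re, contDiff_const, Per.const 0,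
      ?_, ?_, ?_, ?_⟩
    · simp_rw [re_mul_mFourier]
      have := (lin b m).continuous
      fun_prop
    · simp_rw [re_mul_mFourier]
      exact ((cos_per m).comp (a.re * ·)).comp₂ ((sin_per m).comp (a.im * ·)) (· - ·)
    · intro x y hxy
      simp only [re_mul_mFourier, hl, hxy]
    · intro x
      simp [hε.le]
  · set q : ℝ := 2 * Real.pi * lin b m ω with hq
    have hq0 : q ≠ 0 := mul_ne_zero (mul_ne_zero two_ne_zero Real.pi_ne_zero) h0
    set χ : E → ℝ := fun x => -(a.re * Real.sin (2 * Real.pi * lin b m x) +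
      a.im * Real.cos (2 * Real.pi * lin b m x)) * q⁻¹ with hχ
    have hl : ContDiff ℝ 1 (fun x => 2 * Real.pi * lin b m x) :=
      contDiff_const.mul (lin b m).contDiff
    refine ⟨χ, fun _ => 0, ?_, ?_, continuous_const, Per.const 0, fun _ _ _ => rfl, fun x => ?_⟩
    · exact (((contDiff_const.mul hl.sin).add (contDiff_const.mul hl.cos)).neg).mul contDiff_const
    · exact (((sin_per m).comp (a.re * ·)).comp₂ ((cos_per m).comp (a.im * ·)) (· + ·)).comp
        (fun y => -y * q⁻¹)
    · have hs := (hasFDerivAt_lin2 (b := b) m x).sin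
      have hco := (hasFDerivAt_lin2 (b := b) m x).cos
      have hd : HasFDerivAt χ _ x :=
        (((hs.const_mul a.re).add (hco.const_mul a.im)).neg).mul_const q⁻¹
      rw [hd.fderiv]
      beta_reduce
      rw [re_mul_mFourier]
      have : (a.re * Real.cos (2 * Real.pi * lin b m x) - a.im * Real.sin (2 * Real.pi * lin b m x) +
          (q⁻¹ • -(a.re • Real.cos (2 * Real.pi * lin b m x) • (2 * Real.pi) • lin b m +
            a.im • -Real.sin (2 * Real.pi * lin b m x) • (2 * Real.pi) • lin b m)) ω - 0) = 0 := by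
        simp only [smul_apply, neg_apply, add_apply, smul_eq_mul]
        rw [← hq]
        field_simp
        ring
      rw [this]
      simp [hε.le]

theorem dec_of_continuous {k : Fin n → ℤ} {ω : E}
    (hgen : ∀ m : Fin n → ℤ, lin b m ω = 0 → ∃ j : ℤ, ∀ i, m i = j * k i)
    {F : E → ℝ} (hF : Per b F) (hc : Continuous F) : Dec b k ω F := by
  refine Dec.limit fun ε hε => ?_
  obtain ⟨P, hP, hPF⟩ := trig_approx hF hc hε
  refine ⟨fun x => (P (tproj b x)).re, ?_, hPF⟩
  have key : ∀ P ∈ Submodule.span ℂ (range (mFourier (d := Fin n))), ∀ a : ℂ,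
      Dec b k ω (fun x => (a * P (tproj b x)).re) := by
    intro P hP
    induction hP using Submodule.span_induction with
    | mem P hP =>
      obtain ⟨m, rfl⟩ := hP
      exact fun a => Dec.trig hgen a m
    | zero =>
      intro a
      have := Dec.trig (b := b) (k := k) (ω := ω) hgen 0 0
      simpa using this
    | add P Q _ _ hP hQ =>
      intro a
      have := (hP a).add (hQ a)
      simpa [mul_add] using this
    | smul c P _ hP =>
      intro a
      have := hP (a * c)
      simpa [mul_assoc] using this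
  have := key P hP 1
  simpa using this

end

end Pool.H45.Mather
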