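import Pool.Agent.H45.MatherFour

open MeasureTheory Module Set Filter Topology UnitAddTorus

namespace Pool.H45.Mather

noncomputable section

set_option linter.unusedSectionVars false
set_option linter.style.haveILetI false

variable {n : ℕ} {E : Type*} [NormedAddCommGroup E] [InnerProductSpace ℝ E] [FiniteDimensional ℝ E]
  [MeasurableSpace E] [BorelSpace E] {b : Basis (Fin n) ℝ E}

/-- a function orthogonal to all characters vanishes -/
lemma eq_zero_of_orth {G : E → ℝ} (hG : Per b G) (hc : Continuous G)
    (hcos : ∀ m : Fin n → ℤ, ∫ x, G x * Real.cos (2 * Real.pi * lin b m x) ∂(lam b) = 0)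
    (hsin : ∀ m : Fin n → ℤ, ∫ x, G x * Real.sin (2 * Real.pi * lin b m x) ∂(lam b) = 0) (x : E) :
    G x = 0 := by
  have hcp : ∀ P : C(UnitAddTorus (Fin n), ℂ), Continuous (fun x : E => (P (tproj b x)).re) :=
    fun P => Complex.continuous_re.comp (P.continuous.comp continuous_tproj)
  have hpp : ∀ P : C(UnitAddTorus (Fin n), ℂ), Per b (fun x : E => (P (tproj b x)).re) := by
    intro P i x
    have : tproj b (x + b i) = tproj b x := by
      funext j
      simp only [tproj, map_add, Finsupp.add_apply, Basis.repr_self]
      rw [Finsupp.single_apply]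
      split_ifs with h
      · rw [AddCircle.coe_add]
        rw [AddCircle.coe_period, add_zero]
      · rw [add_zero]
    simp only [this]
  have hi : ∀ P : C(UnitAddTorus (Fin n), ℂ),
      Integrable (fun x : E => G x * (P (tproj b x)).re) (lam b) := fun P =>
    (hG.comp₂ (hpp P) (· * ·)).integrable (hc.mul (hcp P))
  have key : ∀ P ∈ Submodule.span ℂ (range (mFourier (d := Fin n))), ∀ a : ℂ,
      ∫ x, G x * ((a • P) (tproj b x)).re ∂(lam b) = 0 := by
    intro P hP
    induction hP using Submodule.span_induction with
    | mem P hP =>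
      obtain ⟨m, rfl⟩ := hP
      intro a
      have e1 : ∀ x, G x * ((a • mFourier m) (tproj b x)).re =
          a.re * (G x * Real.cos (2 * Real.pi * lin b m x)) -
          a.im * (G x * Real.sin (2 * Real.pi * lin b m x)) := by
        intro x
        rw [ContinuousMap.smul_apply, smul_eq_mul, re_mul_mFourier]
        ring
      have hl := (lin b m).continuous
      have i1 : Integrable (fun x => a.re * (G x * Real.cos (2 * Real.pi * lin b m x))) (lam b) :=
        ((hG.comp₂ (cos_per m) (· * ·)).integrable (by fun_prop)).const_mul _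
      have i2 : Integrable (fun x => a.im * (G x * Real.sin (2 * Real.pi * lin b m x))) (lam b) :=
        ((hG.comp₂ (sin_per m) (· * ·)).integrable (by fun_prop)).const_mul _
      simp_rw [e1]
      rw [integral_sub i1 i2, integral_const_mul, integral_const_mul, hcos, hsin]
      simp
    | zero => intro a; simp
    | add P Q _ _ hP hQ =>
      intro a
      have e1 : ∀ x, G x * ((a • (P + Q)) (tproj b x)).re =
          G x * ((a • P) (tproj b x)).re + G x * ((a • Q) (tproj b x)).re := by
        intro x
        have e2 : (a • (P + Q)) (tproj b x) = (a • P) (tproj b x) + (a • Q) (tproj b x) := by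
          simp [mul_add]
        rw [e2, Complex.add_re]
        ring
      simp_rw [e1]
      rw [integral_add (hi _) (hi _), hP a, hQ a, add_zero]
    | smul c P _ hP =>
      intro a
      have := hP (a * c)
      rw [mul_smul] at this
      exact this
  have hsq : ∫ x, G x * G x ∂(lam b) ≤ 0 := by
    obtain ⟨C, hC0, hC⟩ := hG.bdd hc
    refine le_of_forall_pos_le_add fun ε hε => ?_
    obtain ⟨P, hP, hPG⟩ := trig_approx hG hc (ε := ε / (C + 1)) (by positivity)
    have h1 := key P hP 1
    rw [one_smul] at h1
    have h2 : ∫ x, G x * G x ∂(lam b) = ∫ x, (G x * G x - G x * (P (tproj b x)).re) ∂(lam b) := by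
      rw [integral_sub ((hG.comp₂ hG (· * ·)).integrable (hc.mul hc)) (hi P), h1, sub_zero]
    rw [h2, zero_add]
    have h3 : ∀ x, G x * G x - G x * (P (tproj b x)).re ≤ ε := by
      intro x
      have h4 : G x * G x - G x * (P (tproj b x)).re = G x * (G x - (P (tproj b x)).re) := by ring
      rw [h4]
      refine (le_abs_self _).trans ?_
      rw [abs_mul]
      have h5 := hC x
      rw [Real.norm_eq_abs] at h5
      calc |G x| * |G x - (P (tproj b x)).re| ≤ C * (ε / (C + 1)) :=
            mul_le_mul h5 (hPG x) (abs_nonneg _) hC0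
        _ ≤ ε := by
            rw [mul_div_assoc', div_le_iff₀ (by positivity)]
            nlinarith
    have h6 : ∫ x, (G x * G x - G x * (P (tproj b x)).re) ∂(lam b) ≤ ∫ _ : E, ε ∂(lam b) :=
      integral_mono (((hG.comp₂ hG (· * ·)).integrable (hc.mul hc)).sub (hi P))
        (integrable_const _) h3
    simpa using h6
  by_contra hne
  have := lam_pos (b := b) (F := fun x => G x * G x) (hG.comp₂ hG (· * ·)) (hc.mul hc)
    (fun x => mul_self_nonneg _) (x₀ := x) (mul_self_pos.2 hne)
  linarith

/-- the mean of a nontrivial character is zero -/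
lemma int_char {m : Fin n → ℤ} (hm : m ≠ 0) :
    ∫ x, Real.cos (2 * Real.pi * lin b m x) ∂(lam b) = 0 ∧
      ∫ x, Real.sin (2 * Real.pi * lin b m x) ∂(lam b) = 0 := by
  obtain ⟨i, hi⟩ := Function.ne_iff.1 hm
  have hi' : (m i : ℝ) ≠ 0 := by exact_mod_cast hi
  set z : E := ((1 / 2 : ℝ) / m i) • b i with hz
  have hlz : lin b m z = 1 / 2 := by
    rw [hz, map_smul, lin_basis, smul_eq_mul, div_mul_cancel₀ _ hi']
  constructor
  · have h1 := lam_trans (b := b) (cos_per m) z
    have h2 : ∀ x, Real.cos (2 * Real.pi * lin b m (x + z)) = -Real.cos (2 * Real.pi * lin b m x) := by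
      intro x
      rw [map_add, hlz, show 2 * Real.pi * (lin b m x + 1 / 2) = 2 * Real.pi * lin b m x + Real.pi by
        ring, Real.cos_add_pi]
    simp_rw [h2] at h1
    rw [integral_neg] at h1
    linarith
  · have h1 := lam_trans (b := b) (sin_per m) z
    have h2 : ∀ x, Real.sin (2 * Real.pi * lin b m (x + z)) = -Real.sin (2 * Real.pi * lin b m x) := by
      intro x
      rw [map_add, hlz, show 2 * Real.pi * (lin b m x + 1 / 2) = 2 * Real.pi * lin b m x + Real.pi by
        ring, Real.sin_add_pi]
    simp_rw [h2] at h1
    rw [integral_neg] at h1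
    linarith

lemma exists_char_of_nonconst {V : E → ℝ} (hV : Per b V) (hc : Continuous V)
    (h : ∀ m : Fin n → ℤ, m ≠ 0 → ∫ x, V x * Real.cos (2 * Real.pi * lin b m x) ∂(lam b) = 0 ∧
      ∫ x, V x * Real.sin (2 * Real.pi * lin b m x) ∂(lam b) = 0) (x y : E) : V x = V y := by
  set C := ∫ x, V x ∂(lam b) with hC
  have key : ∀ x, V x - C = 0 := by
    refine eq_zero_of_orth (b := b) (hV.comp (· - C)) (hc.sub continuous_const) ?_ ?_
    · intro m
      have hl := (lin b m).continuous
      have i1 : Integrable (fun x => V x * Real.cos (2 * Real.pi * lin b m x)) (lam b) :=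
        (hV.comp₂ (cos_per m) (· * ·)).integrable (by fun_prop)
      have i2 : Integrable (fun x => C * Real.cos (2 * Real.pi * lin b m x)) (lam b) :=
        ((cos_per m).integrable (by fun_prop)).const_mul _
      simp_rw [sub_mul]
      rw [integral_sub i1 i2, integral_const_mul]
      rcases eq_or_ne m 0 with rfl | hm
      · have : ∀ x, lin b (0 : Fin n → ℤ) x = 0 := fun x => by simp [lin_apply]
        simp [this, hC]
      · rw [(h m hm).1, (int_char hm).1]; simp
    · intro m
      have hl := (lin b m).continuous
      have i1 : Integrable (fun x => V x * Real.sin (2 * Real.pi * lin b m x)) (lam b) :=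
        (hV.comp₂ (sin_per m) (· * ·)).integrable (by fun_prop)
      have i2 : Integrable (fun x => C * Real.sin (2 * Real.pi * lin b m x)) (lam b) :=
        ((sin_per m).integrable (by fun_prop)).const_mul _
      simp_rw [sub_mul]
      rw [integral_sub i1 i2, integral_const_mul]
      rcases eq_or_ne m 0 with rfl | hm
      · have : ∀ x, lin b (0 : Fin n → ℤ) x = 0 := fun x => by simp [lin_apply]
        simp [this]
      · rw [(h m hm).2, (int_char hm).2]; simp
  have h1 := key x
  have h2 := key y
  linarith

end

end Pool.H45.Mather
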