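import Pool.Agent.H45.MatherBeta

open MeasureTheory Module Set Filter Topology

namespace Pool.H45.Mather

noncomputable section

set_option linter.unusedSectionVars false
set_option linter.style.haveILetI false

/-- smooth clamp functions -/
lemma exists_clamp : ∃ C₀ : ℝ, 0 < C₀ ∧ ∀ δ : ℝ, 0 < δ → ∃ Θ : ℝ → ℝ, ContDiff ℝ 1 Θ ∧
    (∀ r ≤ 0, Θ r = 0) ∧ (∀ r, C₀ * δ ≤ r → Θ r = δ) ∧ ∀ r, 0 ≤ deriv Θ r ∧ deriv Θ r ≤ 1 := by
  have hS : ContDiff ℝ 1 Real.smoothTransition := Real.smoothTransition.contDiff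
  have hd : Differentiable ℝ Real.smoothTransition := hS.differentiable one_ne_zero
  have hc : Continuous (deriv Real.smoothTransition) := hS.continuous_deriv le_rfl
  obtain ⟨C, hC⟩ := (isCompact_Icc (a := (0 : ℝ)) (b := 1)).exists_bound_of_continuousOn
    hc.continuousOn
  have hzero : ∀ x, x ∉ Icc (0 : ℝ) 1 → deriv Real.smoothTransition x = 0 := by
    intro x hx
    rw [mem_Icc, not_and_or, not_le, not_le] at hx
    rcases hx with hx | hx
    · have : Real.smoothTransition =ᶠ[𝓝 x] fun _ => 0 := by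
        filter_upwards [Iio_mem_nhds hx] with y hy
        exact Real.smoothTransition.zero_of_nonpos (le_of_lt hy)
      rw [this.deriv_eq]
      simp
    · have : Real.smoothTransition =ᶠ[𝓝 x] fun _ => 1 := by
        filter_upwards [Ioi_mem_nhds hx] with y hy
        exact Real.smoothTransition.one_of_one_le (le_of_lt hy)
      rw [this.deriv_eq]
      simp
  have hbd : ∀ x, deriv Real.smoothTransition x ≤ max C 1 := by
    intro x
    by_cases hx : x ∈ Icc (0 : ℝ) 1
    · exact (le_abs_self _).trans ((hC x hx).trans (le_max_left _ _))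
    · rw [hzero x hx]
      exact zero_le_one.trans (le_max_right _ _)
  have hC0 : 0 < max C 1 := lt_of_lt_of_le zero_lt_one (le_max_right _ _)
  refine ⟨max C 1, hC0, fun δ hδ => ?_⟩
  have hCδ : 0 < max C 1 * δ := mul_pos hC0 hδ
  refine ⟨fun r => δ * Real.smoothTransition ((max C 1 * δ)⁻¹ * r), ?_, ?_, ?_, ?_⟩
  · exact contDiff_const.mul (hS.comp (contDiff_const.mul contDiff_id))
  · intro r hr
    beta_reduce
    rw [Real.smoothTransition.zero_of_nonpos, mul_zero]
    exact mul_nonpos_of_nonneg_of_nonpos (inv_nonneg.2 hCδ.le) hr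
  · intro r hr
    beta_reduce
    rw [Real.smoothTransition.one_of_one_le, mul_one]
    rw [inv_mul_eq_div, le_div_iff₀ hCδ]
    linarith
  · intro r
    have h1 : HasDerivAt (fun r => δ * Real.smoothTransition ((max C 1 * δ)⁻¹ * r))
        (δ * (deriv Real.smoothTransition ((max C 1 * δ)⁻¹ * r) * (max C 1 * δ)⁻¹)) r := by
      have h2 : HasDerivAt (fun r => (max C 1 * δ)⁻¹ * r) (max C 1 * δ)⁻¹ r := by
        simpa using (hasDerivAt_id' r).const_mul (max C 1 * δ)⁻¹
      exact ((hd _).hasDerivAt.comp r h2).const_mul δ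
    rw [h1.deriv]
    have h3 : δ * (deriv Real.smoothTransition ((max C 1 * δ)⁻¹ * r) * (max C 1 * δ)⁻¹) =
        deriv Real.smoothTransition ((max C 1 * δ)⁻¹ * r) / max C 1 := by
      field_simp
    rw [h3]
    constructor
    · exact div_nonneg (Real.smoothTransition.monotone.deriv_nonneg) hC0.le
    · rw [div_le_one hC0]
      exact hbd _

variable {n : ℕ} {E : Type*} [NormedAddCommGroup E] [InnerProductSpace ℝ E] [FiniteDimensional ℝ E]
  {b : Basis (Fin n) ℝ E}

/-- Riesz vector of the integral form `k` -/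
def rv (b : Basis (Fin n) ℝ E) (k : Fin n → ℤ) : E :=
  (InnerProductSpace.toDual ℝ E).symm (lin b k)

lemma inner_rv (k : Fin n → ℤ) (x : E) : inner ℝ (rv b k) x = lin b k x := by
  rw [rv, InnerProductSpace.toDual_symm_apply]

theorem glue {A : E → E} {V : E → ℝ} {k : Fin n → ℤ} {c c₀ : E} {θ κ : ℝ}
    (hc : c = c₀ + θ • rv b k) {φ χ : E → ℝ} (hφ : ContDiff ℝ 1 φ) (hφp : Per b φ)
    (hsub : Sub A V c κ φ) (hχ : ContDiff ℝ 1 χ) (hχp : Per b χ) {s₁ w a δ β₀ : ℝ}
    (hw0 : 0 < w) (hw1 : w < 1)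
    (hW : ∀ x, 0 < Int.fract (lin b k x - s₁) → Int.fract (lin b k x - s₁) < w →
      ∀ v, inner ℝ (c₀ + a • rv b k) v + fderiv ℝ χ x v ≤ Lag A V (x, v) + κ)
    {Θ : ℝ → ℝ} {Z₀ Z₁ : Set ℝ} (hZ₀ : IsOpen Z₀) (hZ₁ : IsOpen Z₁)
    (hΘ : ContDiff ℝ 1 Θ) (hΘ0 : ∀ r ∈ Z₀, Θ r = 0)
    (hΘ1 : ∀ r ∈ Z₁, Θ r = δ) (hΘ' : ∀ r, 0 ≤ deriv Θ r ∧ deriv Θ r ≤ 1)
    (hleft : ∀ x, Int.fract (lin b k x - s₁) = 0 → χ x - φ x + β₀ ∈ Z₀)
    (hright : ∀ x, Int.fract (lin b k x - s₁) = w → (a - θ) * w + χ x - φ x + β₀ ∈ Z₁) :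
    ∃ φ' : E → ℝ, ContDiff ℝ 1 φ' ∧ Per b φ' ∧ Sub A V (c + δ • rv b k) κ φ' := by
  set s : E → ℝ := fun x => lin b k x - s₁ with hs
  have hsc : Continuous s := (lin b k).continuous.sub continuous_const
  set D : ℤ → E → ℝ := fun N x => (a - θ) * (s x - N) + χ x - φ x + β₀ with hD
  have hDc : ∀ N, Continuous (D N) := fun N =>
    (((continuous_const.mul (hsc.sub continuous_const)).add hχ.continuous).sub
      hφ.continuous).add continuous_const
  set g : E → ℝ := fun x => δ * (⌊s x⌋ : ℝ) +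
    (if Int.fract (s x) < w then Θ (D ⌊s x⌋ x) else δ) with hg
  -- local structure
  have hloc : ∀ x₀, (∃ q : ℝ, g =ᶠ[𝓝 x₀] fun _ => q) ∨
      (∃ N : ℤ, 0 < Int.fract (s x₀) ∧ Int.fract (s x₀) < w ∧
        g =ᶠ[𝓝 x₀] fun x => δ * (N : ℝ) + Θ (D N x)) := by
    intro x₀
    set N : ℤ := ⌊s x₀⌋ with hN
    have hfl : (N : ℝ) ≤ s x₀ := Int.floor_le _
    have hfl2 : s x₀ < N + 1 := Int.lt_floor_add_one _
    have hfr : Int.fract (s x₀) = s x₀ - N := rfl
    -- floor is constant if fract is positive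
    have hfloor : 0 < Int.fract (s x₀) → ∀ᶠ x in 𝓝 x₀, ⌊s x⌋ = N := by
      intro h0
      have h1 : ∀ᶠ x in 𝓝 x₀, (N : ℝ) < s x := hsc.continuousAt.eventually_const_lt
        (by linarith)
      have h2 : ∀ᶠ x in 𝓝 x₀, s x < N + 1 := hsc.continuousAt.eventually_lt_const hfl2
      filter_upwards [h1, h2] with x hx1 hx2
      exact Int.floor_eq_iff.2 ⟨hx1.le, hx2⟩
    rcases eq_or_lt_of_le (Int.fract_nonneg (s x₀)) with h0 | h0
    · -- fract = 0
      left
      refine ⟨δ * N, ?_⟩
      have hs0 : s x₀ = N := by linarith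
      have h1 : ∀ᶠ x in 𝓝 x₀, D N x ∈ Z₀ := by
        refine (hDc N).continuousAt.eventually (hZ₀.mem_nhds ?_)
        have := hleft x₀ h0.symm
        simp only [hD, hs0]
        convert this using 1
        ring
      have h2 : ∀ᶠ x in 𝓝 x₀, s x < N + w := hsc.continuousAt.eventually_lt_const
        (by linarith)
      have h3 : ∀ᶠ x in 𝓝 x₀, (N : ℝ) - 1 + w < s x := hsc.continuousAt.eventually_const_lt
        (by linarith)
      filter_upwards [h1, h2, h3] with x hx1 hx2 hx3
      rcases le_or_gt (N : ℝ) (s x) with hx | hx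
      · have hfx : ⌊s x⌋ = N := Int.floor_eq_iff.2 ⟨hx, by linarith⟩
        have hfx' : Int.fract (s x) = s x - N := by rw [← hfx]; rfl
        simp only [hg, hfx, hfx']
        rw [if_pos (by linarith), hΘ0 _ hx1, add_zero]
      · have hfx : ⌊s x⌋ = N - 1 := Int.floor_eq_iff.2 ⟨by push_cast; linarith,
          by push_cast; linarith⟩
        have hfx' : Int.fract (s x) = s x - (N - 1 : ℤ) := by rw [← hfx]; rfl
        simp only [hg, hfx, hfx']
        rw [if_neg (by push_cast; linarith)]
        push_cast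
        ring
    · rcases lt_trichotomy (Int.fract (s x₀)) w with h1 | h1 | h1
      · right
        refine ⟨N, h0, h1, ?_⟩
        have h2 : ∀ᶠ x in 𝓝 x₀, s x < N + w := hsc.continuousAt.eventually_lt_const
          (by linarith)
        filter_upwards [hfloor h0, h2] with x hx1 hx2
        have hfx' : Int.fract (s x) = s x - N := by rw [← hx1]; rfl
        simp only [hg, hx1, hfx']
        rw [if_pos (by linarith)]
      · left
        refine ⟨δ * N + δ, ?_⟩
        have h2 : ∀ᶠ x in 𝓝 x₀, D N x ∈ Z₁ := by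
          refine (hDc N).continuousAt.eventually (hZ₁.mem_nhds ?_)
          have := hright x₀ h1
          have h3 : s x₀ - N = w := by linarith
          simp only [hD, h3]
          convert this using 1
        filter_upwards [hfloor h0, h2] with x hx1 hx2
        simp only [hg, hx1]
        rw [hΘ1 _ hx2]
        simp
      · left
        refine ⟨δ * N + δ, ?_⟩
        have h2 : ∀ᶠ x in 𝓝 x₀, N + w < s x := hsc.continuousAt.eventually_const_lt
          (by linarith)
        filter_upwards [hfloor h0, h2] with x hx1 hx2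
        have hfx' : Int.fract (s x) = s x - N := by rw [← hx1]; rfl
        simp only [hg, hx1, hfx']
        rw [if_neg (by linarith)]
  have hDd : ∀ N, ContDiff ℝ 1 (D N) := by
    intro N
    have h1 : ContDiff ℝ 1 s := (lin b k).contDiff.sub contDiff_const
    exact (((contDiff_const.mul (h1.sub contDiff_const)).add hχ).sub hφ).add contDiff_const
  have hgd : ContDiff ℝ 1 g := by
    rw [contDiff_iff_contDiffAt]
    intro x₀
    rcases hloc x₀ with ⟨q, hq⟩ | ⟨N, _, _, hq⟩
    · exact contDiffAt_const.congr_of_eventuallyEq hq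
    · exact ContDiffAt.congr_of_eventuallyEq
        (contDiff_const.add (hΘ.comp (hDd N))).contDiffAt hq
  refine ⟨fun x => φ x + g x - δ * lin b k x, ?_, ?_, ?_⟩
  · exact (hφ.add hgd).sub (contDiff_const.mul (lin b k).contDiff)
  · intro i x
    have h1 : s (x + b i) = s x + (k i : ℤ) := by
      simp only [hs, map_add, lin_basis]
      ring
    have h2 : ⌊s (x + b i)⌋ = ⌊s x⌋ + k i := by rw [h1, Int.floor_add_intCast]
    have h3 : Int.fract (s (x + b i)) = Int.fract (s x) := by rw [h1, Int.fract_add_intCast]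
    have h4 : D (⌊s x⌋ + k i) (x + b i) = D ⌊s x⌋ x := by
      simp only [hD, h1, hφp i x, hχp i x]
      push_cast
      ring
    simp only [hg, h2, h3, h4, hφp i x, map_add, lin_basis]
    push_cast
    ring
  · intro x v
    have hdφ : HasFDerivAt φ (fderiv ℝ φ x) x := (hφ.differentiable one_ne_zero x).hasFDerivAt
    have hdχ : HasFDerivAt χ (fderiv ℝ χ x) x := (hχ.differentiable one_ne_zero x).hasFDerivAt
    have hdg : HasFDerivAt g (fderiv ℝ g x) x := (hgd.differentiable one_ne_zero x).hasFDerivAt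
    have hd : fderiv ℝ (fun x => φ x + g x - δ * lin b k x) x v =
        fderiv ℝ φ x v + fderiv ℝ g x v - δ * lin b k v := by
      have h1 : HasFDerivAt (fun x => φ x + g x - δ * lin b k x)
          (fderiv ℝ φ x + fderiv ℝ g x - δ • lin b k) x :=
        (hdφ.add hdg).sub ((lin b k).hasFDerivAt.const_mul δ)
      rw [h1.fderiv]
      simp
    rw [hd, inner_add_left, inner_smul_left, inner_rv]
    have hS := hsub x v
    rcases hloc x with ⟨q, hq⟩ | ⟨N, hN0, hN1, hq⟩
    · have : fderiv ℝ g x = 0 := by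
        rw [hq.fderiv_eq]
        simp
      rw [this]
      simp only [zero_apply, conj_trivial]
      linarith
    · have hDN : HasFDerivAt (D N) ((a - θ) • lin b k + fderiv ℝ χ x - fderiv ℝ φ x) x := by
        have h1 : HasFDerivAt (fun x => s x - N) (lin b k) x := by
          have := (((lin b k).hasFDerivAt (x := x)).sub_const s₁).sub_const (N : ℝ)
          exact this
        exact ((((h1.const_mul (a - θ)).add hdχ).sub hdφ).add_const β₀)
      have hG : fderiv ℝ g x v = deriv Θ (D N x) *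
          ((a - θ) * lin b k v + fderiv ℝ χ x v - fderiv ℝ φ x v) := by
        rw [hq.fderiv_eq]
        have h1 : HasFDerivAt (fun x => δ * (N : ℝ) + Θ (D N x))
            (deriv Θ (D N x) • ((a - θ) • lin b k + fderiv ℝ χ x - fderiv ℝ φ x)) x := by
          have h2 : HasDerivAt Θ (deriv Θ (D N x)) (D N x) :=
            (hΘ.differentiable one_ne_zero _).hasDerivAt
          exact (h2.comp_hasFDerivAt x hDN).const_add _
        rw [h1.fderiv]
        simp
      have hWx := hW x hN0 hN1 v
      rw [inner_add_left, inner_smul_left, inner_rv] at hWx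
      simp only [conj_trivial] at hWx ⊢
      rw [hG]
      have hcv : inner ℝ c v = inner ℝ c₀ v + θ * lin b k v := by
        rw [hc, inner_add_left, inner_smul_left, inner_rv]
        simp
      obtain ⟨ht0, ht1⟩ := hΘ' (D N x)
      set t := deriv Θ (D N x)
      rw [hcv] at hS ⊢
      nlinarith [mul_le_mul_of_nonneg_left hWx ht0,
        mul_le_mul_of_nonneg_left hS (sub_nonneg.2 ht1)]

end

end Pool.H45.Mather
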