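import Pool.Agent.H45.MatherKey

open MeasureTheory Module Set Filter Topology

namespace Pool.H45.Mather

noncomputable section

set_option linter.unusedSectionVars false
set_option linter.style.haveILetI false

variable {n : ℕ} {E : Type*} [NormedAddCommGroup E] [InnerProductSpace ℝ E] [FiniteDimensional ℝ E]
  [MeasurableSpace E] [BorelSpace E] {b : Basis (Fin n) ℝ E}
variable {A : E → E} {V : E → ℝ} {k : Fin n → ℤ} {ω : E} {χ fl : E → ℝ}
  {t Λ ε CA Gχ CF fM : ℝ}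

lemma Dat.speed (D : Dat b A V k ω χ fl t Λ ε CA Gχ CF fM) {c c₀ : E} {θ α σ : ℝ}
    (hc : c = c₀ + θ • rv b k) (he : ‖c₀ - t • ω‖ ^ 2 ≤ 20 * (Λ * ε))
    (hα : ‖t • ω‖ ^ 2 / 2 - inner ℝ c₀ (t • ω) + α ≤ Λ * (fM + 2 * ε))
    (hσ : σ ≤ 1) {φ : E → ℝ} (hsub : Sub A V c (α + σ) φ) {ζ : E} (hζ : lin b k ζ = 0) (x : E) :
    fderiv ℝ φ x (t • ω + ζ) ≤ Λ * (|fM| + CF + 1 + 23 * ε) + ‖ζ‖ ^ 2 := by
  have h1 := hsub x (t • ω + ζ)
  have h2 : inner ℝ c (t • ω + ζ) = inner ℝ c₀ (t • ω) + inner ℝ c₀ ζ := by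
    rw [hc, inner_add_left, inner_smul_left, inner_rv, map_add, map_smul, D.hkω, hζ,
      inner_add_right]
    simp
  have h3 : ‖t • ω + ζ‖ ^ 2 = ‖t • ω‖ ^ 2 + 2 * inner ℝ (t • ω) ζ + ‖ζ‖ ^ 2 := norm_add_sq_real _ _
  have h4 : inner ℝ (A x) (t • ω + ζ) = t * inner ℝ (A x) ω + inner ℝ (A x) ζ := by
    rw [inner_add_right, inner_smul_right]
  have h5 := (abs_le.1 (D.h4 x)).1
  have h6 : inner ℝ (A x) ζ ≤ CA * ‖ζ‖ :=
    (real_inner_le_norm _ _).trans (mul_le_mul_of_nonneg_right (D.hCA x) (norm_nonneg _))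
  have h7 : inner ℝ (t • ω) ζ - inner ℝ c₀ ζ ≤ ‖c₀ - t • ω‖ * ‖ζ‖ := by
    rw [← inner_sub_left, norm_sub_rev]
    exact real_inner_le_norm _ _
  have h8 : fM ≤ |fM| := le_abs_self _
  have h9 := D.h2
  have hΛ := D.hΛ
  have hΛ0 := D.Λ0
  have hε := D.hε
  have h10 : Λ * fM ≤ Λ * |fM| := mul_le_mul_of_nonneg_left h8 hΛ0.le
  set e := ‖c₀ - t • ω‖ with hedef
  set z := ‖ζ‖ with hz
  have h11 : e * z + CA * z ≤ 21 * (Λ * ε) + z ^ 2 / 2 := by
    have h12 := sq_nonneg (e + CA - z)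
    have h13 := sq_nonneg (e - CA)
    linarith
  unfold Lag at h1
  simp only at h1
  rw [h2, h3, h4] at h1
  linarith

lemma Dat.osc (D : Dat b A V k ω χ fl t Λ ε CA Gχ CF fM) {c c₀ : E} {θ α σ : ℝ}
    (hc : c = c₀ + θ • rv b k) (he : ‖c₀ - t • ω‖ ^ 2 ≤ 20 * (Λ * ε))
    (hα : ‖t • ω‖ ^ 2 / 2 - inner ℝ c₀ (t • ω) + α ≤ Λ * (fM + 2 * ε))
    (hσ : σ ≤ 1) {φ : E → ℝ} (hφ : ContDiff ℝ 1 φ) (hφp : Per b φ)
    (hsub : Sub A V c (α + σ) φ) {r₀ Lr ρ : ℝ} (hr0 : 0 < r₀)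
    (hr1 : r₀ * ‖lin b k‖ < 1)
    (hdens : ∀ z, lin b k z = 0 → ∃ r, 0 ≤ r ∧ r ≤ Lr ∧ ∃ m, ‖r • ω - z - lat b m‖ ≤ r₀)
    (hρ : 0 < ρ) (hρt : Lr ≤ t * ρ / 2) {x y : E} (hxy : lin b k x = lin b k y) :
    φ y - φ x ≤ ρ * (Λ * (|fM| + CF + 1 + 23 * ε)) + 2 * r₀ ^ 2 / ρ := by
  have ht := D.ht
  obtain ⟨r, hr, hrL, m, hm⟩ := hdens (y - x - (ρ / 2) • (t • ω)) (by
    rw [map_sub, map_sub, map_smul, map_smul, D.hkω, hxy]; simp)
  set T : ℝ := ρ / 2 + r / t with hT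
  have hT0 : ρ / 2 ≤ T := by
    rw [hT]
    have : 0 ≤ r / t := div_nonneg hr ht.le
    linarith
  have hT1 : T ≤ ρ := by
    have : r / t ≤ ρ / 2 := by
      rw [div_le_iff₀ ht]
      linarith
    rw [hT]; linarith
  have hTpos : 0 < T := lt_of_lt_of_le (by linarith) hT0
  set δ : E := y + lat b m - x - T • (t • ω) with hδ
  have hδn : ‖δ‖ ≤ r₀ := by
    have e1 : δ = -(r • ω - (y - x - (ρ / 2) • (t • ω)) - lat b m) := by
      rw [hδ, hT, add_smul]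
      have : (r / t) • (t • ω) = r • ω := by
        rw [smul_smul, div_mul_cancel₀ _ ht.ne']
      rw [this]
      abel
    rw [e1, norm_neg]
    exact hm
  have hδk : lin b k δ = 0 := by
    have e1 : lin b k δ = ((∑ i, k i * m i : ℤ) : ℝ) := by
      rw [hδ, map_sub, map_sub, map_add, map_smul, map_smul, D.hkω, hxy, lin_lat]
      simp
    have e2 : |lin b k δ| < 1 := by
      refine lt_of_le_of_lt ?_ hr1
      have := (lin b k).le_opNorm δ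
      rw [Real.norm_eq_abs] at this
      refine this.trans ?_
      rw [mul_comm]
      exact mul_le_mul_of_nonneg_right hδn (norm_nonneg _)
    rw [e1] at e2 ⊢
    have e3 : |(∑ i, k i * m i : ℤ)| < 1 := by exact_mod_cast e2
    have e4 : (∑ i, k i * m i : ℤ) = 0 := Int.abs_lt_one_iff.1 e3
    rw [e4]; simp
  set ζ : E := T⁻¹ • δ with hζ
  have hζk : lin b k ζ = 0 := by rw [hζ, map_smul, hδk, smul_zero]
  have hsp := fun x => D.speed hc he hα hσ hsub hζk x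
  have hseg := seg_bound hφ hsp hTpos.le x
  have hend : x + T • (t • ω + ζ) = y + lat b m := by
    rw [smul_add, hζ, smul_inv_smul₀ hTpos.ne', hδ]
    abel
  rw [hend, hφp.add_lat] at hseg
  refine hseg.trans ?_
  have hC2 : 0 ≤ Λ * (|fM| + CF + 1 + 23 * ε) := by
    have h1 : 0 ≤ Λ * CF := (abs_nonneg _).trans (D.h4 0)
    have h2 : 0 ≤ Λ * |fM| := mul_nonneg D.Λ0.le (abs_nonneg _)
    have h3 : 0 < Λ * ε := mul_pos D.Λ0 D.hε
    have h4 := D.Λ0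
    nlinarith
  have h5 : T * ‖ζ‖ ^ 2 ≤ 2 * r₀ ^ 2 / ρ := by
    rw [hζ, norm_smul, Real.norm_eq_abs, abs_of_pos (inv_pos.2 hTpos), mul_pow]
    have h6 : T * (T⁻¹ ^ 2 * ‖δ‖ ^ 2) = ‖δ‖ ^ 2 / T := by
      field_simp
    rw [h6, div_le_div_iff₀ hTpos hρ]
    have h7 : ‖δ‖ ^ 2 ≤ r₀ ^ 2 := pow_le_pow_left₀ (norm_nonneg _) hδn 2
    nlinarith [sq_nonneg r₀, sq_nonneg ‖δ‖]
  rw [mul_add]
  exact add_le_add (mul_le_mul_of_nonneg_right hT1 hC2) h5

theorem Dat.key (D : Dat b A V k ω χ fl t Λ ε CA Gχ CF fM) (hk : k ≠ 0) {u : Fin n → ℤ}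
    (hu : lin b k (lat b u) = 1) {η s₁ w : ℝ} (hεη : 30 * ε ≤ η)
    (hw0 : 0 < w) (hw1 : w < 1)
    (hslab : ∀ x, 0 < Int.fract (lin b k x - s₁) → Int.fract (lin b k x - s₁) < w →
      fl x ≤ fM - η)
    {r₀ Lr ρ : ℝ} (hr0 : 0 < r₀) (hr1 : r₀ * ‖lin b k‖ < 1)
    (hdens : ∀ z, lin b k z = 0 → ∃ r, 0 ≤ r ∧ r ≤ Lr ∧ ∃ m, ‖r • ω - z - lat b m‖ ≤ r₀)
    (hρ : 0 < ρ) (hρt : Lr ≤ t * ρ / 2) {Bχ : ℝ} (hB : ∀ x, |χ x| ≤ Bχ)
    (hbig : 2 * (Λ / t * Bχ + (ρ * (Λ * (|fM| + CF + 1 + 23 * ε)) + 2 * r₀ ^ 2 / ρ)) <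
      √(Λ * η) / (2 * ‖rv b k‖) * w) :
    ¬ DifferentiableAt ℝ (beta b A V) (t • ω) := by
  intro hd
  obtain ⟨c, hc1, hc2⟩ := exists_grad D.hA D.hAp D.hV D.hVp hd
  have ht := D.ht
  have hΛ0 := D.Λ0
  have hε := D.hε
  have hη : 0 < η := by linarith
  set K := rv b k with hK
  have hKne : K ≠ 0 := by
    intro h0
    have : lin b k (lat b u) = 0 := by rw [← inner_rv, ← hK, h0, inner_zero_left]
    rw [hu] at this
    exact one_ne_zero this
  have hKn : 0 < ‖K‖ := norm_pos_iff.2 hKne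
  set θ : ℝ := inner ℝ K c / ‖K‖ ^ 2 with hθ
  set c₀ : E := c - θ • K with hc₀
  have hcc : c = c₀ + θ • K := by rw [hc₀]; abel
  have hKc0 : inner ℝ K c₀ = 0 := by
    rw [hc₀, inner_sub_right, inner_smul_right, real_inner_self_eq_norm_sq, hθ]
    field_simp
    ring
  have hlc0 : lin b k c₀ = 0 := by rw [← inner_rv]; exact hKc0
  have hKh : inner ℝ K (t • ω) = 0 := by
    rw [hK, inner_rv, map_smul, D.hkω, smul_zero]
  have hch : inner ℝ c (t • ω) = inner ℝ c₀ (t • ω) := by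
    rw [hcc, inner_add_left, inner_smul_left, hKh]
    simp
  set α : ℝ := inner ℝ c (t • ω) - beta b A V (t • ω) with hα
  have hstar : Star b A V c α := by
    refine star_of_le_beta D.hA D.hAp D.hV D.hVp fun r => ?_
    have := hc1 r
    rw [inner_sub_right] at this
    rw [hα]
    linarith
  have hlow := D.lower
  have hup := D.upper (r := t • ω) (by rw [map_smul, D.hkω, smul_zero])
  rw [sub_self, norm_zero, mul_zero, add_zero] at hup
  have hup0 := D.upper hlc0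
  set e := ‖c₀ - t • ω‖ with he
  -- first estimate
  have hgrad := hc1 c₀
  have hcK : inner ℝ c (c₀ - t • ω) = inner ℝ c₀ (c₀ - t • ω) := by
    rw [hcc, inner_add_left, inner_smul_left, inner_sub_right (x := K), hKc0, hKh]
    simp
  rw [hcK] at hgrad
  have hsq : e ^ 2 = ‖c₀‖ ^ 2 - 2 * inner ℝ c₀ (t • ω) + ‖t • ω‖ ^ 2 := norm_sub_sq_real _ _
  have hin : inner ℝ c₀ (c₀ - t • ω) = ‖c₀‖ ^ 2 - inner ℝ c₀ (t • ω) := by
    rw [inner_sub_right, real_inner_self_eq_norm_sq]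
  have hCA2 := D.h2
  have he2 : e ^ 2 ≤ 20 * (Λ * ε) := by
    rw [hin] at hgrad
    have h1 := sq_nonneg (e - 2 * CA)
    linarith
  have hα1 : ‖t • ω‖ ^ 2 / 2 - inner ℝ c₀ (t • ω) + α ≤ Λ * (fM + 2 * ε) := by
    rw [hα, hch]
    linarith
  have hα2 : ‖c₀‖ ^ 2 / 2 + Λ * fM - 12 * (Λ * ε) ≤ α := by
    rw [hα, hch]
    linarith
  set a : ℝ := √(Λ * η) / (2 * ‖K‖) with ha
  have haK : a * ‖K‖ = √(Λ * η) / 2 := by
    rw [ha]
    field_simp
  have haK2 : (a * ‖K‖) ^ 2 = Λ * η / 4 := by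
    rw [haK, div_pow, Real.sq_sqrt (by positivity)]
    norm_num
  have hW : ∀ (s : ℝ), s ^ 2 = a ^ 2 → ∀ x, 0 < Int.fract (lin b k x - s₁) →
      Int.fract (lin b k x - s₁) < w → ∀ v, inner ℝ (c₀ + s • rv b k) v +
        fderiv ℝ (fun x => Λ / t * χ x) x v ≤ Lag A V (x, v) + α := by
    intro s hs x hx0 hx1 v
    have h1 := D.ptw (c₀ - t • ω + s • K) x v
    have e1 : t • ω + (c₀ - t • ω + s • K) = c₀ + s • K := by abel
    rw [e1] at h1
    have h2 : ‖c₀ + s • K‖ ^ 2 = ‖c₀‖ ^ 2 + Λ * η / 4 := by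
      rw [norm_add_sq_real, inner_smul_right, real_inner_comm, hKc0, norm_smul, mul_pow,
        Real.norm_eq_abs, sq_abs, hs, ← mul_pow, haK2]
      ring
    have h3 : ‖c₀ - t • ω + s • K‖ ^ 2 ≤ 2 * e ^ 2 + 2 * (Λ * η / 4) := by
      have h4 : ‖c₀ - t • ω + s • K‖ ≤ e + ‖s • K‖ := norm_add_le _ _
      have h5 : ‖s • K‖ ^ 2 = Λ * η / 4 := by
        rw [norm_smul, mul_pow, Real.norm_eq_abs, sq_abs, hs, ← mul_pow, haK2]
      have h6 := pow_le_pow_left₀ (norm_nonneg _) h4 2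
      have h7 := sq_nonneg (e - ‖s • K‖)
      linarith
    have h7 := D.h3
    have h8 : Λ * fl x ≤ Λ * (fM - η) := mul_le_mul_of_nonneg_left (hslab x hx0 hx1) hΛ0.le
    set q := ‖c₀ - t • ω + s • K‖ with hq
    set γ := Λ / t * Gχ + CA with hγ
    have h9 : q * γ ≤ q ^ 2 / 8 + 2 * γ ^ 2 := by
      have := sq_nonneg (q - 4 * γ)
      linarith
    have h10 : 30 * (Λ * ε) ≤ Λ * η := by
      have := mul_le_mul_of_nonneg_left hεη hΛ0.le
      linarith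
    rw [← hK]
    rw [h2] at h1
    linarith
  have hE2 : ∀ σ, 0 < σ → σ ≤ 1 → ∀ φ : E → ℝ, ContDiff ℝ 1 φ → Per b φ →
      Sub A V c (α + σ) φ → ∀ x y, (∃ N : ℤ, lin b k x - lin b k y = N) → φ x - φ y ≤
        ρ * (Λ * (|fM| + CF + 1 + 23 * ε)) + 2 * r₀ ^ 2 / ρ := by
    rintro σ _ hσ φ hφ hφp hsub x y ⟨N, hN⟩
    have h1 := D.osc hcc he2 hα1 hσ hφ hφp hsub hr0 hr1 hdens hρ hρt
      (x := y + lat b (fun i => N * u i)) (y := x) (by
        rw [map_add]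
        have : lin b k (lat b (fun i => N * u i)) = N := by
          rw [lin_lat] at hu ⊢
          have : (∑ i, k i * (N * u i) : ℤ) = N * ∑ i, k i * u i := by
            rw [Finset.mul_sum]
            exact Finset.sum_congr rfl fun i _ => by ring
          rw [this]
          push_cast at hu ⊢
          rw [hu, mul_one]
        rw [this]
        linarith)
    rwa [hφp.add_lat] at h1
  obtain ⟨δ, hδ, hstar'⟩ := core D.hA D.hAp D.hV D.hVp hk (c₀ := c₀) (θ := θ) hcc hstar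
    (χ := fun x => Λ / t * χ x) (contDiff_const.mul D.hχ) (D.hχp.comp (fun y => Λ / t * y))
    (E₁ := Λ / t * Bχ) (fun x => by
      rw [abs_mul, abs_of_pos (div_pos hΛ0 ht)]
      exact mul_le_mul_of_nonneg_left (hB x) (div_pos hΛ0 ht).le)
    (s₁ := s₁) (w := w) (a := a) hw0 hw1 (hW a rfl) (hW (-a) (by ring)) hE2 hbig
  have heq := hc2 (c + δ • K) fun r => by
    have h1 := hstar'.le_beta r
    rw [inner_sub_right]
    have h2 : inner ℝ (c + δ • K) (t • ω) = inner ℝ c (t • ω) := by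
      rw [inner_add_left, inner_smul_left, hKh]
      simp
    rw [h2]
    rw [hα] at h1
    linarith
  have : δ • K = 0 := by
    have := congrArg (fun z => z - c) heq
    simpa using this
  rcases smul_eq_zero.1 this with h | h
  · exact hδ h
  · exact hKne h

end

end Pool.H45.Mather
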