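import Pool.Agent.H45.MatherDefs

open MeasureTheory Module Set Filter Topology
open scoped Pointwise

namespace Pool.H45.Mather

noncomputable section

variable {n : ℕ} {E : Type*} [NormedAddCommGroup E] [InnerProductSpace ℝ E] [FiniteDimensional ℝ E]
  [MeasurableSpace E] [BorelSpace E] {b : Basis (Fin n) ℝ E}

/-- normalised Lebesgue measure on a fundamental cell -/
def lam (b : Basis (Fin n) ℝ E) : Measure E :=
  (volume (ZSpan.fundamentalDomain b))⁻¹ • volume.restrict (ZSpan.fundamentalDomain b)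

lemma vol_fd_ne_zero : volume (ZSpan.fundamentalDomain b) ≠ 0 :=
  ZSpan.measure_fundamentalDomain_ne_zero b

lemma vol_fd_ne_top : volume (ZSpan.fundamentalDomain b) ≠ ⊤ :=
  ((ZSpan.fundamentalDomain_isBounded b).measure_lt_top).ne

instance lam_prob : IsProbabilityMeasure (lam b) := by
  refine ⟨?_⟩
  rw [lam, Measure.smul_apply, Measure.restrict_apply_univ, smul_eq_mul]
  exact ENNReal.inv_mul_cancel vol_fd_ne_zero vol_fd_ne_top

lemma lam_trans {F : E → ℝ} (hF : Per b F) (z : E) :
    ∫ x, F (x + z) ∂(lam b) = ∫ x, F x ∂(lam b) := by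
  unfold lam
  rw [integral_smul_measure, integral_smul_measure]
  congr 1
  haveI : Countable (Submodule.span ℤ (Set.range b)).toAddSubgroup :=
    inferInstanceAs (Countable (Submodule.span ℤ (Set.range b)))
  have hD := ZSpan.isAddFundamentalDomain' b (volume : Measure E)
  have hD' := hD.vadd_of_comm z
  have h1 : ∫ x in z +ᵥ ZSpan.fundamentalDomain b, F x
      = ∫ x in ZSpan.fundamentalDomain b, F (x + z) := by
    have := (measurePreserving_add_right (volume : Measure E) z).setIntegral_preimage_emb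
      (measurableEmbedding_addRight z) F (z +ᵥ ZSpan.fundamentalDomain b)
    rw [← this]
    congr 2
    ext x
    simp only [mem_preimage, mem_vadd_set_iff_neg_vadd_mem, vadd_eq_add]
    rw [show -z + (x + z) = x by abel]
  rw [← h1]
  symm
  refine hD.setIntegral_eq hD' ?_
  intro g x
  have : g +ᵥ x = x + (g : E) := by
    rw [add_comm]; rfl
  rw [this]
  exact hF.add_mem g.2 x

lemma Per.integrable {F : E → ℝ} (hF : Per b F) (hc : Continuous F) : Integrable F (lam b) := by
  obtain ⟨C, _, hC⟩ := hF.bdd hc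
  exact Integrable.of_bound hc.aestronglyMeasurable C (Eventually.of_forall hC)

lemma lam_pos {F : E → ℝ} (hF : Per b F) (hc : Continuous F) (h0 : ∀ x, 0 ≤ F x) {x₀ : E}
    (hx₀ : 0 < F x₀) : 0 < ∫ x, F x ∂(lam b) := by
  by_contra hcon
  have hz : ∫ x, F x ∂(lam b) = 0 := le_antisymm (not_lt.1 hcon) (integral_nonneg h0)
  rw [integral_eq_zero_iff_of_nonneg h0 (hF.integrable hc)] at hz
  have hz1 : ∀ᵐ x ∂(volume.restrict (ZSpan.fundamentalDomain b)), F x = 0 := by
    have h2 : (volume (ZSpan.fundamentalDomain b))⁻¹ ≠ 0 := by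
      simp [vol_fd_ne_top]
    rw [Filter.EventuallyEq, lam, ae_iff, Measure.smul_apply, smul_eq_mul] at hz
    rw [ae_iff]
    rcases mul_eq_zero.1 hz with h | h
    · exact absurd h h2
    · exact h
  haveI : Countable (Submodule.span ℤ (Set.range b)).toAddSubgroup :=
    inferInstanceAs (Countable (Submodule.span ℤ (Set.range b)))
  have hD := ZSpan.isAddFundamentalDomain' b (volume : Measure E)
  have hm : volume {x | F x ≠ 0} = 0 := by
    refine hD.measure_zero_of_invariant _ ?_ ?_
    · intro g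
      ext x
      simp only [mem_vadd_set_iff_neg_vadd_mem, mem_setOf_eq]
      have : -g +ᵥ x = x + ((-g : (Submodule.span ℤ (Set.range b)).toAddSubgroup) : E) := by
        rw [add_comm]; rfl
      rw [this, hF.add_mem (-g).2 x]
    · have hms : MeasurableSet {x | F x ≠ 0} :=
        (isOpen_ne_fun hc continuous_const).measurableSet
      rw [ae_restrict_iff' (ZSpan.fundamentalDomain_measurableSet b)] at hz1
      refine measure_mono_null ?_ hz1
      intro x hx
      simp only [mem_compl_iff, mem_setOf_eq, Classical.not_imp]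
      exact ⟨hx.2, hx.1⟩
  have hae : F =ᵐ[volume] (fun _ => (0 : ℝ)) := by
    rw [Filter.EventuallyEq, ae_iff]
    exact hm
  have := (hc.ae_eq_iff_eq volume continuous_const).1 hae
  rw [this] at hx₀
  exact lt_irrefl _ hx₀

lemma inv_lemma {φ Ψ : E → ℝ} (hφ : ContDiff ℝ 1 φ) (hφp : Per b φ) (hΨ : Continuous Ψ)
    (hΨp : Per b Ψ) {w : E} (hw : ∀ (τ : ℝ) x, Ψ (x + τ • w) = Ψ x) :
    ∫ x, fderiv ℝ φ x w * Ψ x ∂(lam b) = 0 := by
  obtain ⟨CΨ, _, hCΨ⟩ := hΨp.bdd hΨ
  have hdc : Continuous (fderiv ℝ φ) := hφ.continuous_fderiv one_ne_zero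
  obtain ⟨Cφ, hCφ0, hCφ⟩ := hφp.fderiv.bdd hdc
  have hd : Differentiable ℝ φ := hφ.differentiable one_ne_zero
  have key := hasDerivAt_integral_of_dominated_loc_of_deriv_le (μ := lam b) (𝕜 := ℝ)
    (F := fun τ x => φ (x + τ • w) * Ψ x) (F' := fun τ x => fderiv ℝ φ (x + τ • w) w * Ψ x)
    (x₀ := (0 : ℝ)) (s := Set.univ) (bound := fun _ => Cφ * ‖w‖ * CΨ) univ_mem ?_ ?_ ?_ ?_ ?_ ?_
  · have hconst : (fun τ : ℝ => ∫ x, φ (x + τ • w) * Ψ x ∂(lam b)) = fun _ =>
        ∫ x, φ x * Ψ x ∂(lam b) := by
      funext τ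
      have := lam_trans (b := b) (F := fun x => φ x * Ψ x) (hφp.comp₂ hΨp (· * ·)) (τ • w)
      rw [← this]
      refine integral_congr_ae (Eventually.of_forall fun x => ?_)
      simp only [hw τ x]
    have h2 := key.2
    rw [hconst] at h2
    have := h2.unique (hasDerivAt_const (0 : ℝ) _)
    simpa using this
  · refine Eventually.of_forall fun τ => ?_
    exact ((hφ.continuous.comp (continuous_id.add continuous_const)).mul hΨ).aestronglyMeasurable
  · refine Per.integrable (b := b) ?_ ?_
    · exact (hφp.shift _).comp₂ hΨp (· * ·)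
    · exact (hφ.continuous.comp (continuous_id.add continuous_const)).mul hΨ
  · exact (((hdc.comp (continuous_id.add continuous_const)).clm_apply
      continuous_const).mul hΨ).aestronglyMeasurable
  · refine Eventually.of_forall fun x τ _ => ?_
    rw [norm_mul]
    refine mul_le_mul ?_ (hCΨ x) (norm_nonneg _) (by positivity)
    exact (ContinuousLinearMap.le_opNorm _ _).trans
      (mul_le_mul_of_nonneg_right (hCφ _) (norm_nonneg _))
  · exact integrable_const _
  · refine Eventually.of_forall fun x τ _ => ?_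
    have h1 : HasDerivAt (fun τ : ℝ => x + τ • w) w τ := by
      simpa using ((hasDerivAt_id τ).smul_const w).const_add x
    exact ((hd (x + τ • w)).hasFDerivAt.comp_hasDerivAt τ h1).mul_const _

lemma int_fderiv {φ : E → ℝ} (hφ : ContDiff ℝ 1 φ) (hφp : Per b φ) (w : E) :
    ∫ x, fderiv ℝ φ x w ∂(lam b) = 0 := by
  have := inv_lemma (Ψ := fun _ => (1 : ℝ)) hφ hφp continuous_const (Per.const 1) (w := w)
    (fun _ _ => rfl)
  simpa using this

end

end Pool.H45.Mather
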