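import Pool.Agent.H45.Xi
import Pool.Agent.H45.Laurent

/-!
# The module of quasi-periodic functions is projective
-/

set_option autoImplicit false

open Topology Filter Set MeasureTheory

namespace Pool.Agent.H45

lemma nhds_zero_contMap {X F : Type*} [TopologicalSpace X] [NormedAddCommGroup F]
    {N : Set C(X, F)} (hN : N ∈ 𝓝 (0 : C(X, F))) :
    ∃ (K : Set X) (ε : ℝ), IsCompact K ∧ 0 < ε ∧ ∀ g : C(X, F), (∀ z ∈ K, ‖g z‖ < ε) → g ∈ N := by
  have h := (Metric.nhds_basis_ball (x := (0 : F))).nhds_continuousMapConst (X := X)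
  obtain ⟨⟨K, ε⟩, ⟨hK, hε⟩, hs⟩ := h.mem_iff.1 hN
  refine ⟨K, ε, hK, hε, fun g hg => hs ?_⟩
  intro z hz
  rw [mem_ball_zero_iff]
  exact hg z hz

/-- A quantity that is at most `a * (b + δ)` for all positive `δ` is at most `a * b`. -/
lemma le_mul_of_forall_lt {x a b : ℝ} (ha : 0 ≤ a) (h : ∀ δ > 0, x ≤ a * (b + δ)) : x ≤ a * b := by
  refine le_of_forall_pos_le_add fun ε hε => ?_
  have h1 := h (ε / (a + 1)) (by positivity)
  have h2 : a * (ε / (a + 1)) ≤ ε := by
    rw [mul_div_assoc', div_le_iff₀ (by positivity)]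
    nlinarith
  nlinarith

section

variable {Y : Type*} [AddCommGroup Y] [Module ℂ Y] [UniformSpace Y] [Module (Hol Cstar) Y]
  [PolynormedModule Cstar Y]

/-- Joint continuity of the action gives geometric bounds for the action of the monomials. -/
lemma exists_bound_wpow_smul {q : Seminorm ℂ Y} (hq : Continuous q) :
    ∃ (C R : ℝ) (q' : Seminorm ℂ Y), 0 ≤ C ∧ 1 ≤ R ∧ Continuous q' ∧
      ∀ (n : ℤ) (y : Y), q (wpow n • y) ≤ C * R ^ n.natAbs * q' y := by
  have hc : Tendsto (fun p : Hol Cstar × Y => q (p.1 • p.2)) (𝓝 (0, 0)) (𝓝 0) := by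
    have h0 : Continuous fun p : Hol Cstar × Y => q (p.1 • p.2) := hq.comp continuous_smul
    have := h0.tendsto (0, 0)
    simpa using this
  have h1 : ∀ᶠ p in 𝓝 ((0 : Hol Cstar), (0 : Y)), q (p.1 • p.2) < 1 :=
    hc.eventually (gt_mem_nhds one_pos)
  rw [nhds_prod_eq, eventually_prod_iff] at h1
  obtain ⟨pN, hN, pV, hV, h⟩ := h1
  obtain ⟨q', hq', hqV⟩ := exists_seminorm_of_nhds hV
  obtain ⟨K, ε, hK, hε, hKN⟩ : ∃ (K : Set Cstar) (ε : ℝ), IsCompact K ∧ 0 < ε ∧
      ∀ g : Hol Cstar, (∀ z ∈ K, ‖g.fn z‖ < ε) → pN g := by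
    obtain ⟨N', hN', hsub⟩ := (mem_nhds_induced Hol.fn _ _).1 hN
    obtain ⟨K, ε, hK, hε, hKN⟩ := nhds_zero_contMap hN'
    exact ⟨K, ε, hK, hε, fun g hg => hsub (hKN g.fn hg)⟩
  obtain ⟨R, hR, hzR⟩ := exists_zpow_bound hK
  refine ⟨2 / ε, R, q', by positivity, hR, hq', fun n y => ?_⟩
  have hRn : 0 < R ^ n.natAbs := by positivity
  refine le_mul_of_forall_lt (by positivity) fun δ hδ => ?_
  have hq'0 : 0 ≤ q' y := apply_nonneg q' y
  set t : ℝ := q' y + δ with ht
  have ht0 : 0 < t := by positivity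
  set c : ℝ := ε / 2 * (R ^ n.natAbs)⁻¹ with hcdef
  have hc0 : 0 < c := by positivity
  have hV' : pV (((t⁻¹ : ℝ) : ℂ) • y) := by
    refine hqV _ ?_
    rw [map_smul_eq_mul, Complex.norm_real, Real.norm_of_nonneg (by positivity),
      inv_mul_lt_iff₀ ht0]
    linarith
  have hN' : pN (((c : ℝ) : ℂ) • wpow n) := by
    refine hKN _ fun z hz => ?_
    show ‖((c : ℝ) : ℂ) * (z : ℂ) ^ n‖ < ε
    rw [norm_mul, Complex.norm_real, Real.norm_of_nonneg hc0.le]
    calc c * ‖(z : ℂ) ^ n‖ ≤ c * R ^ n.natAbs := by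
          have := hzR z hz n
          gcongr
      _ = ε / 2 := by rw [hcdef]; field_simp
      _ < ε := by linarith
  have h2 := h hN' hV'
  rw [smul_assoc, smul_comm (wpow n), map_smul_eq_mul, map_smul_eq_mul, Complex.norm_real,
    Complex.norm_real, Real.norm_of_nonneg hc0.le, Real.norm_of_nonneg (by positivity)] at h2
  have h3 : q (wpow n • y) < t / c := by
    rw [lt_div_iff₀ hc0]
    have : c * (t⁻¹ * q (wpow n • y)) = (q (wpow n • y) * c) / t := by field_simp
    rw [this, div_lt_one ht0] at h2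
    exact h2
  refine h3.le.trans (le_of_eq ?_)
  rw [hcdef]
  field_simp

end

section

variable {E : Type*} [NormedAddCommGroup E] [NormedSpace ℂ E] {u : (E →L[ℂ] E)ˣ}

lemma exists_bound_of_clm {Z : Type*} [AddCommGroup Z] [Module ℂ Z] [TopologicalSpace Z]
    (τ : QP u →L[ℂ] Z) {q : Seminorm ℂ Z} (hq : Continuous q) :
    ∃ C r : ℝ, 0 ≤ C ∧ ∀ (f : QP u) (B : ℝ), 0 ≤ B → (∀ z, ‖z‖ ≤ r → ‖f.1 z‖ ≤ B) →
      q (τ f) ≤ C * B := by
  have hc : Tendsto (fun f : QP u => q (τ f)) (𝓝 0) (𝓝 0) := by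
    have h0 : Continuous fun f : QP u => q (τ f) := hq.comp τ.continuous
    have := h0.tendsto 0
    simpa using this
  have h1 : ∀ᶠ f in 𝓝 (0 : QP u), q (τ f) < 1 := hc.eventually (gt_mem_nhds one_pos)
  obtain ⟨N', hN', hsub⟩ := (mem_nhds_induced _ _ _).1 h1
  obtain ⟨K, ε, hK, hε, hKN⟩ := nhds_zero_contMap hN'
  obtain ⟨r, hr⟩ := hK.isBounded.subset_closedBall 0
  refine ⟨1 / ε, r, by positivity, fun f B hB hf => ?_⟩
  refine le_mul_of_forall_lt (by positivity) fun δ hδ => ?_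
  set t : ℝ := B + δ with ht
  have ht0 : 0 < t := by positivity
  have h2 : q (τ (((ε / t : ℝ) : ℂ) • f)) < 1 := by
    refine hsub (hKN _ fun z hz => ?_)
    show ‖((ε / t : ℝ) : ℂ) • f.1 z‖ < ε
    rw [norm_smul, Complex.norm_real, Real.norm_of_nonneg (by positivity)]
    have h3 := hf z (by simpa using hr hz)
    calc ε / t * ‖f.1 z‖ ≤ ε / t * B := by gcongr
      _ < ε / t * t := by
        have : 0 < ε / t := by positivity
        have : B < t := by linarith
        gcongr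
      _ = ε := by field_simp
  rw [map_smul, map_smul_eq_mul, Complex.norm_real, Real.norm_of_nonneg (by positivity)] at h2
  have h3 : q (τ f) * (ε / t) < 1 := by rw [mul_comm]; exact h2
  rw [← lt_div_iff₀ (by positivity)] at h3
  refine h3.le.trans (le_of_eq ?_)
  field_simp

variable [CompleteSpace E]

section

variable {Y : Type*} [AddCommGroup Y] [Module ℂ Y] [UniformSpace Y] [Module (Hol Cstar) Y]
  [PolynormedModule Cstar Y]

/-- The main estimate. -/
lemma main_bound (σ : QP u →L[ℂ] Y) {q : Seminorm ℂ Y} (hq : Continuous q) :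
    ∃ C r : ℝ, 0 ≤ C ∧ ∀ (f : QP u) (B : ℝ), 0 ≤ B → (∀ z, ‖z‖ ≤ r → ‖f.1 z‖ ≤ B) →
      ∀ n : ℤ, q (wpow n • σ (xi n f)) ≤ C * B * Real.exp (-(1 * |(n : ℝ)|)) := by
  obtain ⟨C1, R, q', hC1, hR, hq', h1⟩ := exists_bound_wpow_smul hq
  obtain ⟨C2, r2, hC2, h2⟩ := exists_bound_of_clm σ hq'
  obtain ⟨η, hη, hηR⟩ := exists_height hR
  obtain ⟨C3, hC3, h3⟩ := xi_decay (u := u) r2 η hη
  refine ⟨C1 * C2 * C3, η + 1, by positivity, fun f B hB hf n => ?_⟩
  have hR0 : 0 ≤ R := by linarith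
  calc q (wpow n • σ (xi n f)) ≤ C1 * R ^ n.natAbs * q' (σ (xi n f)) := h1 n _
    _ ≤ C1 * R ^ n.natAbs * (C2 * (C3 * Real.exp (-(2 * Real.pi * η * |(n : ℝ)|)) * B)) := by
        have := h2 (xi n f) (C3 * Real.exp (-(2 * Real.pi * η * |(n : ℝ)|)) * B) (by positivity)
          (fun z hz => h3 f B hf n z hz)
        gcongr
    _ = C1 * C2 * C3 * B * (Real.exp (-(2 * Real.pi * η * |(n : ℝ)|)) * R ^ n.natAbs) := by ring
    _ = _ := by rw [hηR]

omit [CompleteSpace E] in
lemma QP.exists_bound (f : QP u) (r : ℝ) : ∃ B : ℝ, 0 ≤ B ∧ ∀ z, ‖z‖ ≤ r → ‖f.1 z‖ ≤ B := by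
  obtain ⟨B, hB⟩ := (isCompact_closedBall (0 : ℂ) r).exists_bound_of_continuousOn
    f.1.continuous.continuousOn
  exact ⟨max B 0, le_max_right _ _, fun z hz => (hB z (by simpa using hz)).trans (le_max_left _ _)⟩

lemma summable_rho (σ : QP u →L[ℂ] Y) (f : QP u) : Summable fun n : ℤ => wpow n • σ (xi n f) := by
  refine summable_of_seminorm fun q hq => ?_
  obtain ⟨C, r, hC, h⟩ := main_bound σ hq
  obtain ⟨B, hB, hf⟩ := QP.exists_bound f r
  exact Summable.of_nonneg_of_le (fun n => apply_nonneg q _) (h f B hB hf)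
    ((summable_exp_neg_abs one_pos).mul_left _)

/-- The right inverse, as a linear map. -/
noncomputable def rhoLin (σ : QP u →L[ℂ] Y) : QP u →ₗ[ℂ] Y where
  toFun f := ∑' n : ℤ, wpow n • σ (xi n f)
  map_add' f g := by
    rw [← (summable_rho σ f).tsum_add (summable_rho σ g)]
    exact tsum_congr fun n => by rw [map_add, map_add, smul_add]
  map_smul' c f := by
    rw [RingHom.id_apply, ← (summable_rho σ f).tsum_const_smul c]
    exact tsum_congr fun n => by rw [map_smul, map_smul, smul_comm]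

lemma hasSum_rho (σ : QP u →L[ℂ] Y) (f : QP u) :
    HasSum (fun n : ℤ => wpow n • σ (xi n f)) (rhoLin σ f) := (summable_rho σ f).hasSum

lemma continuous_rhoLin (σ : QP u →L[ℂ] Y) : Continuous (rhoLin σ) := by
  refine continuous_of_continuousAt_zero (rhoLin σ) ?_
  rw [ContinuousAt, map_zero]
  intro V hV
  obtain ⟨q, hq, hqV⟩ := exists_seminorm_of_nhds hV
  obtain ⟨C, r, hC, h⟩ := main_bound σ hq
  set S : ℝ := ∑' n : ℤ, Real.exp (-(1 * |(n : ℝ)|)) with hS
  have hS0 : 0 ≤ S := tsum_nonneg fun n => (Real.exp_pos _).le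
  set B : ℝ := (C * S + 1)⁻¹ with hBdef
  have hB : 0 < B := by positivity
  have hnhds : {f : QP u | MapsTo f.1 (Metric.closedBall (0 : ℂ) r) (Metric.ball (0 : E) B)} ∈
      𝓝 (0 : QP u) := by
    have h1 : IsOpen {f : C(ℂ, E) | MapsTo f (Metric.closedBall (0 : ℂ) r) (Metric.ball (0 : E) B)} :=
      ContinuousMap.isOpen_setOfPred_mapsTo (isCompact_closedBall _ _) Metric.isOpen_ball
    refine (h1.preimage continuous_subtype_val).mem_nhds ?_
    intro z _
    simpa using hB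
  refine mem_map.2 (mem_of_superset hnhds fun f hf => hqV _ ?_)
  have hle : q (rhoLin σ f) ≤ C * B * S :=
    seminorm_le_of_hasSum (hasSum_rho σ f) hq (h f B hB.le fun z hz => by
      have := hf (x := z) (by simpa using hz)
      rw [mem_ball_zero_iff] at this
      exact this.le) ((summable_exp_neg_abs one_pos).hasSum.mul_left _)
  refine lt_of_le_of_lt hle ?_
  rw [hBdef]
  have : 0 < C * S + 1 := by positivity
  rw [show C * (C * S + 1)⁻¹ * S = (C * S) / (C * S + 1) by field_simp, div_lt_one this]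
  linarith

end

lemma xi_wpow_smul (n m : ℤ) (f : QP u) : xi n (wpow m • f) = xi (n - m) f := by
  refine QP.ext fun z => ?_
  rw [xi_apply, xi_apply]
  unfold fc
  refine intervalIntegral.integral_congr fun t _ => ?_
  simp only [Phi, QP.hol_smul_apply, wpow_expU, map_smul]
  rw [smul_smul, ← ee_add]
  congr 2
  ring

section

variable {Y : Type*} [AddCommGroup Y] [Module ℂ Y] [UniformSpace Y] [Module (Hol Cstar) Y]
  [PolynormedModule Cstar Y]

lemma rhoLin_wpow_smul (σ : QP u →L[ℂ] Y) (m : ℤ) (f : QP u) :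
    rhoLin σ (wpow m • f) = wpow m • rhoLin σ f := by
  have h1 := hasSum_rho σ (wpow m • f)
  have h2 := (hasSum_rho σ f).const_smul (wpow m)
  rw [← (Equiv.addRight m).hasSum_iff] at h1
  refine h1.unique ?_
  convert h2 using 2 with n
  simp only [Function.comp, Equiv.coe_addRight, xi_wpow_smul]
  rw [add_sub_cancel_right, smul_smul, ← wpow_add, add_comm]

lemma rhoLin_smul (σ : QP u →L[ℂ] Y) (g : Hol Cstar) (f : QP u) :
    rhoLin σ (g • f) = g • rhoLin σ f := by
  obtain ⟨a, ha⟩ := hasSum_laurent g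
  have h1 := (ha.smul_const f).map (rhoLin σ) (continuous_rhoLin σ)
  have h2 := ha.smul_const (rhoLin σ f)
  refine h1.unique ?_
  convert h2 using 2 with n
  simp only [Function.comp]
  rw [smul_assoc, map_smul, rhoLin_wpow_smul, smul_assoc]

/-- The right inverse, as a morphism of modules. -/
noncomputable def rho (σ : QP u →L[ℂ] Y) : QP u →L[Hol Cstar] Y where
  toFun := rhoLin σ
  map_add' := map_add _
  map_smul' g f := rhoLin_smul σ g f
  cont := continuous_rhoLin σ

end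

/-- The module of quasi-periodic functions is projective. -/
theorem isProjective_QP (u : (E →L[ℂ] E)ˣ) : IsProjective Cstar (QP u) := by
  intro Y _ _ _ _ _ φ ⟨σ, hσ⟩
  refine ⟨rho σ, fun f => ?_⟩
  have h1 : HasSum (fun n : ℤ => φ (wpow n • σ (xi n f))) (φ (rho σ f)) :=
    (hasSum_rho σ f).map φ φ.continuous
  refine QP.ext fun z => ?_
  have h2 : HasSum (fun n : ℤ => (φ (wpow n • σ (xi n f))).1 z) ((φ (rho σ f)).1 z) := by
    have hev : Continuous fun g : QP u => g.1 z :=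
      (continuous_eval_const z).comp continuous_subtype_val
    exact h1.map (⟨⟨fun g : QP u => g.1 z, rfl⟩, fun _ _ => rfl⟩ : QP u →+ E) hev
  have h3 := hasSum_xi f z z
  rw [Phi_self] at h3
  refine h2.unique ?_
  convert h3 using 2 with n
  rw [map_smul, hσ, QP.hol_smul_apply, wpow_expU]

end

end Pool.Agent.H45
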