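import Pool.Agent.H45.HolDefs
import Pool.Agent.H45.Kernel
import Pool.Agent.H45.Fourier

/-!
# The module of quasi-periodic entire functions
-/

set_option autoImplicit false

open Topology Filter Set

namespace Pool.Agent.H45

/-- The punctured plane. -/
def Cstar : Set ℂ := {z | z ≠ 0}

lemma isOpen_Cstar : IsOpen Cstar := isOpen_ne

instance : LocallyCompactSpace Cstar := isOpen_Cstar.locallyCompactSpace

lemma isConnected_Cstar : IsConnected Cstar := by
  have := isConnected_compl_singleton_of_one_lt_rank (E := ℂ) (by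
    rw [← Module.finrank_eq_rank, Complex.finrank_real_complex]; norm_num) 0
  exact this

lemma ee_mem_Cstar (n : ℤ) (z : ℂ) : ee n z ∈ Cstar := Complex.exp_ne_zero _

/-- The covering `z ↦ exp (2πiz)` of the punctured plane. -/
noncomputable def expU : C(ℂ, Cstar) :=
  ⟨fun z => ⟨ee 1 z, ee_mem_Cstar 1 z⟩,
    Continuous.subtype_mk (continuous_ee 1) (fun z => ee_mem_Cstar 1 z)⟩

lemma expU_coe (z : ℂ) : (expU z : ℂ) = ee 1 z := rfl

lemma expU_add_one (z : ℂ) : expU (z + 1) = expU z := Subtype.ext (ee_add_one 1 z)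

lemma expU_surjective : Function.Surjective expU := by
  intro w
  have hw : (w : ℂ) ≠ 0 := w.2
  refine ⟨Complex.log w / (2 * Real.pi * Complex.I), Subtype.ext ?_⟩
  rw [expU_coe, ee]
  have h2 : (2 * Real.pi * Complex.I : ℂ) ≠ 0 := Complex.two_pi_I_ne_zero
  have : 2 * Real.pi * Complex.I * ((1 : ℤ) : ℂ) * (Complex.log w / (2 * Real.pi * Complex.I)) =
      Complex.log w := by
    field_simp; simp
  rw [this, Complex.exp_log hw]

section open_sets

variable {U : Set ℂ} {F : Type*} [NormedAddCommGroup F] [NormedSpace ℂ F]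

/-- The derivative of an extension by zero. -/
lemma IsHol.exists_hasDerivAt (hU : IsOpen U) {f : U → F} (hf : IsHol U f) (z : U) :
    ∃ d : F, HasDerivAt (fun w : ℂ => open scoped Classical in if h : w ∈ U then f ⟨w, h⟩ else 0) d z := by
  obtain ⟨d, hd⟩ := hf z
  refine ⟨d, ?_⟩
  rw [hasDerivAt_iff_tendsto_slope]
  have h1 : 𝓝[≠] (z : ℂ) = map (Subtype.val : U → ℂ) (𝓝[≠] z) := by
    have : map (Subtype.val : U → ℂ) (𝓝 z) = 𝓝 (z : ℂ) := hU.isOpenEmbedding_subtypeVal.map_nhds_eq z
    have h2 := hU.isOpenEmbedding_subtypeVal.isEmbedding.map_nhdsWithin_eq ({z}ᶜ : Set U) z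
    rw [h2]
    have h3 : Subtype.val '' ({z}ᶜ : Set U) = {(z : ℂ)}ᶜ ∩ U := by
      ext w; constructor
      · rintro ⟨w', hw', rfl⟩
        exact ⟨fun h => hw' (Subtype.ext h), w'.2⟩
      · rintro ⟨h, h'⟩
        exact ⟨⟨w, h'⟩, fun h'' => h (congrArg Subtype.val h''), rfl⟩
    rw [h3, nhdsWithin_inter_of_mem']
    exact mem_nhdsWithin_of_mem_nhds (hU.mem_nhds z.2)
  rw [h1, tendsto_map'_iff]
  refine hd.congr fun w => ?_
  simp only [Function.comp, slope, vsub_eq_sub, Subtype.coe_eta, Subtype.coe_prop, dite_true]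

lemma IsHol.differentiable_comp (hU : IsOpen U) {f : U → F} (hf : IsHol U f) {g : ℂ → U}
    (hg : Differentiable ℂ fun z => (g z : ℂ)) : Differentiable ℂ fun z => f (g z) := by
  classical
  intro z
  obtain ⟨d, hd⟩ := hf.exists_hasDerivAt hU (g z)
  have h := hd.differentiableAt.comp z (hg z)
  refine h.congr_of_eventuallyEq (Eventually.of_forall fun w => ?_)
  simp

end open_sets

section QP

variable {E : Type*} [NormedAddCommGroup E] [NormedSpace ℂ E]

/-- The space of entire functions `f : ℂ → E` with `f (z + 1) = u (f z)`. -/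
def QP (u : (E →L[ℂ] E)ˣ) : Submodule ℂ C(ℂ, E) where
  carrier := {f | Differentiable ℂ f ∧ ∀ z, f (z + 1) = (u : E →L[ℂ] E) (f z)}
  add_mem' := fun {f g} hf hg => ⟨hf.1.add hg.1, fun z => by
    simp only [ContinuousMap.add_apply, hf.2 z, hg.2 z, map_add]⟩
  zero_mem' := ⟨differentiable_const 0, fun z => by simp⟩
  smul_mem' := fun c f hf => ⟨hf.1.const_smul c, fun z => by
    simp only [ContinuousMap.smul_apply, hf.2 z, map_smul]⟩

variable (u : (E →L[ℂ] E)ˣ)

lemma isClosed_QP [CompleteSpace E] : IsClosed (QP u : Set C(ℂ, E)) := by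
  have h1 : IsClosed {f : C(ℂ, E) | Differentiable ℂ f} := by
    refine isClosed_of_closure_subset fun f hf => ?_
    have hne : (𝓝[{f : C(ℂ, E) | Differentiable ℂ f}] f).NeBot := mem_closure_iff_nhdsWithin_neBot.1 hf
    have ht : Tendsto (fun g : C(ℂ, E) => g) (𝓝[{f : C(ℂ, E) | Differentiable ℂ f}] f) (𝓝 f) :=
      nhdsWithin_le_nhds
    rw [ContinuousMap.tendsto_iff_tendstoLocallyUniformly] at ht
    have := TendstoLocallyUniformlyOn.differentiableOn (U := univ)
      (tendstoLocallyUniformlyOn_univ.2 ht)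
      (by filter_upwards [self_mem_nhdsWithin] with g hg using hg.differentiableOn) isOpen_univ
    exact differentiableOn_univ.1 this
  have h2 : IsClosed {f : C(ℂ, E) | ∀ z, f (z + 1) = (u : E →L[ℂ] E) (f z)} := by
    have : {f : C(ℂ, E) | ∀ z, f (z + 1) = (u : E →L[ℂ] E) (f z)} =
      ⋂ z : ℂ, {f : C(ℂ, E) | f (z + 1) = (u : E →L[ℂ] E) (f z)} := by
      ext f; simp
    rw [this]
    refine isClosed_iInter fun z => isClosed_eq (by fun_prop) (by fun_prop)
  exact h1.inter h2

variable {u}

lemma QP.differentiable (f : QP u) : Differentiable ℂ f.1 := f.2.1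

lemma QP.add_one (f : QP u) (z : ℂ) : f.1 (z + 1) = (u : E →L[ℂ] E) (f.1 z) := f.2.2 z

@[ext] lemma QP.ext {f g : QP u} (h : ∀ z, f.1 z = g.1 z) : f = g :=
  Subtype.ext (ContinuousMap.ext h)

/-- The action of `O(ℂ^*)` on quasi-periodic functions. -/
noncomputable instance : SMul (Hol Cstar) (QP u) where
  smul g f := ⟨⟨fun z => g.fn (expU z) • f.1 z, by fun_prop⟩,
    (IsHol.differentiable_comp isOpen_Cstar g.isHol (differentiable_ee 1)).smul f.2.1, fun z => by
      show g.fn (expU (z + 1)) • f.1 (z + 1) = (u : E →L[ℂ] E) (g.fn (expU z) • f.1 z)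
      rw [expU_add_one, f.2.2, map_smul]⟩

@[simp] lemma QP.hol_smul_apply (g : Hol Cstar) (f : QP u) (z : ℂ) :
    (g • f).1 z = g.fn (expU z) • f.1 z := rfl

noncomputable instance : Module (Hol Cstar) (QP u) where
  one_smul _ := QP.ext fun _ => one_smul ℂ _
  mul_smul _ _ _ := QP.ext fun _ => mul_smul _ _ _
  smul_zero _ := QP.ext fun _ => smul_zero _
  smul_add _ _ _ := QP.ext fun _ => smul_add _ _ _
  add_smul _ _ _ := QP.ext fun _ => add_smul _ _ _
  zero_smul f := QP.ext fun z => zero_smul ℂ (f.1 z)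

/-- Local convexity passes to spaces with an inducing linear map. -/
lemma locallyConvex_of_inducing {E' F : Type*} [AddCommGroup E'] [Module ℂ E'] [TopologicalSpace E']
    [AddCommGroup F] [Module ℂ F] [TopologicalSpace F] [LocallyConvexSpace ℝ F] (f : E' →ₗ[ℂ] F)
    (hf : IsInducing f) : LocallyConvexSpace ℝ E' :=
  IsInducing.locallyConvexSpace (f := f.restrictScalars ℝ) hf

lemma isUniformAddGroup_contMap {X G : Type*} [TopologicalSpace X] [AddCommGroup G] [UniformSpace G]
    [IsUniformAddGroup G] : IsUniformAddGroup C(X, G) where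
  uniformContinuous_sub := by
    have h := (ContinuousMap.isUniformEmbedding_toUniformOnFunIsCompact (α := X) (β := G)).isUniformInducing
    rw [h.uniformContinuous_iff]
    exact uniformContinuous_sub.comp (h.uniformContinuous.prodMap h.uniformContinuous)

instance : IsUniformAddGroup (QP u) := by
  have := isUniformAddGroup_contMap (X := ℂ) (G := E)
  exact IsUniformAddGroup.comap (QP u).subtype

instance : LocallyConvexSpace ℝ (QP u) := by
  have i3 : @LocallyConvexSpace ℝ C(ℂ, E) _ _ _ (Module.complexToReal _) _ :=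
    ContinuousMap.instLocallyConvexSpace
  exact @locallyConvex_of_inducing _ _ _ _ _ _ _ _ i3 (QP u).subtype .subtypeVal

instance [CompleteSpace E] : Polynormed (QP u) :=
  { toIsUniformAddGroup := inferInstance
    toContinuousSMul := inferInstance
    toLocallyConvexSpace := inferInstance
    toCompleteSpace := (isClosed_QP u).completeSpace_coe
    toT2Space := inferInstance }

instance : ContinuousSMul (Hol Cstar) (QP u) := by
  refine ⟨Continuous.subtype_mk ?_ _⟩
  refine ContinuousMap.continuous_of_continuous_uncurry _ ?_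
  show Continuous fun p : (Hol Cstar × QP u) × ℂ => p.1.1.fn (expU p.2) • p.1.2.1 p.2
  have h1 : Continuous fun p : (Hol Cstar × QP u) × ℂ => p.1.1.fn (expU p.2) :=
    (Hol.continuous_fn.comp (continuous_fst.comp continuous_fst)).eval
      (expU.continuous.comp continuous_snd)
  have h2 : Continuous fun p : (Hol Cstar × QP u) × ℂ => p.1.2.1 p.2 :=
    (continuous_subtype_val.comp (continuous_snd.comp continuous_fst)).eval continuous_snd
  exact h1.smul h2

instance [CompleteSpace E] : PolynormedModule Cstar (QP u) :=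
  { continuousSMul_hol := inferInstance
    smul_assoc := fun c g f => QP.ext fun z => smul_assoc c (g.fn (expU z)) (f.1 z) }

end QP

end Pool.Agent.H45
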