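import Pool.Agent.H45.RosComb

/-!
Growth of the values of tree codes on blocks (MP_d027bf_an).
-/

set_option autoImplicit false

namespace Pool.Agent.H45.Ros

/-- The value of a clique on the blocks `a ≤ i < b`. -/
noncomputable def vsum (z : ℕ → ℕ → ℝ) (M : ℕ → ℕ) (a b : ℕ) (A : Set V) : ℝ :=
  ∑ i ∈ Finset.Ico a b, |val (z i) (Finset.Ico (M i) (M (i + 1))) A|

/-- There are cliques of value at least `v` arbitrarily far out, with arbitrarily large indices. -/
def PP (z : ℕ → ℕ → ℝ) (M : ℕ → ℕ) (v : ℝ) : Prop :=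
  ∀ I a : ℕ, ∃ (b J : ℕ) (h : Set V), a ≤ b ∧ IsCl h ∧ High I h ∧ Low J h ∧
    (∀ p ∈ h, M a ≤ p.1 ∧ p.1 < M b) ∧ v ≤ vsum z M a b h

/-- Attach the pair `a` in front. -/
def att (a : ℕ × ℕ) (h : Set V) : Set V := {p | ∃ S, p.2 = a :: S ∧ (p.1, S) ∈ h}

lemma isCl_empty : IsCl (∅ : Set V) := ⟨by simp, by simp, by simp⟩

/-- Adding a further child. -/
lemma isCl_union_att {H h : Set V} {k t J m : ℕ} (hH : IsCl H) (hh : IsCl h)
    (ht : t < 2 ^ (k + 2))
    (h1 : ∀ p ∈ H, ∃ s S, p.2 = (k, s) :: S ∧ s < t ∧ ∀ a ∈ S, a.1 < J)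
    (h2 : ∀ p ∈ h, ∀ a ∈ p.2, k < a.1 ∧ J ≤ a.1)
    (h3 : ∀ p ∈ H, p.1 < m) (h4 : ∀ p ∈ h, m ≤ p.1) : IsCl (H ∪ att (k, t) h) := by
  constructor
  · rintro p (hp | ⟨S, hS, hp⟩)
    · exact hH.valid p hp
    · have hv := hh.valid _ hp
      rw [hS]
      refine ⟨List.pairwise_cons.2 ⟨fun b hb => (h2 _ hp b hb).1, hv.1⟩, ?_⟩
      intro b hb
      rcases List.mem_cons.1 hb with rfl | hb
      · exact ht
      · exact hv.2 b hb
  · rintro p (hp | ⟨S, hS, hp⟩) q (hq | ⟨S', hS', hq⟩) hpq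
    · exact hH.uniq p hp q hq hpq
    · have := h3 p hp
      have := h4 _ hq
      simp only at this
      omega
    · have := h3 q hq
      have := h4 _ hp
      simp only at this
      omega
    · have := hh.uniq _ hp _ hq hpq
      refine Prod.ext hpq ?_
      rw [hS, hS', (Prod.mk.inj this).2]
  · rintro p (hp | ⟨S, hS, hp⟩) q (hq | ⟨S', hS', hq⟩) hpq
    · exact hH.good p hp q hq hpq
    · obtain ⟨s, T, hT, hst, hTJ⟩ := h1 p hp
      rw [hT, hS', good_cons_iff]
      refine ⟨rfl, Or.inr ⟨by simp only; omega, ?_⟩⟩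
      intro x hx y hy
      exact (hTJ x hx).trans_le (h2 _ hq y hy).2
    · have := h3 q hq
      have := h4 _ hp
      simp only at this
      omega
    · rw [hS, hS', good_cons_iff]
      exact ⟨rfl, Or.inl ⟨rfl, hh.good _ hp _ hq hpq⟩⟩

lemma ev_union_left {A B : Set V} (hA : IsCl (A ∪ B)) {n : ℕ} (hB : ∀ S, (n, S) ∉ B) :
    ev n (A ∪ B) = ev n A := by
  by_cases h : ∃ S, (n, S) ∈ A
  · obtain ⟨S, hS⟩ := h
    rw [ev_of_mem hA (Or.inl hS), ev_of_mem (hA.mono Set.subset_union_left) hS]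
  · push Not at h
    rw [ev_of_notMem h, ev_of_notMem]
    rintro S (hS | hS)
    · exact h S hS
    · exact hB S hS

lemma ev_union_att {A h : Set V} {k t : ℕ} (hA : IsCl (A ∪ att (k, t) h)) (hh : IsCl h) {n : ℕ}
    (hB : ∀ S, (n, S) ∉ A) : ev n (A ∪ att (k, t) h) = ((1 : ℝ) / 2) ^ (k + 1) * ev n h := by
  by_cases h' : ∃ S, (n, S) ∈ h
  · obtain ⟨S, hS⟩ := h'
    have : ((n, (k, t) :: S) : V) ∈ A ∪ att (k, t) h := Or.inr ⟨S, rfl, hS⟩
    rw [ev_of_mem hA this, ev_of_mem hh hS, wt_cons]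
  · push Not at h'
    rw [ev_of_notMem h', ev_of_notMem, mul_zero]
    rintro S (hS | ⟨T, _, hT⟩)
    · exact hB S hS
    · exact h' T hT

lemma partial_node {z : ℕ → ℕ → ℝ} {M : ℕ → ℕ} (hM : Monotone M) {v : ℝ} (hP : PP z M v) (k a : ℕ) :
    ∀ t : ℕ, t ≤ 2 ^ (k + 2) → ∃ (b J : ℕ) (H : Set V), a ≤ b ∧ IsCl H ∧
      (∀ p ∈ H, ∃ s S, p.2 = (k, s) :: S ∧ s < t ∧ ∀ a ∈ S, k < a.1 ∧ a.1 < J) ∧
      (∀ p ∈ H, M a ≤ p.1 ∧ p.1 < M b) ∧ t * (((1 : ℝ) / 2) ^ (k + 1) * v) ≤ vsum z M a b H := by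
  intro t
  induction t with
  | zero =>
    intro _
    refine ⟨a, 0, ∅, le_rfl, isCl_empty, by simp, by simp, ?_⟩
    simp [vsum]
  | succ t ih =>
    intro ht
    obtain ⟨b, J, H, hab, hH, hH1, hH2, hH3⟩ := ih (by omega)
    obtain ⟨b', J', h, hbb', hh, hhI, hhJ, hh2, hh3⟩ := hP (max J (k + 1)) b
    have hcl : IsCl (H ∪ att (k, t) h) := by
      refine isCl_union_att (J := J) (m := M b) hH hh (by omega) ?_ ?_ (fun p hp => (hH2 p hp).2)
        (fun p hp => (hh2 p hp).1)
      · intro p hp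
        obtain ⟨s, S, h1, h2, h3⟩ := hH1 p hp
        exact ⟨s, S, h1, h2, fun a ha => (h3 a ha).2⟩
      · intro p hp a ha
        have := hhI p hp a ha
        omega
    refine ⟨b', max J J', H ∪ att (k, t) h, hab.trans hbb', hcl, ?_, ?_, ?_⟩
    · rintro p (hp | ⟨S, hS, hp⟩)
      · obtain ⟨s, S, h1, h2, h3⟩ := hH1 p hp
        refine ⟨s, S, h1, by omega, fun a ha => ?_⟩
        have := h3 a ha
        omega
      · refine ⟨t, S, hS, by omega, fun a ha => ?_⟩
        have h1 := hhI _ hp a ha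
        have h2 := hhJ _ hp a ha
        omega
    · rintro p (hp | ⟨S, hS, hp⟩)
      · exact ⟨(hH2 p hp).1, (hH2 p hp).2.trans_le (hM hbb')⟩
      · exact ⟨(hM hab).trans (hh2 _ hp).1, (hh2 _ hp).2⟩
    · have hsplit : vsum z M a b' (H ∪ att (k, t) h) =
          vsum z M a b (H ∪ att (k, t) h) + vsum z M b b' (H ∪ att (k, t) h) := by
        unfold vsum
        rw [Finset.sum_Ico_consecutive _ hab hbb']
      have e1 : vsum z M a b (H ∪ att (k, t) h) = vsum z M a b H := by
        unfold vsum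
        refine Finset.sum_congr rfl fun i hi => ?_
        congr 1
        unfold val
        refine Finset.sum_congr rfl fun n hn => ?_
        rw [ev_union_left hcl]
        rintro S ⟨T, _, hT⟩
        have h1 := (hh2 _ hT).1
        simp only at h1
        rw [Finset.mem_Ico] at hn hi
        have h2 := hM (show i + 1 ≤ b by omega)
        omega
      have e2 : vsum z M b b' (H ∪ att (k, t) h) = ((1 : ℝ) / 2) ^ (k + 1) * vsum z M b b' h := by
        unfold vsum
        rw [Finset.mul_sum]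
        refine Finset.sum_congr rfl fun i hi => ?_
        rw [← abs_of_pos (show (0 : ℝ) < (1 / 2) ^ (k + 1) by positivity), ← abs_mul]
        congr 1
        unfold val
        rw [Finset.mul_sum]
        refine Finset.sum_congr rfl fun n hn => ?_
        rw [ev_union_att hcl hh]
        · ring
        · intro S hS
          have h1 := (hH2 _ hS).2
          simp only at h1
          rw [Finset.mem_Ico] at hn hi
          have h2 := hM (show b ≤ i by omega)
          omega
      rw [hsplit, e1, e2]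
      push_cast
      have h5 : ((1 : ℝ) / 2) ^ (k + 1) * v ≤ ((1 : ℝ) / 2) ^ (k + 1) * vsum z M b b' h :=
        mul_le_mul_of_nonneg_left hh3 (by positivity)
      linarith

lemma PP_double {z : ℕ → ℕ → ℝ} {M : ℕ → ℕ} (hM : Monotone M) {v : ℝ} (hP : PP z M v) :
    PP z M (2 * v) := by
  intro I a
  obtain ⟨b, J, H, hab, hH, hH1, hH2, hH3⟩ := partial_node hM hP I a (2 ^ (I + 2)) le_rfl
  refine ⟨b, max J (I + 1), H, hab, hH, ?_, ?_, hH2, ?_⟩
  · intro p hp c hc
    obtain ⟨s, S, h1, h2, h3⟩ := hH1 p hp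
    rw [h1] at hc
    rcases List.mem_cons.1 hc with rfl | hc
    · exact le_rfl
    · exact (h3 c hc).1.le
  · intro p hp c hc
    obtain ⟨s, S, h1, h2, h3⟩ := hH1 p hp
    rw [h1] at hc
    rcases List.mem_cons.1 hc with rfl | hc
    · simp
    · have := (h3 c hc).2
      omega
  · have h := half_pow_mul I
    push_cast at hH3
    calc 2 * v = (((1 : ℝ) / 2) ^ (I + 1) * 2 ^ (I + 2)) * v := by rw [h]
      _ = 2 ^ (I + 2) * (((1 : ℝ) / 2) ^ (I + 1) * v) := by ring
      _ ≤ _ := hH3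

/-- No family of blocks with bounded sums can have seeds. -/
lemma no_PP {z : ℕ → ℕ → ℝ} {M : ℕ → ℕ} (hM : Monotone M) {v C : ℝ} (hv : 0 < v)
    (hC : ∀ A, IsCl A → ∀ a b, vsum z M a b A ≤ C) : ¬ PP z M v := by
  intro hP
  have h : ∀ r : ℕ, PP z M (2 ^ r * v) := by
    intro r
    induction r with
    | zero => simpa using hP
    | succ r ih =>
      have := PP_double hM ih
      rw [pow_succ]
      convert this using 1
      ring
  obtain ⟨r, hr⟩ := pow_unbounded_of_one_lt (C / v) (show (1 : ℝ) < 2 by norm_num)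
  obtain ⟨b, J, A, _, hA, _, _, _, h1⟩ := h r 0 0
  have h2 := hC A hA 0 b
  rw [div_lt_iff₀ hv] at hr
  linarith

/-- Blocks of norm bounded below have seeds. -/
lemma seeds {z : ℕ → ℕ → ℝ} {M : ℕ → ℕ} (hM : StrictMono M) {c C : ℝ} (hc : 0 < c)
    (hC : ∀ A, IsCl A → ∀ i, |val (z i) (Finset.Ico (M i) (M (i + 1))) A| ≤ C)
    (hN : ∀ i, ∃ A, IsCl A ∧ c ≤ |val (z i) (Finset.Ico (M i) (M (i + 1))) A|) :
    ∃ v, 0 < v ∧ PP z M v := by
  by_cases hcase : ∃ ε : ℝ, 0 < ε ∧ ∀ N : ℕ, ∃ i, N ≤ i ∧ ∃ n ∈ Finset.Ico (M i) (M (i + 1)), ε ≤ |z i n|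
  · obtain ⟨ε, hε, h⟩ := hcase
    refine ⟨ε, hε, fun I a => ?_⟩
    obtain ⟨i, hai, n, hn, hzn⟩ := h a
    have hn' := Finset.mem_Ico.1 hn
    have hcl : IsCl ({(n, [])} : Set V) := by
      constructor
      · intro p hp
        rw [Set.mem_singleton_iff] at hp
        rw [hp]
        exact ⟨List.Pairwise.nil, by simp⟩
      · intro p hp q hq _
        rw [Set.mem_singleton_iff] at hp hq
        rw [hp, hq]
      · intro p hp q hq hpq
        rw [Set.mem_singleton_iff] at hp hq
        rw [hp, hq] at hpq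
        exact absurd hpq (lt_irrefl _)
    refine ⟨i + 1, 0, {(n, [])}, by omega, hcl, ?_, ?_, ?_, ?_⟩
    · intro p hp
      rw [Set.mem_singleton_iff] at hp
      rw [hp]; simp
    · intro p hp
      rw [Set.mem_singleton_iff] at hp
      rw [hp]; simp
    · intro p hp
      rw [Set.mem_singleton_iff] at hp
      rw [hp]
      exact ⟨(hM.monotone hai).trans hn'.1, hn'.2⟩
    · have h1 : |val (z i) (Finset.Ico (M i) (M (i + 1))) {(n, [])}| ≤
          vsum z M a (i + 1) {(n, [])} := by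
        unfold vsum
        exact Finset.single_le_sum (f := fun i => |val (z i) (Finset.Ico (M i) (M (i + 1))) {(n, [])}|)
          (fun j _ => abs_nonneg _) (Finset.mem_Ico.2 ⟨hai, by omega⟩)
      refine le_trans ?_ h1
      have h2 : val (z i) (Finset.Ico (M i) (M (i + 1))) {(n, [])} = z i n := by
        unfold val
        rw [Finset.sum_eq_single_of_mem n hn]
        · rw [ev_of_mem hcl (Set.mem_singleton _)]
          simp
        · intro m _ hm
          rw [ev_of_notMem, mul_zero]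
          intro S hS
          rw [Set.mem_singleton_iff] at hS
          exact hm (Prod.mk.inj hS).1
      rw [h2]
      exact hzn
  · push Not at hcase
    refine ⟨c / 16, by positivity, fun I a => ?_⟩
    -- far out, the coefficients are tiny
    obtain ⟨N, hNN⟩ := hcase (c / (16 * 2 ^ I)) (by positivity)
    set i := max N a with hi
    have hx : ∀ n ∈ Finset.Ico (M i) (M (i + 1)), |z i n| ≤ c / (16 * 2 ^ I) :=
      fun n hn => (hNN i (le_max_left _ _) n hn).le
    have key : ∃ B, IsCl B ∧ High I B ∧ c / 16 < |val (z i) (Finset.Ico (M i) (M (i + 1))) B| := by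
      by_contra hcon
      push Not at hcon
      -- the supremum of the values
      set s : Set ℝ := {r | ∃ A, IsCl A ∧ r = |val (z i) (Finset.Ico (M i) (M (i + 1))) A|} with hs
      have hbdd : BddAbove s := ⟨C, by rintro r ⟨A, hA, rfl⟩; exact hC A hA i⟩
      have hne : s.Nonempty := ⟨_, ∅, isCl_empty, rfl⟩
      have hle : ∀ A, IsCl A → |val (z i) (Finset.Ico (M i) (M (i + 1))) A| ≤ sSup s :=
        fun A hA => le_csSup hbdd ⟨A, hA, rfl⟩
      have h1 : sSup s ≤ 2 * (2 ^ I * (c / (16 * 2 ^ I)) + c / 16) + sSup s / 2 := by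
        apply csSup_le hne
        rintro r ⟨A, hA, rfl⟩
        exact seed_bound (z i) _ I _ (c / 16) (sSup s) (by positivity) hx
          (fun B hB hBI => hcon B hB hBI) hle hA
      obtain ⟨A, hA, hAc⟩ := hN i
      have h2 := hle A hA
      have h3 : 2 ^ I * (c / (16 * 2 ^ I)) = c / 16 := by
        have : (2 : ℝ) ^ I ≠ 0 := by positivity
        field_simp
      rw [h3] at h1
      linarith
    obtain ⟨B, hB, hBI, hBv⟩ := key
    set B' : Set V := {p ∈ B | M i ≤ p.1 ∧ p.1 < M (i + 1)} with hB'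
    have hB'cl : IsCl B' := hB.mono (Set.sep_subset _ _)
    have hfin : B'.Finite := by
      apply Set.Finite.of_finite_image (f := Prod.fst)
      · apply (Set.finite_Ico (M i) (M (i + 1))).subset
        rintro n ⟨p, hp, rfl⟩
        exact hp.2
      · intro p hp q hq hpq
        exact hB'cl.uniq p hp q hq hpq
    obtain ⟨J, hJ⟩ : ∃ J, Low J B' := by
      have : ∀ p ∈ B', ∃ J : ℕ, ∀ a ∈ p.2, a.1 < J := by
        intro p _
        refine ⟨(p.2.map Prod.fst).sum + 1, fun a ha => ?_⟩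
        have : a.1 ≤ (p.2.map Prod.fst).sum :=
          List.single_le_sum (by simp) _ (List.mem_map_of_mem ha)
        omega
      choose! f hf using this
      obtain ⟨J, hJ⟩ := (hfin.image f).bddAbove
      refine ⟨J, fun p hp a ha => ?_⟩
      exact (hf p hp a ha).trans_le (hJ (Set.mem_image_of_mem f hp))
    refine ⟨i + 1, J, B', ?_, hB'cl, ?_, hJ, ?_, ?_⟩
    · have := le_max_right N a
      omega
    · intro p hp a ha
      exact hBI p hp.1 a ha
    · intro p hp
      exact ⟨(hM.monotone (le_max_right N a)).trans hp.2.1, hp.2.2⟩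
    · have h1 : |val (z i) (Finset.Ico (M i) (M (i + 1))) B'| ≤ vsum z M a (i + 1) B' := by
        unfold vsum
        exact Finset.single_le_sum (f := fun i => |val (z i) (Finset.Ico (M i) (M (i + 1))) B'|)
          (fun j _ => abs_nonneg _) (Finset.mem_Ico.2 ⟨le_max_right N a, by omega⟩)
      have h2 : val (z i) (Finset.Ico (M i) (M (i + 1))) B' =
          val (z i) (Finset.Ico (M i) (M (i + 1))) B := by
        unfold val
        refine Finset.sum_congr rfl fun n hn => ?_
        have hn' := Finset.mem_Ico.1 hn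
        congr 1
        by_cases h : ∃ S, (n, S) ∈ B
        · obtain ⟨S, hS⟩ := h
          rw [ev_of_mem hB hS, ev_of_mem hB'cl (show (n, S) ∈ B' from ⟨hS, hn'⟩)]
        · push Not at h
          rw [ev_of_notMem h, ev_of_notMem]
          intro S hS
          exact h S hS.1
      rw [h2] at h1
      linarith

end Pool.Agent.H45.Ros
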