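import Pool.Agent.H45.RosSpace
import Pool.Agent.H45.RosGrow

/-!
The space `XX` contains no copy of `c_0` (MP_d027bf_an).
-/

set_option autoImplicit false

open Filter Topology

namespace Pool.Agent.H45.Ros

/-- The unit vectors of `c_0`. -/
noncomputable def uu (k : ℕ) : ZeroAtInftyContinuousMap ℕ ℝ where
  toFun := (Pi.single k 1 : ℕ → ℝ)
  continuous_toFun := continuous_of_discreteTopology
  zero_at_infty' := by
    rw [Filter.cocompact_eq_cofinite]
    refine tendsto_const_nhds.congr' ?_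
    have : ∀ᶠ n in cofinite, n ≠ k := by
      rw [eventually_cofinite]
      simp
    filter_upwards [this] with n hn
    show (0 : ℝ) = (Pi.single k 1 : ℕ → ℝ) n
    rw [Pi.single_apply, if_neg hn]

lemma uu_apply (k n : ℕ) : uu k n = if n = k then 1 else 0 := by
  show (Pi.single k 1 : ℕ → ℝ) n = _
  rw [Pi.single_apply]

lemma norm_c0_le (f : ZeroAtInftyContinuousMap ℕ ℝ) {C : ℝ} (hC : 0 ≤ C) (h : ∀ n, |f n| ≤ C) :
    ‖f‖ ≤ C := by
  rw [← ZeroAtInftyContinuousMap.norm_toBCF_eq_norm]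
  exact (BoundedContinuousFunction.norm_le hC).2 h

lemma c0_apply_le (f : ZeroAtInftyContinuousMap ℕ ℝ) (n : ℕ) : |f n| ≤ ‖f‖ := by
  rw [← ZeroAtInftyContinuousMap.norm_toBCF_eq_norm]
  exact f.toBCF.norm_coe_le_norm n

lemma c0_coe_sum (F : Finset ℕ) (g : ℕ → ZeroAtInftyContinuousMap ℕ ℝ) (n : ℕ) :
    (∑ k ∈ F, g k) n = ∑ k ∈ F, g k n := by
  classical
  induction F using Finset.induction_on with
  | empty => simp
  | insert a F ha ih =>
    rw [Finset.sum_insert ha, Finset.sum_insert ha, ZeroAtInftyContinuousMap.add_apply, ih]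

lemma norm_sum_uu_le (F : Finset ℕ) (s : ℕ → ℝ) (hs : ∀ k, |s k| ≤ 1) :
    ‖∑ k ∈ F, s k • uu k‖ ≤ 1 := by
  apply norm_c0_le _ zero_le_one
  intro n
  have h1 : (∑ k ∈ F, s k • uu k) n = ∑ k ∈ F, s k * (if n = k then 1 else 0) := by
    rw [c0_coe_sum]
    refine Finset.sum_congr rfl fun k _ => ?_
    rw [ZeroAtInftyContinuousMap.smul_apply, uu_apply, smul_eq_mul]
  rw [h1]
  simp only [mul_ite, mul_one, mul_zero, Finset.sum_ite_eq]
  split_ifs
  · exact hs n
  · simp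

lemma one_le_norm_uu (k : ℕ) : 1 ≤ ‖uu k‖ := by
  have := c0_apply_le (uu k) k
  rw [uu_apply, if_pos rfl] at this
  simpa using this

/-- Sums of the values of the images of the unit vectors. -/
lemma sum_abs_le (E : ZeroAtInftyContinuousMap ℕ ℝ →L[ℝ] C(KK, ℝ)) (A : KK) (F : Finset ℕ) :
    ∑ k ∈ F, |(E (uu k)) A| ≤ ‖E‖ := by
  set s : ℕ → ℝ := fun k => if 0 ≤ (E (uu k)) A then 1 else -1 with hs
  have hs1 : ∀ k, |s k| ≤ 1 := by
    intro k
    simp only [hs]
    split_ifs <;> simp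
  have h1 : ∑ k ∈ F, |(E (uu k)) A| = (E (∑ k ∈ F, s k • uu k)) A := by
    rw [map_sum, ContinuousMap.coe_sum, Finset.sum_apply]
    refine Finset.sum_congr rfl fun k _ => ?_
    rw [map_smul, ContinuousMap.smul_apply, smul_eq_mul]
    simp only [hs]
    split_ifs with h
    · rw [abs_of_nonneg h, one_mul]
    · rw [abs_of_neg (not_le.1 h)]; ring
  rw [h1]
  calc (E (∑ k ∈ F, s k • uu k)) A ≤ |(E (∑ k ∈ F, s k • uu k)) A| := le_abs_self _
    _ ≤ ‖E (∑ k ∈ F, s k • uu k)‖ := (E (∑ k ∈ F, s k • uu k)).norm_coe_le_norm A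
    _ ≤ ‖E‖ * ‖∑ k ∈ F, s k • uu k‖ := E.le_opNorm _
    _ ≤ ‖E‖ * 1 := mul_le_mul_of_nonneg_left (norm_sum_uu_le F s hs1) E.opNorm_nonneg
    _ = ‖E‖ := mul_one _

/-- The single leaf at `n`. -/
lemma isCl_leaf (n : ℕ) : IsCl ({(n, [])} : Set V) := by
  constructor
  · intro p hp
    rw [Set.mem_singleton_iff] at hp
    rw [hp]
    exact ⟨List.Pairwise.nil, by simp⟩
  · intro p hp q hq _
    rw [Set.mem_singleton_iff] at hp hq
    rw [hp, hq]
  · intro p hp q hq hpq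
    rw [Set.mem_singleton_iff] at hp hq
    rw [hp, hq] at hpq
    exact absurd hpq (lt_irrefl _)

lemma ev_leaf (m n : ℕ) : ev m ({(n, [])} : Set V) = if m = n then 1 else 0 := by
  split_ifs with h
  · subst h
    rw [ev_of_mem (isCl_leaf m) (Set.mem_singleton _), wt_nil]
  · apply ev_of_notMem
    intro S hS
    rw [Set.mem_singleton_iff] at hS
    exact h (Prod.mk.inj hS).1

lemma sum_leaf (x : ℕ → ℝ) (F : Finset ℕ) (n : ℕ) (hn : n ∈ F) :
    (∑ m ∈ F, x m • ee m) (toK _ (isCl_leaf n)) = x n := by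
  rw [sum_ee_apply, car_toK, val]
  simp only [ev_leaf, mul_ite, mul_one, mul_zero]
  rw [Finset.sum_ite_eq' F n x, if_pos hn]

lemma norm_ee_le (n : ℕ) : ‖ee n‖ ≤ 1 := by
  refine (ContinuousMap.norm_le _ zero_le_one).2 fun A => ?_
  rw [ee_apply, Real.norm_eq_abs, abs_of_nonneg (ev_nonneg _ _)]
  exact ev_le_one _ _

/-- The selection step of the gliding hump. -/
lemma select (E : ZeroAtInftyContinuousMap ℕ ℝ →L[ℝ] C(KK, ℝ)) (hE : ∀ x, E x ∈ XX) (M0 k0 : ℕ) {δ : ℝ} (hδ : 0 < δ) :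
    ∃ (k N : ℕ) (z : ℕ → ℝ), k0 ≤ k ∧ M0 < N ∧
      ‖(E (uu k)) - ∑ n ∈ Finset.Ico M0 N, z n • ee n‖ ≤ δ := by
  set η : ℝ := δ / (4 * (M0 + 1)) with hη
  have hηpos : 0 < η := by positivity
  -- the coordinates tend to zero
  have htend : ∀ n : ℕ, Tendsto (fun k => |(E (uu k)) (toK _ (isCl_leaf n))|) atTop (𝓝 0) := by
    intro n
    have hs : Summable (fun k => |(E (uu k)) (toK _ (isCl_leaf n))|) :=
      summable_of_sum_le (fun _ => abs_nonneg _) (fun F => sum_abs_le E _ F)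
    exact hs.tendsto_atTop_zero
  have hev : ∀ᶠ k in atTop, ∀ n ∈ Finset.range M0, |(E (uu k)) (toK _ (isCl_leaf n))| < η := by
    rw [Filter.eventually_all_finset]
    intro n _
    exact (htend n).eventually (gt_mem_nhds hηpos)
  obtain ⟨k, hk1, hk0⟩ := (hev.and (eventually_ge_atTop k0)).exists
  -- approximate by the span
  have hmem : (E (uu k)) ∈ closure (Submodule.span ℝ (Set.range ee) : Set C(KK, ℝ)) := hE (uu k)
  obtain ⟨g, hg, hgd⟩ := Metric.mem_closure_iff.1 hmem η hηpos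
  obtain ⟨x, N0, rfl⟩ := mem_span_iff hg
  rw [dist_eq_norm] at hgd
  set N := max N0 (M0 + 1) with hN
  set x' : ℕ → ℝ := fun n => if n < N0 then x n else 0 with hx'
  have hsum : ∑ n ∈ Finset.range N0, x n • ee n = ∑ n ∈ Finset.range N, x' n • ee n := by
    have h1 : ∑ n ∈ Finset.range N0, x n • ee n = ∑ n ∈ Finset.range N0, x' n • ee n := by
      refine Finset.sum_congr rfl fun n hn => ?_
      rw [hx']
      simp only [Finset.mem_range.1 hn, if_true]
    rw [h1]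
    apply Finset.sum_subset
    · intro n hn
      rw [Finset.mem_range] at hn ⊢
      exact hn.trans_le (le_max_left _ _)
    · intro n _ hn
      rw [hx']
      simp only [Finset.mem_range] at hn
      simp only [if_neg hn, zero_smul]
  rw [hsum] at hgd
  refine ⟨k, N, x', hk0, lt_of_lt_of_le (Nat.lt_succ_self _) (le_max_right _ _), ?_⟩
  have hM0N : M0 ≤ N := (Nat.le_succ _).trans (le_max_right _ _)
  have hsplit : ∑ n ∈ Finset.range N, x' n • ee n =
      ∑ n ∈ Finset.range M0, x' n • ee n + ∑ n ∈ Finset.Ico M0 N, x' n • ee n :=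
    (Finset.sum_range_add_sum_Ico _ hM0N).symm
  have hcoef : ∀ n ∈ Finset.range M0, |x' n| ≤ 2 * η := by
    intro n hn
    have hnN : n ∈ Finset.range N := Finset.mem_range.2 ((Finset.mem_range.1 hn).trans_le hM0N)
    have h1 := ((E (uu k)) - ∑ n ∈ Finset.range N, x' n • ee n).norm_coe_le_norm (toK _ (isCl_leaf n))
    rw [ContinuousMap.sub_apply, sum_leaf x' _ n hnN, Real.norm_eq_abs] at h1
    have h2 := hk1 n hn
    have h3 := abs_sub_abs_le_abs_sub (x' n) ((E (uu k)) (toK _ (isCl_leaf n)))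
    rw [abs_sub_comm] at h3
    linarith
  have hlow : ‖∑ n ∈ Finset.range M0, x' n • ee n‖ ≤ M0 * (2 * η) := by
    calc ‖∑ n ∈ Finset.range M0, x' n • ee n‖ ≤ ∑ n ∈ Finset.range M0, ‖x' n • ee n‖ :=
          norm_sum_le _ _
      _ ≤ ∑ n ∈ Finset.range M0, 2 * η := by
          refine Finset.sum_le_sum fun n hn => ?_
          rw [norm_smul, Real.norm_eq_abs]
          have h1 := hcoef n hn
          have h2 := norm_ee_le n
          have h3 := norm_nonneg (ee n)
          nlinarith [abs_nonneg (x' n)]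
      _ = M0 * (2 * η) := by rw [Finset.sum_const, Finset.card_range, nsmul_eq_mul]
  have hfinal : (E (uu k)) - ∑ n ∈ Finset.Ico M0 N, x' n • ee n =
      ((E (uu k)) - ∑ n ∈ Finset.range N, x' n • ee n) + ∑ n ∈ Finset.range M0, x' n • ee n := by
    rw [hsplit]; abel
  rw [hfinal]
  have h4 := norm_add_le ((E (uu k)) - ∑ n ∈ Finset.range N, x' n • ee n)
    (∑ n ∈ Finset.range M0, x' n • ee n)
  have h5 : η + M0 * (2 * η) ≤ δ := by
    have h6 : (M0 : ℝ) + 1 ≠ 0 := by positivity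
    have h7 : δ = 4 * (M0 + 1) * η := by rw [hη]; field_simp
    have h8 : (0 : ℝ) ≤ M0 := Nat.cast_nonneg _
    rw [h7]
    nlinarith
  linarith

/-- `XX` contains no copy of `c_0`. -/
theorem XX_no_c0 (E : ZeroAtInftyContinuousMap ℕ ℝ →L[ℝ] C(KK, ℝ)) (hEX : ∀ x, E x ∈ XX)
    (c : ℝ) (hc : 0 < c) (hE : ∀ x, c * ‖x‖ ≤ ‖E x‖) : False := by
  set δ : ℕ → ℝ := fun i => min 1 (c / 2) * (1 / 2) ^ (i + 1) with hδ
  have hδpos : ∀ i, 0 < δ i := by
    intro i
    have : 0 < min 1 (c / 2) := lt_min one_pos (by positivity)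
    positivity
  have hδc : ∀ i, δ i ≤ c / 2 := by
    intro i
    have h1 : ((1 : ℝ) / 2) ^ (i + 1) ≤ 1 := pow_le_one₀ (by norm_num) (by norm_num)
    have h2 : min 1 (c / 2) ≤ c / 2 := min_le_right _ _
    have h3 : 0 < min 1 (c / 2) := lt_min one_pos (by positivity)
    calc min 1 (c / 2) * (1 / 2) ^ (i + 1) ≤ min 1 (c / 2) * 1 :=
          mul_le_mul_of_nonneg_left h1 h3.le
      _ ≤ c / 2 := by rw [mul_one]; exact h2
  have hδsum : ∀ F : Finset ℕ, ∑ i ∈ F, δ i ≤ 1 := by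
    intro F
    have hle : ∀ i, δ i ≤ (1 / 2) ^ (i + 1) := by
      intro i
      have h1 : min 1 (c / 2) ≤ 1 := min_le_left _ _
      have h2 : (0 : ℝ) ≤ (1 / 2) ^ (i + 1) := by positivity
      calc min 1 (c / 2) * (1 / 2) ^ (i + 1) ≤ 1 * (1 / 2) ^ (i + 1) :=
            mul_le_mul_of_nonneg_right h1 h2
        _ = _ := one_mul _
    have hs : HasSum (fun i : ℕ => ((1 : ℝ) / 2) ^ (i + 1)) 1 := by
      have h4 := (hasSum_geometric_of_lt_one (show (0 : ℝ) ≤ 1 / 2 by norm_num)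
        (show (1 : ℝ) / 2 < 1 by norm_num)).mul_left (1 / 2)
      have h5 : (1 : ℝ) / 2 * (1 - 1 / 2)⁻¹ = 1 := by norm_num
      rw [h5] at h4
      have h6 : (fun i : ℕ => (1 : ℝ) / 2 * (1 / 2) ^ i) = fun i : ℕ => ((1 : ℝ) / 2) ^ (i + 1) := by
        funext i
        rw [pow_succ]; ring
      rw [h6] at h4
      exact h4
    calc ∑ i ∈ F, δ i ≤ ∑ i ∈ F, ((1 : ℝ) / 2) ^ (i + 1) := Finset.sum_le_sum fun i _ => hle i
      _ ≤ 1 := sum_le_hasSum F (fun i _ => by positivity) hs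
  have hsel : ∀ (M0 k0 i : ℕ), ∃ (k N : ℕ) (z : ℕ → ℝ), k0 ≤ k ∧ M0 < N ∧
      ‖(E (uu k)) - ∑ n ∈ Finset.Ico M0 N, z n • ee n‖ ≤ δ i :=
    fun M0 k0 i => select E hEX M0 k0 (hδpos i)
  choose kf Nf zf h1 h2 h3 using hsel
  -- the recursion
  let s : ℕ → ℕ × ℕ := fun i => Nat.rec (0, 0) (fun i p => (Nf p.1 p.2 i, kf p.1 p.2 i + 1)) i
  have hs_succ : ∀ i, s (i + 1) = (Nf (s i).1 (s i).2 i, kf (s i).1 (s i).2 i + 1) := fun i => rfl
  set M : ℕ → ℕ := fun i => (s i).1 with hM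
  set k : ℕ → ℕ := fun i => kf (s i).1 (s i).2 i with hk
  set z : ℕ → ℕ → ℝ := fun i => zf (s i).1 (s i).2 i with hz
  have hMs : StrictMono M := by
    apply strictMono_nat_of_lt_succ
    intro i
    show (s i).1 < (s (i + 1)).1
    rw [hs_succ]
    exact h2 _ _ _
  have hks : StrictMono k := by
    apply strictMono_nat_of_lt_succ
    intro i
    show k i < kf (s (i + 1)).1 (s (i + 1)).2 (i + 1)
    have := h1 (s (i + 1)).1 (s (i + 1)).2 (i + 1)
    rw [hs_succ] at this ⊢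
    simp only at this ⊢
    exact this
  have hclose : ∀ i, ‖(E (uu (k i))) - ∑ n ∈ Finset.Ico (M i) (M (i + 1)), z i n • ee n‖ ≤ δ i := by
    intro i
    have := h3 (s i).1 (s i).2 i
    exact this
  have hval : ∀ (A : Set V) (hA : IsCl A) (i : ℕ),
      |E (uu (k i)) (toK A hA) - val (z i) (Finset.Ico (M i) (M (i + 1))) A| ≤ δ i := by
    intro A hA i
    have h4 := ((E (uu (k i))) - ∑ n ∈ Finset.Ico (M i) (M (i + 1)), z i n • ee n).norm_coe_le_norm
      (toK A hA)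
    rw [ContinuousMap.sub_apply, sum_ee_apply, car_toK, Real.norm_eq_abs] at h4
    exact h4.trans (hclose i)
  have hbound : ∀ A, IsCl A → ∀ a b, vsum z M a b A ≤ ‖E‖ + 1 := by
    intro A hA a b
    have h5 : vsum z M a b A ≤ ∑ i ∈ Finset.Ico a b, (|E (uu (k i)) (toK A hA)| + δ i) := by
      unfold vsum
      refine Finset.sum_le_sum fun i _ => ?_
      have h6 := hval A hA i
      have h7 := abs_sub_abs_le_abs_sub (val (z i) (Finset.Ico (M i) (M (i + 1))) A)
        (E (uu (k i)) (toK A hA))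
      rw [abs_sub_comm] at h7
      linarith
    rw [Finset.sum_add_distrib] at h5
    have h6 : ∑ i ∈ Finset.Ico a b, |E (uu (k i)) (toK A hA)| ≤ ‖E‖ := by
      have h7 := sum_abs_le E (toK A hA) ((Finset.Ico a b).image k)
      rw [Finset.sum_image (fun i _ j _ h => hks.injective h)] at h7
      exact h7
    have h8 := hδsum (Finset.Ico a b)
    linarith
  have hN : ∀ i, ∃ A, IsCl A ∧ c / 4 ≤ |val (z i) (Finset.Ico (M i) (M (i + 1))) A| := by
    intro i
    by_contra hcon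
    push Not at hcon
    have h4 : ‖∑ n ∈ Finset.Ico (M i) (M (i + 1)), z i n • ee n‖ ≤ c / 4 := by
      refine (ContinuousMap.norm_le _ (by positivity)).2 fun A => ?_
      rw [sum_ee_apply]
      exact (hcon (car A.1) A.2).le
    have h5 := hclose i
    have h6 := hδc i
    have h7 := hE (uu (k i))
    have h8 := one_le_norm_uu (k i)
    have h9 := norm_sub_norm_le (E (uu (k i))) (∑ n ∈ Finset.Ico (M i) (M (i + 1)), z i n • ee n)
    have h10 : c * 1 ≤ c * ‖uu (k i)‖ := mul_le_mul_of_nonneg_left h8 hc.le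
    linarith
  have hC : ∀ A, IsCl A → ∀ i, |val (z i) (Finset.Ico (M i) (M (i + 1))) A| ≤ ‖E‖ + 1 := by
    intro A hA i
    have h4 := hbound A hA i (i + 1)
    unfold vsum at h4
    rw [Nat.Ico_succ_singleton, Finset.sum_singleton] at h4
    exact h4
  obtain ⟨v, hv, hPP⟩ := seeds hMs (show 0 < c / 4 by positivity) hC hN
  exact no_PP hMs.monotone hv hbound hPP

end Pool.Agent.H45.Ros
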