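import Mathlib

/-!
Combinatorics of the tree codes used for Rosenthal's problem on `C[0,1]` (MP_d027bf_an).
-/

set_option autoImplicit false

namespace Pool.Agent.H45.Ros

/-- A code: a list of pairs (index, slot). -/
abbrev Code := List (ℕ × ℕ)

/-- Vertices. -/
abbrev V := ℕ × Code

/-- A code is valid: strictly increasing indices, slots below `2^(k+2)`. -/
def Valid (S : Code) : Prop :=
  S.Pairwise (fun a b => a.1 < b.1) ∧ ∀ a ∈ S, a.2 < 2 ^ (a.1 + 2)

/-- The compatibility relation between the codes of two coordinates `n < n'`. -/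
def Good : Code → Code → Prop
  | a :: S, b :: S' =>
      a.1 = b.1 ∧ ((a.2 = b.2 ∧ Good S S') ∨ (a.2 ≠ b.2 ∧ ∀ x ∈ S, ∀ y ∈ S', x.1 < y.1))
  | _, _ => False

/-- The weight of a code. -/
noncomputable def wt (S : Code) : ℝ := (S.map (fun a => ((1 : ℝ) / 2) ^ (a.1 + 1))).prod

@[simp] lemma wt_nil : wt [] = 1 := by simp [wt]

@[simp] lemma wt_cons (a : ℕ × ℕ) (S : Code) : wt (a :: S) = ((1 : ℝ) / 2) ^ (a.1 + 1) * wt S := by
  simp [wt]

lemma wt_pos (S : Code) : 0 < wt S := by
  induction S with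
  | nil => simp
  | cons a S ih => rw [wt_cons]; positivity

lemma wt_le_one (S : Code) : wt S ≤ 1 := by
  induction S with
  | nil => simp
  | cons a S ih =>
    rw [wt_cons]
    have h1 : ((1 : ℝ) / 2) ^ (a.1 + 1) ≤ 1 := pow_le_one₀ (by norm_num) (by norm_num)
    have h2 := wt_pos S
    nlinarith [pow_pos (show (0 : ℝ) < 1 / 2 by norm_num) (a.1 + 1)]

lemma wt_le_of_mem (S : Code) (a : ℕ × ℕ) (ha : a ∈ S) : wt S ≤ ((1 : ℝ) / 2) ^ (a.1 + 1) := by
  induction S with
  | nil => simp at ha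
  | cons b S ih =>
    rw [wt_cons]
    have h1 : ((1 : ℝ) / 2) ^ (b.1 + 1) ≤ 1 := pow_le_one₀ (by norm_num) (by norm_num)
    have h0 := pow_pos (show (0 : ℝ) < 1 / 2 by norm_num) (b.1 + 1)
    have h2 := wt_pos S
    have h3 := wt_le_one S
    rcases List.mem_cons.1 ha with rfl | h
    · nlinarith
    · have := ih h
      nlinarith

/-- Cliques. -/
structure IsCl (A : Set V) : Prop where
  valid : ∀ p ∈ A, Valid p.2
  uniq : ∀ p ∈ A, ∀ q ∈ A, p.1 = q.1 → p = q
  good : ∀ p ∈ A, ∀ q ∈ A, p.1 < q.1 → Good p.2 q.2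

lemma IsCl.mono {A B : Set V} (hA : IsCl A) (h : B ⊆ A) : IsCl B :=
  ⟨fun p hp => hA.valid p (h hp), fun p hp q hq => hA.uniq p (h hp) q (h hq),
    fun p hp q hq => hA.good p (h hp) q (h hq)⟩

/-- The coordinate functionals. -/
noncomputable def ev (n : ℕ) (A : Set V) : ℝ := by
  classical
  exact if h : ∃ S, (n, S) ∈ A then wt h.choose else 0

lemma ev_of_mem {A : Set V} (hA : IsCl A) {n : ℕ} {S : Code} (h : (n, S) ∈ A) :
    ev n A = wt S := by
  classical
  have hex : ∃ S, (n, S) ∈ A := ⟨S, h⟩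
  rw [ev, dif_pos hex]
  have := hA.uniq _ hex.choose_spec _ h rfl
  rw [(Prod.mk.inj this).2]

lemma ev_of_notMem {A : Set V} {n : ℕ} (h : ∀ S, (n, S) ∉ A) : ev n A = 0 := by
  classical
  rw [ev, dif_neg]
  rintro ⟨S, hS⟩
  exact h S hS

lemma ev_nonneg (n : ℕ) (A : Set V) : 0 ≤ ev n A := by
  classical
  rw [ev]
  split_ifs
  · exact (wt_pos _).le
  · exact le_rfl

lemma ev_le_one (n : ℕ) (A : Set V) : ev n A ≤ 1 := by
  classical
  rw [ev]
  split_ifs
  · exact wt_le_one _
  · exact zero_le_one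

/-- The subcode hanging off the pair `a`. -/
def sub (a : ℕ × ℕ) (A : Set V) : Set V := {p | (p.1, a :: p.2) ∈ A}

lemma mem_sub {a : ℕ × ℕ} {A : Set V} {p : V} : p ∈ sub a A ↔ (p.1, a :: p.2) ∈ A := Iff.rfl

lemma Valid.tail {a : ℕ × ℕ} {S : Code} (h : Valid (a :: S)) : Valid S :=
  ⟨(List.pairwise_cons.1 h.1).2, fun b hb => h.2 b (List.mem_cons_of_mem _ hb)⟩

lemma Valid.lt_of_mem {a : ℕ × ℕ} {S : Code} (h : Valid (a :: S)) {b : ℕ × ℕ} (hb : b ∈ S) :
    a.1 < b.1 := (List.pairwise_cons.1 h.1).1 b hb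

lemma good_cons_iff (a b : ℕ × ℕ) (S S' : Code) : Good (a :: S) (b :: S') ↔
    a.1 = b.1 ∧ ((a.2 = b.2 ∧ Good S S') ∨ (a.2 ≠ b.2 ∧ ∀ x ∈ S, ∀ y ∈ S', x.1 < y.1)) := by
  rw [Good]

lemma not_good_nil_left (S : Code) : ¬ Good [] S := by
  cases S <;> simp [Good]

lemma not_good_nil_right (S : Code) : ¬ Good S [] := by
  cases S <;> simp [Good]

lemma good_cons_same {a : ℕ × ℕ} {S S' : Code} (h : Good (a :: S) (a :: S')) : Good S S' := by
  rw [good_cons_iff] at h
  rcases h.2 with h | h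
  · exact h.2
  · exact absurd rfl h.1

lemma IsCl.sub {A : Set V} (hA : IsCl A) (a : ℕ × ℕ) : IsCl (sub a A) := by
  refine ⟨fun p hp => (hA.valid _ hp).tail, fun p hp q hq h => ?_, fun p hp q hq h => ?_⟩
  · have h1 := hA.uniq _ hp _ hq h
    have h2 := (Prod.mk.inj h1).2
    exact Prod.ext h (List.cons.inj h2).2
  · exact good_cons_same (hA.good _ hp _ hq h)

/-- Two different elements of a clique share the root index. -/
lemma IsCl.share_root {A : Set V} (hA : IsCl A) {p q : V} (hp : p ∈ A) (hq : q ∈ A) (hpq : p ≠ q) :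
    ∃ k s S s' S', p.2 = (k, s) :: S ∧ q.2 = (k, s') :: S' := by
  have key : ∀ S S' : Code, Good S S' → ∃ k s T s' T', S = (k, s) :: T ∧ S' = (k, s') :: T' := by
    intro S S' h
    match S, S', h with
    | [], S', h => exact absurd h (not_good_nil_left _)
    | a :: S, [], h => exact absurd h (not_good_nil_right _)
    | a :: S, b :: S', h =>
      rw [good_cons_iff] at h
      exact ⟨a.1, a.2, S, b.2, S', rfl, by rw [h.1]⟩
  have hne : p.1 ≠ q.1 := fun h => hpq (hA.uniq _ hp _ hq h)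
  rcases lt_or_gt_of_ne hne with h | h
  · exact key _ _ (hA.good _ hp _ hq h)
  · obtain ⟨k, s, T, s', T', h1, h2⟩ := key _ _ (hA.good _ hq _ hp h)
    exact ⟨k, s', T', s, T, h2, h1⟩

/-- Either a clique is a single leaf or all its elements have the same root index. -/
lemma IsCl.root_cases {A : Set V} (hA : IsCl A) :
    (∃ n, A = {(n, [])}) ∨ ∃ k, ∀ p ∈ A, ∃ s S, p.2 = (k, s) :: S := by
  by_cases h : ∃ p ∈ A, p.2 = []
  · left
    obtain ⟨p, hp, hp2⟩ := h
    refine ⟨p.1, ?_⟩
    ext q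
    constructor
    · intro hq
      by_contra hne
      have hqp : q ≠ p := by
        rintro rfl
        apply hne
        rw [Set.mem_singleton_iff]
        exact Prod.ext rfl hp2
      obtain ⟨k, s, S, s', S', h1, h2⟩ := hA.share_root hq hp hqp
      rw [hp2] at h2
      simp at h2
    · intro hq
      rw [Set.mem_singleton_iff] at hq
      have : q = p := by rw [hq]; exact Prod.ext rfl hp2.symm
      rw [this]; exact hp
  · right
    push Not at h
    rcases Set.eq_empty_or_nonempty A with rfl | ⟨p, hp⟩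
    · exact ⟨0, fun p hp => absurd hp (Set.notMem_empty _)⟩
    · match hp2 : p.2 with
      | [] => exact absurd hp2 (h p hp)
      | a :: S =>
        refine ⟨a.1, fun q hq => ?_⟩
        by_cases hqp : q = p
        · rw [hqp]; exact ⟨a.2, S, hp2⟩
        · obtain ⟨k, s, T, s', T', h1, h2⟩ := hA.share_root hq hp hqp
          rw [hp2] at h2
          have : a = (k, s') := (List.cons.inj h2).1
          exact ⟨s, T, by rw [h1, this]⟩

/-- The node identity. -/
lemma ev_node {A : Set V} (hA : IsCl A) {k : ℕ} (hk : ∀ p ∈ A, ∃ s S, p.2 = (k, s) :: S) (n : ℕ) :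
    ev n A = ((1 : ℝ) / 2) ^ (k + 1) * ∑ i ∈ Finset.range (2 ^ (k + 2)), ev n (sub (k, i) A) := by
  by_cases h : ∃ S, (n, S) ∈ A
  · obtain ⟨S, hS⟩ := h
    obtain ⟨s, T, hT⟩ := hk _ hS
    simp only at hT
    subst hT
    have hs : s < 2 ^ (k + 2) := (hA.valid _ hS).2 (k, s) (by simp)
    rw [ev_of_mem hA hS, wt_cons, Finset.sum_eq_single_of_mem s (Finset.mem_range.2 hs)]
    · rw [ev_of_mem (hA.sub _) (show (n, T) ∈ sub (k, s) A from hS)]
    · intro i _ hi
      apply ev_of_notMem
      intro S' hS'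
      have := hA.uniq _ hS' _ hS rfl
      have h2 := (Prod.mk.inj this).2
      have h3 := (List.cons.inj h2).1
      exact hi (Prod.mk.inj h3).2
  · push Not at h
    rw [ev_of_notMem h, Finset.sum_eq_zero, mul_zero]
    intro i _
    exact ev_of_notMem (fun S hS => h _ hS)

/-- Linear combinations of coordinate functionals. -/
noncomputable def val (x : ℕ → ℝ) (F : Finset ℕ) (A : Set V) : ℝ := ∑ n ∈ F, x n * ev n A

lemma val_node (x : ℕ → ℝ) (F : Finset ℕ) {A : Set V} (hA : IsCl A) {k : ℕ}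
    (hk : ∀ p ∈ A, ∃ s S, p.2 = (k, s) :: S) :
    val x F A = ((1 : ℝ) / 2) ^ (k + 1) * ∑ i ∈ Finset.range (2 ^ (k + 2)), val x F (sub (k, i) A) := by
  unfold val
  rw [Finset.sum_comm, Finset.mul_sum]
  refine Finset.sum_congr rfl fun n _ => ?_
  rw [ev_node hA hk n, ← Finset.mul_sum]
  ring

lemma half_pow_mul (k : ℕ) : ((1 : ℝ) / 2) ^ (k + 1) * 2 ^ (k + 2) = 2 := by
  rw [pow_succ (2 : ℝ) (k + 1), ← mul_assoc, ← mul_pow]
  norm_num

/-- The lower bound: values on cliques are controlled by values on cliques with positive indices. -/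
lemma val_le_two (x : ℕ → ℝ) (F : Finset ℕ) (M : ℝ)
    (hM : ∀ B, IsCl B → (∀ p ∈ B, ∀ a ∈ p.2, 1 ≤ a.1) → |val x F B| ≤ M) {A : Set V} (hA : IsCl A) :
    |val x F A| ≤ 2 * M := by
  have hM0 : 0 ≤ M := by
    have := hM ∅ ⟨by simp, by simp, by simp⟩ (by simp)
    exact (abs_nonneg _).trans this
  rcases hA.root_cases with ⟨n, hn⟩ | ⟨k, hk⟩
  · have := hM A hA (by rw [hn]; simp)
    linarith
  · rcases Nat.eq_zero_or_pos k with rfl | hpos
    · rw [val_node x F hA hk, abs_mul, abs_of_pos (by positivity)]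
      have h1 : |∑ i ∈ Finset.range (2 ^ (0 + 2)), val x F (sub (0, i) A)| ≤ 2 ^ (0 + 2) * M := by
        refine (Finset.abs_sum_le_sum_abs _ _).trans ?_
        refine (Finset.sum_le_sum fun i _ => hM _ (hA.sub _) ?_).trans ?_
        · intro p hp a ha
          exact (hA.valid _ hp).lt_of_mem ha
        · simp; norm_num
      norm_num at h1 ⊢
      linarith
    · have := hM A hA (by
        intro p hp a ha
        obtain ⟨s, S, hS⟩ := hk p hp
        have hv := hA.valid p hp
        rw [hS] at ha hv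
        rcases List.mem_cons.1 ha with rfl | h
        · exact hpos
        · have := hv.lt_of_mem h
          simp only at this
          omega)
      linarith

/-- Bound for cliques with indices in `[I-d, I)`. -/
lemma low_bound (F : Finset ℕ) (I : ℕ) : ∀ d : ℕ, ∀ B : Set V, IsCl B →
    (∀ p ∈ B, ∀ a ∈ p.2, I ≤ a.1 + d ∧ a.1 < I) → ∑ n ∈ F, ev n B ≤ 2 ^ d := by
  intro d
  induction d with
  | zero =>
    intro B hB h
    rcases hB.root_cases with ⟨n, hn⟩ | ⟨k, hk⟩
    · have : ∀ m ∈ F, m ≠ n → ev m B = 0 := by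
        intro m _ hm
        apply ev_of_notMem
        intro S hS
        rw [hn, Set.mem_singleton_iff] at hS
        exact hm (Prod.mk.inj hS).1
      by_cases hnF : n ∈ F
      · rw [Finset.sum_eq_single_of_mem n hnF this]
        simpa using ev_le_one n B
      · rw [Finset.sum_eq_zero]
        · simp
        · intro m hm
          exact this m hm (fun h => hnF (h ▸ hm))
    · rw [Finset.sum_eq_zero]
      · simp
      · intro m _
        apply ev_of_notMem
        intro S hS
        obtain ⟨s, T, hT⟩ := hk _ hS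
        have := h _ hS (k, s) (by rw [hT]; simp)
        simp only at this
        omega
  | succ d ih =>
    intro B hB h
    rcases hB.root_cases with ⟨n, hn⟩ | ⟨k, hk⟩
    · have : ∀ m ∈ F, m ≠ n → ev m B = 0 := by
        intro m _ hm
        apply ev_of_notMem
        intro S hS
        rw [hn, Set.mem_singleton_iff] at hS
        exact hm (Prod.mk.inj hS).1
      have h1 : (1 : ℝ) ≤ 2 ^ (d + 1) := one_le_pow₀ (by norm_num)
      by_cases hnF : n ∈ F
      · rw [Finset.sum_eq_single_of_mem n hnF this]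
        exact (ev_le_one n B).trans h1
      · rw [Finset.sum_eq_zero]
        · positivity
        · intro m hm
          exact this m hm (fun h => hnF (h ▸ hm))
    · have h1 : ∑ n ∈ F, ev n B = ((1 : ℝ) / 2) ^ (k + 1) *
          ∑ i ∈ Finset.range (2 ^ (k + 2)), ∑ n ∈ F, ev n (sub (k, i) B) := by
        rw [Finset.sum_comm, Finset.mul_sum]
        exact Finset.sum_congr rfl fun n _ => ev_node hB hk n
      rw [h1]
      have h2 : ∑ i ∈ Finset.range (2 ^ (k + 2)), ∑ n ∈ F, ev n (sub (k, i) B) ≤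
          ∑ i ∈ Finset.range (2 ^ (k + 2)), (2 : ℝ) ^ d := by
        refine Finset.sum_le_sum fun i _ => ih _ (hB.sub _) ?_
        intro p hp a ha
        have hv := (hB.valid _ hp).lt_of_mem ha
        have h3 := h _ hp (k, i) (by simp)
        have h4 := h _ hp a (by simp [ha])
        simp only at hv h3
        omega
      rw [Finset.sum_const, Finset.card_range, nsmul_eq_mul] at h2
      push_cast at h2
      have h3 := half_pow_mul k
      calc ((1 : ℝ) / 2) ^ (k + 1) * ∑ i ∈ Finset.range (2 ^ (k + 2)), ∑ n ∈ F, ev n (sub (k, i) B)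
          ≤ ((1 : ℝ) / 2) ^ (k + 1) * (2 ^ (k + 2) * 2 ^ d) := by
            apply mul_le_mul_of_nonneg_left h2 (by positivity)
        _ = 2 * 2 ^ d := by rw [← mul_assoc, h3]
        _ = 2 ^ (d + 1) := by ring

/-- All indices at least `I`. -/
def High (I : ℕ) (A : Set V) : Prop := ∀ p ∈ A, ∀ a ∈ p.2, I ≤ a.1

/-- All indices below `I`. -/
def Low (I : ℕ) (A : Set V) : Prop := ∀ p ∈ A, ∀ a ∈ p.2, a.1 < I

lemma mixed_elt {I : ℕ} {B : Set V} (hB : IsCl B) (h1 : ¬ High I B) (h2 : ¬ Low I B) :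
    ∃ p ∈ B, ∃ r ∈ p.2, ∃ a ∈ p.2, r.1 < I ∧ I ≤ a.1 := by
  unfold High at h1
  unfold Low at h2
  push Not at h1 h2
  obtain ⟨q, hq, b, hb, hbI⟩ := h1
  obtain ⟨p, hp, a, ha, haI⟩ := h2
  by_cases hpq : p = q
  · subst hpq
    exact ⟨p, hp, b, hb, a, ha, hbI, haI⟩
  · obtain ⟨k, s, S, s', S', h1, h2⟩ := hB.share_root hp hq hpq
    refine ⟨p, hp, (k, s), by rw [h1]; simp, a, ha, ?_, haI⟩
    have hv := hB.valid q hq
    rw [h2] at hv hb
    rcases List.mem_cons.1 hb with rfl | h
    · exact hbI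
    · have := hv.lt_of_mem h
      simp only at this ⊢
      omega

/-- At most one child is mixed. -/
lemma mixed_unique {A : Set V} (hA : IsCl A) (k I : ℕ) {i j : ℕ} (hij : i ≠ j)
    (hi1 : ¬ High I (sub (k, i) A)) (hi2 : ¬ Low I (sub (k, i) A))
    (hj1 : ¬ High I (sub (k, j) A)) (hj2 : ¬ Low I (sub (k, j) A)) : False := by
  obtain ⟨p, hp, r, hr, a, ha, hrI, haI⟩ := mixed_elt (hA.sub _) hi1 hi2
  obtain ⟨q, hq, r', hr', a', ha', hrI', haI'⟩ := mixed_elt (hA.sub _) hj1 hj2
  rw [mem_sub] at hp hq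
  have hne : p.1 ≠ q.1 := by
    intro h
    have := hA.uniq _ hp _ hq h
    have h2 := (Prod.mk.inj this).2
    have h3 := (List.cons.inj h2).1
    exact hij (Prod.mk.inj h3).2
  rcases lt_or_gt_of_ne hne with h | h
  · have hg := hA.good _ hp _ hq h
    rw [good_cons_iff] at hg
    rcases hg.2 with h1 | h1
    · exact hij h1.1
    · have := h1.2 a ha r' hr'
      omega
  · have hg := hA.good _ hq _ hp h
    rw [good_cons_iff] at hg
    rcases hg.2 with h1 | h1
    · exact hij h1.1.symm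
    · have := h1.2 a' ha' r hr
      omega

/-- The seed estimate. -/
lemma seed_bound (x : ℕ → ℝ) (F : Finset ℕ) (I : ℕ) (m G N : ℝ) (hm : 0 ≤ m)
    (hx : ∀ n ∈ F, |x n| ≤ m) (hG : ∀ B, IsCl B → High I B → |val x F B| ≤ G)
    (hN : ∀ A, IsCl A → |val x F A| ≤ N) {A : Set V} (hA : IsCl A) :
    |val x F A| ≤ 2 * (2 ^ I * m + G) + N / 2 := by
  have hempty : IsCl (∅ : Set V) := ⟨by simp, by simp, by simp⟩
  have hG0 : 0 ≤ G := (abs_nonneg _).trans (hG ∅ hempty (by intro p hp; simp at hp))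
  have hN0 : 0 ≤ N := (abs_nonneg _).trans (hN ∅ hempty)
  have hpos : 0 ≤ 2 ^ I * m := by positivity
  have hhigh : ∀ B, IsCl B → High I B → |val x F B| ≤ 2 * (2 ^ I * m + G) + N / 2 := by
    intro B hB h
    have := hG B hB h
    linarith
  rcases hA.root_cases with ⟨n, hn⟩ | ⟨k, hk⟩
  · exact hhigh A hA (by rw [hn]; intro p hp; rw [Set.mem_singleton_iff] at hp; rw [hp]; simp)
  · rw [val_node x F hA hk, abs_mul, abs_of_pos (by positivity)]
    have hlow : ∀ B, IsCl B → Low I B → |val x F B| ≤ 2 ^ I * m := by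
      intro B hB h
      have h1 : ∑ n ∈ F, ev n B ≤ 2 ^ I :=
        low_bound F I I B hB (fun p hp a ha => ⟨by omega, h p hp a ha⟩)
      calc |val x F B| ≤ ∑ n ∈ F, |x n * ev n B| := Finset.abs_sum_le_sum_abs _ _
        _ ≤ ∑ n ∈ F, m * ev n B := by
          refine Finset.sum_le_sum fun n hn => ?_
          rw [abs_mul, abs_of_nonneg (ev_nonneg n B)]
          exact mul_le_mul_of_nonneg_right (hx n hn) (ev_nonneg n B)
        _ = m * ∑ n ∈ F, ev n B := by rw [Finset.mul_sum]
        _ ≤ m * 2 ^ I := mul_le_mul_of_nonneg_left h1 hm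
        _ = 2 ^ I * m := by ring
    -- the sum over children
    have hsum : ∑ i ∈ Finset.range (2 ^ (k + 2)), |val x F (sub (k, i) A)| ≤
        2 ^ (k + 2) * (2 ^ I * m + G) + N := by
      classical
      by_cases hmix : ∃ i ∈ Finset.range (2 ^ (k + 2)),
          ¬ High I (sub (k, i) A) ∧ ¬ Low I (sub (k, i) A)
      · obtain ⟨i, hi, hi1, hi2⟩ := hmix
        rw [← Finset.add_sum_erase _ _ hi]
        have h1 : ∑ j ∈ (Finset.range (2 ^ (k + 2))).erase i, |val x F (sub (k, j) A)| ≤
            ∑ j ∈ (Finset.range (2 ^ (k + 2))).erase i, (2 ^ I * m + G) := by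
          refine Finset.sum_le_sum fun j hj => ?_
          have hji := (Finset.mem_erase.1 hj).1
          by_cases hh : High I (sub (k, j) A)
          · have := hG _ (hA.sub _) hh
            linarith
          · by_cases hl : Low I (sub (k, j) A)
            · have := hlow _ (hA.sub _) hl
              linarith
            · exact absurd (mixed_unique hA k I hji hh hl hi1 hi2) id
        have h2 : ∑ j ∈ (Finset.range (2 ^ (k + 2))).erase i, (2 ^ I * m + G) ≤
            2 ^ (k + 2) * (2 ^ I * m + G) := by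
          rw [Finset.sum_const, nsmul_eq_mul]
          apply mul_le_mul_of_nonneg_right _ (by positivity)
          have : ((Finset.range (2 ^ (k + 2))).erase i).card ≤ 2 ^ (k + 2) :=
            (Finset.card_erase_le).trans (by simp)
          exact_mod_cast this
        have h3 := hN _ (hA.sub (k, i))
        linarith
      · push Not at hmix
        have h1 : ∑ j ∈ (Finset.range (2 ^ (k + 2))), |val x F (sub (k, j) A)| ≤
            ∑ j ∈ (Finset.range (2 ^ (k + 2))), (2 ^ I * m + G) := by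
          refine Finset.sum_le_sum fun j hj => ?_
          by_cases hh : High I (sub (k, j) A)
          · have := hG _ (hA.sub _) hh
            linarith
          · have := hlow _ (hA.sub _) (hmix j hj hh)
            linarith
        rw [Finset.sum_const, Finset.card_range, nsmul_eq_mul] at h1
        push_cast at h1
        linarith
    have h1 := (Finset.abs_sum_le_sum_abs (fun i => val x F (sub (k, i) A))
      (Finset.range (2 ^ (k + 2)))).trans hsum
    have h2 := half_pow_mul k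
    have h3 : ((1 : ℝ) / 2) ^ (k + 1) ≤ 1 / 2 := by
      rw [pow_succ]
      have : ((1 : ℝ) / 2) ^ k ≤ 1 := pow_le_one₀ (by norm_num) (by norm_num)
      linarith
    calc ((1 : ℝ) / 2) ^ (k + 1) * |∑ i ∈ Finset.range (2 ^ (k + 2)), val x F (sub (k, i) A)|
        ≤ ((1 : ℝ) / 2) ^ (k + 1) * (2 ^ (k + 2) * (2 ^ I * m + G) + N) :=
          mul_le_mul_of_nonneg_left h1 (by positivity)
      _ = 2 * (2 ^ I * m + G) + ((1 : ℝ) / 2) ^ (k + 1) * N := by
          rw [mul_add, ← mul_assoc, h2]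
      _ ≤ 2 * (2 ^ I * m + G) + N / 2 := by
          have := mul_le_mul_of_nonneg_right h3 hN0
          linarith

end Pool.Agent.H45.Ros
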