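import Mathlib

/-!
A linear extension operator for continuous functions on compact subsets of compact metric spaces.
-/

set_option autoImplicit false
set_option linter.unusedSectionVars false

open Filter Topology

namespace Pool.Agent.H45.Ros

section Ext

variable {K M : Type*} [TopologicalSpace K] [CompactSpace K] [TopologicalSpace.SeparableSpace K]
  [Nonempty K] [MetricSpace M] [CompactSpace M]

/-- Kernel of the extension operator. -/
noncomputable def ker (ι : C(K, M)) (i : ℕ) (x : M) : ℝ :=
  max 0 (2 * Metric.infDist x (Set.range ι) - dist x (ι (TopologicalSpace.denseSeq K i)))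

lemma ker_nonneg (ι : C(K, M)) (i : ℕ) (x : M) : 0 ≤ ker ι i x := le_max_left _ _

lemma continuous_ker (ι : C(K, M)) (i : ℕ) : Continuous (ker ι i) := by
  unfold ker
  exact continuous_const.max ((continuous_const.mul (Metric.continuous_infDist_pt _)).sub
    (continuous_id.dist continuous_const))

lemma exists_ker_bound (ι : C(K, M)) : ∃ R : ℝ, 0 ≤ R ∧ ∀ i x, ker ι i x ≤ R := by
  obtain ⟨R, hR⟩ := (isCompact_univ (X := M)).bddAbove_image
    (f := fun x => 2 * Metric.infDist x (Set.range ι))
    (continuous_const.mul (Metric.continuous_infDist_pt _)).continuousOn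
  refine ⟨max R 0, le_max_right _ _, fun i x => ?_⟩
  unfold ker
  apply max_le (le_max_right _ _)
  have h1 : 2 * Metric.infDist x (Set.range ι) ≤ R := hR ⟨x, Set.mem_univ _, rfl⟩
  have h2 := dist_nonneg (x := x) (y := ι (TopologicalSpace.denseSeq K i))
  have h3 := le_max_left R 0
  linarith

/-- The numerator of the extension. -/
noncomputable def numer (ι : C(K, M)) (f : K → ℝ) (x : M) : ℝ :=
  ∑' i, ((1 : ℝ) / 2) ^ i * ker ι i x * f (TopologicalSpace.denseSeq K i)

lemma summable_numer (ι : C(K, M)) (f : K → ℝ) (C : ℝ) (hf : ∀ y, |f y| ≤ C) (x : M) :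
    Summable (fun i => ((1 : ℝ) / 2) ^ i * ker ι i x * f (TopologicalSpace.denseSeq K i)) := by
  obtain ⟨R, hR0, hR⟩ := exists_ker_bound ι
  have hC : 0 ≤ C := (abs_nonneg _).trans (hf (TopologicalSpace.denseSeq K 0))
  refine Summable.of_norm_bounded (g := fun i => ((1 : ℝ) / 2) ^ i * (R * C))
    ((summable_geometric_of_lt_one (by norm_num) (by norm_num)).mul_right _) fun i => ?_
  rw [norm_mul, norm_mul, norm_pow, Real.norm_eq_abs, Real.norm_eq_abs, Real.norm_eq_abs,
    abs_of_nonneg (ker_nonneg ι i x), mul_assoc, abs_of_pos (show (0 : ℝ) < 1 / 2 by norm_num)]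
  apply mul_le_mul_of_nonneg_left _ (by positivity)
  exact mul_le_mul (hR i x) (hf _) (abs_nonneg _) hR0

lemma continuous_numer (ι : C(K, M)) (f : K → ℝ) (C : ℝ) (hf : ∀ y, |f y| ≤ C) :
    Continuous (numer ι f) := by
  obtain ⟨R, hR0, hR⟩ := exists_ker_bound ι
  have hC : 0 ≤ C := (abs_nonneg _).trans (hf (TopologicalSpace.denseSeq K 0))
  unfold numer
  refine continuous_tsum (u := fun i => ((1 : ℝ) / 2) ^ i * (R * C)) (fun i => ?_)
    ((summable_geometric_of_lt_one (by norm_num) (by norm_num)).mul_right _) fun i x => ?_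
  · exact (continuous_const.mul (continuous_ker ι i)).mul continuous_const
  · rw [norm_mul, norm_mul, norm_pow, Real.norm_eq_abs, Real.norm_eq_abs, Real.norm_eq_abs,
      abs_of_nonneg (ker_nonneg ι i x), mul_assoc, abs_of_pos (show (0 : ℝ) < 1 / 2 by norm_num)]
    apply mul_le_mul_of_nonneg_left _ (by positivity)
    exact mul_le_mul (hR i x) (hf _) (abs_nonneg _) hR0

lemma isClosed_range (ι : C(K, M)) : IsClosed (Set.range ι) := (isCompact_range ι.continuous).isClosed

lemma numer_pos (ι : C(K, M)) {x : M} (hx : x ∉ Set.range ι) : 0 < numer ι (fun _ => 1) x := by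
  have hne : (Set.range ι).Nonempty := Set.range_nonempty _
  have h0 : 0 < Metric.infDist x (Set.range ι) :=
    ((isClosed_range ι).notMem_iff_infDist_pos hne).1 hx
  -- a dense point close enough
  have h1 : ∃ y ∈ Set.range ι, dist x y < 2 * Metric.infDist x (Set.range ι) :=
    (Metric.infDist_lt_iff hne).1 (by linarith)
  obtain ⟨_, ⟨y, rfl⟩, hy⟩ := h1
  have hopen : IsOpen {y : K | dist x (ι y) < 2 * Metric.infDist x (Set.range ι)} :=
    isOpen_lt (continuous_const.dist ι.continuous) continuous_const
  obtain ⟨z, hz, i, rfl⟩ := (TopologicalSpace.denseRange_denseSeq K).inter_open_nonempty _ hopen ⟨y, hy⟩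
  have hk : 0 < ker ι i x := by
    unfold ker
    apply lt_max_of_lt_right
    have : dist x (ι (TopologicalSpace.denseSeq K i)) < 2 * Metric.infDist x (Set.range ι) := hz
    linarith
  unfold numer
  refine (summable_numer ι (fun _ => (1 : ℝ)) 1 (by simp) x).tsum_pos ?_ i ?_
  · intro j
    have := ker_nonneg ι j x
    positivity
  · positivity

/-- The extension of a continuous function. -/
noncomputable def extF (ι : C(K, M)) (f : C(K, ℝ)) (x : M) : ℝ := by
  classical
  exact if h : x ∈ Set.range ι then f h.choose else numer ι f x / numer ι (fun _ => 1) x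

lemma extF_range (ι : C(K, M)) (hι : Function.Injective ι) (f : C(K, ℝ)) (y : K) :
    extF ι f (ι y) = f y := by
  classical
  have h : ι y ∈ Set.range ι := ⟨y, rfl⟩
  rw [extF, dif_pos h]
  congr 1
  exact hι h.choose_spec

lemma extF_notMem (ι : C(K, M)) (f : C(K, ℝ)) {x : M} (hx : x ∉ Set.range ι) :
    extF ι f x = numer ι f x / numer ι (fun _ => 1) x := by
  classical
  rw [extF, dif_neg hx]

lemma extF_close (ι : C(K, M)) (f : C(K, ℝ)) {x : M} (hx : x ∉ Set.range ι) (c ε : ℝ)
    (h : ∀ y : K, dist x (ι y) < 2 * Metric.infDist x (Set.range ι) → |f y - c| ≤ ε) :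
    |extF ι f x - c| ≤ ε := by
  have hpos := numer_pos ι hx
  have hs1 := summable_numer ι (fun _ => (1 : ℝ)) 1 (by simp) x
  have hsf := summable_numer ι f ‖f‖ (fun y => f.norm_coe_le_norm y) x
  have h1 : numer ι f x - c * numer ι (fun _ => 1) x =
      ∑' i, ((1 : ℝ) / 2) ^ i * ker ι i x * (f (TopologicalSpace.denseSeq K i) - c) := by
    unfold numer
    rw [← tsum_mul_left, ← hsf.tsum_sub (hs1.mul_left c)]
    congr 1
    funext i
    ring
  have hs2 : Summable (fun i => ((1 : ℝ) / 2) ^ i * ker ι i x * (f (TopologicalSpace.denseSeq K i) - c)) := by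
    have := hsf.sub (hs1.mul_left c)
    refine this.congr fun i => ?_
    ring
  have h2 : |numer ι f x - c * numer ι (fun _ => 1) x| ≤ ε * numer ι (fun _ => 1) x := by
    rw [h1]
    have h3 : ε * numer ι (fun _ => 1) x = ∑' i, ε * (((1 : ℝ) / 2) ^ i * ker ι i x * 1) := by
      unfold numer
      rw [tsum_mul_left]
    rw [h3, ← Real.norm_eq_abs]
    refine tsum_of_norm_bounded (hs1.mul_left ε).hasSum fun i => ?_
    rw [norm_mul, norm_mul, norm_pow, Real.norm_eq_abs, Real.norm_eq_abs, Real.norm_eq_abs,
      abs_of_nonneg (ker_nonneg ι i x), abs_of_pos (show (0 : ℝ) < 1 / 2 by norm_num)]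
    by_cases hk : ker ι i x = 0
    · rw [hk]; simp
    · have hk' : 0 < ker ι i x := lt_of_le_of_ne (ker_nonneg ι i x) (Ne.symm hk)
      have h4 : dist x (ι (TopologicalSpace.denseSeq K i)) < 2 * Metric.infDist x (Set.range ι) := by
        unfold ker at hk'
        rcases lt_max_iff.1 hk' with h5 | h5
        · exact absurd h5 (lt_irrefl _)
        · linarith
      have h5 := h _ h4
      have h6 : 0 ≤ ((1 : ℝ) / 2) ^ i * ker ι i x := by positivity
      nlinarith
  rw [extF_notMem ι f hx]
  have h7 : numer ι f x / numer ι (fun _ => 1) x - c =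
      (numer ι f x - c * numer ι (fun _ => 1) x) / numer ι (fun _ => 1) x := by
    field_simp
  rw [h7, abs_div, abs_of_pos hpos, div_le_iff₀ hpos]
  exact h2

lemma continuous_extF (ι : C(K, M)) (hι : Function.Injective ι) (f : C(K, ℝ)) :
    Continuous (extF ι f) := by
  rw [continuous_iff_continuousAt]
  intro x
  by_cases hx : x ∈ Set.range ι
  · obtain ⟨y0, rfl⟩ := hx
    rw [Metric.continuousAt_iff]
    intro ε hε
    have hemb : IsClosedEmbedding ι := ι.continuous.isClosedEmbedding hι
    -- `f` is close to `f y0` at points whose image is close to `ι y0`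
    have h1 : ∃ δ > 0, ∀ y : K, dist (ι y) (ι y0) < δ → |f y - f y0| ≤ ε / 2 := by
      have h2 : {y : K | |f y - f y0| < ε / 2} ∈ 𝓝 y0 := by
        have h3 : Continuous (fun y => |f y - f y0|) := (f.continuous.sub continuous_const).abs
        exact (isOpen_lt h3 continuous_const).mem_nhds (by simp [hε])
      rw [hemb.isInducing.nhds_eq_comap, mem_comap] at h2
      obtain ⟨t, ht, hts⟩ := h2
      obtain ⟨δ, hδ, hball⟩ := Metric.mem_nhds_iff.1 ht
      refine ⟨δ, hδ, fun y hy => ?_⟩
      have : y ∈ {y : K | |f y - f y0| < ε / 2} := hts (hball hy)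
      exact (show |f y - f y0| < ε / 2 from this).le
    obtain ⟨δ, hδ, hδf⟩ := h1
    refine ⟨δ / 3, by positivity, fun x hx => ?_⟩
    rw [extF_range ι hι f y0, Real.dist_eq]
    by_cases hxr : x ∈ Set.range ι
    · obtain ⟨y, rfl⟩ := hxr
      rw [extF_range ι hι f y]
      have := hδf y (by linarith)
      linarith
    · have h4 : |extF ι f x - f y0| ≤ ε / 2 := by
        apply extF_close ι f hxr
        intro y hy
        apply hδf
        have h5 : Metric.infDist x (Set.range ι) ≤ dist x (ι y0) :=
          Metric.infDist_le_dist_of_mem ⟨y0, rfl⟩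
        have h6 := dist_triangle (ι y) x (ι y0)
        rw [dist_comm (ι y) x] at h6
        linarith
      linarith
  · have hopen : IsOpen (Set.range ι)ᶜ := (isClosed_range ι).isOpen_compl
    have h1 : ContinuousAt (fun x => numer ι f x / numer ι (fun _ => 1) x) x := by
      apply ContinuousAt.div
      · exact (continuous_numer ι f ‖f‖ (fun y => f.norm_coe_le_norm y)).continuousAt
      · exact (continuous_numer ι (fun _ => (1 : ℝ)) 1 (by simp)).continuousAt
      · exact (numer_pos ι hx).ne'
    refine h1.congr ?_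
    filter_upwards [hopen.mem_nhds hx] with z hz
    exact (extF_notMem ι f hz).symm

/-- The linear extension operator. -/
theorem exists_ext (ι : C(K, M)) (hι : Function.Injective ι) :
    ∃ E : C(K, ℝ) →L[ℝ] C(M, ℝ), ∀ f y, E f (ι y) = f y := by
  have hadd : ∀ (f g : C(K, ℝ)) (x : M), extF ι (f + g) x = extF ι f x + extF ι g x := by
    intro f g x
    by_cases hx : x ∈ Set.range ι
    · obtain ⟨y, rfl⟩ := hx
      simp only [extF_range ι hι, ContinuousMap.add_apply]
    · rw [extF_notMem ι _ hx, extF_notMem ι _ hx, extF_notMem ι _ hx, ← add_div]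
      congr 1
      unfold numer
      rw [← (summable_numer ι f ‖f‖ (fun y => f.norm_coe_le_norm y) x).tsum_add
        (summable_numer ι g ‖g‖ (fun y => g.norm_coe_le_norm y) x)]
      congr 1
      funext i
      rw [ContinuousMap.add_apply]
      ring
  have hsmul : ∀ (c : ℝ) (f : C(K, ℝ)) (x : M), extF ι (c • f) x = c * extF ι f x := by
    intro c f x
    by_cases hx : x ∈ Set.range ι
    · obtain ⟨y, rfl⟩ := hx
      simp only [extF_range ι hι, ContinuousMap.smul_apply, smul_eq_mul]
    · rw [extF_notMem ι _ hx, extF_notMem ι _ hx, ← mul_div_assoc]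
      congr 1
      unfold numer
      rw [← tsum_mul_left]
      congr 1
      funext i
      rw [ContinuousMap.smul_apply, smul_eq_mul]
      ring
  have hbound : ∀ (f : C(K, ℝ)) (x : M), |extF ι f x| ≤ ‖f‖ := by
    intro f x
    by_cases hx : x ∈ Set.range ι
    · obtain ⟨y, rfl⟩ := hx
      rw [extF_range ι hι]
      exact f.norm_coe_le_norm y
    · have := extF_close ι f hx 0 ‖f‖ (fun y _ => by
        rw [sub_zero]; exact f.norm_coe_le_norm y)
      simpa using this
  refine ⟨LinearMap.mkContinuous
    { toFun := fun f => ⟨extF ι f, continuous_extF ι hι f⟩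
      map_add' := fun f g => by ext x; exact hadd f g x
      map_smul' := fun c f => by ext x; exact hsmul c f x } 1 ?_, ?_⟩
  · intro f
    rw [one_mul]
    exact (ContinuousMap.norm_le _ (norm_nonneg _)).2 fun x => hbound f x
  · intro f y
    exact extF_range ι hι f y

end Ext

end Pool.Agent.H45.Ros
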