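import Pool.Agent.H45.RosSpace

/-!
Almost surely the thinning of a clique is finite (MP_d027bf_an).
-/

set_option autoImplicit false

open MeasureTheory Filter Topology

namespace Pool.Agent.H45.Ros

lemma exists_gt {B : Set V} (hB : IsCl B) (hinf : B.Infinite) (n : ℕ) : ∃ p ∈ B, n < p.1 := by
  have h1 : (Prod.fst '' B).Infinite := hinf.image (fun p hp q hq h => hB.uniq p hp q hq h)
  obtain ⟨m, ⟨p, hp, rfl⟩, hm⟩ := h1.exists_gt n
  exact ⟨p, hp, hm⟩

lemma two_inf {A : Set V} (hA : IsCl A) {k i j : ℕ} (hij : i ≠ j)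
    (hi : (sub (k, i) A).Infinite) (hj : (sub (k, j) A).Infinite) : False := by
  obtain ⟨p, hp, _⟩ := exists_gt (hA.sub _) hi 0
  obtain ⟨q, hq, hpq⟩ := exists_gt (hA.sub _) hj p.1
  obtain ⟨p', hp', hqp'⟩ := exists_gt (hA.sub _) hi q.1
  obtain ⟨q', hq', hqq'⟩ := exists_gt (hA.sub _) hj q.1
  have hpp' : p ≠ p' := by rintro rfl; omega
  have hqq'' : q ≠ q' := by rintro rfl; omega
  obtain ⟨r, s, S, s', S', h1, h2⟩ := (hA.sub _).share_root hp hp' hpp'
  obtain ⟨r', t, T, t', T', h3, h4⟩ := (hA.sub _).share_root hq hq' hqq''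
  rw [mem_sub] at hp hq hp' hq'
  have g1 := hA.good _ hp _ hq hpq
  have g2 := hA.good _ hq _ hp' hqp'
  rw [good_cons_iff] at g1 g2
  have g1' : r < r' := by
    rcases g1.2 with g | g
    · exact absurd g.1 hij
    · exact g.2 (r, s) (by simp [h1]) (r', t) (by simp [h3])
  have g2' : r' < r := by
    rcases g2.2 with g | g
    · exact absurd g.1.symm hij
    · exact g.2 (r', t) (by simp [h3]) (r, s') (by simp [h2])
  omega

lemma IsCl.exists_root_cofinite {A : Set V} (hA : IsCl A) (hinf : A.Infinite) :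
    ∃ a, {p ∈ A | ¬ ∃ S, p.2 = a :: S}.Finite := by
  rcases hA.root_cases with ⟨n, hn⟩ | ⟨k, hk⟩
  · rw [hn] at hinf
    exact absurd (Set.finite_singleton _) hinf
  · -- some slot is infinite
    have himg : ∀ i, {p ∈ A | ∃ S, p.2 = (k, i) :: S} ⊆
        (fun p : V => (p.1, (k, i) :: p.2)) '' Ros.sub (k, i) A := by
      rintro i p ⟨hp, S, hS⟩
      refine ⟨(p.1, S), ?_, Prod.ext rfl hS.symm⟩
      rw [mem_sub]
      simp only
      rw [← hS]
      exact hp
    have hslot : ∀ p ∈ A, ∃ i < 2 ^ (k + 2), ∃ S, p.2 = (k, i) :: S := by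
      intro p hp
      obtain ⟨s, S, hS⟩ := hk p hp
      refine ⟨s, ?_, S, hS⟩
      exact (hA.valid p hp).2 (k, s) (by rw [hS]; simp)
    have hex : ∃ t, (Ros.sub (k, t) A).Infinite := by
      by_contra hcon
      push Not at hcon
      apply hinf
      have : A ⊆ ⋃ i ∈ Finset.range (2 ^ (k + 2)), {p ∈ A | ∃ S, p.2 = (k, i) :: S} := by
        intro p hp
        obtain ⟨i, hi, S, hS⟩ := hslot p hp
        simp only [Set.mem_iUnion]
        exact ⟨i, Finset.mem_range.2 hi, hp, S, hS⟩
      refine Set.Finite.subset ?_ this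
      refine Set.Finite.biUnion (Finset.finite_toSet _) fun i _ => ?_
      exact ((hcon i).image _).subset (himg i)
    obtain ⟨t, ht⟩ := hex
    refine ⟨(k, t), ?_⟩
    have : {p ∈ A | ¬ ∃ S, p.2 = (k, t) :: S} ⊆
        ⋃ i ∈ (Finset.range (2 ^ (k + 2))).filter (fun i => i ≠ t), {p ∈ A | ∃ S, p.2 = (k, i) :: S} := by
      rintro p ⟨hp, hpt⟩
      obtain ⟨i, hi, S, hS⟩ := hslot p hp
      simp only [Set.mem_iUnion]
      refine ⟨i, ?_, hp, S, hS⟩
      rw [Finset.mem_filter, Finset.mem_range]
      refine ⟨hi, ?_⟩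
      rintro rfl
      exact hpt ⟨S, hS⟩
    refine Set.Finite.subset ?_ this
    refine Set.Finite.biUnion (Finset.finite_toSet _) fun i hi => ?_
    have hi' := (Finset.mem_filter.1 hi).2
    refine Set.Finite.subset (Set.Finite.image _ ?_) (himg i)
    by_contra hcon
    exact two_inf hA hi' hcon ht

/-- Iterated subcodes. -/
def subs (P : Code) (A : Set V) : Set V := {p | (p.1, P ++ p.2) ∈ A}

lemma isCl_subs : ∀ (P : Code) {A : Set V}, IsCl A → IsCl (subs P A)
  | [], A, hA => by
    have : subs [] A = A := by ext p; rfl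
    rw [this]; exact hA
  | a :: P, A, hA => by
    have : subs (a :: P) A = subs P (sub a A) := by ext p; rfl
    rw [this]; exact isCl_subs P (hA.sub a)

lemma exists_prefix {A : Set V} (hA : IsCl A) (hinf : A.Infinite) (j : ℕ) :
    ∃ P : Code, P.length = j ∧ {p ∈ A | ¬ P <+: p.2}.Finite := by
  induction j with
  | zero =>
    refine ⟨[], rfl, ?_⟩
    convert Set.finite_empty (α := V)
    ext p
    simp
  | succ j ih =>
    obtain ⟨P, hPj, hP⟩ := ih
    have hsub : {p ∈ A | P <+: p.2} ⊆ (fun p : V => (p.1, P ++ p.2)) '' subs P A := by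
      rintro p ⟨hp, S, hS⟩
      refine ⟨(p.1, S), ?_, Prod.ext rfl hS⟩
      show (p.1, P ++ S) ∈ A
      rw [hS]; exact hp
    have hinf' : (subs P A).Infinite := by
      intro hfin
      apply hinf
      have : A ⊆ {p ∈ A | P <+: p.2} ∪ {p ∈ A | ¬ P <+: p.2} := by
        intro p hp
        by_cases h : P <+: p.2
        · exact Or.inl ⟨hp, h⟩
        · exact Or.inr ⟨hp, h⟩
      exact (((hfin.image _).subset hsub).union hP).subset this
    obtain ⟨a, ha⟩ := (isCl_subs P hA).exists_root_cofinite hinf'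
    refine ⟨P ++ [a], by simp [hPj], ?_⟩
    refine Set.Finite.subset (hP.union (ha.image (fun p : V => (p.1, P ++ p.2)))) ?_
    rintro p ⟨hp, hpP⟩
    by_cases h : P <+: p.2
    · right
      obtain ⟨S, hS⟩ := h
      refine ⟨(p.1, S), ⟨?_, ?_⟩, Prod.ext rfl hS⟩
      · show (p.1, P ++ S) ∈ A
        rw [hS]; exact hp
      · rintro ⟨T, hT⟩
        apply hpP
        refine ⟨T, ?_⟩
        simp only at hT
        rw [← hS, hT]
        simp
    · left
      exact ⟨hp, h⟩

lemma thin_inj (b : ℕ → Bool) : Function.Injective (fun p : V => ((p.1, lift b p.2) : V)) := by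
  intro p q h
  have h1 := (Prod.mk.inj h).1
  have h2 := (Prod.mk.inj h).2
  exact Prod.ext h1 (lift_injective b h2)

lemma valid_of_prefix {P S : Code} (hS : Valid S) (h : P <+: S) : Valid P :=
  ⟨hS.1.sublist h.sublist, fun a ha => hS.2 a (h.subset ha)⟩

/-- Almost surely the thinned clique is finite. -/
lemma ae_finite {A : Set V} (hA : IsCl A) : ∀ᵐ b ∂bits, (thin b A).Finite := by
  by_cases hinf : A.Infinite
  · have key : ∀ j : ℕ, bits {b | ¬ (thin b A).Finite} ≤ 2⁻¹ ^ j := by
      intro j
      obtain ⟨P, hPj, hP⟩ := exists_prefix hA hinf j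
      have hex : ∃ p ∈ A, P <+: p.2 := by
        by_contra hcon
        push Not at hcon
        apply hinf
        exact hP.subset (fun p hp => ⟨hp, hcon p hp⟩)
      obtain ⟨p0, hp0, hPp0⟩ := hex
      have hv : Valid P := valid_of_prefix (hA.valid p0 hp0) hPp0
      calc bits {b | ¬ (thin b A).Finite} ≤ bits {b | Mat b P} := by
            apply measure_mono
            intro b hb
            have hb' : (thin b A).Infinite := hb
            have h1 : ((fun p : V => ((p.1, lift b p.2) : V)) '' thin b A).Infinite :=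
              hb'.image (thin_inj b).injOn
            have h2 : ∃ q ∈ (fun p : V => ((p.1, lift b p.2) : V)) '' thin b A, P <+: q.2 := by
              by_contra hcon
              push Not at hcon
              apply h1
              refine hP.subset ?_
              rintro q ⟨p, hp, rfl⟩
              exact ⟨hp, hcon _ ⟨p, hp, rfl⟩⟩
            obtain ⟨q, ⟨p, hp, rfl⟩, hq⟩ := h2
            refine ⟨p.2.take P.length, ?_⟩
            have h3 := List.prefix_iff_eq_take.1 hq
            rw [h3]
            simp only [lift, List.length_take, List.length_map, List.map_take]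
            congr 1
            have := hq.length_le
            simp only [lift, List.length_map] at this
            omega
        _ ≤ 2⁻¹ ^ P.length := bits_mat_le hv
        _ = 2⁻¹ ^ j := by rw [hPj]
    have h0 : bits {b | ¬ (thin b A).Finite} = 0 := by
      apply le_antisymm _ zero_le
      exact ge_of_tendsto' (ENNReal.tendsto_pow_atTop_nhds_zero_of_lt_one (by norm_num)) key
    exact h0
  · refine Eventually.of_forall fun b => ?_
    have hfin := Set.not_infinite.1 hinf
    refine Set.Finite.of_finite_image (f := fun p : V => ((p.1, lift b p.2) : V)) ?_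
      (thin_inj b).injOn
    exact hfin.subset (by rintro q ⟨p, hp, rfl⟩; exact hp)

/-- The finite cliques. -/
def DF : Set KK := {A | (car A.1).Finite}

lemma countable_DF : DF.Countable := by
  have h1 : {t : Set V | t.Finite ∧ t ⊆ Set.univ}.Countable :=
    Set.countable_ofPred_finite_subset Set.countable_univ
  have h2 : Set.InjOn (fun A : KK => car A.1) DF := by
    intro A _ B _ h
    apply Subtype.ext
    funext p
    have h3 : p ∈ car A.1 ↔ p ∈ car B.1 := by
      simp only at h
      rw [h]
    simp only [car, Set.mem_ofPred_eq] at h3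
    cases h4 : A.1 p <;> cases h5 : B.1 p <;> simp_all
  apply Set.countable_of_injective_of_countable_image h2
  refine h1.mono ?_
  rintro t ⟨A, hA, rfl⟩
  exact ⟨hA, Set.subset_univ _⟩

/-- `TT` maps bounded sequences to sequences with pointwise convergent subsequences. -/
lemma TT_subseq (φ : ℕ → C(KK, ℝ)) (B : ℝ) (hB : ∀ m, ‖φ m‖ ≤ B) :
    ∃ s : ℕ → ℕ, StrictMono s ∧
      ∀ A : KK, Tendsto (fun i => TT (φ (s (2 * i)) - φ (s (2 * i + 1))) A) atTop (𝓝 0) := by
  have : Countable DF := countable_DF.to_subtype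
  set Φ : ℕ → (DF → ℝ) := fun m A => φ m A.1 with hΦ
  have hcpt : IsCompact (Set.pi Set.univ (fun _ : DF => Set.Icc (-B) B)) :=
    isCompact_univ_pi fun _ => isCompact_Icc
  have hmem : ∀ m, Φ m ∈ Set.pi Set.univ (fun _ : DF => Set.Icc (-B) B) := by
    intro m A _
    have h1 := (φ m).norm_coe_le_norm A.1
    rw [Real.norm_eq_abs] at h1
    exact abs_le.1 (h1.trans (hB m))
  obtain ⟨g, _, s, hs, hlim⟩ := hcpt.tendsto_subseq hmem
  refine ⟨s, hs, fun A => ?_⟩
  rw [tendsto_pi_nhds] at hlim
  have hB0 : 0 ≤ B := (norm_nonneg _).trans (hB 0)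
  have h1 : ∀ C : KK, C ∈ DF →
      Tendsto (fun i => (φ (s (2 * i)) - φ (s (2 * i + 1))) C) atTop (𝓝 0) := by
    intro C hC
    have h2 := hlim ⟨C, hC⟩
    have h3 : Tendsto (fun i : ℕ => 2 * i) atTop atTop :=
      tendsto_atTop_mono (fun i => by simp only [id]; omega) tendsto_id
    have h4 : Tendsto (fun i : ℕ => 2 * i + 1) atTop atTop :=
      tendsto_atTop_mono (fun i => by simp only [id]; omega) tendsto_id
    have h5 := (h2.comp h3).sub (h2.comp h4)
    rw [sub_self] at h5
    exact h5
  have h2 : Tendsto (fun i => ∫ b, (φ (s (2 * i)) - φ (s (2 * i + 1))) (th b A) ∂bits) atTop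
      (𝓝 (∫ _ : ℕ → Bool, (0 : ℝ) ∂bits)) := by
    apply tendsto_integral_of_dominated_convergence (fun _ => 2 * B)
    · intro i
      exact ((φ (s (2 * i)) - φ (s (2 * i + 1))).continuous.comp
        (continuous_th_left A)).aestronglyMeasurable
    · exact integrable_const _
    · intro i
      refine Eventually.of_forall fun b => ?_
      have h3 := (φ (s (2 * i)) - φ (s (2 * i + 1))).norm_coe_le_norm (th b A)
      have h4 := norm_sub_le (φ (s (2 * i))) (φ (s (2 * i + 1)))
      have h5 := hB (s (2 * i))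
      have h6 := hB (s (2 * i + 1))
      linarith
    · filter_upwards [ae_finite A.2] with b hb
      exact h1 (th b A) hb
  rw [integral_zero] at h2
  exact h2

end Pool.Agent.H45.Ros
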