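import Pool.Agent.H45.RosFix
import Pool.Agent.H45.RosC0

/-!
The counterexample to Rosenthal's question (MP_d027bf_an): assembly.
-/

set_option autoImplicit false

open Filter Topology

namespace Pool.Agent.H45.Ros

/-- The space `X` as a type. -/
def X0 : Type := ↥XX

noncomputable instance : NormedAddCommGroup X0 := inferInstanceAs (NormedAddCommGroup ↥XX)

noncomputable instance : NormedSpace ℝ X0 := inferInstanceAs (NormedSpace ℝ ↥XX)

instance : CompleteSpace X0 := by
  have h : IsClosed (XX : Set C(KK, ℝ)) := Submodule.isClosed_topologicalClosure _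
  have : CompleteSpace (XX : Set C(KK, ℝ)) := h.completeSpace_coe
  exact this

instance : TopologicalSpace.SeparableSpace X0 := by
  have : TopologicalSpace.SeparableSpace (XX : Set C(KK, ℝ)) := inferInstance
  exact this

/-- The inclusion. -/
noncomputable def incl : X0 →L[ℝ] C(KK, ℝ) :=
  LinearMap.mkContinuous
    { toFun := fun x => (show ↥XX from x).1
      map_add' := fun _ _ => rfl
      map_smul' := fun _ _ => rfl } 1 (by
        intro x
        rw [one_mul]
        exact le_rfl)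

lemma norm_incl (x : X0) : ‖incl x‖ = ‖x‖ := rfl

lemma incl_mem (x : X0) : incl x ∈ XX := (show ↥XX from x).2

/-- The basis inside `X0`. -/
noncomputable def e0 (n : ℕ) : X0 :=
  (⟨ee n, Submodule.le_topologicalClosure _ (Submodule.subset_span ⟨n, rfl⟩)⟩ : ↥XX)

lemma incl_e0 (n : ℕ) : incl (e0 n) = ee n := rfl

lemma linearIndependent_e0 : LinearIndependent ℝ e0 := by
  apply LinearIndependent.of_comp (incl : X0 →ₗ[ℝ] C(KK, ℝ))
  rw [linearIndependent_iff']
  intro F x hx n hn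
  have h1 := sum_leaf x F n hn
  have h2 : ∑ m ∈ F, x m • ee m = 0 := hx
  rw [h2] at h1
  simpa using h1.symm

lemma not_finiteDimensional : ¬ FiniteDimensional ℝ X0 := by
  intro h
  have := linearIndependent_e0.finite
  exact not_finite ℕ

theorem main :
    ¬ (∀ (X : Type) [NormedAddCommGroup X] [NormedSpace ℝ X] [CompleteSpace X]
      [TopologicalSpace.SeparableSpace X],
      ¬ FiniteDimensional ℝ X →
      (¬ ∃ (E : ZeroAtInftyContinuousMap ℕ ℝ →L[ℝ] X) (c : ℝ),
          0 < c ∧ ∀ x, c * ‖x‖ ≤ ‖E x‖) →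
      ∀ (T : C(unitInterval, ℝ) →L[ℝ] C(unitInterval, ℝ)),
        (∃ (J : X →L[ℝ] C(unitInterval, ℝ)) (c : ℝ),
            0 < c ∧ ∀ x, c * ‖x‖ ≤ ‖T (J x)‖) →
        ∃ (J : C(unitInterval, ℝ) →L[ℝ] C(unitInterval, ℝ)) (c : ℝ),
          0 < c ∧ ∀ f, c * ‖f‖ ≤ ‖T (J f)‖) := by
  intro hall
  obtain ⟨EK, hEK⟩ := exists_ext iotaK iotaK_injective
  have hno : ¬ ∃ (E : ZeroAtInftyContinuousMap ℕ ℝ →L[ℝ] X0) (c : ℝ),
      0 < c ∧ ∀ x, c * ‖x‖ ≤ ‖E x‖ := by
    rintro ⟨E, c, hc, hE⟩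
    exact XX_no_c0 (incl.comp E) (fun x => incl_mem _) c hc (fun x => hE x)
  have hemb : ∃ (J : X0 →L[ℝ] C(unitInterval, ℝ)) (c : ℝ),
      0 < c ∧ ∀ x, c * ‖x‖ ≤ ‖((EK.comp TT).comp (restr iotaK)) (J x)‖ := by
    refine ⟨EK.comp incl, 1 / 2, by norm_num, fun x => ?_⟩
    have h1 : restr iotaK (EK (incl x)) = incl x := by
      ext A
      rw [restr_apply, hEK]
    have h2 : ‖TT (incl x)‖ ≤ ‖EK (TT (incl x))‖ := by
      refine (ContinuousMap.norm_le _ (norm_nonneg _)).2 fun A => ?_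
      rw [← hEK (TT (incl x)) A]
      exact (EK (TT (incl x))).norm_coe_le_norm _
    have h3 := TT_lower (incl_mem x)
    rw [norm_incl] at h3
    show 1 / 2 * ‖x‖ ≤ ‖EK (TT (restr iotaK (EK (incl x))))‖
    rw [h1]
    linarith
  obtain ⟨J, c, hc, hJ⟩ := hall X0 not_finiteDimensional hno
    ((EK.comp TT).comp (restr iotaK)) hemb
  exact not_fix EK (restr iotaK) J c hc hJ

end Pool.Agent.H45.Ros
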