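import Mathlib

/-!
A bounded pointwise null sequence in `C(K)` has convex combinations of small norm.
-/

set_option autoImplicit false

open MeasureTheory Filter Topology CompactlySupported

namespace Pool.Agent.H45.Ros

variable {K : Type*} [TopologicalSpace K] [CompactSpace K] [T2Space K]

/-- Positive functionals are continuous along bounded pointwise null sequences. -/
lemma pos_functional_tendsto (Λ : C(K, ℝ) →ₗ[ℝ] ℝ) (hΛ : ∀ f : C(K, ℝ), (∀ x, 0 ≤ f x) → 0 ≤ Λ f)
    (h : ℕ → C(K, ℝ)) (B : ℝ) (hB : ∀ i x, |h i x| ≤ B)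
    (hlim : ∀ x, Tendsto (fun i => h i x) atTop (𝓝 0)) : Tendsto (fun i => Λ (h i)) atTop (𝓝 0) := by
  let _ : MeasurableSpace K := borel K
  have : BorelSpace K := ⟨rfl⟩
  let Λ' : C_c(K, ℝ) →ₗ[ℝ] ℝ :=
    { toFun := fun f => Λ f.toContinuousMap
      map_add' := fun f g => by
        rw [← map_add]; rfl
      map_smul' := fun c f => by
        rw [← map_smul]; rfl }
  let Λp : C_c(K, ℝ) →ₚ[ℝ] ℝ := PositiveLinearMap.mk₀ Λ' (fun f hf => hΛ _ (fun x => hf x))
  have hrep : ∀ f : C(K, ℝ), ∫ x, f x ∂(RealRMK.rieszMeasure Λp) = Λ f := by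
    intro f
    have := RealRMK.integral_rieszMeasure Λp ⟨f, HasCompactSupport.of_compactSpace f⟩
    exact this
  have h1 : Tendsto (fun i => ∫ x, h i x ∂(RealRMK.rieszMeasure Λp)) atTop
      (𝓝 (∫ _ : K, (0 : ℝ) ∂(RealRMK.rieszMeasure Λp))) := by
    apply tendsto_integral_of_dominated_convergence (fun _ => B)
    · intro i
      exact (h i).continuous.aestronglyMeasurable
    · exact integrable_const _
    · intro i
      exact Eventually.of_forall fun x => hB i x
    · exact Eventually.of_forall hlim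
  rw [integral_zero] at h1
  exact h1.congr fun i => hrep (h i)

/-- Convex combinations of `|h i|` are uniformly small. -/
theorem mazur (h : ℕ → C(K, ℝ)) (B : ℝ) (hB : ∀ i x, |h i x| ≤ B)
    (hlim : ∀ x, Tendsto (fun i => h i x) atTop (𝓝 0)) {ε : ℝ} (hε : 0 < ε) :
    ∃ w : ℕ →₀ ℝ, (∀ i, 0 ≤ w i) ∧ w.sum (fun _ a => a) = 1 ∧
      ∀ x, w.sum (fun i a => a * |h i x|) < ε := by
  by_contra hcon
  push Not at hcon
  let ha : ℕ → C(K, ℝ) := fun i => |h i|
  have ha_apply : ∀ i x, ha i x = |h i x| := fun i x => rfl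
  let L : (ℕ →₀ ℝ) →ₗ[ℝ] C(K, ℝ) := Finsupp.linearCombination ℝ ha
  have hL : ∀ (w : ℕ →₀ ℝ) (x : K), L w x = w.sum (fun i a => a * |h i x|) := by
    intro w x
    simp only [L, Finsupp.linearCombination_apply, Finsupp.sum]
    rw [ContinuousMap.coe_sum, Finset.sum_apply]
    rfl
  let Δ : Set (ℕ →₀ ℝ) := {w | (∀ i, 0 ≤ w i) ∧ w.sum (fun _ a => a) = 1}
  have hΔ : Convex ℝ Δ := by
    rintro w ⟨hw0, hw1⟩ v ⟨hv0, hv1⟩ a b ha hb hab
    constructor
    · intro i
      have := mul_nonneg ha (hw0 i)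
      have := mul_nonneg hb (hv0 i)
      simp only [Finsupp.add_apply, Finsupp.smul_apply, smul_eq_mul]
      positivity
    · rw [Finsupp.sum_add_index' (by simp) (by simp), Finsupp.sum_smul_index' (by simp),
        Finsupp.sum_smul_index' (by simp)]
      simp only [smul_eq_mul]
      rw [← Finsupp.mul_sum, ← Finsupp.mul_sum, hw1, hv1]
      linarith
  let S2 : Set C(K, ℝ) := {f | ∀ x, f x < ε}
  have hS2c : Convex ℝ S2 := by
    intro f hf g hg a b ha hb hab x
    have h1 := hf x
    have h2 := hg x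
    simp only [ContinuousMap.add_apply, ContinuousMap.smul_apply, smul_eq_mul]
    rcases eq_or_lt_of_le ha with rfl | ha'
    · have : b = 1 := by linarith
      rw [this]; linarith
    · nlinarith
  have hS2o : IsOpen S2 := by
    have := ContinuousMap.isOpen_setOfPred_mapsTo (X := K) (Y := ℝ) isCompact_univ (isOpen_Iio (a := ε))
    convert this using 1
    ext f
    simp [S2, Set.MapsTo]
  have hdisj : Disjoint S2 (L '' Δ) := by
    rw [Set.disjoint_left]
    rintro f hf ⟨w, ⟨hw0, hw1⟩, rfl⟩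
    obtain ⟨x, hx⟩ := hcon w hw0 hw1
    have := hf x
    rw [hL] at this
    linarith
  obtain ⟨Λ, u, hΛ1, hΛ2⟩ := geometric_hahn_banach_open hS2c hS2o (hΔ.linear_image L) hdisj
  have hu : 0 < u := by
    have := hΛ1 0 (by intro x; simpa using hε)
    simpa using this
  have hpos : ∀ f : C(K, ℝ), (∀ x, 0 ≤ f x) → 0 ≤ Λ f := by
    intro f hf
    by_contra hneg
    push Not at hneg
    have h1 : -((u / (-Λ f)) • f) ∈ S2 := by
      intro x
      have h2 : 0 ≤ (u / (-Λ f)) * f x := mul_nonneg (div_nonneg hu.le (by linarith)) (hf x)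
      simp only [ContinuousMap.neg_apply, ContinuousMap.smul_apply, smul_eq_mul]
      linarith
    have h3 := hΛ1 _ h1
    rw [map_neg, map_smul, smul_eq_mul] at h3
    have h4 : u / (-Λ f) * Λ f = -u := by
      have : Λ f ≠ 0 := hneg.ne
      field_simp
    rw [h4] at h3
    linarith
  have hten := pos_functional_tendsto (Λ : C(K, ℝ) →ₗ[ℝ] ℝ) hpos ha B
    (fun i x => by rw [ha_apply, abs_abs]; exact hB i x)
    (fun x => by simpa [ha_apply] using (hlim x).abs)
  have hge : ∀ i, u ≤ Λ (ha i) := by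
    intro i
    apply hΛ2
    refine ⟨Finsupp.single i 1, ⟨?_, by simp⟩, by simp [L]⟩
    intro j
    rw [Finsupp.single_apply]
    split_ifs <;> norm_num
  have := ge_of_tendsto' hten hge
  linarith

end Pool.Agent.H45.Ros
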