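import Pool.Agent.H45.RosFin
import Pool.Agent.H45.RosExt
import Pool.Agent.H45.RosMazur

/-!
The operator fixes no copy of `C[0,1]` (MP_d027bf_an).
-/

set_option autoImplicit false

open Filter Topology

namespace Pool.Agent.H45.Ros

/-- The Cantor space inside the unit interval. -/
noncomputable def iotaC : C(ℕ → Bool, unitInterval) where
  toFun b := ⟨(cantorSetHomeomorphNatToBool.symm b).1,
    cantorSet_subset_unitInterval (cantorSetHomeomorphNatToBool.symm b).2⟩
  continuous_toFun :=
    (continuous_subtype_val.comp cantorSetHomeomorphNatToBool.symm.continuous).subtype_mk _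

lemma iotaC_injective : Function.Injective iotaC := by
  intro b b' h
  have h1 : (cantorSetHomeomorphNatToBool.symm b).1 = (cantorSetHomeomorphNatToBool.symm b').1 :=
    congrArg (fun t : unitInterval => (t : ℝ)) h
  exact cantorSetHomeomorphNatToBool.symm.injective (Subtype.ext h1)

/-- The space `KK` inside the Cantor space. -/
noncomputable def iotaK0 : C(KK, ℕ → Bool) where
  toFun A := fun n => A.1 ((Denumerable.eqv V).symm n)
  continuous_toFun := continuous_pi fun _ => (continuous_apply _).comp continuous_subtype_val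

lemma iotaK0_injective : Function.Injective iotaK0 := by
  intro A B h
  apply Subtype.ext
  funext p
  have := congrFun h (Denumerable.eqv V p)
  simpa [iotaK0] using this

/-- The space `KK` inside the unit interval. -/
noncomputable def iotaK : C(KK, unitInterval) := iotaC.comp iotaK0

lemma iotaK_injective : Function.Injective iotaK :=
  iotaC_injective.comp iotaK0_injective

instance : Nonempty KK := ⟨toK ∅ ⟨by simp, by simp, by simp⟩⟩

/-- Restriction along a continuous map. -/
noncomputable def restr {K M : Type*} [TopologicalSpace K] [CompactSpace K] [TopologicalSpace M]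
    [CompactSpace M] (ι : C(K, M)) : C(M, ℝ) →L[ℝ] C(K, ℝ) :=
  LinearMap.mkContinuous
    { toFun := fun f => f.comp ι
      map_add' := fun f g => rfl
      map_smul' := fun c f => rfl } 1 (by
        intro f
        rw [one_mul]
        exact (ContinuousMap.norm_le _ (norm_nonneg _)).2 fun x => f.norm_coe_le_norm _)

lemma restr_apply {K M : Type*} [TopologicalSpace K] [CompactSpace K] [TopologicalSpace M]
    [CompactSpace M] (ι : C(K, M)) (f : C(M, ℝ)) (x : K) : restr ι f x = f (ι x) := rfl

/-- The coordinate signs on the Cantor space. -/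
noncomputable def rad (m : ℕ) : C(ℕ → Bool, ℝ) where
  toFun b := if b m = true then 1 else -1
  continuous_toFun := by
    have : Continuous (fun c : Bool => if c = true then (1 : ℝ) else -1) :=
      continuous_of_discreteTopology
    exact this.comp (continuous_apply m)

lemma norm_rad_le (m : ℕ) : ‖rad m‖ ≤ 1 := by
  refine (ContinuousMap.norm_le _ zero_le_one).2 fun b => ?_
  show ‖if b m = true then (1 : ℝ) else -1‖ ≤ 1
  split_ifs <;> simp

/-- The composed operator fixes no copy of `C[0,1]`. -/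
theorem not_fix (EK : C(KK, ℝ) →L[ℝ] C(unitInterval, ℝ)) (R : C(unitInterval, ℝ) →L[ℝ] C(KK, ℝ))
    (J : C(unitInterval, ℝ) →L[ℝ] C(unitInterval, ℝ)) (c : ℝ) (hc : 0 < c)
    (hJ : ∀ f, c * ‖f‖ ≤ ‖EK (TT (R (J f)))‖) : False := by
  obtain ⟨ED, hED⟩ := exists_ext iotaC iotaC_injective
  set r : ℕ → C(unitInterval, ℝ) := fun m => ED (rad m) with hr
  set φ : ℕ → C(KK, ℝ) := fun m => R (J (r m)) with hφ
  set B : ℝ := ‖R‖ * (‖J‖ * ‖ED‖) with hBdef
  have hB : ∀ m, ‖φ m‖ ≤ B := by
    intro m
    have h1 : ‖ED (rad m)‖ ≤ ‖ED‖ := by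
      calc ‖ED (rad m)‖ ≤ ‖ED‖ * ‖rad m‖ := ED.le_opNorm _
        _ ≤ ‖ED‖ * 1 := mul_le_mul_of_nonneg_left (norm_rad_le m) ED.opNorm_nonneg
        _ = ‖ED‖ := mul_one _
    calc ‖φ m‖ ≤ ‖R‖ * ‖J (r m)‖ := R.le_opNorm _
      _ ≤ ‖R‖ * (‖J‖ * ‖r m‖) := mul_le_mul_of_nonneg_left (J.le_opNorm _) R.opNorm_nonneg
      _ ≤ ‖R‖ * (‖J‖ * ‖ED‖) := by
          apply mul_le_mul_of_nonneg_left _ R.opNorm_nonneg
          exact mul_le_mul_of_nonneg_left h1 J.opNorm_nonneg
  obtain ⟨s, hs, hlim⟩ := TT_subseq φ B hB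
  set h : ℕ → C(KK, ℝ) := fun i => TT (φ (s (2 * i)) - φ (s (2 * i + 1))) with hh
  have hhB : ∀ i x, |h i x| ≤ ‖TT‖ * (B + B) := by
    intro i x
    calc |h i x| ≤ ‖h i‖ := (h i).norm_coe_le_norm x
      _ ≤ ‖TT‖ * ‖φ (s (2 * i)) - φ (s (2 * i + 1))‖ := TT.le_opNorm _
      _ ≤ ‖TT‖ * (B + B) := by
          apply mul_le_mul_of_nonneg_left _ TT.opNorm_nonneg
          exact (norm_sub_le _ _).trans (add_le_add (hB _) (hB _))
  have hEK := EK.opNorm_nonneg
  obtain ⟨w, hw0, hw1, hw⟩ := mazur h _ hhB hlim (ε := c / (‖EK‖ + 1)) (by positivity)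
  set g : C(unitInterval, ℝ) := w.sum (fun i a => a • (r (s (2 * i)) - r (s (2 * i + 1)))) with hg
  -- the norm of `g` is at least 2
  have hg2 : 2 ≤ ‖g‖ := by
    classical
    set b : ℕ → Bool := fun n => decide (∃ i, n = s (2 * i)) with hb
    have hb1 : ∀ i, b (s (2 * i)) = true := by
      intro i
      simp only [hb, decide_eq_true_eq]
      exact ⟨i, rfl⟩
    have hb2 : ∀ i, b (s (2 * i + 1)) = false := by
      intro i
      simp only [hb, decide_eq_false_iff_not]
      rintro ⟨j, hj⟩
      have := hs.injective hj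
      omega
    have h1 : g (iotaC b) = 2 := by
      rw [hg, Finsupp.sum, ContinuousMap.coe_sum, Finset.sum_apply]
      have h2 : ∀ i ∈ w.support, (w i • (r (s (2 * i)) - r (s (2 * i + 1)))) (iotaC b) = w i * 2 := by
        intro i _
        rw [ContinuousMap.smul_apply, ContinuousMap.sub_apply, smul_eq_mul, hr]
        simp only
        rw [hED, hED]
        show w i * ((if b (s (2 * i)) = true then (1 : ℝ) else -1) -
          (if b (s (2 * i + 1)) = true then (1 : ℝ) else -1)) = w i * 2
        rw [hb1, hb2]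
        norm_num
      rw [Finset.sum_congr rfl h2, ← Finset.sum_mul]
      have h3 : ∑ i ∈ w.support, w i = 1 := hw1
      rw [h3]; norm_num
    have h4 := g.norm_coe_le_norm (iotaC b)
    rw [h1] at h4
    simpa using h4
  -- the image of `g` is small
  have himg : TT (R (J g)) = w.sum (fun i a => a • h i) := by
    rw [hg, Finsupp.sum, map_sum, map_sum, map_sum, Finsupp.sum]
    refine Finset.sum_congr rfl fun i _ => ?_
    rw [map_smul, map_smul, map_smul]
    congr 1
    rw [hh, hφ]
    simp only [map_sub]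
  have hsmall : ‖TT (R (J g))‖ ≤ c / (‖EK‖ + 1) := by
    rw [himg]
    refine (ContinuousMap.norm_le _ (by positivity)).2 fun x => ?_
    rw [Finsupp.sum, ContinuousMap.coe_sum, Finset.sum_apply, Real.norm_eq_abs]
    calc |∑ i ∈ w.support, (w i • h i) x| ≤ ∑ i ∈ w.support, |(w i • h i) x| :=
          Finset.abs_sum_le_sum_abs _ _
      _ = ∑ i ∈ w.support, w i * |h i x| := by
          refine Finset.sum_congr rfl fun i _ => ?_
          rw [ContinuousMap.smul_apply, smul_eq_mul, abs_mul, abs_of_nonneg (hw0 i)]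
      _ ≤ c / (‖EK‖ + 1) := (hw x).le
  have h1 := hJ g
  have h2 : ‖EK (TT (R (J g)))‖ ≤ ‖EK‖ * (c / (‖EK‖ + 1)) :=
    (EK.le_opNorm _).trans (mul_le_mul_of_nonneg_left hsmall hEK)
  have h3 : ‖EK‖ * (c / (‖EK‖ + 1)) ≤ c := by
    rw [← mul_div_assoc, div_le_iff₀ (by positivity)]
    nlinarith
  nlinarith

end Pool.Agent.H45.Ros
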