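import Pool.Agent.H45.RosComb

/-!
The compact space of tree codes, the thinning maps and the averaging operator (MP_d027bf_an).
-/

set_option autoImplicit false

open MeasureTheory Filter Topology

namespace Pool.Agent.H45.Ros

/-- The carrier of a point of the Cantor cube. -/
def car (A : V → Bool) : Set V := {p | A p = true}

/-- The compact space of cliques. -/
def KK : Set (V → Bool) := {A | IsCl (car A)}

lemma mem_KK_iff (A : V → Bool) : A ∈ KK ↔ ∀ p q, A p = true → A q = true →
    (Valid p.2 ∧ (p.1 = q.1 → p = q) ∧ (p.1 < q.1 → Good p.2 q.2)) := by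
  constructor
  · intro h p q hp hq
    exact ⟨h.valid p hp, h.uniq p hp q hq, h.good p hp q hq⟩
  · intro h
    exact ⟨fun p hp => (h p p hp hp).1, fun p hp q hq => (h p q hp hq).2.1,
      fun p hp q hq => (h p q hp hq).2.2⟩

lemma isClosed_KK : IsClosed KK := by
  have : KK = ⋂ (p : V) (q : V), {A | A p = true → A q = true →
    (Valid p.2 ∧ (p.1 = q.1 → p = q) ∧ (p.1 < q.1 → Good p.2 q.2))} := by
    ext A
    simp only [mem_KK_iff, Set.mem_iInter, Set.mem_ofPred_eq]
  rw [this]
  refine isClosed_iInter fun p => isClosed_iInter fun q => ?_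
  by_cases h : Valid p.2 ∧ (p.1 = q.1 → p = q) ∧ (p.1 < q.1 → Good p.2 q.2)
  · convert isClosed_univ
    ext A
    exact ⟨fun _ => trivial, fun _ _ _ => h⟩
  · have : {A : V → Bool | A p = true → A q = true →
        (Valid p.2 ∧ (p.1 = q.1 → p = q) ∧ (p.1 < q.1 → Good p.2 q.2))} =
        {A | A p = true ∧ A q = true}ᶜ := by
      ext A
      simp only [Set.mem_ofPred_eq, Set.mem_compl_iff, not_and]
      constructor
      · intro h1 h2 h3
        exact h (h1 h2 h3)
      · intro h1 h2 h3
        exact absurd h3 (h1 h2)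
    rw [this]
    apply IsOpen.isClosed_compl
    apply IsOpen.inter
    · exact (isOpen_discrete ({true} : Set Bool)).preimage (continuous_apply (A := fun _ : V => Bool) p)
    · exact (isOpen_discrete ({true} : Set Bool)).preimage (continuous_apply (A := fun _ : V => Bool) q)

instance : CompactSpace KK := isCompact_iff_compactSpace.1 isClosed_KK.isCompact

/-- The point of `KK` given by a clique. -/
noncomputable def toK (A : Set V) (hA : IsCl A) : KK := by
  classical
  exact ⟨fun p => decide (p ∈ A), by
    have : car (fun p => decide (p ∈ A)) = A := by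
      ext p; simp [car]
    rw [KK, Set.mem_ofPred_eq, this]
    exact hA⟩

@[simp] lemma car_toK (A : Set V) (hA : IsCl A) : car (toK A hA).1 = A := by
  classical
  ext p
  simp [car, toK]

lemma finite_codes (I : ℕ) : ∀ d : ℕ,
    {S : Code | Valid S ∧ ∀ a ∈ S, I ≤ a.1 + d ∧ a.1 < I}.Finite := by
  intro d
  induction d with
  | zero =>
    apply (Set.finite_singleton ([] : Code)).subset
    rintro S ⟨_, h⟩
    rw [Set.mem_singleton_iff]
    match S, h with
    | [], _ => rfl
    | a :: S, h =>
      have := h a (by simp)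
      omega
  | succ d ih =>
    have hT : (Set.Iio I ×ˢ Set.Iio (2 ^ (I + 2)) : Set (ℕ × ℕ)).Finite :=
      (Set.finite_Iio I).prod (Set.finite_Iio _)
    apply ((Set.finite_singleton ([] : Code)).union (hT.image2 List.cons ih)).subset
    rintro S ⟨hv, h⟩
    match S, hv, h with
    | [], _, _ => exact Or.inl rfl
    | a :: S, hv, h =>
      right
      refine ⟨a, ?_, S, ⟨hv.tail, ?_⟩, rfl⟩
      · have h1 := h a (by simp)
        refine ⟨h1.2, ?_⟩
        have h2 := hv.2 a (by simp)
        have h3 : 2 ^ (a.1 + 2) ≤ 2 ^ (I + 2) := Nat.pow_le_pow_right (by norm_num) (by omega)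
        exact h2.trans_le h3
      · intro b hb
        have h1 := h a (by simp)
        have h2 := h b (by simp [hb])
        have h3 := hv.lt_of_mem hb
        omega

lemma finite_heavy {ε : ℝ} (hε : 0 < ε) : {S : Code | Valid S ∧ ε ≤ wt S}.Finite := by
  obtain ⟨J, hJ⟩ := exists_pow_lt_of_lt_one hε (show (1 : ℝ) / 2 < 1 by norm_num)
  apply (finite_codes J J).subset
  rintro S ⟨hv, h⟩
  refine ⟨hv, fun a ha => ⟨by omega, ?_⟩⟩
  by_contra hcon
  push Not at hcon
  have h1 := wt_le_of_mem S a ha
  have h2 : ((1 : ℝ) / 2) ^ (a.1 + 1) ≤ (1 / 2) ^ J :=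
    pow_le_pow_of_le_one (by norm_num) (by norm_num) (by omega)
  linarith

lemma continuous_ev (n : ℕ) : Continuous (fun A : KK => ev n (car A.1)) := by
  rw [continuous_iff_continuousAt]
  intro A
  rw [Metric.continuousAt_iff']
  intro ε hε
  by_cases h : ∃ S, (n, S) ∈ car A.1
  · obtain ⟨S, hS⟩ := h
    have : ∀ᶠ B : KK in 𝓝 A, B.1 (n, S) = true := by
      have hc : Continuous (fun B : KK => B.1 (n, S)) := (continuous_apply _).comp continuous_subtype_val
      exact (hc.continuousAt (x := A)).eventually ((isOpen_discrete ({true} : Set Bool)).mem_nhds hS)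
    filter_upwards [this] with B hB
    rw [ev_of_mem B.2 hB, ev_of_mem A.2 hS, dist_self]
    exact hε
  · push Not at h
    have hfin := finite_heavy hε
    have : ∀ᶠ B : KK in 𝓝 A, ∀ S ∈ {S : Code | Valid S ∧ ε ≤ wt S}, B.1 (n, S) = false := by
      rw [eventually_all_finite hfin]
      intro S _
      have hc : Continuous (fun B : KK => B.1 (n, S)) := (continuous_apply _).comp continuous_subtype_val
      have hS : A.1 (n, S) = false := by
        have := h S
        simpa [car] using this
      exact (hc.continuousAt (x := A)).eventually ((isOpen_discrete ({false} : Set Bool)).mem_nhds hS)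
    filter_upwards [this] with B hB
    rw [ev_of_notMem h, dist_zero_right, Real.norm_eq_abs, abs_of_nonneg (ev_nonneg _ _)]
    by_cases h' : ∃ S, (n, S) ∈ car B.1
    · obtain ⟨S, hS⟩ := h'
      rw [ev_of_mem B.2 hS]
      by_contra hcon
      push Not at hcon
      have := hB S ⟨B.2.valid _ hS, hcon⟩
      rw [show B.1 (n, S) = true from hS] at this
      exact absurd this (by simp)
    · push Not at h'
      rw [ev_of_notMem h']
      exact hε

/-- The basis of the space. -/
noncomputable def ee (n : ℕ) : C(KK, ℝ) := ⟨fun A => ev n (car A.1), continuous_ev n⟩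

@[simp] lemma ee_apply (n : ℕ) (A : KK) : ee n A = ev n (car A.1) := rfl

/-- The space `X`. -/
noncomputable def XX : Submodule ℝ C(KK, ℝ) := (Submodule.span ℝ (Set.range ee)).topologicalClosure

/-- Lifting a code. -/
def lift (b : ℕ → Bool) (S : Code) : Code := S.map (fun a => (a.1 + 1, 2 * a.2 + (b a.1).toNat))

@[simp] lemma lift_nil (b : ℕ → Bool) : lift b [] = [] := rfl

@[simp] lemma lift_cons (b : ℕ → Bool) (a : ℕ × ℕ) (S : Code) :
    lift b (a :: S) = (a.1 + 1, 2 * a.2 + (b a.1).toNat) :: lift b S := rfl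

lemma toNat_le (c : Bool) : c.toNat ≤ 1 := by cases c <;> simp

lemma lift_injective (b : ℕ → Bool) : Function.Injective (lift b) := by
  intro S
  induction S with
  | nil => intro S' h; cases S' with
    | nil => rfl
    | cons a S' => simp at h
  | cons a S ih =>
    intro S' h
    cases S' with
    | nil => simp at h
    | cons a' S' =>
      rw [lift_cons, lift_cons] at h
      have h1 := (List.cons.inj h).1
      have h2 := (List.cons.inj h).2
      have h3 := (Prod.mk.inj h1).1
      have h4 := (Prod.mk.inj h1).2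
      have h5 : a.1 = a'.1 := by omega
      rw [h5] at h4
      have h6 : a.2 = a'.2 := by omega
      rw [ih h2, Prod.ext h5 h6]

lemma mem_lift {b : ℕ → Bool} {S : Code} {a : ℕ × ℕ} (ha : a ∈ S) :
    (a.1 + 1, 2 * a.2 + (b a.1).toNat) ∈ lift b S :=
  List.mem_map.2 ⟨a, ha, rfl⟩

lemma valid_of_lift {b : ℕ → Bool} {S : Code} (h : Valid (lift b S)) : Valid S := by
  constructor
  · have h1 := h.1
    rw [lift, List.pairwise_map] at h1
    exact h1.imp (by intro a c hac; simp only at hac; omega)
  · intro a ha
    have h1 := h.2 _ (mem_lift (b := b) ha)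
    simp only at h1
    have h2 : 2 ^ (a.1 + 1 + 2) = 2 * 2 ^ (a.1 + 2) := by ring
    omega

lemma good_of_lift {b : ℕ → Bool} : ∀ {S S' : Code}, Good (lift b S) (lift b S') → Good S S'
  | [], S', h => absurd h (not_good_nil_left _)
  | a :: S, [], h => absurd h (not_good_nil_right _)
  | a :: S, a' :: S', h => by
    rw [lift_cons, lift_cons, good_cons_iff] at h
    rw [good_cons_iff]
    obtain ⟨h1, h2⟩ := h
    simp only at h1 h2
    have h5 : a.1 = a'.1 := by omega
    refine ⟨h5, ?_⟩
    rw [h5] at h2
    rcases h2 with h2 | h2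
    · exact Or.inl ⟨by omega, good_of_lift h2.2⟩
    · refine Or.inr ⟨by omega, ?_⟩
      intro x hx y hy
      have := h2.2 _ (mem_lift (b := b) hx) _ (mem_lift (b := b) hy)
      simp only at this
      omega

/-- The thinning of a set of vertices. -/
def thin (b : ℕ → Bool) (A : Set V) : Set V := {p | (p.1, lift b p.2) ∈ A}

lemma IsCl.thin {A : Set V} (hA : IsCl A) (b : ℕ → Bool) : IsCl (thin b A) := by
  constructor
  · intro p hp
    exact valid_of_lift (hA.valid _ hp)
  · intro p hp q hq h
    have := hA.uniq _ hp _ hq h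
    exact Prod.ext h (lift_injective b (Prod.mk.inj this).2)
  · intro p hp q hq h
    exact good_of_lift (hA.good _ hp _ hq h)

/-- The thinning as a map of `KK`. -/
def th (b : ℕ → Bool) (A : KK) : KK := ⟨fun p => A.1 (p.1, lift b p.2), A.2.thin b⟩

lemma car_th (b : ℕ → Bool) (A : KK) : car (th b A).1 = thin b (car A.1) := rfl

lemma continuous_th_right (b : ℕ → Bool) : Continuous (th b) := by
  refine Continuous.subtype_mk ?_ _
  exact continuous_pi fun p => (continuous_apply _).comp continuous_subtype_val

lemma isLocallyConstant_lift (S : Code) : IsLocallyConstant (fun b : ℕ → Bool => lift b S) := by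
  induction S with
  | nil => exact IsLocallyConstant.const _
  | cons a S ih =>
    have h1 : IsLocallyConstant (fun b : ℕ → Bool => b a.1) :=
      (IsLocallyConstant.iff_continuous _).2 (continuous_apply _)
    exact h1.comp₂ ih (fun c T => (a.1 + 1, 2 * a.2 + c.toNat) :: T)

lemma continuous_th_left (A : KK) : Continuous (fun b => th b A) := by
  refine Continuous.subtype_mk ?_ _
  exact continuous_pi fun p => ((isLocallyConstant_lift p.2).comp (fun T => A.1 (p.1, T))).continuous

/-- The fair coin. -/
noncomputable def coin : Measure Bool := (PMF.uniformOfFintype Bool).toMeasure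

instance : IsProbabilityMeasure coin := by unfold coin; infer_instance

lemma coin_singleton (c : Bool) : coin {c} = 2⁻¹ := by
  unfold coin
  rw [PMF.toMeasure_apply_singleton _ _ (measurableSet_singleton c)]
  simp

/-- The product measure on bits. -/
noncomputable def bits : Measure (ℕ → Bool) := Measure.infinitePi (fun _ : ℕ => coin)

instance : IsProbabilityMeasure bits := by unfold bits; infer_instance

/-- `b` matches `P`: `P` is a lift along `b`. -/
def Mat (b : ℕ → Bool) (P : Code) : Prop := ∃ Q, lift b Q = P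

lemma mat_iff {b : ℕ → Bool} {P : Code} :
    Mat b P ↔ ∀ a ∈ P, 1 ≤ a.1 ∧ a.2 % 2 = (b (a.1 - 1)).toNat := by
  constructor
  · rintro ⟨Q, rfl⟩ a ha
    obtain ⟨q, _, rfl⟩ := List.mem_map.1 ha
    have := toNat_le (b q.1)
    refine ⟨by simp, ?_⟩
    simp only [Nat.add_sub_cancel]
    omega
  · induction P with
    | nil => intro _; exact ⟨[], rfl⟩
    | cons a P ih =>
      intro h
      obtain ⟨Q, hQ⟩ := ih (fun c hc => h c (by simp [hc]))
      obtain ⟨h1, h2⟩ := h a (by simp)
      refine ⟨(a.1 - 1, a.2 / 2) :: Q, ?_⟩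
      rw [lift_cons, hQ]
      congr 1
      refine Prod.ext ?_ ?_
      · simp only; omega
      · simp only; omega

lemma Valid.eq_of_fst {P : Code} (hP : Valid P) {a a' : ℕ × ℕ} (ha : a ∈ P) (ha' : a' ∈ P)
    (h : a.1 = a'.1) : a = a' := by
  induction P with
  | nil => simp at ha
  | cons c P ih =>
    rcases List.mem_cons.1 ha with rfl | ha1
    · rcases List.mem_cons.1 ha' with rfl | ha1'
      · rfl
      · have := hP.lt_of_mem ha1'
        omega
    · rcases List.mem_cons.1 ha' with rfl | ha1'
      · have := hP.lt_of_mem ha1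
        omega
      · exact ih hP.tail ha1 ha1'

/-- The measure of the matching event. -/
lemma bits_mat {P : Code} (hP : Valid P) (h1 : ∀ a ∈ P, 1 ≤ a.1) :
    bits {b | Mat b P} = 2⁻¹ ^ P.length := by
  classical
  set F : Finset ℕ := (P.map (fun a => a.1 - 1)).toFinset with hF
  set c : ℕ → Bool := fun i => decide (∃ a ∈ P, a.1 - 1 = i ∧ a.2 % 2 = 1) with hc
  have hinj : ∀ a ∈ P, ∀ a' ∈ P, a.1 - 1 = a'.1 - 1 → a = a' := by
    intro a ha a' ha' h
    have h2 := h1 a ha
    have h3 := h1 a' ha'
    exact hP.eq_of_fst ha ha' (by omega)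
  have hset : {b : ℕ → Bool | Mat b P} = Set.pi F (fun i => {c i}) := by
    ext b
    rw [Set.mem_ofPred_eq, mat_iff, Set.mem_pi]
    have hca : ∀ a ∈ P, (c (a.1 - 1)).toNat = a.2 % 2 := by
      intro a ha
      by_cases h : a.2 % 2 = 1
      · have : c (a.1 - 1) = true := by
          rw [hc]
          simp only [decide_eq_true_eq]
          exact ⟨a, ha, rfl, h⟩
        rw [this, h]; rfl
      · have : c (a.1 - 1) = false := by
          rw [hc]
          simp only [decide_eq_false_iff_not]
          rintro ⟨a', ha', h2, h3⟩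
          rw [hinj a' ha' a ha h2] at h3
          exact h h3
        rw [this]
        simp only [Bool.toNat_false]
        omega
    constructor
    · intro h i hi
      rw [hF, List.coe_toFinset, Set.mem_ofPred_eq, List.mem_map] at hi
      obtain ⟨a, ha, rfl⟩ := hi
      rw [Set.mem_singleton_iff]
      have h2 := (h a ha).2
      rw [← hca a ha] at h2
      revert h2
      cases c (a.1 - 1) <;> cases b (a.1 - 1) <;> simp
    · intro h a ha
      refine ⟨h1 a ha, ?_⟩
      have h2 := h (a.1 - 1) (by
        rw [hF, List.coe_toFinset, Set.mem_ofPred_eq, List.mem_map]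
        exact ⟨a, ha, rfl⟩)
      rw [Set.mem_singleton_iff] at h2
      rw [h2, hca a ha]
  rw [hset, bits, Measure.infinitePi_pi _ (fun i _ => measurableSet_singleton _)]
  simp only [coin_singleton, Finset.prod_const]
  congr 1
  rw [hF, List.toFinset_card_of_nodup, List.length_map]
  apply List.Nodup.map_on
  · intro a ha a' ha' h
    exact hinj a ha a' ha' h
  · exact hP.1.imp (by intro a b h hab; rw [hab] at h; exact lt_irrefl _ h)

lemma bits_mat_le {P : Code} (hP : Valid P) : bits {b | Mat b P} ≤ 2⁻¹ ^ P.length := by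
  by_cases h : ∀ a ∈ P, 1 ≤ a.1
  · exact (bits_mat hP h).le
  · have : {b : ℕ → Bool | Mat b P} = ∅ := by
      ext b
      rw [Set.mem_ofPred_eq, mat_iff]
      constructor
      · intro h2
        exact absurd (fun a ha => (h2 a ha).1) h
      · intro h2
        exact absurd h2 (Set.notMem_empty _)
    rw [this, measure_empty]
    exact zero_le

lemma wt_lift (b : ℕ → Bool) (Q : Code) : wt Q = 2 ^ Q.length * wt (lift b Q) := by
  induction Q with
  | nil => simp
  | cons a Q ih =>
    rw [lift_cons, wt_cons, wt_cons, List.length_cons, ih]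
    have : ((1 : ℝ) / 2) ^ (a.1 + 1 + 1) * 2 = (1 / 2) ^ (a.1 + 1) := by
      rw [pow_succ]; ring
    simp only
    rw [← this]
    ring

lemma length_lift (b : ℕ → Bool) (Q : Code) : (lift b Q).length = Q.length := by
  simp [lift]

/-- Averaging over the bits preserves the coordinate functionals. -/
lemma integral_ev_thin {A : Set V} (hA : IsCl A) (h1 : ∀ p ∈ A, ∀ a ∈ p.2, 1 ≤ a.1) (n : ℕ) :
    ∫ b, ev n (thin b A) ∂bits = ev n A := by
  by_cases h : ∃ S, (n, S) ∈ A
  · obtain ⟨S, hS⟩ := h
    have hmeas : MeasurableSet {b : ℕ → Bool | Mat b S} := by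
      have : {b : ℕ → Bool | Mat b S} =
          ⋂ a ∈ S, {b : ℕ → Bool | 1 ≤ a.1 ∧ a.2 % 2 = (b (a.1 - 1)).toNat} := by
        ext b
        simp only [Set.mem_ofPred_eq, mat_iff, Set.mem_iInter]
      rw [this]
      refine MeasurableSet.biInter (Set.to_countable {a | a ∈ S}) fun a _ => ?_
      have h2 : Measurable (fun b : ℕ → Bool => b (a.1 - 1)) := measurable_pi_apply _
      exact h2 (MeasurableSet.of_discrete (s := {c : Bool | 1 ≤ a.1 ∧ a.2 % 2 = c.toNat}))
    have hfun : (fun b => ev n (thin b A)) =
        Set.indicator {b : ℕ → Bool | Mat b S} (fun _ => 2 ^ S.length * wt S) := by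
      funext b
      by_cases hb : Mat b S
      · rw [Set.indicator_of_mem (show b ∈ {b : ℕ → Bool | Mat b S} from hb)]
        obtain ⟨Q, hQ⟩ := hb
        have hmem : ((n, Q) : V) ∈ thin b A := by
          show (n, lift b Q) ∈ A
          rw [hQ]; exact hS
        rw [ev_of_mem (hA.thin b) hmem, wt_lift b Q, hQ, ← length_lift b Q, hQ]
      · rw [Set.indicator_of_notMem (show b ∉ {b : ℕ → Bool | Mat b S} from hb)]
        apply ev_of_notMem
        intro Q hQ
        apply hb
        have h2 := hA.uniq _ hQ _ hS rfl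
        exact ⟨Q, (Prod.mk.inj h2).2⟩
    rw [hfun, integral_indicator hmeas, setIntegral_const, ev_of_mem hA hS, Measure.real,
      bits_mat (hA.valid _ hS) (h1 _ hS), smul_eq_mul]
    rw [ENNReal.toReal_pow, ENNReal.toReal_inv]
    simp only [ENNReal.toReal_ofNat]
    rw [← mul_assoc, ← mul_pow]
    norm_num
  · push Not at h
    rw [ev_of_notMem h]
    have : (fun b => ev n (thin b A)) = fun _ => 0 := by
      funext b
      apply ev_of_notMem
      intro Q hQ
      exact h _ hQ
    rw [this]
    simp

/-- The averaging operator. -/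
noncomputable def TT : C(KK, ℝ) →L[ℝ] C(KK, ℝ) := by
  have hmeas : ∀ (φ : C(KK, ℝ)) (A : KK), AEStronglyMeasurable (fun b => φ (th b A)) bits :=
    fun φ A => (φ.continuous.comp (continuous_th_left A)).aestronglyMeasurable
  have hint : ∀ (φ : C(KK, ℝ)) (A : KK), Integrable (fun b => φ (th b A)) bits := by
    intro φ A
    refine Integrable.of_bound (hmeas φ A) ‖φ‖ (Eventually.of_forall fun b => φ.norm_coe_le_norm _)
  exact LinearMap.mkContinuous
    { toFun := fun φ => ⟨fun A => ∫ b, φ (th b A) ∂bits, by
        refine continuous_of_dominated (bound := fun _ => ‖φ‖) (hmeas φ) ?_ ?_ ?_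
        · intro A
          exact Eventually.of_forall fun b => φ.norm_coe_le_norm _
        · exact integrable_const _
        · exact Eventually.of_forall fun b => φ.continuous.comp (continuous_th_right b)⟩
      map_add' := by
        intro φ ψ
        ext A
        exact integral_add (hint φ A) (hint ψ A)
      map_smul' := by
        intro c φ
        ext A
        exact integral_const_mul c _ } 1 (by
        intro φ
        rw [one_mul]
        refine (ContinuousMap.norm_le _ (norm_nonneg _)).2 fun A => ?_
        have := norm_integral_le_of_norm_le_const (μ := bits) (f := fun b => φ (th b A)) (C := ‖φ‖)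
          (Eventually.of_forall fun b => φ.norm_coe_le_norm _)
        simpa using this)

lemma TT_apply (φ : C(KK, ℝ)) (A : KK) : TT φ A = ∫ b, φ (th b A) ∂bits := rfl

lemma TT_ee (n : ℕ) (A : KK) (h1 : ∀ p ∈ car A.1, ∀ a ∈ p.2, 1 ≤ a.1) : TT (ee n) A = ee n A := by
  rw [TT_apply]
  exact integral_ev_thin A.2 h1 n

/-- Elements of the span are of the form `∑ x n • ee n`. -/
lemma mem_span_iff {f : C(KK, ℝ)} (hf : f ∈ Submodule.span ℝ (Set.range ee)) :
    ∃ (x : ℕ → ℝ) (N : ℕ), f = ∑ n ∈ Finset.range N, x n • ee n := by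
  rw [Finsupp.mem_span_range_iff_exists_finsupp] at hf
  obtain ⟨c, rfl⟩ := hf
  obtain ⟨N, hN⟩ := c.support.exists_nat_subset_range
  refine ⟨c, N, ?_⟩
  rw [Finsupp.sum]
  apply Finset.sum_subset hN
  intro n _ hn
  rw [Finsupp.notMem_support_iff.1 hn, zero_smul]

lemma sum_ee_apply (x : ℕ → ℝ) (F : Finset ℕ) (A : KK) :
    (∑ n ∈ F, x n • ee n) A = val x F (car A.1) := by
  rw [ContinuousMap.coe_sum, Finset.sum_apply]
  rfl

/-- The operator is bounded below on `XX`. -/
lemma TT_lower {f : C(KK, ℝ)} (hf : f ∈ XX) : ‖f‖ ≤ 2 * ‖TT f‖ := by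
  have hcl : IsClosed {f : C(KK, ℝ) | ‖f‖ ≤ 2 * ‖TT f‖} :=
    isClosed_le continuous_norm (continuous_const.mul (continuous_norm.comp TT.continuous))
  have hsub : (Submodule.span ℝ (Set.range ee) : Set C(KK, ℝ)) ⊆ {f : C(KK, ℝ) | ‖f‖ ≤ 2 * ‖TT f‖} := by
    intro f hf
    obtain ⟨x, N, rfl⟩ := mem_span_iff hf
    rw [Set.mem_ofPred_eq]
    refine (ContinuousMap.norm_le _ (by positivity)).2 fun A => ?_
    rw [sum_ee_apply, Real.norm_eq_abs]
    apply val_le_two x _ _ _ A.2
    intro B hB hB1
    have h1 : TT (∑ n ∈ Finset.range N, x n • ee n) (toK B hB) = val x (Finset.range N) B := by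
      rw [map_sum, ContinuousMap.coe_sum, Finset.sum_apply, val]
      refine Finset.sum_congr rfl fun n _ => ?_
      rw [map_smul, ContinuousMap.smul_apply, TT_ee n _ (by rw [car_toK]; exact hB1), ee_apply,
        car_toK, smul_eq_mul]
    rw [← h1]
    exact (TT (∑ n ∈ Finset.range N, x n • ee n)).norm_coe_le_norm _
  exact hcl.closure_subset_iff.2 hsub hf

end Pool.Agent.H45.Ros
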