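import Pool.Agent.H45.Compress

/-!
# An invertible operator that is not joined to the identity

On the Banach space `c₀ × ℓ²` the operator that shifts forward on `c₀` and backward on `ℓ²` is
invertible, and is not joined to the identity by a path of invertible operators.
-/

set_option autoImplicit false

open Topology Filter Set

namespace Pool.Agent.H45

/-- The space of null sequences. -/
noncomputable def Czero : Type := ZeroAtInftyContinuousMap ℕ ℂ

noncomputable instance : NormedAddCommGroup Czero :=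
  inferInstanceAs (NormedAddCommGroup (ZeroAtInftyContinuousMap ℕ ℂ))

noncomputable instance : NormedSpace ℂ Czero :=
  inferInstanceAs (NormedSpace ℂ (ZeroAtInftyContinuousMap ℕ ℂ))

instance : CompleteSpace Czero :=
  inferInstanceAs (CompleteSpace (ZeroAtInftyContinuousMap ℕ ℂ))

/-- The entries of a null sequence. -/
noncomputable def Czero.fn (x : Czero) : ℕ → ℂ := fun n => (show ZeroAtInftyContinuousMap ℕ ℂ from x) n

/-- The space of square summable sequences. -/
def Ltwo : Type := lp (fun _ : ℕ => ℂ) 2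

noncomputable instance : NormedAddCommGroup Ltwo :=
  inferInstanceAs (NormedAddCommGroup (lp (fun _ : ℕ => ℂ) 2))

noncomputable instance : InnerProductSpace ℂ Ltwo :=
  inferInstanceAs (InnerProductSpace ℂ (lp (fun _ : ℕ => ℂ) 2))

instance : CompleteSpace Ltwo :=
  inferInstanceAs (CompleteSpace (lp (fun _ : ℕ => ℂ) 2))

/-- The entries of a square summable sequence. -/
def Ltwo.fn (x : Ltwo) : ℕ → ℂ := fun n => (show lp (fun _ : ℕ => ℂ) 2 from x) n

/-- Prepending an entry. -/
def prep (a : ℂ) (x : ℕ → ℂ) : ℕ → ℂ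
  | 0 => a
  | n + 1 => x n

lemma prep_zero (a : ℂ) (x : ℕ → ℂ) : prep a x 0 = a := rfl

lemma prep_succ (a : ℂ) (x : ℕ → ℂ) (n : ℕ) : prep a x (n + 1) = x n := rfl

section Czero

lemma Czero.ext {x y : Czero} (h : ∀ n, x.fn n = y.fn n) : x = y :=
  ZeroAtInftyContinuousMap.ext h

/-- A null sequence as an element of `c₀`. -/
def c0mk (f : ℕ → ℂ) (hf : Tendsto f atTop (𝓝 0)) : Czero :=
  show ZeroAtInftyContinuousMap ℕ ℂ from
  { toFun := f
    continuous_toFun := continuous_of_discreteTopology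
    zero_at_infty' := by
      rw [Filter.cocompact_eq_cofinite, Nat.cofinite_eq_atTop]; exact hf }

lemma c0mk_fn (f : ℕ → ℂ) (hf : Tendsto f atTop (𝓝 0)) (n : ℕ) : (c0mk f hf).fn n = f n := rfl

lemma Czero.add_fn (x y : Czero) (n : ℕ) : (x + y).fn n = x.fn n + y.fn n := rfl

lemma Czero.sub_fn (x y : Czero) (n : ℕ) : (x - y).fn n = x.fn n - y.fn n := rfl

lemma Czero.smul_fn (c : ℂ) (x : Czero) (n : ℕ) : (c • x).fn n = c * x.fn n := rfl

lemma Czero.zero_fn (n : ℕ) : (0 : Czero).fn n = 0 := rfl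

lemma c0_tendsto (x : Czero) : Tendsto x.fn atTop (𝓝 0) := by
  have := (show ZeroAtInftyContinuousMap ℕ ℂ from x).zero_at_infty'
  rw [Filter.cocompact_eq_cofinite, Nat.cofinite_eq_atTop] at this
  exact this

lemma c0_norm_le {x : Czero} {C : ℝ} (hC : 0 ≤ C) : ‖x‖ ≤ C ↔ ∀ n, ‖x.fn n‖ ≤ C :=
  BoundedContinuousFunction.norm_le (f := (show ZeroAtInftyContinuousMap ℕ ℂ from x).toBCF) hC

lemma c0_norm_apply_le (x : Czero) (n : ℕ) : ‖x.fn n‖ ≤ ‖x‖ :=
  (c0_norm_le (norm_nonneg x)).1 le_rfl n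

lemma tendsto_prep (a : ℂ) {x : ℕ → ℂ} (hx : Tendsto x atTop (𝓝 0)) :
    Tendsto (prep a x) atTop (𝓝 0) :=
  (tendsto_add_atTop_iff_nat 1).1 hx

/-- `c₀` is isomorphic to `ℂ × c₀`. -/
noncomputable def alphaLin : Czero ≃ₗ[ℂ] ℂ × Czero where
  toFun x := (x.fn 0, c0mk (fun n => x.fn (n + 1)) ((tendsto_add_atTop_iff_nat 1).2 (c0_tendsto x)))
  map_add' _ _ := rfl
  map_smul' _ _ := rfl
  invFun p := c0mk (prep p.1 p.2.fn) (tendsto_prep _ (c0_tendsto p.2))
  left_inv x := by
    refine Czero.ext fun n => ?_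
    cases n <;> rfl
  right_inv p := Prod.ext rfl (Czero.ext fun _ => rfl)

/-- `c₀` is isomorphic to `ℂ × c₀`. -/
noncomputable def alpha : Czero ≃L[ℂ] ℂ × Czero :=
  alphaLin.toContinuousLinearEquivOfBounds 1 1
    (fun x => by
      rw [one_mul]
      refine max_le (c0_norm_apply_le x 0) ((c0_norm_le (norm_nonneg x)).2 fun n => ?_)
      exact c0_norm_apply_le x (n + 1))
    (fun p => by
      rw [one_mul]
      refine (c0_norm_le (norm_nonneg p)).2 fun n => ?_
      cases n with
      | zero => exact norm_fst_le p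
      | succ n => exact (c0_norm_apply_le p.2 n).trans (norm_snd_le p))

lemma alpha_symm_zero (p : ℂ × Czero) : (alpha.symm p).fn 0 = p.1 := rfl

lemma alpha_symm_succ (p : ℂ × Czero) (n : ℕ) : (alpha.symm p).fn (n + 1) = p.2.fn n := rfl

/-- Truncation of a null sequence. -/
noncomputable def trunc (n : ℕ) : Czero →L[ℂ] Czero :=
  LinearMap.mkContinuous
    { toFun := fun x => c0mk (fun k => if k < n then x.fn k else 0) (by
        refine tendsto_const_nhds.congr' ?_
        filter_upwards [eventually_ge_atTop n] with k hk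
        rw [if_neg (not_lt.2 hk)])
      map_add' := fun x y => by
        refine Czero.ext fun k => ?_
        simp only [c0mk_fn, Czero.add_fn]
        split_ifs <;> simp
      map_smul' := fun c x => by
        refine Czero.ext fun k => ?_
        simp only [c0mk_fn, Czero.smul_fn, RingHom.id_apply]
        split_ifs <;> simp } 1
    (fun x => by
      rw [one_mul]
      refine (c0_norm_le (norm_nonneg x)).2 fun k => ?_
      show ‖if k < n then x.fn k else 0‖ ≤ ‖x‖
      split_ifs
      · exact c0_norm_apply_le x k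
      · simp)

lemma trunc_fn (n : ℕ) (x : Czero) (k : ℕ) : (trunc n x).fn k = if k < n then x.fn k else 0 := rfl

lemma tendsto_trunc (x : Czero) : Tendsto (fun n => trunc n x) atTop (𝓝 x) := by
  rw [tendsto_iff_norm_sub_tendsto_zero, Metric.tendsto_atTop]
  intro ε hε
  obtain ⟨N, hN⟩ := Metric.tendsto_atTop.1 (c0_tendsto x) (ε / 2) (half_pos hε)
  refine ⟨N, fun n hn => ?_⟩
  rw [dist_zero_right, norm_norm]
  refine lt_of_le_of_lt ((c0_norm_le (half_pos hε).le).2 fun k => ?_) (half_lt_self hε)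
  rw [Czero.sub_fn, trunc_fn]
  split_ifs with h
  · rw [sub_self, norm_zero]; positivity
  · rw [zero_sub, norm_neg]
    have := hN k (by omega)
    rw [dist_zero_right] at this
    exact this.le

lemma isCompactOperator_trunc (n : ℕ) : IsCompactOperator (trunc n) := by
  let R : Czero →L[ℂ] (Fin n → ℂ) := LinearMap.mkContinuous
    { toFun := fun x i => x.fn i
      map_add' := fun _ _ => rfl
      map_smul' := fun _ _ => rfl } 1 (fun x => by
        rw [one_mul]
        exact (pi_norm_le_iff_of_nonneg (norm_nonneg x)).2 fun i => c0_norm_apply_le x i)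
  let ι : (Fin n → ℂ) →L[ℂ] Czero := LinearMap.toContinuousLinearMap
    { toFun := fun y => c0mk (fun k => if h : k < n then y ⟨k, h⟩ else 0) (by
        refine tendsto_const_nhds.congr' ?_
        filter_upwards [eventually_ge_atTop n] with k hk
        rw [dif_neg (not_lt.2 hk)])
      map_add' := fun x y => by
        refine Czero.ext fun k => ?_
        simp only [c0mk_fn, Czero.add_fn, Pi.add_apply]
        split_ifs <;> simp
      map_smul' := fun c x => by
        refine Czero.ext fun k => ?_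
        simp only [c0mk_fn, Czero.smul_fn, RingHom.id_apply, Pi.smul_apply, smul_eq_mul]
        split_ifs <;> simp }
  have h : trunc n = ι.comp R := by
    refine ContinuousLinearMap.ext fun x => Czero.ext fun k => ?_
    show (if k < n then x.fn k else 0) = (if h : k < n then x.fn k else 0)
    split_ifs <;> rfl
  rw [h]
  exact (isCompactOperator_of_locallyCompactSpace_rng ι).comp_clm R

lemma exists_compact_near {H : Type*} [NormedAddCommGroup H] [InnerProductSpace ℂ H]
    (c : Czero →L[ℂ] H) {ε : ℝ} (hε : 0 < ε) :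
    ∃ T : Czero →L[ℂ] H, IsCompactOperator T ∧ ‖c - T‖ < ε := by
  set M : ℝ := ‖c‖ with hM
  have hM0 : 0 ≤ M := norm_nonneg c
  rcases hM0.eq_or_lt with hM1 | hM1
  · refine ⟨0, isCompactOperator_zero, ?_⟩
    rw [sub_zero, ← hM, ← hM1]; exact hε
  obtain ⟨r, hr0, hrM, hr⟩ : ∃ r : ℝ, 0 ≤ r ∧ r < M ∧ M ^ 2 - r ^ 2 ≤ (ε / 2) ^ 2 := by
    refine ⟨max 0 (M - (ε / 2) ^ 2 / (2 * M)), le_max_left _ _, max_lt hM1 (by
      have : 0 < (ε / 2) ^ 2 / (2 * M) := by positivity
      linarith), ?_⟩
    set r : ℝ := max 0 (M - (ε / 2) ^ 2 / (2 * M)) with hrdef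
    have h1 : M - r ≤ (ε / 2) ^ 2 / (2 * M) := by
      have := le_max_right 0 (M - (ε / 2) ^ 2 / (2 * M))
      linarith
    have h2 : r ≤ M := max_le hM0 (by
      have : 0 < (ε / 2) ^ 2 / (2 * M) := by positivity
      linarith)
    have h3 : 0 ≤ r := le_max_left _ _
    calc M ^ 2 - r ^ 2 = (M - r) * (M + r) := by ring
      _ ≤ (ε / 2) ^ 2 / (2 * M) * (2 * M) := by
          refine mul_le_mul h1 (by linarith) (by linarith) (by positivity)
      _ = (ε / 2) ^ 2 := by field_simp
  obtain ⟨x, hx1, hxr⟩ := c.exists_lt_apply_of_lt_opNorm (hM ▸ hrM)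
  have hlim : Tendsto (fun n => ‖c (trunc n x)‖) atTop (𝓝 ‖c x‖) :=
    ((c.continuous.tendsto x).comp (tendsto_trunc x)).norm
  obtain ⟨n, hn⟩ := (hlim.eventually (lt_mem_nhds hxr)).exists
  refine ⟨c.comp (trunc n), (isCompactOperator_trunc n).clm_comp c, ?_⟩
  refine lt_of_le_of_lt (ContinuousLinearMap.opNorm_le_of_unit_norm (C := ε / 2) (by positivity) ?_)
    (half_lt_self hε)
  intro z hz
  set x' : Czero := trunc n x with hx'
  set z' : Czero := z - trunc n z with hz'
  have hs : ∀ s : ℂ, ‖s‖ = 1 → ‖c (x' + s • z')‖ ≤ M := by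
    intro s hs
    have h1 : ‖x' + s • z'‖ ≤ 1 := by
      refine (c0_norm_le zero_le_one).2 fun k => ?_
      rw [Czero.add_fn, Czero.smul_fn, hx', hz', Czero.sub_fn, trunc_fn, trunc_fn]
      split_ifs with h
      · rw [sub_self, mul_zero, add_zero]
        exact (c0_norm_apply_le x k).trans hx1.le
      · rw [sub_zero, zero_add, norm_mul, hs, one_mul]
        exact (c0_norm_apply_le z k).trans hz.le
    calc ‖c (x' + s • z')‖ ≤ ‖c‖ * ‖x' + s • z'‖ := c.le_opNorm _
      _ ≤ M * 1 := by gcongr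
      _ = M := mul_one M
  have hplus := hs 1 (by simp)
  have hminus := hs (-1) (by simp)
  rw [one_smul, map_add] at hplus
  rw [neg_one_smul, ← sub_eq_add_neg, map_sub] at hminus
  have hpar := parallelogram_law_with_norm ℂ (c x') (c z')
  have h5 : ‖c z'‖ ^ 2 ≤ (ε / 2) ^ 2 := by
    have e1 : ‖c x' + c z'‖ ^ 2 ≤ M ^ 2 := by gcongr
    have e2 : ‖c x' - c z'‖ ^ 2 ≤ M ^ 2 := by gcongr
    have e3 : r ^ 2 ≤ ‖c x'‖ ^ 2 := by gcongr
    nlinarith
  have h6 : ‖c z'‖ ≤ ε / 2 := by
    have := abs_le_of_sq_le_sq h5 (by positivity)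
    exact (abs_le.1 this).2
  show ‖c z - c (trunc n z)‖ ≤ ε / 2
  rw [← map_sub]
  exact h6

/-- Every operator from `c₀` to a Hilbert space is compact. -/
theorem isCompactOperator_of_hilbert {H : Type*} [NormedAddCommGroup H] [InnerProductSpace ℂ H]
    [CompleteSpace H] (c : Czero →L[ℂ] H) : IsCompactOperator c := by
  have h := fun n : ℕ => exists_compact_near c (ε := 1 / ((n : ℝ) + 1)) Nat.one_div_pos_of_nat
  choose T hT hTn using h
  refine isCompactOperator_of_tendsto (l := atTop) (F := T) ?_ (Eventually.of_forall hT)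
  rw [tendsto_iff_norm_sub_tendsto_zero]
  refine squeeze_zero (fun n => norm_nonneg _) (fun n => ?_) tendsto_one_div_add_atTop_nhds_zero_nat
  rw [norm_sub_rev]
  exact (hTn n).le

end Czero

section Ltwo

lemma Ltwo.ext {x y : Ltwo} (h : ∀ n, x.fn n = y.fn n) : x = y := Subtype.ext (funext h)

lemma two_toReal_pos : 0 < (2 : ENNReal).toReal := by norm_num

lemma l2_summable (x : Ltwo) : Summable fun n => ‖x.fn n‖ ^ 2 := by
  have := (lp.memℓp (show lp (fun _ : ℕ => ℂ) 2 from x)).summable two_toReal_pos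
  simp only [ENNReal.toReal_ofNat, Real.rpow_ofNat] at this
  exact this

lemma l2_norm_sq (x : Ltwo) : ‖x‖ ^ 2 = ∑' n, ‖x.fn n‖ ^ 2 := by
  have := lp.norm_rpow_eq_tsum two_toReal_pos (show lp (fun _ : ℕ => ℂ) 2 from x)
  simp only [ENNReal.toReal_ofNat, Real.rpow_ofNat] at this
  exact this

/-- A square summable sequence as an element of `ℓ²`. -/
def l2mk (f : ℕ → ℂ) (hf : Summable fun n => ‖f n‖ ^ 2) : Ltwo :=
  show lp (fun _ : ℕ => ℂ) 2 from ⟨f, memℓp_gen (by simpa using hf)⟩

lemma l2mk_fn (f : ℕ → ℂ) (hf : Summable fun n => ‖f n‖ ^ 2) (n : ℕ) : (l2mk f hf).fn n = f n := rfl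

lemma summable_prep (a : ℂ) {x : ℕ → ℂ} (hx : Summable fun n => ‖x n‖ ^ 2) :
    Summable fun n => ‖prep a x n‖ ^ 2 :=
  (summable_nat_add_iff 1).1 hx

/-- `ℓ²` is isomorphic to `ℂ × ℓ²`. -/
noncomputable def betaLin : Ltwo ≃ₗ[ℂ] ℂ × Ltwo where
  toFun x := (x.fn 0, l2mk (fun n => x.fn (n + 1)) ((summable_nat_add_iff 1).2 (l2_summable x)))
  map_add' _ _ := rfl
  map_smul' _ _ := rfl
  invFun p := l2mk (prep p.1 p.2.fn) (summable_prep _ (l2_summable p.2))
  left_inv x := by
    refine Ltwo.ext fun n => ?_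
    cases n <;> rfl
  right_inv p := Prod.ext rfl (Ltwo.ext fun _ => rfl)

lemma betaLin_norm (x : Ltwo) : ‖x‖ ^ 2 = ‖(betaLin x).1‖ ^ 2 + ‖(betaLin x).2‖ ^ 2 := by
  rw [l2_norm_sq, l2_norm_sq, (l2_summable x).tsum_eq_zero_add]
  rfl

/-- `ℓ²` is isomorphic to `ℂ × ℓ²`. -/
noncomputable def beta : Ltwo ≃L[ℂ] ℂ × Ltwo :=
  betaLin.toContinuousLinearEquivOfBounds 1 2
    (fun x => by
      rw [one_mul]
      have h := betaLin_norm x
      refine max_le ?_ ?_
      · refine le_of_sq_le_sq ?_ (norm_nonneg x)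
        nlinarith [sq_nonneg ‖(betaLin x).2‖]
      · refine le_of_sq_le_sq ?_ (norm_nonneg x)
        nlinarith [sq_nonneg ‖(betaLin x).1‖])
    (fun p => by
      have h := betaLin_norm (betaLin.symm p)
      rw [LinearEquiv.apply_symm_apply] at h
      have h1 := norm_fst_le p
      have h2 := norm_snd_le p
      have h3 := norm_nonneg p
      have h4 := norm_nonneg p.1
      have h5 := norm_nonneg p.2
      refine le_of_sq_le_sq ?_ (by positivity)
      rw [h]
      nlinarith)

end Ltwo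

section shift

/-- The operator on `c₀ × ℓ²` that shifts forward on `c₀` and backward on `ℓ²`, sending
`(x, y)` to `((y₀, x₀, x₁, …), (y₁, y₂, …))`. -/
noncomputable def shiftE : (Czero × Ltwo) →L[ℂ] (Czero × Ltwo) :=
  ((alpha.symm : ℂ × Czero →L[ℂ] Czero).comp
    (((ContinuousLinearMap.fst ℂ ℂ Ltwo).comp
        ((beta : Ltwo →L[ℂ] ℂ × Ltwo).comp (ContinuousLinearMap.snd ℂ Czero Ltwo))).prod
      (ContinuousLinearMap.fst ℂ Czero Ltwo))).prod
  ((ContinuousLinearMap.snd ℂ ℂ Ltwo).comp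
    ((beta : Ltwo →L[ℂ] ℂ × Ltwo).comp (ContinuousLinearMap.snd ℂ Czero Ltwo)))

lemma shiftE_apply (p : Czero × Ltwo) :
    shiftE p = (alpha.symm ((beta p.2).1, p.1), (beta p.2).2) := rfl

/-- The inverse of the shift. -/
noncomputable def shiftInv : (Czero × Ltwo) →L[ℂ] (Czero × Ltwo) :=
  ((ContinuousLinearMap.snd ℂ ℂ Czero).comp
    ((alpha : Czero →L[ℂ] ℂ × Czero).comp (ContinuousLinearMap.fst ℂ Czero Ltwo))).prod
  ((beta.symm : ℂ × Ltwo →L[ℂ] Ltwo).comp
    (((ContinuousLinearMap.fst ℂ ℂ Czero).comp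
        ((alpha : Czero →L[ℂ] ℂ × Czero).comp (ContinuousLinearMap.fst ℂ Czero Ltwo))).prod
      (ContinuousLinearMap.snd ℂ Czero Ltwo)))

lemma shiftInv_apply (p : Czero × Ltwo) :
    shiftInv p = ((alpha p.1).2, beta.symm ((alpha p.1).1, p.2)) := rfl

/-- The shift as an invertible element of the algebra of bounded operators. -/
noncomputable def shiftU : ((Czero × Ltwo) →L[ℂ] (Czero × Ltwo))ˣ where
  val := shiftE
  inv := shiftInv
  val_inv := by
    refine ContinuousLinearMap.ext fun p => ?_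
    show shiftE (shiftInv p) = p
    rw [shiftInv_apply, shiftE_apply]
    simp
  inv_val := by
    refine ContinuousLinearMap.ext fun p => ?_
    show shiftInv (shiftE p) = p
    rw [shiftInv_apply, shiftE_apply]
    simp

lemma aa_shift (x : Czero) : aa (shiftU : (Czero × Ltwo) →L[ℂ] (Czero × Ltwo)) x =
    alpha.symm (0, x) := by
  show (shiftE (x, 0)).1 = _
  rw [shiftE_apply]
  simp

/-- The shift is not joined to the identity by a path of invertible operators. -/
theorem no_path (A : ℂ → ((Czero × Ltwo) →L[ℂ] (Czero × Ltwo))) (hA : Continuous A)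
    (hu : ∀ s, IsUnit (A s)) (h0 : A 0 = 1) (h1 : A 1 = shiftU) : False := by
  refine no_path_of (C := Czero) (H := Ltwo) (fun c => isCompactOperator_of_hilbert c)
    (T := shiftU) ?_ ?_ A hA hu h0 h1
  · intro x hx
    rw [aa_shift] at hx
    have := congrArg alpha hx
    rw [ContinuousLinearEquiv.apply_symm_apply, map_zero] at this
    exact congrArg Prod.snd this
  · intro hs
    obtain ⟨x, hx⟩ := hs (alpha.symm (1, 0))
    rw [aa_shift] at hx
    have h5 := congrArg (fun y : Czero => y.fn 0) hx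
    simp only [alpha_symm_zero] at h5
    exact zero_ne_one h5

end shift

end Pool.Agent.H45
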