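import Pool.Agent.H45.QP

/-!
# The Fourier components of a quasi-periodic function
-/

set_option autoImplicit false

open Topology Filter Set MeasureTheory

namespace Pool.Agent.H45

section

variable {E : Type*} [NormedAddCommGroup E] [NormedSpace ℂ E] [CompleteSpace E]
  {u : (E →L[ℂ] E)ˣ}

/-- The periodic function `t ↦ K(z - t) f(t)`. -/
noncomputable def Phi (f : QP u) (z t : ℂ) : E := Kfun u (z - t) (f.1 t)

lemma differentiable_Phi (f : QP u) (z : ℂ) : Differentiable ℂ (Phi f z) := by
  unfold Phi
  exact ((differentiable_Kfun u).comp ((differentiable_const z).sub differentiable_id)).clm_apply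
    f.2.1

lemma Phi_add_one (f : QP u) (z t : ℂ) : Phi f z (t + 1) = Phi f z t := by
  unfold Phi
  rw [QP.add_one]
  have := Kfun_add_one_right u (z - (t + 1))
  rw [show z - (t + 1) + 1 = z - t by ring] at this
  rw [this]; rfl

omit [CompleteSpace E] in
lemma Phi_self (f : QP u) (z : ℂ) : Phi f z z = f.1 z := by
  unfold Phi
  rw [sub_self, Kfun_zero]; rfl

lemma Phi_add_one_left (f : QP u) (z t : ℂ) : Phi f (z + 1) t = (u : E →L[ℂ] E) (Phi f z t) := by
  unfold Phi
  rw [show z + 1 - t = z - t + 1 by ring, Kfun_add_one_left]; rfl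

lemma continuous_Phi_left (f : QP u) (z : ℂ) : Continuous (Phi f z) := (differentiable_Phi f z).continuous

/-- The `n`-th component, as a function. -/
noncomputable def xiFun (n : ℤ) (f : QP u) (z : ℂ) : E := fc (Phi f z) n

lemma differentiable_xiFun (n : ℤ) (f : QP u) : Differentiable ℂ (xiFun n f) := by
  intro z₀
  have hK : Differentiable ℂ (Kfun u) := differentiable_Kfun u
  have hK' : Continuous (deriv (Kfun u)) := (hK.contDiff (n := 1)).continuous_deriv le_rfl
  have hc : Continuous fun p : ℂ × ℝ =>
      ee (-n) (p.2 : ℂ) • (deriv (Kfun u) (p.1 - p.2)) (f.1 p.2) := by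
    have h1 : Continuous fun p : ℂ × ℝ => (p.2 : ℂ) := Complex.continuous_ofReal.comp continuous_snd
    have h2 : Continuous fun p : ℂ × ℝ => p.1 - (p.2 : ℂ) := continuous_fst.sub h1
    exact ((continuous_ee (-n)).comp h1).smul ((hK'.comp h2).clm_apply (f.1.continuous.comp h1))
  have hF : ∀ z : ℂ, Continuous fun t : ℝ => ee (-n) (t : ℂ) • Phi f z t := fun z =>
    ((continuous_ee (-n)).comp Complex.continuous_ofReal).smul
      ((continuous_Phi_left f z).comp Complex.continuous_ofReal)
  obtain ⟨C, hC⟩ := ((isCompact_closedBall z₀ 1).prod (isCompact_Icc (a := (0 : ℝ)) (b := 1))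
    ).exists_bound_of_continuousOn hc.continuousOn
  have h := intervalIntegral.hasDerivAt_integral_of_dominated_loc_of_deriv_le
    (μ := volume) (a := 0) (b := 1) (bound := fun _ => C)
    (F := fun z (t : ℝ) => ee (-n) (t : ℂ) • Phi f z t)
    (F' := fun z (t : ℝ) => ee (-n) (t : ℂ) • (deriv (Kfun u) (z - t)) (f.1 t)) (x₀ := z₀)
    (s := Metric.closedBall z₀ 1) (Metric.closedBall_mem_nhds z₀ one_pos)
    (Eventually.of_forall fun z => (hF z).aestronglyMeasurable)
    ((hF z₀).intervalIntegrable _ _)
    (hc.comp (Continuous.prodMk continuous_const continuous_id)).aestronglyMeasurable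
    (Eventually.of_forall fun t ht z hz => hC (z, t) ⟨hz, by
      rw [uIoc_of_le zero_le_one] at ht; exact ⟨ht.1.le, ht.2⟩⟩)
    intervalIntegrable_const
    (Eventually.of_forall fun t _ z _ => by
      refine HasDerivAt.const_smul _ ?_
      have h1 : HasDerivAt (fun z : ℂ => Kfun u (z - t)) (deriv (Kfun u) (z - t)) z := by
        have := (hK (z - t)).hasDerivAt.comp_sub_const z (t : ℂ)
        exact this
      have h2 := h1.clm_apply (hasDerivAt_const z (f.1 (t : ℂ)))
      simp only [map_zero, add_zero] at h2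
      exact h2)
  exact h.2.differentiableAt

lemma xiFun_add_one (n : ℤ) (f : QP u) (z : ℂ) :
    xiFun n f (z + 1) = (u : E →L[ℂ] E) (xiFun n f z) := by
  unfold xiFun fc
  rw [← ContinuousLinearMap.intervalIntegral_comp_comm]
  · refine intervalIntegral.integral_congr fun t _ => ?_
    simp only [Phi_add_one_left, map_smul]
  · exact (((continuous_ee (-n)).comp Complex.continuous_ofReal).smul
      ((continuous_Phi_left f z).comp Complex.continuous_ofReal)).intervalIntegrable _ _

/-- The `n`-th component. -/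
noncomputable def xi (n : ℤ) : QP u →ₗ[ℂ] QP u where
  toFun f := ⟨⟨xiFun n f, (differentiable_xiFun n f).continuous⟩, differentiable_xiFun n f,
    xiFun_add_one n f⟩
  map_add' f g := QP.ext fun z => by
    have hf := (((continuous_ee (-n)).comp Complex.continuous_ofReal).smul
      ((continuous_Phi_left f z).comp Complex.continuous_ofReal)).intervalIntegrable (μ := volume) 0 1
    have hg := (((continuous_ee (-n)).comp Complex.continuous_ofReal).smul
      ((continuous_Phi_left g z).comp Complex.continuous_ofReal)).intervalIntegrable (μ := volume) 0 1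
    have := intervalIntegral.integral_add hf hg
    show xiFun n (f + g) z = xiFun n f z + xiFun n g z
    unfold xiFun fc
    refine Eq.trans ?_ this
    refine intervalIntegral.integral_congr fun t _ => ?_
    simp only [Phi, Submodule.coe_add, ContinuousMap.add_apply, map_add, smul_add]
    rfl
  map_smul' c f := QP.ext fun z => by
    show xiFun n (c • f) z = c • xiFun n f z
    unfold xiFun fc
    rw [← intervalIntegral.integral_smul]
    refine intervalIntegral.integral_congr fun t _ => ?_
    simp only [Phi, Submodule.coe_smul, ContinuousMap.smul_apply, map_smul]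
    rw [smul_comm]

lemma xi_apply (n : ℤ) (f : QP u) (z : ℂ) : (xi n f).1 z = fc (Phi f z) n := rfl

/-- Fourier expansion. -/
lemma hasSum_xi (f : QP u) (z t : ℂ) :
    HasSum (fun n : ℤ => ee n t • (xi n f).1 z) (Phi f z t) := by
  simp only [xi_apply]
  exact hasSum_fc (differentiable_Phi f z) (Phi_add_one f z) t

/-- Decay of the components. -/
lemma xi_decay (r η : ℝ) (hη : 0 ≤ η) : ∃ C : ℝ, 0 ≤ C ∧ ∀ (f : QP u) (B : ℝ),
    (∀ z, ‖z‖ ≤ η + 1 → ‖f.1 z‖ ≤ B) → ∀ (n : ℤ) (z : ℂ), ‖z‖ ≤ r →
      ‖(xi n f).1 z‖ ≤ C * Real.exp (-(2 * Real.pi * η * |(n : ℝ)|)) * B := by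
  obtain ⟨C, hC⟩ := (isCompact_closedBall (0 : ℂ) (r + (η + 1))).exists_bound_of_continuousOn
    (continuous_Kfun u).continuousOn
  refine ⟨max C 0, le_max_right _ _, fun f B hB n z hz => ?_⟩
  have hB0 : 0 ≤ B := (norm_nonneg _).trans (hB 0 (by simp; linarith))
  have key : ∀ η' : ℝ, |η'| ≤ η → ∀ x ∈ Icc (0 : ℝ) 1, ‖Phi f z (x + η' * Complex.I)‖ ≤ max C 0 * B := by
    intro η' hη' x hx
    have h1 : ‖(x : ℂ) + η' * Complex.I‖ ≤ η + 1 := by
      refine (norm_add_le _ _).trans ?_
      simp only [Complex.norm_real, norm_mul, Complex.norm_I, mul_one, Real.norm_eq_abs]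
      rw [abs_of_nonneg hx.1]
      linarith [hx.2]
    unfold Phi
    refine (ContinuousLinearMap.le_opNorm _ _).trans ?_
    refine mul_le_mul ((hC _ ?_).trans (le_max_left _ _)) (hB _ h1) (norm_nonneg _) (le_max_right _ _)
    rw [mem_closedBall_zero_iff]
    refine (norm_sub_le _ _).trans (by linarith)
  have := norm_fc_le_abs (differentiable_Phi f z) (Phi_add_one f z) n (η := η) (B := max C 0 * B)
    (key η (by rw [abs_of_nonneg hη])) (key (-η) (by rw [abs_neg, abs_of_nonneg hη]))
  rw [xi_apply]
  refine this.trans (le_of_eq (by ring))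

end

end Pool.Agent.H45
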